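import Pool.Agent.Run7.h568.MC.OCTL

/-!
# Piece GA: gauge facts from the closing relations
-/

namespace Run7.h568.MC

open Real Matrix Pattern

/-- the normalised transport along a corner -/
def NN (mu La : ℝ) : Matrix (Fin 2) (Fin 2) ℝ := !![mu, mu * (1 + La); -1, -1]

namespace HypMetric

variable {V : Type*} {P : Pattern V} (m : HypMetric P)

theorem t_pos' (p : V) : 0 < m.t p := by
  unfold t
  rw [Real.tan_eq_sin_div_cos]
  exact div_pos (m.sin_half_pos p) (m.cos_half_pos p)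

theorem EE_pos' (p : V) : 0 < m.EE p :=
  mul_pos (mul_pos (Real.exp_pos _) (m.t_pos' _)) (m.t_pos' _)

theorem t_rho' (p : V) : m.t (P.rho p) = m.t p := by unfold t; rw [m.θ_rho]

theorem t_iota' (p : V) : m.t (P.iota p) = m.t (P.A p) := by
  rw [← P.rho_A, m.t_rho']

theorem y_rho_kap (p : V) : m.y (P.rho (P.kap p)) = m.y (P.rho p) := m.y_rho (P.rho p)

theorem EE_kap' (p : V) : m.EE (P.kap p) = m.EE p := by
  unfold EE
  rw [m.y_rho_kap, P.kap_kap]
  ring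

theorem EE_A (p : V) : m.EE (P.A p) = exp (-(m.y (P.iota p))) * m.t (P.A p) * m.t (P.tau p) := by
  unfold EE
  rw [P.rho_A, P.kap_A]

/-- entries of the middle part of `side` -/
theorem mid_eq (p : V) :
    R (π - m.θ (P.iota p)) * T (m.y (P.iota p)) * R (m.θ (P.tau p)) =
      (cos (m.θ (P.iota p) / 2) * cos (m.θ (P.tau p) / 2) * exp (m.y (P.iota p) / 2)) •
      !![(m.TT (P.A p) - m.EE (P.A p)) / m.t (P.A p),
        (m.EE (P.A p) + m.TT (P.A p) * m.TT (P.tau p)) / (m.t (P.A p) * m.t (P.tau p));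
        -(1 + m.EE (P.A p)), -((m.TT (P.tau p) - m.EE (P.A p)) / m.t (P.tau p))] := by
  have c0 := m.cos_half_pos (P.iota p)
  have c1 := m.cos_half_pos (P.tau p)
  have s0 := m.sin_half_pos (P.iota p)
  have s1 := m.sin_half_pos (P.tau p)
  have e1 := Real.exp_pos (m.y (P.iota p) / 2)
  have ht : m.t (P.A p) = sin (m.θ (P.iota p) / 2) / cos (m.θ (P.iota p) / 2) := by
    rw [← m.t_iota']; unfold t; rw [Real.tan_eq_sin_div_cos]
  have ht' : m.t (P.tau p) = sin (m.θ (P.tau p) / 2) / cos (m.θ (P.tau p) / 2) := by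
    unfold t; rw [Real.tan_eq_sin_div_cos]
  have he : exp (-(m.y (P.iota p) / 2)) = (exp (m.y (P.iota p) / 2))⁻¹ := Real.exp_neg _
  have he2 : exp (-(m.y (P.iota p))) = (exp (m.y (P.iota p) / 2))⁻¹ ^ 2 := by
    rw [← Real.exp_neg, ← Real.exp_nat_mul]
    congr 1
    push_cast
    ring
  rw [RTR_h]
  unfold TT
  rw [m.EE_A, ht, ht', he, he2]
  ext i j
  fin_cases i <;> fin_cases j <;> simp <;> field_simp <;> ring

theorem alpha_signs (p : V) : m.EE (P.A p) < m.TT (P.A p) ∧ m.EE (P.A p) < m.TT (P.tau p) := by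
  obtain ⟨h1, h2, h3, h4⟩ := m.alpha_left p
  unfold side at h1 h4
  rw [m.mid_eq] at h1 h4
  have c0 := m.cos_half_pos (P.iota p)
  have c1 := m.cos_half_pos (P.tau p)
  have e1 := Real.exp_pos (m.y (P.iota p) / 2)
  have e2 := Real.exp_pos (m.x p / 2)
  have e3 := Real.exp_pos (-(m.x p / 2))
  have t0 := m.t_pos' (P.A p)
  have t1 := m.t_pos' (P.tau p)
  have k : 0 < cos (m.θ (P.iota p) / 2) * cos (m.θ (P.tau p) / 2) * exp (m.y (P.iota p) / 2) :=
    mul_pos (mul_pos c0 c1) e1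
  simp only [T, Matrix.mul_apply, Fin.sum_univ_two, Matrix.smul_apply, smul_eq_mul,
    Matrix.of_apply, Matrix.cons_val', Matrix.cons_val_zero, Matrix.cons_val_one,
    Matrix.cons_val_fin_one, zero_mul, add_zero, zero_add] at h1 h4
  constructor
  · have := pos_of_mul_pos_right h1 e2.le
    have := pos_of_mul_pos_right this k.le
    rw [lt_div_iff₀ t0] at this
    linarith
  · have := neg_of_mul_neg_right h4 e3.le
    have := neg_of_mul_neg_right this k.le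
    rw [neg_lt_zero, lt_div_iff₀ t1] at this
    linarith

theorem E_lt' (p : V) : m.EE p < m.TT p := by
  have := (m.alpha_signs (P.iota (P.rho p))).1
  rwa [P.A_iota_rho] at this

theorem SS_pos' (p : V) : 0 < m.SS p :=
  div_pos (by linarith [m.EE_pos' p]) (by linarith [m.E_lt' p])

theorem RR_eq (p : V) : m.RR p = m.t p ^ 2 * m.SS p := by
  unfold RR SS TT; ring

theorem h_pos (p : V) : 0 < m.t p * m.SS p := mul_pos (m.t_pos' p) (m.SS_pos' p)

theorem Lam_eq (p : V) : m.Lam p = m.EE p * (1 + m.TT p) * (1 + m.TT (P.kap p)) /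
    ((m.TT p - m.EE p) * (m.TT (P.kap p) - m.EE p)) := by
  unfold Lam RR SS
  rw [m.EE_kap']
  have h1 : m.TT p - m.EE p ≠ 0 := sub_ne_zero.2 (ne_of_gt (m.E_lt' p))
  have h2 : m.TT (P.kap p) - m.EE p ≠ 0 := by
    have := m.E_lt' (P.kap p)
    rw [m.EE_kap'] at this
    exact sub_ne_zero.2 (ne_of_gt this)
  field_simp
  ring

theorem Lam_kap' (p : V) : m.Lam (P.kap p) = m.Lam p := by
  rw [m.Lam_eq, m.Lam_eq, m.EE_kap', P.kap_kap]
  ring

theorem Lam_pos' (p : V) : 0 < m.Lam p := by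
  rw [m.Lam_eq]
  have h0 := m.EE_pos' p
  have h1 := m.E_lt' p
  have h2 := m.E_lt' (P.kap p)
  rw [m.EE_kap'] at h2
  exact div_pos (mul_pos (mul_pos h0 (by linarith)) (by linarith))
    (mul_pos (by linarith) (by linarith))

theorem beta_signs (p : V) : m.t p < exp (m.x p) * m.t (P.A p) ∧
    m.t (P.A p) < exp (m.x p) * m.t p := by
  obtain ⟨h1, h2, h3, h4⟩ := m.beta_left p
  unfold cross at h1 h4
  rw [RTR_G] at h1 h4
  have c0 := m.cos_half_pos p
  have c1 := m.cos_half_pos (P.iota p)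
  have s0 := m.sin_half_pos p
  have s1 := m.sin_half_pos (P.iota p)
  have e2 := Real.exp_pos (m.x p / 2)
  have hx2 : exp (m.x p) = exp (m.x p / 2) ^ 2 := by
    rw [← Real.exp_nat_mul]; congr 1; push_cast; ring
  have hx3 : exp (-(m.x p / 2)) = (exp (m.x p / 2))⁻¹ := Real.exp_neg _
  have ht : m.t (P.A p) = sin (m.θ (P.iota p) / 2) / cos (m.θ (P.iota p) / 2) := by
    rw [← m.t_iota']; unfold t; rw [Real.tan_eq_sin_div_cos]
  have ht' : m.t p = sin (m.θ p / 2) / cos (m.θ p / 2) := by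
    unfold t; rw [Real.tan_eq_sin_div_cos]
  simp only [Matrix.of_apply, Matrix.cons_val', Matrix.cons_val_zero, Matrix.cons_val_one,
    Matrix.cons_val_fin_one, hx3] at h1 h4
  rw [ht, ht', hx2]
  set c := cos (m.θ p / 2)
  set s := sin (m.θ p / 2)
  set c' := cos (m.θ (P.iota p) / 2)
  set s' := sin (m.θ (P.iota p) / 2)
  set X := exp (m.x p / 2)
  constructor
  · rw [mul_div_assoc', div_lt_div_iff₀ c0 c1]
    have := mul_pos h1 e2
    have e : (c * s' * X - s * c' * X⁻¹) * X = c * s' * X ^ 2 - s * c' := by field_simp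
    rw [e] at this
    linarith
  · rw [mul_div_assoc', div_lt_div_iff₀ c1 c0]
    have := mul_neg_of_neg_of_pos h4 e2
    have e : (c * s' * X⁻¹ - s * c' * X) * X = c * s' - s * c' * X ^ 2 := by field_simp
    rw [e] at this
    linarith

theorem mu_pos' (p : V) : 0 < m.mu p :=
  div_pos (mul_pos (Real.exp_pos _) (m.h_pos p)) (m.h_pos _)

/-- the transport along a corner in normal form -/
theorem side_eq (p : V) : ∃ k : ℝ, 0 < k ∧ side P m.x m.y m.θ p =
    k • (!![1 / (m.t p * m.SS p), 0; 0, 1] * NN (m.mu p) (m.Lam (P.A p)) *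
      !![1, 0; 0, 1 / (m.t (P.tau p) * m.SS (P.tau p))]) := by
  have c0 := m.cos_half_pos (P.iota p)
  have c1 := m.cos_half_pos (P.tau p)
  have e1 := Real.exp_pos (m.y (P.iota p) / 2)
  have e2 := Real.exp_pos (m.x p / 2)
  have t0 := m.t_pos' (P.A p)
  have t1 := m.t_pos' (P.tau p)
  have tp := m.t_pos' p
  have s0 := m.SS_pos' (P.A p)
  have s1 := m.SS_pos' (P.tau p)
  have sp := m.SS_pos' p
  have k : 0 < cos (m.θ (P.iota p) / 2) * cos (m.θ (P.tau p) / 2) * exp (m.y (P.iota p) / 2) :=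
    mul_pos (mul_pos c0 c1) e1
  have E0 := m.EE_pos' (P.A p)
  have E1 := m.E_lt' (P.A p)
  have E2 := m.E_lt' (P.tau p)
  have E3 : m.EE (P.tau p) = m.EE (P.A p) := by rw [← P.kap_A, m.EE_kap']
  rw [E3] at E2
  have hx2 : exp (m.x p) = exp (m.x p / 2) ^ 2 := by
    rw [← Real.exp_nat_mul]; congr 1; push_cast; ring
  have hx3 : exp (-(m.x p / 2)) = (exp (m.x p / 2))⁻¹ := Real.exp_neg _
  refine ⟨(cos (m.θ (P.iota p) / 2) * cos (m.θ (P.tau p) / 2) * exp (m.y (P.iota p) / 2)) *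
    (1 + m.EE (P.A p)) / exp (m.x p / 2), div_pos (mul_pos k (by linarith)) e2, ?_⟩
  unfold side
  rw [m.mid_eq]
  have hS0 : m.SS (P.A p) = (1 + m.EE (P.A p)) / (m.TT (P.A p) - m.EE (P.A p)) := rfl
  have hS1 : m.SS (P.tau p) = (1 + m.EE (P.A p)) / (m.TT (P.tau p) - m.EE (P.A p)) := by
    unfold SS; rw [E3]
  have hL : m.Lam (P.A p) = m.EE (P.A p) * (1 + m.TT (P.A p)) * (1 + m.TT (P.tau p)) /
    ((m.TT (P.A p) - m.EE (P.A p)) * (m.TT (P.tau p) - m.EE (P.A p))) := by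
    rw [m.Lam_eq, P.kap_A]
  have hT0 : m.TT (P.A p) = m.t (P.A p) ^ 2 := rfl
  have hT1 : m.TT (P.tau p) = m.t (P.tau p) ^ 2 := rfl
  unfold mu
  rw [hL, hS0, hS1, hx2]
  rw [hT0, hT1] at *
  have d0 : m.t (P.A p) ^ 2 - m.EE (P.A p) ≠ 0 := sub_ne_zero.2 (ne_of_gt E1)
  have d1 : m.t (P.tau p) ^ 2 - m.EE (P.A p) ≠ 0 := sub_ne_zero.2 (ne_of_gt E2)
  have d2 : 1 + m.EE (P.A p) ≠ 0 := by linarith
  have tp' := tp.ne'
  have sp' := sp.ne'
  have t0' := t0.ne'
  have t1' := t1.ne'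
  have e2' := e2.ne'
  ext i j
  fin_cases i <;> fin_cases j <;>
    simp [T, NN, Matrix.mul_apply, Fin.sum_univ_two, hx3] <;> field_simp <;> ring

/-- product of two corners in normal form -/
theorem normal_mul {k0 k1 a b c : ℝ} (X Y : Matrix (Fin 2) (Fin 2) ℝ) :
    (k0 • (!![a, 0; 0, 1] * X * !![1, 0; 0, b])) * (k1 • (!![b, 0; 0, 1] * Y * !![1, 0; 0, c])) =
      (k0 * k1 * b) • (!![a, 0; 0, 1] * (X * Y) * !![1, 0; 0, c]) := by
  have e : (!![1, 0; 0, b] : Matrix (Fin 2) (Fin 2) ℝ) * !![b, 0; 0, 1] = b • 1 := by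
    ext i j
    fin_cases i <;> fin_cases j <;> simp
  calc _ = (k0 * k1) • (!![a, 0; 0, 1] * X * (!![1, 0; 0, b] * !![b, 0; 0, 1]) * Y *
        !![1, 0; 0, c]) := by
        rw [smul_mul_smul_comm]
        simp only [Matrix.mul_assoc]
    _ = _ := by
        rw [e, mul_smul_comm, Matrix.mul_one, smul_mul_assoc, smul_mul_assoc, smul_smul]
        simp only [Matrix.mul_assoc]

theorem normal_entries (k a c : ℝ) (X : Matrix (Fin 2) (Fin 2) ℝ) :
    (k • (!![a, 0; 0, 1] * X * !![1, 0; 0, c])) 0 0 = (k * a) * X 0 0 ∧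
    (k • (!![a, 0; 0, 1] * X * !![1, 0; 0, c])) 0 1 = (k * a * c) * X 0 1 ∧
    (k • (!![a, 0; 0, 1] * X * !![1, 0; 0, c])) 1 0 = k * X 1 0 ∧
    (k • (!![a, 0; 0, 1] * X * !![1, 0; 0, c])) 1 1 = (k * c) * X 1 1 := by
  simp only [Matrix.smul_apply, Matrix.mul_apply, Fin.sum_univ_two, smul_eq_mul,
    Matrix.of_apply, Matrix.cons_val', Matrix.cons_val_zero, Matrix.cons_val_one,
    Matrix.cons_val_fin_one]
  refine ⟨?_, ?_, ?_, ?_⟩ <;> ring

/-- a closed product in normal form -/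
theorem normal_close {k h : ℝ} (hk : 0 < k) (hh : 0 < h) {X : Matrix (Fin 2) (Fin 2) ℝ}
    (e : k • (!![1 / h, 0; 0, 1] * X * !![1, 0; 0, 1 / h]) = -1) :
    ∃ s : ℝ, 0 < s ∧ X 0 0 = -s ∧ X 0 1 = 0 ∧ X 1 0 = 0 ∧ X 1 1 = -s := by
  have hk' := hk.ne'
  have hh' := hh.ne'
  obtain ⟨f0, f1, f2, f3⟩ := normal_entries k (1 / h) (1 / h) X
  rw [e] at f0 f1 f2 f3
  simp only [Matrix.neg_apply, Matrix.one_apply_eq] at f0 f3
  have z1 : (-1 : Matrix (Fin 2) (Fin 2) ℝ) 0 1 = 0 := by simp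
  have z2 : (-1 : Matrix (Fin 2) (Fin 2) ℝ) 1 0 = 0 := by simp
  rw [z1] at f1
  rw [z2] at f2
  refine ⟨h / k, div_pos hh hk, ?_, ?_, ?_, ?_⟩
  · field_simp at f0 ⊢
    linarith
  · rcases mul_eq_zero.1 f1.symm with h1 | h1
    · exact absurd h1 (by positivity)
    · exact h1
  · rcases mul_eq_zero.1 f2.symm with h1 | h1
    · exact absurd h1 hk'
    · exact h1
  · field_simp at f3 ⊢
    linarith

/-- the quadrilateral closing relation in normal form -/
theorem quad_close {p : V} (hp : P.Quad p) : ∃ s : ℝ, 0 < s ∧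
    ∀ X, X = NN (m.mu p) (m.Lam (P.A p)) * NN (m.mu (P.tau p)) (m.Lam (P.A (P.tau p))) →
    X 0 0 = -s ∧ X 0 1 = 0 ∧ X 1 0 = 0 ∧ X 1 1 = -s := by
  obtain ⟨k0, hk0, e0⟩ := m.side_eq p
  obtain ⟨k1, hk1, e1⟩ := m.side_eq (P.tau p)
  have h := m.closes_quad p hp
  have e2 : P.tau (P.tau p) = p := hp
  rw [e0, e1, normal_mul, e2] at h
  obtain ⟨s, hs, hX⟩ := normal_close (mul_pos (mul_pos hk0 hk1)
    (one_div_pos.2 (m.h_pos (P.tau p)))) (m.h_pos p) h
  exact ⟨s, hs, fun X hX' => hX' ▸ hX⟩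

/-- the hexagonal closing relation in normal form -/
theorem hex_close {p : V} (hp : P.Hex p) : ∃ s : ℝ, 0 < s ∧
    ∀ X, X = NN (m.mu p) (m.Lam (P.A p)) * NN (m.mu (P.tau p)) (m.Lam (P.A (P.tau p))) *
      NN (m.mu (P.tau (P.tau p))) (m.Lam (P.A (P.tau (P.tau p)))) →
    X 0 0 = -s ∧ X 0 1 = 0 ∧ X 1 0 = 0 ∧ X 1 1 = -s := by
  obtain ⟨k0, hk0, e0⟩ := m.side_eq p
  obtain ⟨k1, hk1, e1⟩ := m.side_eq (P.tau p)
  obtain ⟨k2, hk2, e2⟩ := m.side_eq (P.tau (P.tau p))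
  have h := m.closes_hex p hp
  have e3 : P.tau (P.tau (P.tau p)) = p := hp
  rw [e0, e1, e2, normal_mul, normal_mul, e3] at h
  obtain ⟨s, hs, hX⟩ := normal_close (mul_pos (mul_pos (mul_pos (mul_pos hk0 hk1)
    (one_div_pos.2 (m.h_pos (P.tau p)))) hk2) (one_div_pos.2 (m.h_pos _))) (m.h_pos p) h
  exact ⟨s, hs, fun X hX' => hX' ▸ hX⟩

/-- the octagonal closing relation in normal form -/
theorem oct_close {p : V} (hp : P.Oct p) : ∃ s : ℝ, 0 < s ∧
    ∀ X, X = NN (m.mu p) (m.Lam (P.A p)) * NN (m.mu (P.tau p)) (m.Lam (P.A (P.tau p))) *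
      NN (m.mu (P.tau (P.tau p))) (m.Lam (P.A (P.tau (P.tau p)))) *
      NN (m.mu (P.tau (P.tau (P.tau p)))) (m.Lam (P.A (P.tau (P.tau (P.tau p))))) →
    X 0 0 = -s ∧ X 0 1 = 0 ∧ X 1 0 = 0 ∧ X 1 1 = -s := by
  obtain ⟨k0, hk0, e0⟩ := m.side_eq p
  obtain ⟨k1, hk1, e1⟩ := m.side_eq (P.tau p)
  obtain ⟨k2, hk2, e2⟩ := m.side_eq (P.tau (P.tau p))
  obtain ⟨k3, hk3, e3⟩ := m.side_eq (P.tau (P.tau (P.tau p)))
  have h := m.closes_oct p hp
  have e4 : P.tau (P.tau (P.tau (P.tau p))) = p := hp.1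
  rw [e0, e1, e2, e3, normal_mul, normal_mul, normal_mul, e4] at h
  obtain ⟨s, hs, hX⟩ := normal_close (mul_pos (mul_pos (mul_pos (mul_pos (mul_pos (mul_pos hk0 hk1)
    (one_div_pos.2 (m.h_pos (P.tau p)))) hk2) (one_div_pos.2 (m.h_pos _))) hk3)
    (one_div_pos.2 (m.h_pos _))) (m.h_pos p) h
  exact ⟨s, hs, fun X hX' => hX' ▸ hX⟩

/-- two corners of an octagon in normal form -/
theorem oct_left [Fintype V] {p : V} (hp : P.Oct p) :
    IsLeft (NN (m.mu p) (m.Lam (P.A p)) * NN (m.mu (P.tau p)) (m.Lam (P.A (P.tau p)))) := by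
  obtain ⟨k0, hk0, e0⟩ := m.side_eq p
  obtain ⟨k1, hk1, e1⟩ := m.side_eq (P.tau p)
  have h := OCTL P m p hp
  rw [e0, e1, normal_mul] at h
  have hk : 0 < k0 * k1 * (1 / (m.t (P.tau p) * m.SS (P.tau p))) :=
    mul_pos (mul_pos hk0 hk1) (one_div_pos.2 (m.h_pos (P.tau p)))
  have ha : 0 < 1 / (m.t p * m.SS p) := one_div_pos.2 (m.h_pos p)
  have hc : 0 < 1 / (m.t (P.tau (P.tau p)) * m.SS (P.tau (P.tau p))) := one_div_pos.2 (m.h_pos _)
  set k := k0 * k1 * (1 / (m.t (P.tau p) * m.SS (P.tau p)))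
  set a := 1 / (m.t p * m.SS p)
  set c := 1 / (m.t (P.tau (P.tau p)) * m.SS (P.tau (P.tau p)))
  set X := NN (m.mu p) (m.Lam (P.A p)) * NN (m.mu (P.tau p)) (m.Lam (P.A (P.tau p)))
  obtain ⟨f00, f01, f10, f11⟩ := normal_entries k a c X
  obtain ⟨h1, h2, h3, h4⟩ := h
  rw [f00] at h1
  rw [f01] at h2
  rw [f10] at h3
  rw [f11] at h4
  exact ⟨pos_of_mul_pos_right h1 (mul_pos hk ha).le,
    pos_of_mul_pos_right h2 (mul_pos (mul_pos hk ha) hc).le,
    neg_of_mul_neg_right h3 hk.le, neg_of_mul_neg_right h4 (mul_pos hk hc).le⟩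

theorem quad_facts {p : V} (hp : P.Quad p) : m.mu (P.tau p) = 1 ∧
    m.Lam (P.A (P.tau p)) = m.Lam (P.A p) := by
  obtain ⟨s, hs, h⟩ := m.quad_close hp
  obtain ⟨h1, h2, h3, h4⟩ := h _ rfl
  simp [NN, Matrix.mul_apply, Fin.sum_univ_two] at h1 h2 h3 h4
  have hm := m.mu_pos' p
  have e : m.mu (P.tau p) = 1 := by linarith
  refine ⟨e, ?_⟩
  rw [e] at h2
  have : m.mu p * (m.Lam (P.A (P.tau p)) - m.Lam (P.A p)) = 0 := by linarith
  rcases mul_eq_zero.1 this with h | h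
  · exact absurd h hm.ne'
  · linarith

theorem hex_facts {p : V} (hp : P.Hex p) : 1 < m.mu (P.tau p) ∧
    m.Lam (P.A (P.tau p)) = (1 - 1 / m.mu (P.tau p)) * (m.mu (P.tau (P.tau p)) - 1) := by
  obtain ⟨s, hs, h⟩ := m.hex_close hp
  obtain ⟨h1, h2, h3, h4⟩ := h _ rfl
  simp [NN, Matrix.mul_apply, Fin.sum_univ_two] at h1 h2 h3 h4
  have hm := m.mu_pos' (P.tau p)
  have hm2 := m.mu_pos' (P.tau (P.tau p))
  have hl := m.Lam_pos' (P.A (P.tau (P.tau p)))
  constructor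
  · have : (m.mu (P.tau p) - 1) * (m.mu (P.tau (P.tau p)) * m.Lam (P.A (P.tau (P.tau p)))) = s := by
      linear_combination h3 - h4
    have h5 : 0 < (m.mu (P.tau p) - 1) *
      (m.mu (P.tau (P.tau p)) * m.Lam (P.A (P.tau (P.tau p)))) := by rw [this]; exact hs
    have := pos_of_mul_pos_left h5 (mul_pos hm2 hl).le
    linarith
  · have hm' := hm.ne'
    field_simp
    linear_combination h3

end HypMetric

theorem GA {V : Type*} [Fintype V] (P : Pattern V) : S_GA P := by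
  intro m
  refine
    { t_pos := m.t_pos'
      E_pos := m.EE_pos'
      E_lt := m.E_lt'
      E_kap := m.EE_kap'
      t_rho := m.t_rho'
      mu_quad := ?_
      mu_gt := ?_
      Lam_quad := ?_
      Lam_hex := ?_
      The_A := ?_
      nest_R := ?_
      nest_S := ?_ }
  · intro p hp
    have h := (m.quad_facts (P.quad_tau.2 hp)).1
    have e : P.tau (P.tau p) = p := hp
    rwa [e] at h
  · intro p hp
    rcases P.hex_or_oct hp with h | h
    · have e : P.tau (P.tau (P.tau p)) = p := h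
      have := (m.hex_facts (P.hex_tau.2 (P.hex_tau.2 h))).1
      rwa [e] at this
    · have e : P.tau (P.tau (P.tau (P.tau p))) = p := h.1
      have := m.oct_left (P.oct_tau.2 (P.oct_tau.2 (P.oct_tau.2 h)))
      rw [e] at this
      have h3 := this.2.2.1
      simp [NN, Matrix.mul_apply, Fin.sum_univ_two] at h3
      linarith
  · intro p hp
    have h := (m.quad_facts hp).2
    rw [P.quad_A_kap hp, m.Lam_kap'] at h
    exact h.symm
  · intro p hp
    have h := (m.hex_facts (P.hex_tau.2 (P.hex_tau.2 hp))).2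
    have e : P.tau (P.tau (P.tau p)) = p := hp
    rwa [e] at h
  · intro p
    have h1 := (m.t_pos' p).ne'
    have h2 := (m.t_pos' (P.A p)).ne'
    have h3 := (m.SS_pos' p).ne'
    have h4 := (m.SS_pos' (P.A p)).ne'
    have h5 := (m.SS_pos' (P.rho p)).ne'
    have h6 := (m.SS_pos' (P.iota p)).ne'
    unfold HypMetric.The HypMetric.mu
    rw [m.RR_eq, m.RR_eq, P.rho_A, P.A_iota, m.x_iota, m.t_rho', m.t_iota']
    field_simp
  · intro p
    have h1 := (m.t_pos' p)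
    have h2 := (m.t_pos' (P.A p))
    have h3 := (m.SS_pos' p)
    have h4 := (m.SS_pos' (P.A p))
    have hb := m.beta_signs p
    rw [m.RR_eq, m.RR_eq]
    unfold HypMetric.mu
    have e : exp (m.x p) * (m.t p * m.SS p) / (m.t (P.A p) * m.SS (P.A p)) *
        (m.t (P.A p) ^ 2 * m.SS (P.A p)) =
        m.t p * m.SS p * (exp (m.x p) * m.t (P.A p)) := by
      field_simp
    rw [e]
    have := mul_lt_mul_of_pos_left hb.1 (mul_pos h1 h3)
    linarith
  · intro p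
    have h1 := (m.t_pos' p)
    have h2 := (m.t_pos' (P.A p))
    have h3 := (m.SS_pos' p)
    have h4 := (m.SS_pos' (P.A p))
    have hb := m.beta_signs p
    unfold HypMetric.mu
    have e : exp (m.x p) * (m.t p * m.SS p) / (m.t (P.A p) * m.SS (P.A p)) * m.SS (P.A p) =
        m.SS p * (exp (m.x p) * m.t p) / m.t (P.A p) := by
      field_simp
    rw [e, lt_div_iff₀ h2]
    exact mul_lt_mul_of_pos_left hb.2 h3

end Run7.h568.MC
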