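import Pool.Agent.Run7.h568.MC.Gauge

/-!
# Interface: the statements of the pieces

Every piece is a `Prop`; prove it as `theorem <piece> ... : S_<PIECE> ...` in your own file
`Pool/Agent/Run7/h568/MC/<Piece>.lean`, importing this file (and finished pieces if you like).
-/

namespace Run7.h568.MC

open Real Matrix Pattern

variable {V : Type*} [Fintype V]

/-- Facts about the gauge quantities of a metric. -/
structure GF {P : Pattern V} (m : HypMetric P) : Prop where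
  t_pos : ∀ p, 0 < m.t p
  E_pos : ∀ p, 0 < m.EE p
  E_lt : ∀ p, m.EE p < m.TT p
  E_kap : ∀ p, m.EE (P.kap p) = m.EE p
  t_rho : ∀ p, m.t (P.rho p) = m.t p
  mu_quad : ∀ p, P.Quad p → m.mu p = 1
  mu_gt : ∀ p, ¬ P.Quad p → 1 < m.mu p
  Lam_quad : ∀ p, P.Quad p → m.Lam (P.A p) = m.Lam p
  Lam_hex : ∀ p, P.Hex p → m.Lam (P.A p) = (1 - 1 / m.mu p) * (m.mu (P.tau p) - 1)
  The_A : ∀ p, m.The (P.A p) * m.mu p = m.The p * m.mu (P.iota p)
  nest_R : ∀ p, m.RR p < m.mu p * m.RR (P.A p)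
  nest_S : ∀ p, m.SS p < m.mu p * m.SS (P.A p)

/-- Facts on the level of `Z` (crossings and ends of diagonals). -/
structure GFZ {P : Pattern V} (m : HypMetric P) : Prop where
  muZ_gt : ∀ z, Zh z → 1 < m.muZ z
  muZ_quad : ∀ z, ¬ Zh z → m.muZ z = 1
  LamZ_pos : ∀ z, 0 < m.LamZ z
  LamZ_kap : ∀ z, m.LamZ (Zk z) = m.LamZ z
  LamZ_quad : ∀ z, ¬ Zh z → m.LamZ (ZA z) = m.LamZ z
  tri : ∀ z, Zh z → m.LamZ (ZA z) = (1 - 1 / m.muZ z) * (m.muZ (Zt z) - 1)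
  mu_split : ∀ (p : V) (h : P.Diag p), m.muZ (Sum.inl p) * m.muZ (Sum.inr ⟨p, h⟩) = m.mu p

/-! ### Pieces about one pattern -/

section pattern

variable (P : Pattern V)

/-- piece OCTL: in an octagon the lines through opposite `α`-sides are also on the left of each
other -/
def S_OCTL : Prop := ∀ (m : HypMetric P) (p : V), P.Oct p →
  IsLeft (side P m.x m.y m.θ p * side P m.x m.y m.θ (P.tau p))

/-- piece GA -/
def S_GA : Prop := ∀ m : HypMetric P, GF m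

/-- piece GB -/
def S_GB : Prop := ∀ m : HypMetric P, GF m → GFZ m

/-- piece LIN1: the linear relations -/
def S_LIN1 : Prop := ∀ m : HypMetric P, GF m → GFZ m →
  m.lin ∈ W0 P ∧
  (∀ z, Zh z → m.U (ZA z) = m.lZ (ZA z) + Real.log (1 + Real.exp (m.U z))) ∧
  (∀ z, ¬ Zh z → m.U (ZA z) = m.U z) ∧
  (∀ z, Zh z → m.muZ z = 1 + Real.exp (-(m.U z)))

/-- piece LIN2: a left earthquake along `α` is a translation in linear coordinates -/
def S_LIN2 : Prop := ∀ (m m' : HypMetric P) (a : V → ℝ), GF m → GF m' → LeftQuake P a m m' →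
  m'.lin = (m.lZ, fun p => m.w p + a p)

/-- piece LIN3: a metric is determined by its linear coordinates -/
def S_LIN3 : Prop := ∀ m m' : HypMetric P, GF m → GF m' → GFZ m → GFZ m' →
  (∀ z, m.muZ z = m'.muZ z) → (∀ z, m.LamZ z = m'.LamZ z) → (∀ p, m.The p = m'.The p) → m = m'

/-- piece W1: the summation identity (twist vector fields are Hamiltonian) -/
def S_W1 : Prop := ∀ (E G : V → ℝ) (s s' N : P.Z → ℝ) (v δ : P.W),
  (∀ p, E (P.rho p) = E p) →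
  (∀ p, E (P.kap p) + 2 * G (P.kap p) = E p + 2 * G p) →
  (∀ z, s z = ext0 G z + s' z) →
  (∀ z, ¬ Zh z → s (ZA z) = s' z) →
  (∀ z, v.1 z = ext0 E z + 2 * ext0 G z + N z + N (Zk z)) →
  (∀ p, v.2 p = E p - 2 * s' (Sum.inl p) - 2 * s' (Sum.inl (P.rho p)) + N (Sum.inl p)
    + N (Sum.inl (P.rho p))) →
  (∀ z, (if Zh z then v.1 (ZA z) else 0) =
    (N (ZA z) - 2 * s' (ZA z)) - (N z - 2 * s' z) + ext0 E (ZA z)) →
  δ ∈ W0 P →
  Om v δ = (∑ p, (E p * δ.2 p - (E p + 2 * G p) * δ.1 (Sum.inl p))) +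
    4 * ∑ z : P.Z, if Zh z then s (ZA z) * δ.1 (ZA z) else 0

/-- piece GRAD: convexity of the lengths of `β` in linear coordinates, with the case of equality -/
def S_GRAD : Prop := ∀ (m m' : HypMetric P) (b : V → ℝ) (v : P.W), b ∈ Inv P → (∀ p, 0 ≤ b p) →
  Twist m b v → 
    Om v (m'.lin - m.lin) ≤ ∑ p, b p * (m'.y p - m.y p) ∧
    (Om v (m'.lin - m.lin) = ∑ p, b p * (m'.y p - m.y p) → (∀ p, ∃ n : ℕ, b (P.A^[n] p) ≠ 0) →
      m' = m)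

/-- piece KF: the form `dq_c (X_c')` -/
def S_KF : Prop := ∀ (m : HypMetric P) (c : V → ℝ) (v : P.W), c ∈ Inv P → Twist m c v →
  (∀ c' ∈ Inv P, (∀ p, 0 ≤ c p) → (∀ p, 0 ≤ c' p) →
    ∑ p, c' p * (v.2 p - v.1 (Sum.inl p)) ≤ 0) ∧
  (c ≠ 0 → ∑ p, c p * (v.2 p - v.1 (Sum.inl p)) < 0)

/-- piece BOX: lengths and `q` -/
def S_BOX : Prop := ∀ (m : HypMetric P) (e : V → ℝ), e ∈ Inv P →
  (∀ p, 1 < m.RR p ∧ 0 < m.SS p ∧ 1 + m.EE p < m.RR p ∧ 1 < m.SS p * m.TT p) ∧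
  ∑ p, e p * (m.y p + (m.w p - m.lZ (Sum.inl p))) =
    2 * ∑ p, e p * (Real.log (m.RR p) - Real.log (m.RR p - 1)) ∧
  ∑ p, e p * (m.y p - (m.w p - m.lZ (Sum.inl p))) =
    2 * ∑ p, e p * (Real.log (m.SS p + 1) - Real.log (m.SS p))

/-- piece ISO: `ker q` is isotropic -/
def S_ISO : Prop := ∀ u ∈ W0 P, ∀ v ∈ W0 P,
  (∀ c ∈ Inv P, ∑ p, c p * (u.2 p - u.1 (Sum.inl p)) = 0) →
  (∀ c ∈ Inv P, ∑ p, c p * (v.2 p - v.1 (Sum.inl p)) = 0) → Om u v = 0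

end pattern

/-! ### Twisting along `β`: the leaf of a metric -/

/-- the action of `M` on `- 1 / w`, up to sign -/
noncomputable def Mob (M : Matrix (Fin 2) (Fin 2) ℝ) (w : ℝ) : ℝ :=
  (M 0 1 * w + M 0 0) / (-(M 1 1) * w - M 1 0)

/-- `a p` is (minus) the left end of the lift of `α` through `p` for the twisted metric, in the
frame of the lift of `β` through `p`, on its left side, based at the crossing for `m` -/
def IsLeafA {P : Pattern V} (m : HypMetric P) (τ a : V → ℝ) : Prop :=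
  (∀ p, 0 < a p) ∧ ∀ p, a p = Mob (m.G p) (Real.exp (-(τ (P.A p))) * a (P.A p))

/-- the displacement -/
noncomputable def disp {P : Pattern V} (τ a : V → ℝ) (p : V) : ℝ :=
  (Real.log (a p) - Real.log (a (P.rho p)) + τ p) / 2

/-- `m'` is the metric obtained from `m` by the left twist along `β` with weights `τ` -/
structure LeafRel {P : Pattern V} (m : HypMetric P) (τ a : V → ℝ) (m' : HypMetric P) : Prop where
  isA : IsLeafA m τ a
  T_eq : ∀ p, m'.TT p = Real.exp (τ p) / (a p * a (P.rho p))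
  E_eq : ∀ p, m'.EE p = Real.exp (τ p - m.y (P.rho p)) / (a p * a (P.kap p))
  y_eq : ∀ p, m'.y p = m.y p - disp (P := P) τ a p + disp (P := P) τ a (P.B p)
  el_eq : ∀ p, m'.DD p / (m'.mu p * m'.DD (P.A p)) =
    (Real.exp (-(τ (P.A p))) * a (P.A p)) /
      (((m.G p) 0 1 * (Real.exp (-(τ (P.A p))) * a (P.A p)) + (m.G p) 0 0) *
        (-((m.G p) 1 1) * (Real.exp (-(τ (P.A p))) * a (P.A p)) - (m.G p) 1 0))

/-- piece MOB: cycles of positive Möbius maps have unique positive periodic points, depending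
smoothly on the parameters -/
def S_MOB : Prop := ∀ (A : Equiv.Perm V) (g00 g01 h10 h11 : V → ℝ),
  (∀ p, 0 < g00 p) → (∀ p, 0 < g01 p) → (∀ p, 0 < h10 p) → (∀ p, 0 < h11 p) →
  (∀ p, 0 < g01 p * h10 p - g00 p * h11 p) →
  ∃ a : (V → ℝ) → V → ℝ,
    (∀ τ p, 0 < a τ p) ∧
    (∀ τ p, a τ p = (g01 p * (Real.exp (-(τ (A p))) * a τ (A p)) + g00 p) /
      (h11 p * (Real.exp (-(τ (A p))) * a τ (A p)) + h10 p)) ∧
    (∀ p, ContDiff ℝ 2 fun τ => a τ p) ∧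
    (∀ (τ b : V → ℝ), (∀ p, 0 < b p) →
      (∀ p, b p = (g01 p * (Real.exp (-(τ (A p))) * b (A p)) + g00 p) /
        (h11 p * (Real.exp (-(τ (A p))) * b (A p)) + h10 p)) → b = a τ)

section leaf

variable (P : Pattern V)

/-- piece ORDER: the lifts of `α` remain in order under twisting -/
def S_ORDER : Prop := ∀ (m : HypMetric P) (τ a : V → ℝ), τ ∈ Inv P → IsLeafA m τ a →
  ∀ p, a p < Real.exp (m.y p) * a (P.B p)

/-- piece LEAF: existence of twisted metrics -/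
def S_LEAF : Prop := ∀ (m : HypMetric P) (τ a : V → ℝ), τ ∈ Inv P → IsLeafA m τ a →
  ∃ m' : HypMetric P, LeafRel m τ a m' ∧ RightQuake P τ m' m

/-- piece LEAFU: uniqueness of twisted metrics -/
def S_LEAFU : Prop := (∀ (m m' : HypMetric P) (τ : V → ℝ), RightQuake P τ m' m →
    τ ∈ Inv P ∧ ∃ a, LeafRel m τ a m') ∧
  (∀ (m m' m'' : HypMetric P) (τ a : V → ℝ), LeafRel m τ a m' → LeafRel m τ a m'' → m' = m'') ∧
  (∀ (m : HypMetric P), LeafRel m 0 (fun p => 1 / m.t p) m)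

/-- piece SMOOTH -/
def S_SMOOTH : Prop := ∀ (m : HypMetric P) (a : (V → ℝ) → V → ℝ) (F : Inv P → HypMetric P),
  (∀ p, ContDiff ℝ 2 fun τ => a τ p) → (∀ τ : Inv P, LeafRel m τ (a τ) (F τ)) →
  ContDiff ℝ 2 (fun τ : Inv P => (F τ).lin) ∧
  (∃ K : ℝ, 0 < K ∧ ∀ (τ : Inv P) (p : V), Real.exp ((τ : V → ℝ) p) ≤ K * (F τ).EE p ∧
    (F τ).TT p ≤ K * Real.exp ((τ : V → ℝ) p)) ∧
  (∀ (τ : Inv P) (c : Inv P), ∑ p, (c : V → ℝ) p * (F τ).y p = ∑ p, (c : V → ℝ) p * m.y p)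

/-- piece DERIV: the first variation along a leaf -/
def S_DERIV : Prop := ∀ (m : HypMetric P) (a : (V → ℝ) → V → ℝ) (F : Inv P → HypMetric P),
  (∀ p, ContDiff ℝ 2 fun τ => a τ p) → (∀ τ : Inv P, LeafRel m τ (a τ) (F τ)) →
  ContDiff ℝ 2 (fun τ : Inv P => (F τ).lin) →
  ∀ τ c : Inv P, Nonempty (Twist (F τ) c (fderiv ℝ (fun τ : Inv P => (F τ).lin) τ c))

end leaf

/-! ### Abstract analysis -/

/-- piece INV: a local diffeomorphism which is injective and proper onto `U` -/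
def S_INV.{u} : Prop := ∀ (E F : Type u) [NormedAddCommGroup E] [NormedSpace ℝ E]
  [FiniteDimensional ℝ E] [NormedAddCommGroup F] [NormedSpace ℝ F] [FiniteDimensional ℝ F]
  (f : E → F) (U : Set F), Module.finrank ℝ E = Module.finrank ℝ F → ContDiff ℝ 2 f →
  (∀ x, Function.Injective (fderiv ℝ f x)) → Function.Injective f →
  IsOpen U → Convex ℝ U → (∀ x, f x ∈ U) →
  (∀ y ∈ U, ∃ N ∈ nhds y, ∃ C : ℝ, ∀ x, f x ∈ N → ‖x‖ ≤ C) →
  ∃ g : F → E, ∀ y ∈ U, f (g y) = y ∧ DifferentiableAt ℝ g y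

/-- piece CAL: the calibration argument -/
def S_CAL.{u} : Prop := ∀ (E W : Type u) [NormedAddCommGroup E] [NormedSpace ℝ E]
  [FiniteDimensional ℝ E] [NormedAddCommGroup W] [NormedSpace ℝ W] [FiniteDimensional ℝ W]
  (Om : W →L[ℝ] W →L[ℝ] ℝ) (W0 : Submodule ℝ W) (Q : W →L[ℝ] (E →L[ℝ] ℝ))
  (z z' : E → W) (b : E) (h h' : ℝ),
  (∀ u, Om u u = 0) →
  (∀ u ∈ W0, ∀ v ∈ W0, Q u = 0 → Q v = 0 → Om u v = 0) →
  ContDiff ℝ 2 z → ContDiff ℝ 2 z' → (∀ τ, z τ ∈ W0) → (∀ τ, z' τ ∈ W0) →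
  (∀ τ c d, Om (fderiv ℝ z τ c) (fderiv ℝ z τ d) = 0) →
  (∀ τ c d, Om (fderiv ℝ z' τ c) (fderiv ℝ z' τ d) = 0) →
  (∀ τ σ, Om (fderiv ℝ z τ b) (z' σ - z τ) ≤ h' - h) →
  (∀ τ σ, Om (fderiv ℝ z τ b) (z' σ - z τ) = h' - h → z' σ = z τ) →
  (∀ τ σ, Om (fderiv ℝ z' τ b) (z σ - z' τ) ≤ h - h') →
  (∃ σ : ℝ → E, (∀ t ∈ Set.Icc (0 : ℝ) 1, DifferentiableAt ℝ σ t) ∧ σ 0 = 0 ∧ σ 1 = b ∧
    ∀ t ∈ Set.Icc (0 : ℝ) 1, Q (z' (σ t)) = Q (z (t • b)) + Q (z' 0 - z 0)) →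
  (∃ σ : ℝ → E, (∀ t ∈ Set.Icc (0 : ℝ) 1, DifferentiableAt ℝ σ t) ∧ σ 0 = 0 ∧ σ 1 = b ∧
    ∀ t ∈ Set.Icc (0 : ℝ) 1, Q (z (σ t)) = Q (z' (t • b)) + Q (z 0 - z' 0)) →
  z' b - z b = z' 0 - z 0 → z' 0 = z 0

end Run7.h568.MC
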