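import Pool.Agent.Run7.h568.MC.Gauge

/-! Basic lemmas about the set `Z`. -/

namespace Run7.h568.MC

open Pattern Function

variable {V : Type*} [Fintype V] {P : Pattern V}

theorem ZA_inl_diag {p : V} (h : P.Diag p) : ZA (Sum.inl p : P.Z) = Sum.inr ⟨p, h⟩ := by
  simp [ZA, h]

theorem ZA_inl_not {p : V} (h : ¬ P.Diag p) : ZA (Sum.inl p : P.Z) = Sum.inl (P.A p) := by
  simp [ZA, h]

@[simp] theorem ZA_inr (p : {p : V // P.Diag p}) : ZA (Sum.inr p : P.Z) = Sum.inl (P.A p) := rfl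

@[simp] theorem Zk_inl (p : V) : Zk (Sum.inl p : P.Z) = Sum.inl (P.kap p) := rfl

@[simp] theorem Zh_inl (p : V) : Zh (Sum.inl p : P.Z) ↔ ¬ P.Quad p := Iff.rfl

@[simp] theorem Zh_inr (p : {p : V // P.Diag p}) : Zh (Sum.inr p : P.Z) := trivial

theorem not_diag_of_quad {p : V} (h : P.Quad p) : ¬ P.Diag p := fun h2 => h2.oct.2 h

theorem not_diag_of_hex {p : V} (h : P.Hex p) : ¬ P.Diag p :=
  fun h2 => P.not_hex_of_oct h2.oct h

theorem ZA_injective : Injective (ZA : P.Z → P.Z) := by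
  rintro (p | p) (q | q) h
  · by_cases hp : P.Diag p <;> by_cases hq : P.Diag q
    · rw [ZA_inl_diag hp, ZA_inl_diag hq] at h
      simpa using h
    · rw [ZA_inl_diag hp, ZA_inl_not hq] at h
      simp at h
    · rw [ZA_inl_not hp, ZA_inl_diag hq] at h
      simp at h
    · rw [ZA_inl_not hp, ZA_inl_not hq] at h
      have := P.A_bij.1 (Sum.inl_injective h)
      rw [this]
  · by_cases hp : P.Diag p
    · rw [ZA_inl_diag hp, ZA_inr] at h
      simp at h
    · rw [ZA_inl_not hp, ZA_inr] at h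
      have := P.A_bij.1 (Sum.inl_injective h)
      exact absurd (this ▸ q.2) hp
  · by_cases hp : P.Diag q
    · rw [ZA_inl_diag hp, ZA_inr] at h
      simp at h
    · rw [ZA_inl_not hp, ZA_inr] at h
      have := P.A_bij.1 (Sum.inl_injective h)
      exact absurd (this ▸ p.2) hp
  · rw [ZA_inr, ZA_inr] at h
    have := P.A_bij.1 (Sum.inl_injective h)
    rw [Subtype.ext this]

theorem ZA_bijective : Bijective (ZA : P.Z → P.Z) := ZA_injective.bijective_of_finite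

theorem Zk_Zk (z : P.Z) : Zk (Zk z) = z := by
  rcases z with p | p
  · simp
  · change (Sum.inr _ : P.Z) = _
    congr 1
    apply Subtype.ext
    exact p.2.oct.1

theorem Zk_bijective : Bijective (Zk : P.Z → P.Z) := Involutive.bijective Zk_Zk

theorem Zt_bijective : Bijective (Zt : P.Z → P.Z) := Zk_bijective.comp ZA_bijective

theorem Zk_inr (p : {p : V // P.Diag p}) : Zk (Sum.inr p : P.Z) =
    Sum.inr ⟨P.tau (P.tau p), (P.diag_tau_tau p.2.1).2 p.2⟩ := rfl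

theorem Zt_inl_diag {p : V} (h : P.Diag p) : Zt (Sum.inl p : P.Z) =
    Sum.inr ⟨P.tau (P.tau p), (P.diag_tau_tau h.1).2 h⟩ := by
  unfold Zt; rw [ZA_inl_diag h, Zk_inr]

theorem Zt_inl_not {p : V} (h : ¬ P.Diag p) : Zt (Sum.inl p : P.Z) = Sum.inl (P.tau p) := by
  unfold Zt; rw [ZA_inl_not h, Zk_inl, P.kap_A]

theorem Zt_inr (p : {p : V // P.Diag p}) : Zt (Sum.inr p : P.Z) = Sum.inl (P.tau p) := by
  unfold Zt; rw [ZA_inr, Zk_inl, P.kap_A]

theorem Zh_Zt (z : P.Z) : Zh (Zt z) ↔ Zh z := by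
  rcases z with p | p
  · by_cases h : P.Diag p
    · rw [Zt_inl_diag h]
      simp only [Zh_inr, Zh_inl, true_iff]
      exact h.oct.2
    · rw [Zt_inl_not h, Zh_inl, Zh_inl, P.quad_tau]
  · rw [Zt_inr, Zh_inl]
    simp only [Zh_inr, iff_true]
    rw [P.quad_tau]
    exact p.2.oct.2

theorem sum_ZA (f : P.Z → ℝ) : ∑ z, f (ZA z) = ∑ z, f z := ZA_bijective.sum_comp f

theorem sum_Zk (f : P.Z → ℝ) : ∑ z, f (Zk z) = ∑ z, f z := Zk_bijective.sum_comp f

theorem sum_Zt (f : P.Z → ℝ) : ∑ z, f (Zt z) = ∑ z, f z := Zt_bijective.sum_comp f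

theorem sum_A (f : V → ℝ) : ∑ p, f (P.A p) = ∑ p, f p := P.A_bij.sum_comp f

theorem sum_rho (f : V → ℝ) : ∑ p, f (P.rho p) = ∑ p, f p := P.rho_bij.sum_comp f

theorem sum_iota (f : V → ℝ) : ∑ p, f (P.iota p) = ∑ p, f p := P.iota_bij.sum_comp f

theorem sum_kap (f : V → ℝ) : ∑ p, f (P.kap p) = ∑ p, f p := P.kap_bij.sum_comp f

theorem sum_tau (f : V → ℝ) : ∑ p, f (P.tau p) = ∑ p, f p := P.tau_bij.sum_comp f

theorem sum_B (f : V → ℝ) : ∑ p, f (P.B p) = ∑ p, f p := P.B_bij.sum_comp f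

theorem sum_Z (f : P.Z → ℝ) :
    ∑ z, f z = ∑ p : V, (f (Sum.inl p) + if h : P.Diag p then f (Sum.inr ⟨p, h⟩) else 0) := by
  rw [Fintype.sum_sum_type, Finset.sum_add_distrib]
  congr 1
  have h1 : ∀ x : {p : V // P.Diag p}, f (Sum.inr x) =
      (fun p : V => if h : P.Diag p then f (Sum.inr ⟨p, h⟩) else 0) x.1 := by
    intro x
    simp [x.2]
  rw [Finset.sum_congr rfl fun x _ => h1 x]
  have h2 : ∑ x : {p : V // P.Diag p},
      (fun p : V => if h : P.Diag p then f (Sum.inr ⟨p, h⟩) else 0) x.1 =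
      ∑ p ∈ Finset.univ.filter (fun p => P.Diag p),
        (fun p : V => if h : P.Diag p then f (Sum.inr ⟨p, h⟩) else 0) p := by
    symm
    exact Finset.sum_subtype _ (fun x => by simp) _
  rw [h2]
  refine Finset.sum_filter_of_ne fun p _ hp => ?_
  by_contra h
  simp [h] at hp

theorem sum_ext0 (f : V → ℝ) (g : P.Z → ℝ) :
    ∑ z, ext0 f z * g z = ∑ p, f p * g (Sum.inl p) := by
  rw [sum_Z]
  refine Finset.sum_congr rfl fun p _ => ?_
  simp [ext0]

end Run7.h568.MC
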