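import Pool.Agent.Run7.h568.MC.GA
import Pool.Agent.Run7.h568.MC.ZLemmas
import Pool.Agent.Run7.h568.MC.Iface

/-!
# Piece GB: the octagon splitting
-/

namespace Run7.h568.MC

open Real Matrix Pattern

namespace HypMetric

variable {V : Type*} [Fintype V] {P : Pattern V} (m : HypMetric P)

/-- signs in an octagon -/
theorem oct_signs {p : V} (hp : P.Oct p) :
    1 + m.Lam (P.A p) < m.mu (P.tau p) ∧ 1 < m.mu (P.tau p) := by
  obtain ⟨h1, h2, h3, h4⟩ := m.oct_left hp
  simp [NN, Matrix.mul_apply, Fin.sum_univ_two] at h1 h2 h3 h4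
  have hm := m.mu_pos' p
  have hL := m.Lam_pos' (P.A p)
  constructor
  · have : 0 < m.mu p * (m.mu (P.tau p) - 1 - m.Lam (P.A p)) := by linarith
    have := pos_of_mul_pos_right this hm.le
    linarith
  · linarith

omit [Fintype V] in
/-- the closing relations of an octagon -/
theorem oct_rel {p : V} (hp : P.Oct p) {q1 q2 q3 : V} (e1 : P.tau p = q1) (e2 : P.tau q1 = q2)
    (e3 : P.tau q2 = q3) :
    (m.mu q1 - 1) * (m.mu q2 * (m.mu q3 - 1 - m.Lam (P.A q2))) =
      (m.mu q1 * (1 + m.Lam (P.A q1)) - 1) * (m.mu q3 - 1) ∧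
    (m.mu p * (m.mu q1 - 1 - m.Lam (P.A p))) *
        (m.mu q2 * (m.mu q3 * (1 + m.Lam (P.A q3)) - 1 - m.Lam (P.A q2))) =
    (m.mu p * (m.mu q1 * (1 + m.Lam (P.A q1)) - 1 - m.Lam (P.A p))) *
      (m.mu q3 * (1 + m.Lam (P.A q3)) - 1) := by
  subst e1 e2 e3
  obtain ⟨s, hs, h⟩ := m.oct_close hp
  obtain ⟨h1, h2, h3, h4⟩ := h _ rfl
  simp [NN, Matrix.mul_apply, Fin.sum_univ_two] at h1 h2 h3 h4
  constructor
  · linear_combination -h3
  · linear_combination h2

theorem muV_sub_one {p : V} (hp : P.Oct p) :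
    m.muV p - 1 = m.Lam (P.A p) / (m.mu (P.tau p) - 1 - m.Lam (P.A p)) := by
  have h := (m.oct_signs hp).1
  have h1 : m.mu (P.tau p) - 1 - m.Lam (P.A p) ≠ 0 := by linarith
  unfold muV
  field_simp
  ring

theorem muV_gt {p : V} (hp : P.Oct p) : 1 < m.muV p := by
  have h := m.muV_sub_one hp
  have h1 := (m.oct_signs hp).1
  have : 0 < m.muV p - 1 := by
    rw [h]
    exact div_pos (m.Lam_pos' _) (by linarith)
  linarith

/-- `μ` at a diagonal corner -/
theorem muZ_diag {q0 q1 q2 q3 : V} (h : P.Oct q0) (e1 : P.tau q0 = q1) (e2 : P.tau q1 = q2)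
    (e3 : P.tau q2 = q3) :
    m.mu q2 / m.muV q2 = 1 + m.mu q1 * m.Lam (P.A q1) / (m.mu q1 - 1) := by
  obtain ⟨r1, r2⟩ := m.oct_rel h e1 e2 e3
  have h1 : P.Oct q1 := e1 ▸ P.oct_tau.2 h
  have h2 : P.Oct q2 := e2 ▸ P.oct_tau.2 h1
  have s0 := m.oct_signs h
  have s2 := m.oct_signs h2
  rw [e1] at s0
  rw [e3] at s2
  have n1 : m.mu q1 - 1 ≠ 0 := by linarith
  have n3 : m.mu q3 - 1 ≠ 0 := by linarith
  have n4 : m.mu q3 - 1 - m.Lam (P.A q2) ≠ 0 := by linarith
  unfold muV
  rw [e3]
  field_simp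
  linear_combination r1

end HypMetric

/-- piece GB -/
theorem gb {V : Type*} [Fintype V] (P : Pattern V) : S_GB P := by
  intro m ga
  have hgt : ∀ z, Zh z → 1 < m.muZ z := by
    rintro (p | p) hz
    · change 1 < (if P.Diag p then m.mu p / m.muV p else m.mu p)
      split_ifs with hd
      · have h4 : P.tau (P.tau (P.tau (P.tau p))) = p := hd.oct.1
        have ho : P.Oct (P.tau (P.tau p)) := P.oct_tau.2 (P.oct_tau.2 hd.oct)
        rw [m.muZ_diag ho rfl h4 rfl]
        have ho3 : P.Oct (P.tau (P.tau (P.tau p))) := P.oct_tau.2 ho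
        have s := (m.oct_signs ho).2
        have hm := m.mu_pos' (P.tau (P.tau (P.tau p)))
        have hL := m.Lam_pos' (P.A (P.tau (P.tau (P.tau p))))
        have : 0 < m.mu (P.tau (P.tau (P.tau p))) * m.Lam (P.A (P.tau (P.tau (P.tau p)))) /
            (m.mu (P.tau (P.tau (P.tau p))) - 1) :=
          div_pos (mul_pos hm hL) (by linarith)
        linarith
      · exact ga.mu_gt p hz
    · exact m.muV_gt p.2.oct
  refine
    { muZ_gt := hgt
      muZ_quad := ?_
      LamZ_pos := ?_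
      LamZ_kap := ?_
      LamZ_quad := ?_
      tri := ?_
      mu_split := ?_ }
  · rintro (p | p) hz
    · have hq : P.Quad p := not_not.1 hz
      change (if P.Diag p then m.mu p / m.muV p else m.mu p) = 1
      rw [if_neg (not_diag_of_quad hq)]
      exact ga.mu_quad p hq
    · exact absurd trivial hz
  · rintro (p | p)
    · exact m.Lam_pos' p
    · have h1 := hgt (Sum.inl (p : V)) p.2.oct.2
      have h2 := hgt (Zk (Sum.inr p)) trivial
      change 0 < (1 - 1 / m.muZ (Sum.inl (p : V))) * (m.muZ (Zk (Sum.inr p)) - 1)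
      apply mul_pos
      · have : 1 / m.muZ (Sum.inl (p : V)) < 1 := by
          rw [div_lt_one (by linarith)]; exact h1
        linarith
      · linarith
  · rintro (p | ⟨p, hd⟩)
    · exact m.Lam_kap' p
    · have hd2 : P.Diag (P.tau (P.tau p)) := (P.diag_tau_tau hd.1).2 hd
      have e4 : P.tau (P.tau (P.tau (P.tau p))) = p := hd.oct.1
      change (1 - 1 / (if P.Diag (P.tau (P.tau p)) then m.mu (P.tau (P.tau p)) /
          m.muV (P.tau (P.tau p)) else m.mu (P.tau (P.tau p)))) *
          (m.muV (P.tau (P.tau (P.tau (P.tau p)))) - 1) =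
        (1 - 1 / (if P.Diag p then m.mu p / m.muV p else m.mu p)) *
          (m.muV (P.tau (P.tau p)) - 1)
      rw [if_pos hd, if_pos hd2, e4, m.muV_sub_one hd.oct, m.muV_sub_one hd2.oct,
        m.muZ_diag hd.oct rfl rfl rfl, m.muZ_diag hd2.oct rfl e4 rfl]
      have s0 := m.oct_signs hd.oct
      have s2 := m.oct_signs hd2.oct
      obtain ⟨r1, r2⟩ := m.oct_rel hd.oct rfl rfl rfl
      obtain ⟨r3, r4⟩ := m.oct_rel hd2.oct rfl e4 rfl
      have l0 := m.Lam_pos' (P.A p)
      have l1 := m.Lam_pos' (P.A (P.tau p))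
      have l2 := m.Lam_pos' (P.A (P.tau (P.tau p)))
      have l3 := m.Lam_pos' (P.A (P.tau (P.tau (P.tau p))))
      have u0 := m.mu_pos' p
      have u1 := m.mu_pos' (P.tau p)
      have u2 := m.mu_pos' (P.tau (P.tau p))
      have u3 := m.mu_pos' (P.tau (P.tau (P.tau p)))
      generalize m.Lam (P.A p) = L0 at *
      generalize m.Lam (P.A (P.tau p)) = L1 at *
      generalize m.Lam (P.A (P.tau (P.tau p))) = L2 at *
      generalize m.Lam (P.A (P.tau (P.tau (P.tau p)))) = L3 at *
      generalize m.mu p = M0 at *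
      generalize m.mu (P.tau p) = M1 at *
      generalize m.mu (P.tau (P.tau p)) = M2 at *
      generalize m.mu (P.tau (P.tau (P.tau p))) = M3 at *
      have n1 : M1 - 1 ≠ 0 := by linarith [s0.2]
      have n3 : M3 - 1 ≠ 0 := by linarith [s2.2]
      have n2 : M1 - 1 - L0 ≠ 0 := by linarith [s0.1]
      have n4 : M3 - 1 - L2 ≠ 0 := by linarith [s2.1]
      have p1 : 0 < M1 * L1 := mul_pos u1 l1
      have p3 : 0 < M3 * L3 := mul_pos u3 l3
      have n5 : M1 - 1 + M1 * L1 ≠ 0 := by linarith [s0.2]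
      have n6 : M3 - 1 + M3 * L3 ≠ 0 := by linarith [s2.2]
      have f1 : 1 - 1 / (1 + M1 * L1 / (M1 - 1)) = M1 * L1 / (M1 - 1 + M1 * L1) := by
        field_simp
        ring
      have f3 : 1 - 1 / (1 + M3 * L3 / (M3 - 1)) = M3 * L3 / (M3 - 1 + M3 * L3) := by
        field_simp
        ring
      rw [f1, f3, div_mul_div_comm, div_mul_div_comm, div_eq_div_iff (mul_ne_zero n5 n2)
        (mul_ne_zero n6 n4)]
      have n0 : M0 * M2 ≠ 0 := (mul_pos u0 u2).ne'
      apply mul_left_cancel₀ n0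
      linear_combination
        (M0 * (M1 * (1 + L1) - 1 - L0) * (M3 * (1 + L3) - 1)) * r1 -
        ((M1 * (1 + L1) - 1) * (M3 - 1)) * r2
  · rintro (p | p) hz
    · have hq : P.Quad p := not_not.1 hz
      rw [ZA_inl_not (not_diag_of_quad hq)]
      exact ga.Lam_quad p hq
    · exact absurd trivial hz
  · rintro (p | ⟨p, hd⟩) hz
    · by_cases hd : P.Diag p
      · unfold Zt
        rw [ZA_inl_diag hd]
        rfl
      · rw [ZA_inl_not hd, Zt_inl_not hd]
        rcases P.hex_or_oct hz with hh | ho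
        · have hn : ¬ P.Diag (P.tau p) := not_diag_of_hex (P.hex_tau.2 hh)
          change m.Lam (P.A p) = (1 - 1 / (if P.Diag p then m.mu p / m.muV p else m.mu p)) *
            ((if P.Diag (P.tau p) then m.mu (P.tau p) / m.muV (P.tau p) else m.mu (P.tau p)) - 1)
          rw [if_neg hd, if_neg hn]
          exact ga.Lam_hex p hh
        · have hd2 : P.Diag (P.tau p) := (P.diag_tau ho).2 hd
          have e4 : P.tau (P.tau (P.tau (P.tau p))) = p := ho.1
          change m.Lam (P.A p) = (1 - 1 / (if P.Diag p then m.mu p / m.muV p else m.mu p)) *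
            ((if P.Diag (P.tau p) then m.mu (P.tau p) / m.muV (P.tau p) else m.mu (P.tau p)) - 1)
          rw [if_neg hd, if_pos hd2]
          have ho3 : P.Oct (P.tau (P.tau (P.tau p))) := P.oct_tau.2 (P.oct_tau.2 (P.oct_tau.2 ho))
          rw [m.muZ_diag ho3 e4 rfl rfl]
          have s := (m.oct_signs ho3).2
          rw [e4] at s
          have u := m.mu_pos' p
          have n1 : m.mu p - 1 ≠ 0 := by linarith
          field_simp
          ring
    · rw [ZA_inr]
      have hn : ¬ P.Diag (P.tau p) := fun h => (P.diag_tau hd.1).1 h hd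
      have ez : Zt (Sum.inr ⟨p, hd⟩ : P.Z) = Sum.inl (P.tau p) := by
        unfold Zt
        rw [ZA_inr, Zk_inl, P.kap_A]
      rw [ez]
      change m.Lam (P.A p) = (1 - 1 / m.muV p) *
        ((if P.Diag (P.tau p) then m.mu (P.tau p) / m.muV (P.tau p) else m.mu (P.tau p)) - 1)
      rw [if_neg hn]
      have s := m.oct_signs hd.oct
      have n1 : m.mu (P.tau p) - 1 ≠ 0 := by linarith
      have n2 : m.mu (P.tau p) - 1 - m.Lam (P.A p) ≠ 0 := by linarith
      unfold HypMetric.muV
      field_simp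
      ring
  · intro p hd
    change (if P.Diag p then m.mu p / m.muV p else m.mu p) * m.muV p = m.mu p
    rw [if_pos hd]
    have := m.muV_gt hd.oct
    rw [div_mul_cancel₀]
    linarith

end Run7.h568.MC
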