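import Pool.Agent.Run7.h568.MC.Iface
import Pool.Agent.Run7.h568.MC.ZLemmas

/-! Piece LIN1: the linear relations. -/

namespace Run7.h568.MC

open Real Matrix Pattern

variable {V : Type*} [Fintype V] {P : Pattern V}

theorem muZ_eq_exp_U {m : HypMetric P} (hz : GFZ m) {z : P.Z} (h : Zh z) :
    m.muZ z = 1 + Real.exp (-(m.U z)) := by
  have h1 := hz.muZ_gt z h
  rcases z with p | p
  · have h2 : m.U (Sum.inl p) = -Real.log (m.muZ (Sum.inl p) - 1) := by
      change -Real.log (m.muZ (Sum.inl (P.top p)) - 1) = _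
      rw [P.top_of_not_quad h]
    rw [h2, neg_neg, Real.exp_log (by linarith)]
    ring
  · have h2 : m.U (Sum.inr p) = -Real.log (m.muZ (Sum.inr p) - 1) := rfl
    rw [h2, neg_neg, Real.exp_log (by linarith)]
    ring

theorem U_ZA_not {m : HypMetric P} {z : P.Z} (h : ¬ Zh z) : m.U (ZA z) = m.U z := by
  rcases z with p | p
  · have hq : P.Quad p := by
      by_contra hc
      exact h hc
    rw [ZA_inl_not (not_diag_of_quad hq)]
    change -Real.log (m.muZ (Sum.inl (P.top (P.A p))) - 1) = -Real.log (m.muZ (Sum.inl (P.top p)) - 1)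
    rw [P.top_of_quad hq]
  · exact absurd trivial h

theorem log_muZ {m : HypMetric P} (hz : GFZ m) {z : P.Z} (h : Zh z) :
    Real.log (m.muZ z) = Real.log (1 + Real.exp (m.U z)) - m.U z := by
  have h1 : m.muZ z = (1 + Real.exp (m.U z)) * Real.exp (-(m.U z)) := by
    rw [muZ_eq_exp_U hz h, add_mul, one_mul, ← Real.exp_add, add_neg_cancel, Real.exp_zero]
    ring
  have h2 : (0 : ℝ) < 1 + Real.exp (m.U z) := by positivity
  rw [h1, Real.log_mul h2.ne' (Real.exp_pos _).ne', Real.log_exp]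
  ring

theorem U_ZA {m : HypMetric P} (hz : GFZ m) {z : P.Z} (h : Zh z) :
    m.U (ZA z) = m.lZ (ZA z) + Real.log (1 + Real.exp (m.U z)) := by
  have h1 := hz.tri z h
  have h2 := muZ_eq_exp_U hz h
  have h3 := muZ_eq_exp_U hz ((Zh_Zt z).2 h)
  have h4 : m.LamZ (ZA z) = (1 + Real.exp (m.U z))⁻¹ * Real.exp (-(m.U (Zt z))) := by
    rw [h1, h2, h3]
    have e : Real.exp (-(m.U z)) = (Real.exp (m.U z))⁻¹ := Real.exp_neg _
    rw [e]
    have hp := Real.exp_pos (m.U z)
    field_simp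
    ring
  have h5 : (0 : ℝ) < 1 + Real.exp (m.U z) := by positivity
  have h6 : Real.log (m.LamZ (ZA z)) = -Real.log (1 + Real.exp (m.U z)) - m.U (Zt z) := by
    rw [h4, Real.log_mul (inv_ne_zero h5.ne') (Real.exp_pos _).ne', Real.log_inv, Real.log_exp]
    ring
  have h7 : m.lZ (ZA z) = Real.log (m.LamZ (ZA z)) + m.U (ZA z) + m.U (Zt z) := rfl
  rw [h7, h6]
  ring

theorem lad_eq {m : HypMetric P} (hg : GF m) (hz : GFZ m) (p : V) :
    lad m.lZ p = m.U (Sum.inl (P.A p)) - m.U (Sum.inl p) - Real.log (m.mu p) := by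
  unfold lad
  by_cases hq : P.Quad p
  · have h1 := U_ZA_not (m := m) (z := Sum.inl p) (by rw [Zh_inl, not_not]; exact hq)
    rw [ZA_inl_not (not_diag_of_quad hq)] at h1
    rw [if_pos hq, hg.mu_quad p hq, h1, Real.log_one]
    ring
  · rw [if_neg hq]
    by_cases hd : P.Diag p
    · have h1 := U_ZA hz (z := Sum.inl p) hq
      have h2 := U_ZA hz (z := Sum.inr ⟨p, hd⟩) trivial
      have h3 := log_muZ hz (z := Sum.inl p) hq
      have h4 := log_muZ hz (z := Sum.inr ⟨p, hd⟩) trivial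
      rw [ZA_inl_diag hd] at h1
      rw [ZA_inr] at h2
      have h5 := hz.mu_split p hd
      have h6 := hz.muZ_gt (Sum.inl p) hq
      have h7 := hz.muZ_gt (Sum.inr ⟨p, hd⟩) trivial
      have h8 : Real.log (m.mu p) = Real.log (m.muZ (Sum.inl p)) +
          Real.log (m.muZ (Sum.inr ⟨p, hd⟩)) := by
        rw [← h5, Real.log_mul (by linarith) (by linarith)]
      rw [dif_pos hd]
      change m.U (Sum.inl (P.A p)) = _ at h2
      linarith
    · have h1 := U_ZA hz (z := Sum.inl p) hq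
      rw [ZA_inl_not hd] at h1
      have h3 := log_muZ hz (z := Sum.inl p) hq
      have h4 : m.muZ (Sum.inl p) = m.mu p := if_neg hd
      rw [h4] at h3
      rw [dif_neg hd]
      linarith

theorem RR_eq (m : HypMetric P) (p : V) : m.RR p = m.TT p * m.SS p := by
  unfold HypMetric.RR HypMetric.SS
  ring

theorem TT_rho {m : HypMetric P} (hg : GF m) (p : V) : m.TT (P.rho p) = m.TT p := by
  unfold HypMetric.TT
  rw [hg.t_rho]

theorem The_rho {m : HypMetric P} (hg : GF m) (p : V) : m.The (P.rho p) = m.The p := by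
  unfold HypMetric.The
  rw [P.rho_rho, RR_eq, RR_eq, TT_rho hg]
  ring

theorem SS_pos {m : HypMetric P} (hg : GF m) (p : V) : 0 < m.SS p := by
  unfold HypMetric.SS
  have h1 := hg.E_pos p
  have h2 := hg.E_lt p
  exact div_pos (by linarith) (by linarith)

theorem TT_pos {m : HypMetric P} (hg : GF m) (p : V) : 0 < m.TT p :=
  (hg.E_pos p).trans (hg.E_lt p)

theorem RR_pos {m : HypMetric P} (hg : GF m) (p : V) : 0 < m.RR p := by
  rw [RR_eq]
  exact mul_pos (TT_pos hg p) (SS_pos hg p)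

theorem The_pos {m : HypMetric P} (hg : GF m) (p : V) : 0 < m.The p :=
  mul_pos (RR_pos hg p) (SS_pos hg _)

theorem mu_pos {m : HypMetric P} (hg : GF m) (p : V) : 0 < m.mu p := by
  by_cases hq : P.Quad p
  · rw [hg.mu_quad p hq]; exact one_pos
  · exact one_pos.trans (hg.mu_gt p hq)

theorem w_rho {m : HypMetric P} (hg : GF m) (p : V) : m.w (P.rho p) = m.w p := by
  unfold HypMetric.w
  rw [The_rho hg, P.rho_rho]
  ring

theorem lZ_Zk {m : HypMetric P} (hz : GFZ m) (z : P.Z) : m.lZ (Zk z) = m.lZ z := by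
  unfold HypMetric.lZ
  rw [hz.LamZ_kap, Zk_Zk]
  ring

theorem lZ_ZA_not {m : HypMetric P} (hz : GFZ m) {z : P.Z} (h : ¬ Zh z) :
    m.lZ (ZA z) = m.lZ z := by
  unfold HypMetric.lZ
  rw [hz.LamZ_quad z h, U_ZA_not h]
  congr 1
  rcases z with p | p
  · have hq : P.Quad p := by
      by_contra hc
      exact h hc
    have h1 : ¬ Zh (Sum.inl (P.tau p) : P.Z) := by
      rw [Zh_inl, not_not]; exact P.quad_tau.2 hq
    have h2 := U_ZA_not (m := m) h1
    rw [ZA_inl_not (not_diag_of_quad (P.quad_tau.2 hq)), P.quad_A_kap hq] at h2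
    rw [ZA_inl_not (not_diag_of_quad hq), Zk_inl, Zk_inl, P.kap_A, h2]
  · exact absurd trivial h

theorem w_A {m : HypMetric P} (hg : GF m) (hz : GFZ m) (p : V) :
    m.w (P.A p) - m.w p = lad m.lZ p - lad m.lZ (P.iota p) := by
  have h1 := hg.The_A p
  have h2 : Real.log (m.The (P.A p)) + Real.log (m.mu p) =
      Real.log (m.The p) + Real.log (m.mu (P.iota p)) := by
    rw [← Real.log_mul (The_pos hg _).ne' (mu_pos hg _).ne', h1,
      Real.log_mul (The_pos hg _).ne' (mu_pos hg _).ne']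
  rw [lad_eq hg hz, lad_eq hg hz]
  unfold HypMetric.w
  rw [P.rho_A, P.A_iota]
  linarith

theorem LIN1 : S_LIN1 P := by
  intro m hg hz
  refine ⟨⟨fun z => lZ_Zk hz z, fun z h => lZ_ZA_not hz h, fun p => w_rho hg p,
    fun p => w_A hg hz p⟩, fun z h => U_ZA hz h, fun z h => U_ZA_not h,
    fun z h => muZ_eq_exp_U hz h⟩

end Run7.h568.MC
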