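import Pool.Agent.Run7.h568.MC.Defs

/-! Combinatorial lemmas for `Pattern`, and the set `Z` of crossings and ends of diagonals. -/

namespace Run7.h568.MC

open Function

namespace Pattern

variable {V : Type*} (P : Pattern V)

theorem rho_bij : Bijective P.rho :=
  ⟨fun p q h => by rw [← P.rho_rho p, h, P.rho_rho], fun p => ⟨_, P.rho_rho p⟩⟩

theorem iota_bij : Bijective P.iota :=
  ⟨fun p q h => by rw [← P.iota_iota p, h, P.iota_iota], fun p => ⟨_, P.iota_iota p⟩⟩

theorem B_inj {p q : V} (h : P.B p = P.B q) : p = q := by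
  have h1 := P.B_rho_B p
  have h2 := P.B_rho_B q
  rw [h, h2] at h1
  have := congrArg P.rho h1
  rw [P.rho_rho, P.rho_rho] at this
  exact this.symm

theorem B_surj (p : V) : P.B (P.rho (P.B (P.rho p))) = p := by
  rw [P.B_rho_B, P.rho_rho]

theorem B_bij : Bijective P.B := ⟨fun _ _ h => P.B_inj h, fun p => ⟨_, P.B_surj p⟩⟩

theorem A_bij : Bijective P.A := P.rho_bij.comp P.iota_bij

theorem kap_bij : Bijective P.kap := P.B_bij.comp P.rho_bij

theorem tau_bij : Bijective P.tau := P.B_bij.comp P.iota_bij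

@[simp] theorem kap_kap (p : V) : P.kap (P.kap p) = p := P.B_surj p

theorem kap_ne (p : V) : P.kap p ≠ p := by
  intro h
  have := P.B_ne (P.rho p)
  rw [P.rho_rho] at this
  exact this h

theorem kap_rho (p : V) : P.kap (P.rho p) = P.B p := by unfold kap; rw [P.rho_rho]

theorem B_kap (p : V) : P.B (P.kap p) = P.B (P.B (P.rho p)) := rfl

theorem B_rho_kap (p : V) : P.B (P.rho (P.kap p)) = p := P.kap_kap p

theorem kap_A (p : V) : P.kap (P.A p) = P.tau p := by unfold kap A tau; rw [P.rho_rho]

theorem kap_tau (p : V) : P.kap (P.tau p) = P.A p := by rw [← P.kap_A, P.kap_kap]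

theorem A_iota (p : V) : P.A (P.iota p) = P.rho p := by unfold A; rw [P.iota_iota]

theorem rho_A (p : V) : P.rho (P.A p) = P.iota p := by unfold A; rw [P.rho_rho]

theorem iota_A (p : V) : P.iota (P.A p) = P.iota (P.rho (P.iota p)) := rfl

theorem A_rho_A (p : V) : P.A (P.rho (P.A p)) = P.rho p := by rw [P.rho_A, P.A_iota]

theorem tau_iota (p : V) : P.tau (P.iota p) = P.B p := by unfold tau; rw [P.iota_iota]

theorem tau_ne (p : V) : P.tau p ≠ p := P.face_ne p

theorem A_iota_rho (p : V) : P.A (P.iota (P.rho p)) = p := by rw [P.A_iota, P.rho_rho]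

theorem iota_rho_A (p : V) : P.iota (P.rho (P.A p)) = p := by rw [P.rho_A, P.iota_iota]

theorem faces (p : V) : P.Quad p ∨ P.Hex p ∨ P.Oct p := by
  rcases P.face p with h | h | h
  · exact Or.inl h
  · exact Or.inr (Or.inl h)
  · by_cases h2 : P.tau (P.tau p) = p
    · exact Or.inl h2
    · exact Or.inr (Or.inr ⟨h, h2⟩)

theorem quad_tau {p : V} : P.Quad (P.tau p) ↔ P.Quad p := by
  unfold Quad
  exact ⟨fun h => P.tau_bij.1 h, fun h => by rw [h]⟩

theorem hex_tau {p : V} : P.Hex (P.tau p) ↔ P.Hex p := by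
  unfold Hex
  exact ⟨fun h => P.tau_bij.1 h, fun h => by rw [h]⟩

theorem oct_tau {p : V} : P.Oct (P.tau p) ↔ P.Oct p := by
  unfold Oct
  constructor
  · rintro ⟨h, h2⟩
    exact ⟨P.tau_bij.1 h, fun h3 => h2 (by rw [h3])⟩
  · rintro ⟨h, h2⟩
    exact ⟨by rw [h], fun h3 => h2 (P.tau_bij.1 h3)⟩

theorem not_quad_of_hex {p : V} (h : P.Hex p) : ¬ P.Quad p := by
  intro h2
  unfold Hex at h
  unfold Quad at h2
  rw [h2] at h
  exact P.tau_ne p h

theorem not_quad_of_oct {p : V} (h : P.Oct p) : ¬ P.Quad p := h.2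

theorem not_hex_of_oct {p : V} (h : P.Oct p) : ¬ P.Hex p := by
  intro h2
  have := h.1
  unfold Hex at h2
  rw [h2] at this
  exact P.tau_ne p this

theorem hex_or_oct {p : V} (h : ¬ P.Quad p) : P.Hex p ∨ P.Oct p :=
  (P.faces p).resolve_left h

theorem quad_A_kap {p : V} (h : P.Quad p) : P.A (P.tau p) = P.kap p := by
  unfold Quad at h
  rw [← P.kap_A] at h
  rw [← h, P.kap_kap, h]

theorem hex_A {p : V} (h : P.Hex p) : P.A (P.tau (P.tau p)) = P.kap p := by
  unfold Hex at h
  rw [← P.kap_A] at h
  rw [← h, P.kap_kap, h]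

theorem oct_A {p : V} (h : P.Oct p) : P.A (P.tau (P.tau (P.tau p))) = P.kap p := by
  have h := h.1
  rw [← P.kap_A] at h
  rw [← h, P.kap_kap, h]

theorem alpha_face' (p : V) : ∃ n : ℕ, ¬ P.Quad (P.A^[n] p) := P.alpha_face p

theorem beta_face' (p : V) : ∃ n : ℕ, ¬ P.Quad (P.B^[n] p) := P.beta_face p

noncomputable instance instDecQuad : DecidablePred P.Quad := Classical.decPred _

/-- the first non-quadrilateral corner on the `A`-orbit -/
noncomputable def top (p : V) : V := P.A^[Nat.find (P.alpha_face' p)] p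

theorem not_quad_top (p : V) : ¬ P.Quad (P.top p) := Nat.find_spec (P.alpha_face' p)

theorem top_of_not_quad {p : V} (h : ¬ P.Quad p) : P.top p = p := by
  have h0 : Nat.find (P.alpha_face' p) = 0 := by
    rw [Nat.find_eq_zero]; exact h
  unfold top
  rw [h0]; rfl

theorem top_of_quad {p : V} (h : P.Quad p) : P.top p = P.top (P.A p) := by
  have h1 : ∃ n : ℕ, ¬ P.Quad (P.A^[n] (P.A p)) := P.alpha_face' (P.A p)
  have h2 : Nat.find (P.alpha_face' p) = Nat.find h1 + 1 := by
    rw [Nat.find_eq_iff]
    refine ⟨?_, ?_⟩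
    · rw [Function.iterate_succ_apply]; exact Nat.find_spec h1
    · intro n hn
      rcases n with _ | n
      · simpa using h
      · rw [Function.iterate_succ_apply]
        exact Nat.find_min h1 (by omega)
  unfold top
  rw [h2, Function.iterate_succ_apply]

section diag

variable [Fintype V]

/-- an arbitrary injective numbering of `V` -/
noncomputable def num (p : V) : ℕ := (Fintype.equivFin V p : ℕ)

omit P in
theorem num_inj {p q : V} (h : num p = num q) : p = q := by
  unfold num at h
  exact (Fintype.equivFin V).injective (Fin.ext h)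

/-- A choice of two opposite corners in each octagon: the ends of its diagonal. -/
def Diag (p : V) : Prop :=
  P.Oct p ∧ min (num p) (num (P.tau (P.tau p))) <
    min (num (P.tau p)) (num (P.tau (P.tau (P.tau p))))

theorem Diag.oct {p : V} (h : P.Diag p) : P.Oct p := h.1

theorem diag_tau {p : V} (h : P.Oct p) : P.Diag (P.tau p) ↔ ¬ P.Diag p := by
  have h1 := h.1
  have h2 := h.2
  have n1 : num p ≠ num (P.tau p) := fun e => P.tau_ne p (num_inj e).symm
  have n2 : num p ≠ num (P.tau (P.tau (P.tau p))) := by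
    intro e
    have := num_inj e
    rw [← this] at h1
    exact P.tau_ne p h1
  have n3 : num (P.tau (P.tau p)) ≠ num (P.tau p) := fun e => P.tau_ne _ (num_inj e)
  have n4 : num (P.tau (P.tau p)) ≠ num (P.tau (P.tau (P.tau p))) :=
    fun e => P.tau_ne _ (num_inj e).symm
  unfold Diag
  rw [h1]
  simp only [P.oct_tau, h, true_and, not_lt]
  constructor
  · intro h; rw [min_comm (num p)]; exact h.le
  · intro h
    rw [min_comm (num (P.tau (P.tau p)))]
    refine lt_of_le_of_ne h ?_
    rcases min_choice (num (P.tau p)) (num (P.tau (P.tau (P.tau p)))) with e | e <;>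
      rcases min_choice (num p) (num (P.tau (P.tau p))) with e' | e' <;> rw [e, e']
    · exact n1.symm
    · exact n3.symm
    · exact n2.symm
    · exact n4.symm

theorem diag_tau_tau {p : V} (h : P.Oct p) : P.Diag (P.tau (P.tau p)) ↔ P.Diag p := by
  rw [P.diag_tau (P.oct_tau.2 h), P.diag_tau h, not_not]

noncomputable instance instDecDiag : DecidablePred P.Diag := Classical.decPred _

/-- crossings, and ends of diagonals (`Sum.inr p` lies between `p` and `A p`) -/
abbrev Z : Type _ := V ⊕ {p : V // P.Diag p}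

variable {P}

/-- successor on the left side of a component of `α` -/
noncomputable def ZA : P.Z → P.Z
  | Sum.inl p => if h : P.Diag p then Sum.inr ⟨p, h⟩ else Sum.inl (P.A p)
  | Sum.inr p => Sum.inl (P.A p)

/-- the other end of the same leaf -/
noncomputable def Zk : P.Z → P.Z
  | Sum.inl p => Sum.inl (P.kap p)
  | Sum.inr p => Sum.inr ⟨P.tau (P.tau p), (P.diag_tau_tau p.2.1).2 p.2⟩

/-- next corner in the same ideal triangle -/
noncomputable def Zt (z : P.Z) : P.Z := Zk (ZA z)

/-- not a quadrilateral corner -/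
def Zh : P.Z → Prop
  | Sum.inl p => ¬ P.Quad p
  | Sum.inr _ => True

noncomputable instance instDecZh : DecidablePred (Zh (P := P)) := Classical.decPred _

/-- the crossing at or before `z` -/
def Zb : P.Z → V
  | Sum.inl p => p
  | Sum.inr p => p

end diag

end Pattern

end Run7.h568.MC
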