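import Pool.Agent.Run7.h568.MC.Iface
import Pool.Agent.Run7.h568.Basic

/-! Entries of `cross`, and the algebra of `Mob`. -/

namespace Run7.h568.MC

open Real Matrix Pattern

variable {V : Type*} {P : Pattern V} (m : HypMetric P)

theorem G_entries (p : V) : m.G p =
    !![cos (m.θ p / 2) * sin (m.θ (P.iota p) / 2) * exp (m.x p / 2) -
        sin (m.θ p / 2) * cos (m.θ (P.iota p) / 2) * exp (-(m.x p / 2)),
      cos (m.θ p / 2) * cos (m.θ (P.iota p) / 2) * exp (m.x p / 2) +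
        sin (m.θ p / 2) * sin (m.θ (P.iota p) / 2) * exp (-(m.x p / 2));
      -(sin (m.θ p / 2) * sin (m.θ (P.iota p) / 2) * exp (m.x p / 2) +
        cos (m.θ p / 2) * cos (m.θ (P.iota p) / 2) * exp (-(m.x p / 2))),
      cos (m.θ p / 2) * sin (m.θ (P.iota p) / 2) * exp (-(m.x p / 2)) -
        sin (m.θ p / 2) * cos (m.θ (P.iota p) / 2) * exp (m.x p / 2)] := by
  unfold HypMetric.G cross
  exact RTR_G _ _ _

theorem G_det (p : V) : (m.G p) 0 0 * (m.G p) 1 1 - (m.G p) 0 1 * (m.G p) 1 0 = 1 := by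
  rw [G_entries]
  simp
  have h1 := sin_sq_add_cos_sq (m.θ p / 2)
  have h2 := sin_sq_add_cos_sq (m.θ (P.iota p) / 2)
  have h3 : exp (m.x p / 2) * exp (-(m.x p / 2)) = 1 := by rw [← exp_add]; simp
  set s := sin (m.θ p / 2)
  set c := cos (m.θ p / 2)
  set s' := sin (m.θ (P.iota p) / 2)
  set c' := cos (m.θ (P.iota p) / 2)
  set e := exp (m.x p / 2)
  set e' := exp (-(m.x p / 2))
  linear_combination (s ^ 2 + c ^ 2) * (s' ^ 2 + c' ^ 2) * h3 + (s' ^ 2 + c' ^ 2) * h1 + h2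

theorem G_iota (p : V) : (m.G (P.iota p)) 0 0 = -(m.G p) 1 1 ∧
    (m.G (P.iota p)) 0 1 = (m.G p) 0 1 ∧ (m.G (P.iota p)) 1 0 = (m.G p) 1 0 ∧
    (m.G (P.iota p)) 1 1 = -(m.G p) 0 0 := by
  rw [G_entries, G_entries, P.iota_iota, m.x_iota]
  simp
  refine ⟨by ring, by ring, by ring, by ring⟩

theorem G_left (p : V) : 0 < (m.G p) 0 0 ∧ 0 < (m.G p) 0 1 ∧ (m.G p) 1 0 < 0 ∧
    (m.G p) 1 1 < 0 := m.beta_left p

end Run7.h568.MC
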