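import Pool.Agent.Run7.h568.Defs

/-!
# Combinatorial model for pairs of filling multicurves on a closed oriented surface

`V` is the set of *directed crossings*: a crossing of `α ∪ β` together with a direction of `β`
there.  For `p : V`, left means the left-hand side of `β` when travelling in the direction of `p`
(on the oriented surface `S`).  `T x` is the forward translation by `x` and `R φ` the left turn by
the angle `φ`, both acting on the right on frames of the hyperbolic plane, i.e. on `SL₂(ℝ)`.
-/

namespace Run7.h568.MC

open Real Matrix

/-- The combinatorics of a closed oriented surface `S` cut by a multicurve `α` and a pants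
decomposition `β` into discs, whose sides lie alternately on `α` and on `β`.
* `iota p` : the directed crossing at the other end of the `α`-edge on the left of `p`, directed so
  that this edge is again on its left;
* `rho p` : the same crossing with the opposite direction of `β`;
* `B p` : the next crossing along `β`, same direction.
`B ∘ iota` permutes cyclically the `α`-sides of each complementary face. -/
structure Pattern (V : Type*) where
  iota : V → V
  rho : V → V
  B : V → V
  iota_iota : ∀ p, iota (iota p) = p
  rho_rho : ∀ p, rho (rho p) = p
  B_rho_B : ∀ p, B (rho (B p)) = rho p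
  iota_ne : ∀ p, iota p ≠ p
  rho_ne : ∀ p, rho p ≠ p
  B_ne : ∀ p, B p ≠ rho p
  /-- no face is a bigon -/
  face_ne : ∀ p, B (iota p) ≠ p
  /-- every face is a quadrilateral, a hexagon or an octagon (in a pair of pants, disjoint
  essential arcs with simply connected complement bound no other faces) -/
  face : ∀ p, B (iota (B (iota p))) = p ∨ B (iota (B (iota (B (iota p))))) = p ∨
    B (iota (B (iota (B (iota (B (iota p))))))) = p
  /-- on each side of each component of `α` some face is not a quadrilateral (no two components of
  `α` are isotopic) -/
  alpha_face : ∀ p, ∃ n : ℕ,
    B (iota (B (iota ((fun q => rho (iota q))^[n] p)))) ≠ (fun q => rho (iota q))^[n] p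
  /-- on each side of each component of `β` some face is not a quadrilateral -/
  beta_face : ∀ p, ∃ n : ℕ, B (iota (B (iota (B^[n] p)))) ≠ B^[n] p
  /-- `β` is a pants decomposition: its number of components is `-3 χ / 2`, where the Euler
  characteristic `χ` is the number of faces minus the number of crossings -/
  pants : 2 * Nat.card (Quot fun p q : V => B p = q) +
    6 * Nat.card (Quot fun p q : V => B (iota p) = q) = 3 * Nat.card V

namespace Pattern

variable {V : Type*} (P : Pattern V)

/-- the next crossing on the same component of `α`, to the left -/
def A (p : V) : V := P.rho (P.iota p)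

/-- the previous crossing on the same component of `β`, with the opposite direction -/
def kap (p : V) : V := P.B (P.rho p)

/-- the next corner of the face behind `p` on its left -/
def tau (p : V) : V := P.B (P.iota p)

/-- the face behind `p` on its left is a quadrilateral -/
def Quad (p : V) : Prop := P.tau (P.tau p) = p

/-- the face behind `p` on its left is a hexagon -/
def Hex (p : V) : Prop := P.tau (P.tau (P.tau p)) = p

/-- the face behind `p` on its left is an octagon -/
def Oct (p : V) : Prop := P.tau (P.tau (P.tau (P.tau p))) = p ∧ P.tau (P.tau p) ≠ p

end Pattern

/-- `M` is the transport from a frame on a geodesic line to a frame on a disjoint, non-asymptotic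
line, each of the two lines lying on the left of the other (and the frames turning by an angle
between `0` and `2π` in between). -/
def IsLeft (M : Matrix (Fin 2) (Fin 2) ℝ) : Prop :=
  0 < M 0 0 ∧ 0 < M 0 1 ∧ M 1 0 < 0 ∧ M 1 1 < 0

/-- Transport from the frame at `p` pointing left along `α` to the frame pointing left at the next
corner of the face behind `p` on its left. -/
noncomputable def side {V : Type*} (P : Pattern V) (x y θ : V → ℝ) (p : V) :
    Matrix (Fin 2) (Fin 2) ℝ :=
  T (x p) * (R (π - θ (P.iota p)) * T (y (P.iota p)) * R (θ (P.tau p)))

/-- Transport from the frame at `p` pointing forward along `β` to the frame at `iota p` pointing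
forward along `β`, along `α`. -/
noncomputable def cross {V : Type*} (P : Pattern V) (x θ : V → ℝ) (p : V) :
    Matrix (Fin 2) (Fin 2) ℝ :=
  R (θ p) * T (x p) * R (π - θ (P.iota p))

/-- A hyperbolic metric on the surface, given by the lengths and angles of the geodesic
realisations of `α` and `β`: `x p` is the length of the `α`-edge on the left of `p`, `y p` the
length of the `β`-edge from `p` to `B p`, and `θ p ∈ (0, π)` the angle at `p` from the forward
direction of `β` to the `α`-edge on the left.  `closes_quad`, `closes_hex`, `closes_oct` say that
the faces are closed polygons; `alpha_left`, `beta_left` and `beta_left_oct` say that the lines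
through two consecutive `α`-sides of a face, and those through any two `β`-sides of a face, are
disjoint and each on the left of the other (this holds in every hyperbolic surface, as lifts of
`α` are disjoint and lifts of `β` are disjoint). -/
structure HypMetric {V : Type*} (P : Pattern V) where
  x : V → ℝ
  y : V → ℝ
  θ : V → ℝ
  x_pos : ∀ p, 0 < x p
  y_pos : ∀ p, 0 < y p
  θ_pos : ∀ p, 0 < θ p
  θ_lt : ∀ p, θ p < π
  x_iota : ∀ p, x (P.iota p) = x p
  y_rho : ∀ p, y (P.rho (P.B p)) = y p
  θ_rho : ∀ p, θ (P.rho p) = θ p
  closes_quad : ∀ p, P.Quad p → side P x y θ p * side P x y θ (P.tau p) = -1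
  closes_hex : ∀ p, P.Hex p →
    side P x y θ p * side P x y θ (P.tau p) * side P x y θ (P.tau (P.tau p)) = -1
  closes_oct : ∀ p, P.Oct p →
    side P x y θ p * side P x y θ (P.tau p) * side P x y θ (P.tau (P.tau p)) *
      side P x y θ (P.tau (P.tau (P.tau p))) = -1
  alpha_left : ∀ p, IsLeft (side P x y θ p)
  beta_left : ∀ p, IsLeft (cross P x θ p)
  beta_left_oct : ∀ p, P.Oct p →
    IsLeft (cross P x θ p * T (y (P.iota p)) * cross P x θ (P.tau p))

namespace HypMetric

variable {V : Type*} {P : Pattern V}

/-- Transport from the frame at `p` pointing left along `α` to the one at `B p`, along `β`. -/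
noncomputable def g (m : HypMetric P) (p : V) : Matrix (Fin 2) (Fin 2) ℝ :=
  R (-m.θ p) * T (m.y p) * R (m.θ (P.B p))

/-- Transport from the frame at `p` pointing forward along `β` to the one at `ι p`, along `α`. -/
noncomputable def G (m : HypMetric P) (p : V) : Matrix (Fin 2) (Fin 2) ℝ :=
  cross P m.x m.θ p

end HypMetric

/-- `m'` is obtained from `m` by the left earthquake along the geodesic realisation of `α` with
weights `a`.  `-κ p` is the displacement to the left, on the stratum ahead of `p`, of the crossing
`p` when the geodesic realisation of `β` for `m` is replaced by the one for `m'`. -/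
def LeftQuake {V : Type*} (P : Pattern V) (a : V → ℝ) (m m' : HypMetric P) : Prop :=
  ∃ κ : V → ℝ,
    (∀ p, T (κ p) * m.g p = m'.g p * T (-κ (P.rho (P.B p)))) ∧
    (∀ p, κ (P.iota p) - κ (P.rho p) = m'.x p - m.x p) ∧
    (∀ p, κ p + κ (P.rho p) = a p)

/-- `m'` is obtained from `m` by the right earthquake along the geodesic realisation of `β` with
weights `b`.  `-μ p` is the displacement forward, on the left side of `β` at `p`, of the crossing
`p` when the geodesic realisation of `α` for `m` is replaced by the one for `m'`. -/
def RightQuake {V : Type*} (P : Pattern V) (b : V → ℝ) (m m' : HypMetric P) : Prop :=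
  ∃ μ : V → ℝ,
    (∀ p, T (μ p) * m.G p = m'.G p * T (μ (P.iota p))) ∧
    (∀ p, μ p - μ (P.B p) = m'.y p - m.y p) ∧
    (∀ p, μ p + μ (P.rho p) = b p)

/-- Mess's description of a GHMC AdS structure whose convex core has upper and lower bending
laminations `½ Σ a α` and `½ Σ b β`: its left and right metrics, related by the left earthquake
along `Σ a α` and by the right earthquake along `Σ b β`. -/
structure Core {V : Type*} (P : Pattern V) (a b : V → ℝ) where
  left : HypMetric P
  right : HypMetric P
  leftQuake : LeftQuake P a right left
  rightQuake : RightQuake P b right left

end Run7.h568.MC
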