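import Pool.Agent.Run7.h568.MC.DerivAlg
import Pool.Agent.Run7.h568.MC.ZLemmas
set_option linter.unusedSectionVars false

/-! Piece DERIV: the first variation of the linear coordinates along a leaf. -/

namespace Run7.h568.MC.Dv

open Real Matrix Pattern

variable {V : Type*} [Fintype V] {P : Pattern V}

section line

variable {m : HypMetric P} {a : (V → ℝ) → V → ℝ} {F : Inv P → HypMetric P}
  (ha : ∀ p, ContDiff ℝ 2 fun τ => a τ p) (hF : ∀ τ : Inv P, LeafRel m τ (a τ) (F τ))
  (τ c : Inv P)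

/-- minus the logarithmic derivative of `a` -/
noncomputable def vv (a : (V → ℝ) → V → ℝ) (τ c : Inv P) (p : V) : ℝ :=
  -(deriv (fun s : ℝ => a ((τ + s • c : Inv P) : V → ℝ) p) 0 / a τ p)

include ha hF

theorem a_pos (τ : Inv P) (p : V) : 0 < a τ p := (hF τ).isA.1 p

theorem line_zero : (τ + (0 : ℝ) • c : Inv P) = τ := by simp

theorem hasDeriv_a (p : V) :
    HasDerivAt (fun s : ℝ => a ((τ + s • c : Inv P) : V → ℝ) p) (-(vv a τ c p) * a τ p) 0 := by
  have h1 : DifferentiableAt ℝ (fun s : ℝ => a ((τ + s • c : Inv P) : V → ℝ) p) 0 := by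
    have h2 : DifferentiableAt ℝ (fun s : ℝ => ((τ + s • c : Inv P) : V → ℝ)) 0 := by
      have : (fun s : ℝ => ((τ + s • c : Inv P) : V → ℝ)) =
          fun s : ℝ => (τ : V → ℝ) + s • (c : V → ℝ) := by
        funext s; simp
      rw [this]
      fun_prop
    have h3 : DifferentiableAt ℝ (fun τ => a τ p)
        ((τ + (0 : ℝ) • c : Inv P) : V → ℝ) :=
      ((ha p).differentiable (by norm_num)).differentiableAt
    exact DifferentiableAt.comp (0 : ℝ) h3 h2
  have h2 := h1.hasDerivAt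
  have h3 : a τ p ≠ 0 := (a_pos ha hF τ p).ne'
  unfold vv
  have : -(-(deriv (fun s : ℝ => a ((τ + s • c : Inv P) : V → ℝ) p) 0 / a τ p)) * a τ p =
      deriv (fun s : ℝ => a ((τ + s • c : Inv P) : V → ℝ) p) 0 := by
    field_simp
  rw [this]
  exact h2

theorem hasDeriv_log_a (p : V) :
    HasDerivAt (fun s : ℝ => log (a ((τ + s • c : Inv P) : V → ℝ) p)) (-(vv a τ c p)) 0 := by
  have h1 := (hasDeriv_a ha hF τ c p).log (by
    have := (a_pos ha hF (τ + (0 : ℝ) • c) p).ne'; exact this)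
  have h3 : a τ p ≠ 0 := (a_pos ha hF τ p).ne'
  have h4 : a ((τ + (0 : ℝ) • c : Inv P) : V → ℝ) p = a τ p := by simp
  rw [h4] at h1
  convert h1 using 1
  field_simp

theorem hasDeriv_logT (p : V) :
    HasDerivAt (fun s : ℝ => log ((F (τ + s • c)).TT p))
      ((c : V → ℝ) p + vv a τ c p + vv a τ c (P.rho p)) 0 := by
  have h1 := hasDeriv_log_a ha hF τ c p
  have h2 := hasDeriv_log_a ha hF τ c (P.rho p)
  have h3 : HasDerivAt (fun s : ℝ => (τ : V → ℝ) p + s * (c : V → ℝ) p) ((c : V → ℝ) p) 0 := by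
    have := ((hasDerivAt_id (0 : ℝ)).mul_const ((c : V → ℝ) p)).const_add ((τ : V → ℝ) p)
    simpa using this
  have h4 := (h3.sub h1).sub h2
  refine (h4.congr_of_eventuallyEq ?_).congr_deriv (by ring)
  filter_upwards with s
  have e := (hF (τ + s • c)).T_eq p
  have p1 := (a_pos ha hF (τ + s • c) p).ne'
  have p2 := (a_pos ha hF (τ + s • c) (P.rho p)).ne'
  rw [e, log_div (exp_pos _).ne' (mul_ne_zero p1 p2), log_exp, log_mul p1 p2]
  simp
  ring

theorem hasDeriv_logE (p : V) :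
    HasDerivAt (fun s : ℝ => log ((F (τ + s • c)).EE p))
      ((c : V → ℝ) p + vv a τ c p + vv a τ c (P.kap p)) 0 := by
  have h1 := hasDeriv_log_a ha hF τ c p
  have h2 := hasDeriv_log_a ha hF τ c (P.kap p)
  have h3 : HasDerivAt (fun s : ℝ => ((τ : V → ℝ) p - m.y (P.rho p)) + s * (c : V → ℝ) p)
      ((c : V → ℝ) p) 0 := by
    have := ((hasDerivAt_id (0 : ℝ)).mul_const ((c : V → ℝ) p)).const_add
      ((τ : V → ℝ) p - m.y (P.rho p))
    simpa using this
  have h4 := (h3.sub h1).sub h2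
  refine (h4.congr_of_eventuallyEq ?_).congr_deriv (by ring)
  filter_upwards with s
  have e := (hF (τ + s • c)).E_eq p
  have p1 := (a_pos ha hF (τ + s • c) p).ne'
  have p2 := (a_pos ha hF (τ + s • c) (P.kap p)).ne'
  rw [e, log_div (exp_pos _).ne' (mul_ne_zero p1 p2), log_exp, log_mul p1 p2]
  simp
  ring

/-- the argument of the Moebius map -/
noncomputable def ww (a : (V → ℝ) → V → ℝ) (τ : Inv P) (p : V) : ℝ :=
  exp (-((τ : V → ℝ) (P.A p))) * a τ (P.A p)

theorem ww_pos (p : V) : 0 < ww a τ p := mul_pos (exp_pos _) (a_pos ha hF τ _)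

theorem hasDeriv_ww (p : V) :
    HasDerivAt (fun s : ℝ => ww a (τ + s • c) p)
      (-((c : V → ℝ) (P.A p) + vv a τ c (P.A p)) * ww a τ p) 0 := by
  have h1 := hasDeriv_a ha hF τ c (P.A p)
  have h3 : HasDerivAt (fun s : ℝ => -((τ : V → ℝ) (P.A p)) - s * (c : V → ℝ) (P.A p))
      (-((c : V → ℝ) (P.A p))) 0 := by
    have := ((hasDerivAt_id (0 : ℝ)).mul_const ((c : V → ℝ) (P.A p))).const_sub
      (-((τ : V → ℝ) (P.A p)))
    simpa using this
  have h4 := h3.exp.mul h1
  refine (h4.congr_of_eventuallyEq ?_).congr_deriv ?_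
  · filter_upwards with s
    unfold ww
    congr 2
    simp
    ring
  · unfold ww
    simp
    ring

/-- the coefficients of the Moebius map are positive -/
theorem coefs (m : HypMetric P) (p : V) : 0 < (m.G p) 0 1 ∧ 0 < (m.G p) 0 0 ∧
    0 < -((m.G p) 1 1) ∧ 0 < -((m.G p) 1 0) ∧
    (m.G p) 0 1 * (-((m.G p) 1 0)) - (m.G p) 0 0 * (-((m.G p) 1 1)) = 1 := by
  have h := G_left m p
  have hd := G_det m p
  exact ⟨h.2.1, h.1, by linarith [h.2.2.2], by linarith [h.2.2.1], by linarith⟩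

/-- elasticity -/
noncomputable def el (M : HypMetric P) (p : V) : ℝ := M.DD p / (M.mu p * M.DD (P.A p))

theorem el_eq' (p : V) : el (F τ) p = ww a τ p /
    (((m.G p) 0 1 * ww a τ p + (m.G p) 0 0) * (-((m.G p) 1 1) * ww a τ p + -((m.G p) 1 0))) := by
  have := (hF τ).el_eq p
  unfold el ww
  rw [this]
  rfl

theorem vv_rec (p : V) : vv a τ c p =
    el (F τ) p * ((c : V → ℝ) (P.A p) + vv a τ c (P.A p)) := by
  obtain ⟨c1, c2, c3, c4, cd⟩ := coefs ha hF m p
  have hw := ww_pos ha hF τ p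
  have h1 := hasDeriv_log_a ha hF τ c p
  have h2 := hasDeriv_ww ha hF τ c p
  set α := (m.G p) 0 1
  set β := (m.G p) 0 0
  set γ := -((m.G p) 1 1)
  set δ := -((m.G p) 1 0)
  have h3 : HasDerivAt (fun s : ℝ => log (α * ww a (τ + s • c) p + β) -
      log (γ * ww a (τ + s • c) p + δ))
      (α * (-((c : V → ℝ) (P.A p) + vv a τ c (P.A p)) * ww a τ p) / (α * ww a τ p + β) -
        γ * (-((c : V → ℝ) (P.A p) + vv a τ c (P.A p)) * ww a τ p) / (γ * ww a τ p + δ)) 0 := by
    have e0 : ww a (τ + (0 : ℝ) • c) p = ww a τ p := by rw [line_zero ha hF]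
    have i1 := ((h2.const_mul α).add_const β).log (by rw [e0]; positivity)
    have i2 := ((h2.const_mul γ).add_const δ).log (by rw [e0]; positivity)
    have := i1.sub i2
    rw [e0] at this
    exact this
  have h4 : (fun s : ℝ => log (a ((τ + s • c : Inv P) : V → ℝ) p)) =
      fun s : ℝ => log (α * ww a (τ + s • c) p + β) - log (γ * ww a (τ + s • c) p + δ) := by
    funext s
    have e := (hF (τ + s • c)).isA.2 p
    have hw := ww_pos ha hF (τ + s • c) p
    rw [e]
    unfold Mob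
    rw [show exp (-(((τ + s • c : Inv P) : V → ℝ) (P.A p))) *
      a ((τ + s • c : Inv P) : V → ℝ) (P.A p) = ww a (τ + s • c) p from rfl]
    rw [← log_div (by positivity) (by positivity)]
    rfl
  rw [h4] at h1
  have h5 := h1.unique h3
  rw [el_eq' ha hF]
  have hX : 0 < α * ww a τ p + β := by positivity
  have hY : 0 < γ * ww a τ p + δ := by positivity
  have h6 : vv a τ c p = ((c : V → ℝ) (P.A p) + vv a τ c (P.A p)) *
      (α * ww a τ p / (α * ww a τ p + β) - γ * ww a τ p / (γ * ww a τ p + δ)) := by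
    have : α * (-((c : V → ℝ) (P.A p) + vv a τ c (P.A p)) * ww a τ p) / (α * ww a τ p + β) -
        γ * (-((c : V → ℝ) (P.A p) + vv a τ c (P.A p)) * ww a τ p) / (γ * ww a τ p + δ) =
        -(((c : V → ℝ) (P.A p) + vv a τ c (P.A p)) *
      (α * ww a τ p / (α * ww a τ p + β) - γ * ww a τ p / (γ * ww a τ p + δ))) := by ring
    linarith
  have h7 : α * ww a τ p / (α * ww a τ p + β) - γ * ww a τ p / (γ * ww a τ p + δ) =
      ww a τ p / ((α * ww a τ p + β) * (γ * ww a τ p + δ)) := by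
    rw [div_sub_div _ _ hX.ne' hY.ne']
    congr 1
    linear_combination (ww a τ p) * cd
  rw [h6, h7]
  ring

/-- the relation between the angles at the two ends of an `α`-edge -/
theorem T_relation (p : V) :
    (F τ).TT (P.A p) * (ww a τ p * ((m.G p) 0 1 * (-((m.G p) 1 1) * ww a τ p + -((m.G p) 1 0)) +
      -((m.G p) 1 1) * ((m.G p) 0 1 * ww a τ p + (m.G p) 0 0) * (F τ).TT p)) =
    (m.G p) 0 0 * (-((m.G p) 1 1) * ww a τ p + -((m.G p) 1 0)) +
      -((m.G p) 1 0) * ((m.G p) 0 1 * ww a τ p + (m.G p) 0 0) * (F τ).TT p := by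
  obtain ⟨c1, c2, c3, c4, cd⟩ := coefs ha hF m p
  have hw := ww_pos ha hF τ p
  obtain ⟨g1, g2, g3, g4⟩ := G_iota m p
  have e1 := (hF τ).isA.2 p
  have e2 := (hF τ).isA.2 (P.iota p)
  have e3 := (hF τ).T_eq p
  have e4 := (hF τ).T_eq (P.A p)
  unfold Mob at e1 e2
  rw [g1, g2, g3, g4, P.A_iota, (τ.2).1 p] at e2
  rw [P.rho_A] at e4
  rw [show exp (-((τ : V → ℝ) (P.A p))) * a τ (P.A p) = ww a τ p from rfl] at e1
  have p1 := a_pos ha hF τ p
  have p2 := a_pos ha hF τ (P.rho p)
  have p3 := a_pos ha hF τ (P.A p)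
  have p4 := a_pos ha hF τ (P.iota p)
  have hwA : ww a τ p * exp ((τ : V → ℝ) (P.A p)) = a τ (P.A p) := by
    unfold ww
    rw [mul_right_comm, ← exp_add]; simp
  set α := (m.G p) 0 1
  set β := (m.G p) 0 0
  set γ := -((m.G p) 1 1)
  set δ := -((m.G p) 1 0)
  have hδ : (m.G p) 1 0 = -δ := by simp [δ]
  set w := ww a τ p
  have hX : 0 < α * w + β := by positivity
  have hY : 0 < γ * w + δ := by positivity
  rw [hδ] at e1 e2
  have e1' : a τ p * (γ * w + δ) = α * w + β := by
    rw [sub_neg_eq_add, eq_div_iff hY.ne'] at e1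
    exact e1
  have hT : 0 < (F τ).TT p := by rw [e3]; positivity
  -- w tilde
  set wt := exp (-((τ : V → ℝ) p)) * a τ (P.rho p) with hwt
  have hwt0 : 0 < wt := by positivity
  have e5 : wt * (a τ p * (F τ).TT p) = 1 := by
    rw [e3, hwt]
    have : exp (-((τ : V → ℝ) p)) * exp ((τ : V → ℝ) p) = 1 := by rw [← exp_add]; simp
    field_simp
    linear_combination this
  have e2' : a τ (P.iota p) * (β * wt + δ) = α * wt + γ := by
    have : 0 < β * wt + δ := by positivity
    rw [neg_neg, sub_neg_eq_add, eq_div_iff this.ne'] at e2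
    exact e2
  have e4' : (F τ).TT (P.A p) * (w * a τ (P.iota p)) = 1 := by
    rw [e4, ← hwA]
    field_simp
  -- multiply
  have k1 : (γ * w + δ) = wt * ((α * w + β) * (F τ).TT p) := by
    have : wt * ((α * w + β) * (F τ).TT p) = (γ * w + δ) * (wt * (a τ p * (F τ).TT p)) := by
      rw [← e1']; ring
    rw [this, e5, mul_one]
  have k2 : α * (γ * w + δ) + γ * (α * w + β) * (F τ).TT p =
      (α * wt + γ) * ((α * w + β) * (F τ).TT p) := by
    rw [k1]; ring
  have k3 : β * (γ * w + δ) + δ * (α * w + β) * (F τ).TT p =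
      (β * wt + δ) * ((α * w + β) * (F τ).TT p) := by
    rw [k1]; ring
  rw [k2, k3, ← e2']
  linear_combination ((β * wt + δ) * ((α * w + β) * (F τ).TT p)) * e4'

theorem hasDeriv_logel (p : V) :
    HasDerivAt (fun s : ℝ => log (el (F (τ + s • c)) p))
      ((F τ).cs (P.A p) * ((c : V → ℝ) (P.A p) + vv a τ c (P.A p)) -
        (F τ).cs p * vv a τ c p) 0 := by
  obtain ⟨c1, c2, c3, c4, cd⟩ := coefs ha hF m p
  have hw := ww_pos ha hF τ p
  have h2 := hasDeriv_ww ha hF τ c p
  have hTr := T_relation ha hF τ p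
  have e3 := (hF τ).T_eq p
  have p1 := a_pos ha hF τ p
  have p2 := a_pos ha hF τ (P.rho p)
  have hT : 0 < (F τ).TT p := by rw [e3]; positivity
  have hv := vv_rec ha hF τ c p
  have hel := el_eq' ha hF τ p
  set α := (m.G p) 0 1
  set β := (m.G p) 0 0
  set γ := -((m.G p) 1 1)
  set δ := -((m.G p) 1 0)
  set σ := (c : V → ℝ) (P.A p) + vv a τ c (P.A p)
  have e0 : ww a (τ + (0 : ℝ) • c) p = ww a τ p := by rw [line_zero ha hF]
  have i0 := h2.log (by rw [e0]; positivity)
  have i1 := ((h2.const_mul α).add_const β).log (by rw [e0]; positivity)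
  have i2 := ((h2.const_mul γ).add_const δ).log (by rw [e0]; positivity)
  have i3 := (i0.sub i1).sub i2
  rw [e0] at i3
  have hX : 0 < α * ww a τ p + β := by positivity
  have hY : 0 < γ * ww a τ p + δ := by positivity
  refine (i3.congr_of_eventuallyEq ?_).congr_deriv ?_
  · filter_upwards with s
    have hw := ww_pos ha hF (τ + s • c) p
    rw [el_eq' ha hF, log_div (by positivity) (by positivity),
      log_mul (by positivity) (by positivity)]
    simp only [Pi.sub_apply]
    ring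
  · have he := eta_identity c1 c2 c3 c4 hw hT cd hTr
    have h1 : (F τ).cs p = (1 - (F τ).TT p) / (1 + (F τ).TT p) := rfl
    have h3 : (F τ).cs (P.A p) = (1 - (F τ).TT (P.A p)) / (1 + (F τ).TT (P.A p)) := rfl
    rw [h1, h3, hv, hel]
    have h4 : -σ * ww a τ p / ww a τ p - α * (-σ * ww a τ p) / (α * ww a τ p + β) -
        γ * (-σ * ww a τ p) / (γ * ww a τ p + δ) =
        -σ * (1 - α * ww a τ p / (α * ww a τ p + β) - γ * ww a τ p / (γ * ww a τ p + δ)) := by
      have a1 : -σ * ww a τ p / ww a τ p = -σ := by field_simp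
      rw [a1]; ring
    rw [h4, he]
    ring

end line

end Run7.h568.MC.Dv
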