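import Pool.Agent.Run7.h568.MC.Deriv
set_option linter.unusedSectionVars false

/-! Piece DERIV, second part. -/

namespace Run7.h568.MC.Dv

open Real Matrix Pattern

variable {V : Type*} [Fintype V] {P : Pattern V}

theorem of_log {f : ℝ → ℝ} {d : ℝ} (hf : ∀ s, 0 < f s)
    (h : HasDerivAt (fun s => log (f s)) d 0) : HasDerivAt f (f 0 * d) 0 := by
  have h1 := h.exp
  rw [exp_log (hf 0)] at h1
  refine h1.congr_of_eventuallyEq ?_
  filter_upwards with s
  rw [exp_log (hf s)]

/-- the ladder relation for `log μ` -/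
theorem log_mu_eq {M : HypMetric P} (hM : GF M) (hZ : GFZ M)
    (h1 : ∀ z, Zh z → M.U (ZA z) = M.lZ (ZA z) + Real.log (1 + Real.exp (M.U z)))
    (h2 : ∀ z, ¬ Zh z → M.U (ZA z) = M.U z)
    (h3 : ∀ z, Zh z → M.muZ z = 1 + Real.exp (-(M.U z))) (p : V) :
    log (M.mu p) = M.U (Sum.inl (P.A p)) - M.U (Sum.inl p) - lad M.lZ p := by
  have key : ∀ z, Zh z → log (M.muZ z) = M.U (ZA z) - M.U z - M.lZ (ZA z) := by
    intro z hz
    rw [h1 z hz, h3 z hz]
    have : 1 + exp (-(M.U z)) = (1 + exp (M.U z)) * exp (-(M.U z)) := by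
      rw [add_mul, ← exp_add]; simp; ring
    rw [this, log_mul (by positivity) (exp_pos _).ne', log_exp]
    ring
  by_cases hq : P.Quad p
  · have hd := not_diag_of_quad hq
    have := h2 (Sum.inl p) (by simpa using hq)
    rw [ZA_inl_not hd] at this
    rw [hM.mu_quad p hq, this]
    simp [lad, hq]
  · by_cases hd : P.Diag p
    · have k1 := key (Sum.inl p) (by simpa using hq)
      have k2 := key (Sum.inr ⟨p, hd⟩) trivial
      rw [ZA_inl_diag hd] at k1
      rw [ZA_inr] at k2
      rw [← hZ.mu_split p hd, log_mul, k1, k2]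
      · simp only [lad, hq, hd, if_false, dif_pos]
        ring
      · have := hZ.muZ_gt (Sum.inl p) (by simpa using hq)
        linarith
      · have := hZ.muZ_gt (Sum.inr ⟨p, hd⟩) trivial
        linarith
    · have k1 := key (Sum.inl p) (by simpa using hq)
      rw [ZA_inl_not hd] at k1
      have : M.muZ (Sum.inl p) = M.mu p := by simp [HypMetric.muZ, hd]
      rw [this] at k1
      rw [k1]
      simp [lad, hq, hd]

section line

variable {m : HypMetric P} {a : (V → ℝ) → V → ℝ} {F : Inv P → HypMetric P}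
  (ha : ∀ p, ContDiff ℝ 2 fun τ => a τ p) (hF : ∀ τ : Inv P, LeafRel m τ (a τ) (F τ))
  (hG : ∀ M : HypMetric P, GF M) (hGZ : ∀ M : HypMetric P, GFZ M)
  (τ c : Inv P)

/-- derivative of `log D` -/
noncomputable def dD (M : HypMetric P) (c v : V → ℝ) (p : V) : ℝ :=
  -(M.cs p + 1 / M.DD p) * (c p + v p) - M.The p / M.DD (P.rho p) * v (P.rho p)
    + M.Lam p / M.DD (P.kap p) * v (P.kap p)

include ha hF hG

theorem hasDeriv_T (p : V) :
    HasDerivAt (fun s : ℝ => (F (τ + s • c)).TT p)
      ((F τ).TT p * ((c : V → ℝ) p + vv a τ c p + vv a τ c (P.rho p))) 0 := by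
  have := of_log (fun s => TT_pos (hG (F (τ + s • c))) p) (hasDeriv_logT ha hF τ c p)
  rw [line_zero ha hF] at this
  exact this

theorem hasDeriv_E (p : V) :
    HasDerivAt (fun s : ℝ => (F (τ + s • c)).EE p)
      ((F τ).EE p * ((c : V → ℝ) p + vv a τ c p + vv a τ c (P.kap p))) 0 := by
  have := of_log (fun s => (hG (F (τ + s • c))).E_pos p) (hasDeriv_logE ha hF τ c p)
  rw [line_zero ha hF] at this
  exact this

theorem hasDeriv_logD (p : V) :
    HasDerivAt (fun s : ℝ => log ((F (τ + s • c)).DD p)) (dD (F τ) c (vv a τ c) p) 0 := by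
  have h1 := hasDeriv_T ha hF hG τ c p
  have h2 := hasDeriv_E ha hF hG τ c p
  have hT := TT_pos (hG (F τ)) p
  have hE := (hG (F τ)).E_pos p
  have hTE := TE_pos (hG (F τ)) p
  have z0 := line_zero ha hF τ c
  have i1 := (h2.const_add 1).log (by rw [z0]; positivity)
  have i2 := (h1.const_add 1).log (by rw [z0]; positivity)
  have i3 := (h1.sub h2).log (by
    have : (fun s : ℝ => (F (τ + s • c)).TT p) 0 - (fun s : ℝ => (F (τ + s • c)).EE p) 0 =
      (F τ).TT p - (F τ).EE p := by simp
    simp only [Pi.sub_apply]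
    rw [this]; exact hTE.ne')
  have i4 := (i1.add i2).sub i3
  refine (i4.congr_of_eventuallyEq ?_).congr_deriv ?_
  · filter_upwards with s
    have k1 := TT_pos (hG (F (τ + s • c))) p
    have k2 := (hG (F (τ + s • c))).E_pos p
    have k3 := TE_pos (hG (F (τ + s • c))) p
    rw [DD_eq'' (hG _), log_div (by positivity) k3.ne', log_mul (by positivity) (by positivity)]
    rfl
  · have := dD_identity (hG (F τ)) p ((c : V → ℝ) p + vv a τ c p) (vv a τ c (P.rho p))
      (vv a τ c (P.kap p))
    unfold dD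
    rw [← this]
    simp only [Pi.sub_apply, z0]
    ring

theorem hasDeriv_D (p : V) :
    HasDerivAt (fun s : ℝ => (F (τ + s • c)).DD p)
      ((F τ).DD p * dD (F τ) c (vv a τ c) p) 0 := by
  have := of_log (fun s => DD_pos (hG (F (τ + s • c))) p) (hasDeriv_logD ha hF hG τ c p)
  rw [line_zero ha hF] at this
  exact this

theorem mu_pos (hM : ∀ M : HypMetric P, GF M) (M : HypMetric P) (p : V) : 0 < M.mu p := by
  by_cases hq : P.Quad p
  · rw [(hM M).mu_quad p hq]; norm_num
  · have := (hM M).mu_gt p hq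
    linarith

/-- derivative of `log μ` -/
noncomputable def dmu (M : HypMetric P) (c v : V → ℝ) (p : V) : ℝ :=
  dD M c v p - dD M c v (P.A p) - (M.cs (P.A p) * (c (P.A p) + v (P.A p)) - M.cs p * v p)

theorem hasDeriv_logmu (p : V) :
    HasDerivAt (fun s : ℝ => log ((F (τ + s • c)).mu p)) (dmu (F τ) c (vv a τ c) p) 0 := by
  have h1 := hasDeriv_logD ha hF hG τ c p
  have h2 := hasDeriv_logD ha hF hG τ c (P.A p)
  have h3 := hasDeriv_logel ha hF τ c p
  have h4 := (h1.sub h2).sub h3
  refine (h4.congr_of_eventuallyEq ?_)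
  filter_upwards with s
  have k1 := DD_pos (hG (F (τ + s • c))) p
  have k2 := DD_pos (hG (F (τ + s • c))) (P.A p)
  have k3 := mu_pos ha hF hG hG (F (τ + s • c)) p
  simp only [Pi.sub_apply]
  unfold el
  rw [log_div k1.ne' (by positivity), log_mul k3.ne' k2.ne']
  ring

theorem hasDeriv_mu (p : V) :
    HasDerivAt (fun s : ℝ => (F (τ + s • c)).mu p)
      ((F τ).mu p * dmu (F τ) c (vv a τ c) p) 0 := by
  have := of_log (fun s => mu_pos ha hF hG hG (F (τ + s • c)) p) (hasDeriv_logmu ha hF hG τ c p)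
  rw [line_zero ha hF] at this
  exact this

theorem hasDeriv_logThe (p : V) :
    HasDerivAt (fun s : ℝ => log ((F (τ + s • c)).The p))
      (dD (F τ) c (vv a τ c) p + dD (F τ) c (vv a τ c) (P.rho p) +
        (F τ).cs p * ((c : V → ℝ) p + vv a τ c p + vv a τ c (P.rho p))) 0 := by
  have h0 := hasDeriv_logT ha hF τ c p
  have h1 := hasDeriv_logD ha hF hG τ c p
  have h2 := hasDeriv_logD ha hF hG τ c (P.rho p)
  have hT := TT_pos (hG (F τ)) p
  have z0 := line_zero ha hF τ c
  have h3 := ((hasDeriv_T ha hF hG τ c p).const_add 1).log (by rw [z0]; positivity)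
  have h4 := ((h0.add h1).add h2).sub (h3.const_mul 2)
  refine (h4.congr_of_eventuallyEq ?_).congr_deriv ?_
  · filter_upwards with s
    have k0 := TT_pos (hG (F (τ + s • c))) p
    have k1 := SS_pos (hG (F (τ + s • c))) p
    have k2 := SS_pos (hG (F (τ + s • c))) (P.rho p)
    simp only [Pi.sub_apply, Pi.add_apply]
    rw [The_eq (hG _), DD_eq (hG _), DD_eq (hG _), TT_rho (hG _)]
    rw [log_mul (by positivity) k2.ne', log_mul k0.ne' k1.ne', log_mul (by positivity) k1.ne',
      log_mul (by positivity) k2.ne']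
    ring
  · rw [z0]
    have : (F τ).cs p = (1 - (F τ).TT p) / (1 + (F τ).TT p) := rfl
    rw [this]
    field_simp
    ring

theorem hasDeriv_logLam (p : V) :
    HasDerivAt (fun s : ℝ => log ((F (τ + s • c)).Lam p))
      (dD (F τ) c (vv a τ c) p + dD (F τ) c (vv a τ c) (P.kap p) +
        (F τ).ce p * ((c : V → ℝ) p + vv a τ c p + vv a τ c (P.kap p))) 0 := by
  have h0 := hasDeriv_logE ha hF τ c p
  have h1 := hasDeriv_logD ha hF hG τ c p
  have h2 := hasDeriv_logD ha hF hG τ c (P.kap p)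
  have hT := (hG (F τ)).E_pos p
  have z0 := line_zero ha hF τ c
  have h3 := ((hasDeriv_E ha hF hG τ c p).const_add 1).log (by rw [z0]; positivity)
  have h4 := ((h0.add h1).add h2).sub (h3.const_mul 2)
  refine (h4.congr_of_eventuallyEq ?_).congr_deriv ?_
  · filter_upwards with s
    have k0 := (hG (F (τ + s • c))).E_pos p
    have k1 := SS_pos (hG (F (τ + s • c))) p
    have k2 := SS_pos (hG (F (τ + s • c))) (P.kap p)
    have k3 : (F (τ + s • c)).SS p + 1 ≠ 0 := by positivity
    have k4 : (F (τ + s • c)).SS (P.kap p) + 1 ≠ 0 := by positivity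
    have k5 : 1 + (F (τ + s • c)).EE p ≠ 0 := by positivity
    simp only [Pi.sub_apply, Pi.add_apply]
    rw [Lam_eq (hG _), DD_eq' (hG _), DD_eq' (hG _), (hG _).E_kap]
    rw [log_mul (mul_ne_zero k0.ne' k3) k4, log_mul k0.ne' k3, log_mul k5 k3,
      log_mul k5 k4]
    ring
  · rw [z0]
    have : (F τ).ce p = (1 - (F τ).EE p) / (1 + (F τ).EE p) := rfl
    rw [this]
    field_simp
    ring

theorem hasDeriv_Lam (p : V) :
    HasDerivAt (fun s : ℝ => (F (τ + s • c)).Lam p)
      ((F τ).Lam p * (dD (F τ) c (vv a τ c) p + dD (F τ) c (vv a τ c) (P.kap p) +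
        (F τ).ce p * ((c : V → ℝ) p + vv a τ c p + vv a τ c (P.kap p)))) 0 := by
  have := of_log (fun s => Lam_pos (hG (F (τ + s • c))) p) (hasDeriv_logLam ha hF hG τ c p)
  rw [line_zero ha hF] at this
  exact this

include hGZ

theorem diff_muV (p : V) (hd : P.Diag p) :
    DifferentiableAt ℝ (fun s : ℝ => (F (τ + s • c)).muV p) 0 := by
  have h1 := (hasDeriv_mu ha hF hG τ c (P.tau p)).differentiableAt
  have h2 := (hasDeriv_Lam ha hF hG τ c (P.A p)).differentiableAt
  unfold HypMetric.muV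
  refine DifferentiableAt.div (h1.sub_const 1) ((h1.sub_const 1).sub h2) ?_
  have z0 := line_zero ha hF τ c
  rw [z0]
  intro h0
  have h3 := (hGZ (F τ)).muZ_gt (Sum.inr ⟨p, hd⟩) trivial
  have h4 : (F τ).muZ (Sum.inr ⟨p, hd⟩) = (F τ).muV p := rfl
  rw [h4] at h3
  unfold HypMetric.muV at h3
  rw [h0] at h3
  simp at h3
  linarith

theorem diff_U (z : P.Z) : DifferentiableAt ℝ (fun s : ℝ => (F (τ + s • c)).U z) 0 := by
  have z0 := line_zero ha hF τ c
  rcases z with p | p
  · change DifferentiableAt ℝ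
      (fun s : ℝ => -log ((F (τ + s • c)).muZ (Sum.inl (P.top p)) - 1)) 0
    have h3 := (hGZ (F τ)).muZ_gt (Sum.inl (P.top p)) (by simpa using P.not_quad_top p)
    refine (DifferentiableAt.log ?_ ?_).neg
    · refine DifferentiableAt.sub_const ?_ 1
      by_cases hd : P.Diag (P.top p)
      · have e : (fun s : ℝ => (F (τ + s • c)).muZ (Sum.inl (P.top p))) =
            fun s : ℝ => (F (τ + s • c)).mu (P.top p) / (F (τ + s • c)).muV (P.top p) := by
          funext s; simp [HypMetric.muZ, hd]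
        rw [e]
        refine DifferentiableAt.div (hasDeriv_mu ha hF hG τ c _).differentiableAt
          (diff_muV ha hF hG hGZ τ c _ hd) ?_
        rw [z0]
        have h4 := (hGZ (F τ)).muZ_gt (Sum.inr ⟨P.top p, hd⟩) trivial
        have h5 : (F τ).muZ (Sum.inr ⟨P.top p, hd⟩) = (F τ).muV (P.top p) := rfl
        rw [h5] at h4
        linarith
      · have e : (fun s : ℝ => (F (τ + s • c)).muZ (Sum.inl (P.top p))) =
            fun s : ℝ => (F (τ + s • c)).mu (P.top p) := by
          funext s; simp [HypMetric.muZ, hd]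
        rw [e]
        exact (hasDeriv_mu ha hF hG τ c _).differentiableAt
    · rw [z0]; linarith
  · change DifferentiableAt ℝ (fun s : ℝ => -log ((F (τ + s • c)).muV p - 1)) 0
    refine (DifferentiableAt.log ?_ ?_).neg
    · exact (diff_muV ha hF hG hGZ τ c _ p.2).sub_const 1
    · rw [z0]
      have h4 := (hGZ (F τ)).muZ_gt (Sum.inr p) trivial
      have h5 : (F τ).muZ (Sum.inr p) = (F τ).muV p := rfl
      rw [h5] at h4
      linarith

end line

end Run7.h568.MC.Dv
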