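import Pool.Agent.Run7.h568.MC.Deriv2
set_option linter.unusedSectionVars false

/-! Piece DERIV, third part. -/

namespace Run7.h568.MC.Dv

open Real Matrix Pattern

variable {V : Type*} [Fintype V] {P : Pattern V}

section line

variable {m : HypMetric P} {a : (V → ℝ) → V → ℝ} {F : Inv P → HypMetric P}
  (ha : ∀ p, ContDiff ℝ 2 fun τ => a τ p) (hF : ∀ τ : Inv P, LeafRel m τ (a τ) (F τ))
  (hG : ∀ M : HypMetric P, GF M) (hGZ : ∀ M : HypMetric P, GFZ M)
  (hL : S_LIN1 P)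
  (hlin : ContDiff ℝ 2 (fun τ : Inv P => (F τ).lin))
  (τ c : Inv P)

/-- the variation -/
noncomputable def vlin (F : Inv P → HypMetric P) (τ c : Inv P) : P.W :=
  fderiv ℝ (fun τ : Inv P => (F τ).lin) τ c

/-- derivative of `U` -/
noncomputable def dU (F : Inv P → HypMetric P) (τ c : Inv P) (z : P.Z) : ℝ :=
  deriv (fun s : ℝ => (F (τ + s • c)).U z) 0

include ha hF hG hGZ hL hlin

theorem hasDeriv_U (z : P.Z) :
    HasDerivAt (fun s : ℝ => (F (τ + s • c)).U z) (dU F τ c z) 0 :=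
  (diff_U ha hF hG hGZ τ c z).hasDerivAt

theorem hasDeriv_lin :
    HasDerivAt (fun s : ℝ => (F (τ + s • c)).lin) (vlin F τ c) 0 := by
  have h1 : DifferentiableAt ℝ (fun τ : Inv P => (F τ).lin) (τ + (0 : ℝ) • c) :=
    (hlin.differentiable (by norm_num)).differentiableAt
  have h2 : HasDerivAt (fun s : ℝ => τ + s • c) c 0 := by
    have := ((hasDerivAt_id (0 : ℝ)).smul_const c).const_add τ
    simpa using this
  have h3 := h1.hasFDerivAt.comp_hasDerivAt (0 : ℝ) h2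
  have z0 := line_zero ha hF τ c
  rw [z0] at h3
  exact h3

theorem hasDeriv_l (z : P.Z) :
    HasDerivAt (fun s : ℝ => (F (τ + s • c)).lZ z) ((vlin F τ c).1 z) 0 := by
  have h := hasDeriv_lin ha hF hG hGZ hL hlin τ c
  have h1 := h.fst
  exact (hasDerivAt_pi.1 h1) z

theorem hasDeriv_w (p : V) :
    HasDerivAt (fun s : ℝ => (F (τ + s • c)).w p) ((vlin F τ c).2 p) 0 := by
  have h := hasDeriv_lin ha hF hG hGZ hL hlin τ c
  have h1 := h.snd
  exact (hasDerivAt_pi.1 h1) p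

theorem l_rel (p : V) : (vlin F τ c).1 (Sum.inl p) =
    dD (F τ) c (vv a τ c) p + dD (F τ) c (vv a τ c) (P.kap p) +
        (F τ).ce p * ((c : V → ℝ) p + vv a τ c p + vv a τ c (P.kap p)) +
      dU F τ c (Sum.inl p) + dU F τ c (Sum.inl (P.kap p)) := by
  have h1 := hasDeriv_l ha hF hG hGZ hL hlin τ c (Sum.inl p)
  have h2 := hasDeriv_logLam ha hF hG τ c p
  have h3 := hasDeriv_U ha hF hG hGZ hL hlin τ c (Sum.inl p)
  have h4 := hasDeriv_U ha hF hG hGZ hL hlin τ c (Sum.inl (P.kap p))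
  exact h1.unique ((h2.add h3).add h4)

theorem w_rel (p : V) : (vlin F τ c).2 p =
    dD (F τ) c (vv a τ c) p + dD (F τ) c (vv a τ c) (P.rho p) +
        (F τ).cs p * ((c : V → ℝ) p + vv a τ c p + vv a τ c (P.rho p)) +
      dU F τ c (Sum.inl p) + dU F τ c (Sum.inl (P.rho p)) := by
  have h1 := hasDeriv_w ha hF hG hGZ hL hlin τ c p
  have h2 := hasDeriv_logThe ha hF hG τ c p
  have h3 := hasDeriv_U ha hF hG hGZ hL hlin τ c (Sum.inl p)
  have h4 := hasDeriv_U ha hF hG hGZ hL hlin τ c (Sum.inl (P.rho p))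
  exact h1.unique ((h2.add h3).add h4)

theorem mu_rel (p : V) : dmu (F τ) c (vv a τ c) p =
    dU F τ c (Sum.inl (P.A p)) - dU F τ c (Sum.inl p) - lad (vlin F τ c).1 p := by
  have h1 := hasDeriv_logmu ha hF hG τ c p
  have h3 := hasDeriv_U ha hF hG hGZ hL hlin τ c (Sum.inl (P.A p))
  have h4 := hasDeriv_U ha hF hG hGZ hL hlin τ c (Sum.inl p)
  have h5 : HasDerivAt (fun s : ℝ => lad (F (τ + s • c)).lZ p) (lad (vlin F τ c).1 p) 0 := by
    unfold lad
    by_cases hq : P.Quad p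
    · simp only [hq, if_true]; exact hasDerivAt_const _ _
    · by_cases hd : P.Diag p
      · simp only [hq, if_false, hd, dif_pos]
        exact (hasDeriv_l ha hF hG hGZ hL hlin τ c _).add
          (hasDeriv_l ha hF hG hGZ hL hlin τ c _)
      · simp only [hq, if_false, hd, dif_neg, not_false_iff, zero_add]
        exact hasDeriv_l ha hF hG hGZ hL hlin τ c _
  have h6 := (h3.sub h4).sub h5
  refine h1.unique (h6.congr_of_eventuallyEq ?_)
  filter_upwards with s
  obtain ⟨-, k1, k2, k3⟩ := hL (F (τ + s • c)) (hG _) (hGZ _)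
  exact log_mu_eq (hG _) (hGZ _) k1 k2 k3 p

theorem U_explicit (p : V) (hq : ¬ P.Quad p) (hd : ¬ P.Diag p) :
    ((F τ).mu p - 1) * dU F τ c (Sum.inl p) = -((F τ).mu p * dmu (F τ) c (vv a τ c) p) := by
  have z0 := line_zero ha hF τ c
  have h1 := hasDeriv_mu ha hF hG τ c p
  have h2 := (hG (F τ)).mu_gt p hq
  have h3 := ((h1.sub_const 1).log (by rw [z0]; linarith)).neg
  have h4 := hasDeriv_U ha hF hG hGZ hL hlin τ c (Sum.inl p)
  have h5 : (fun s : ℝ => (F (τ + s • c)).U (Sum.inl p)) =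
      fun s : ℝ => -log ((F (τ + s • c)).mu p - 1) := by
    funext s
    simp [HypMetric.U, P.top_of_not_quad hq, HypMetric.muZ, hd]
  rw [h5] at h4
  have h6 := h4.unique h3
  rw [z0] at h6
  have h7 : (F τ).mu p - 1 ≠ 0 := by linarith
  rw [h6]
  field_simp

/-- the partial sums -/
noncomputable def sN (a : (V → ℝ) → V → ℝ) (F : Inv P → HypMetric P) (τ c : Inv P) : P.Z → ℝ
  | Sum.inl p => ((c : V → ℝ) p + vv a τ c p) / (F τ).DD p
  | Sum.inr p => ((c : V → ℝ) (P.A p) + vv a τ c (P.A p)) / (F τ).DD (P.A p) / (F τ).muV p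

/-- `s'` -/
noncomputable def sp (a : (V → ℝ) → V → ℝ) (F : Inv P → HypMetric P) (τ c : Inv P)
    (z : P.Z) : ℝ := sN a F τ c (ZA z) / (F τ).muZ z

theorem muV_gt (M : HypMetric P) {p : V} (hd : P.Diag p) : 1 < M.muV p :=
  (hGZ M).muZ_gt (Sum.inr ⟨p, hd⟩) trivial

theorem sp_inl (p : V) : sp a F τ c (Sum.inl p) = vv a τ c p / (F τ).DD p := by
  have hv := vv_rec ha hF τ c p
  have hD := DD_pos (hG (F τ)) p
  have hDA := DD_pos (hG (F τ)) (P.A p)
  have hmu := mu_pos ha hF hG hG (F τ) p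
  unfold sp
  by_cases hd : P.Diag p
  · rw [ZA_inl_diag hd]
    have hV := muV_gt ha hF hG hGZ hL hlin (F τ) hd
    have e : (F τ).muZ (Sum.inl p) = (F τ).mu p / (F τ).muV p := by
      simp [HypMetric.muZ, hd]
    rw [e, hv]
    unfold sN el
    have : (F τ).muV p ≠ 0 := by linarith
    field_simp
  · rw [ZA_inl_not hd]
    have e : (F τ).muZ (Sum.inl p) = (F τ).mu p := by simp [HypMetric.muZ, hd]
    rw [e, hv]
    unfold sN el
    field_simp

theorem sp_inr (p : {p : V // P.Diag p}) : sp a F τ c (Sum.inr p) = sN a F τ c (Sum.inr p) := by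
  unfold sp
  rw [ZA_inr]
  rfl

/-- `N` at crossings -/
noncomputable def Nn (a : (V → ℝ) → V → ℝ) (F : Inv P → HypMetric P) (τ c : Inv P) (p : V) : ℝ :=
  dU F τ c (Sum.inl p) + dD (F τ) c (vv a τ c) p + (F τ).ce p * vv a τ c p

/-- `N` -/
noncomputable def NN (a : (V → ℝ) → V → ℝ) (F : Inv P → HypMetric P) (τ c : Inv P) : P.Z → ℝ
  | Sum.inl p => Nn a F τ c p
  | Sum.inr p => Nn a F τ c p - 2 * sp a F τ c (Sum.inl (p : V)) + 2 * sp a F τ c (Sum.inr p) +
      (vlin F τ c).1 (Sum.inr p)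

theorem ce_kap (M : HypMetric P) (p : V) : M.ce (P.kap p) = M.ce p := by
  unfold HypMetric.ce; rw [(hG M).E_kap]

theorem c_kap (p : V) : (c : V → ℝ) (P.kap p) = (c : V → ℝ) p := by
  unfold Pattern.kap
  rw [c.2.2, c.2.1]

theorem l_inl (p : V) : (vlin F τ c).1 (Sum.inl p) =
    (c : V → ℝ) p * (F τ).ce p + Nn a F τ c p + Nn a F τ c (P.kap p) := by
  rw [l_rel ha hF hG hGZ hL hlin]
  unfold Nn
  rw [ce_kap ha hF hG hGZ hL hlin]
  ring

theorem two_sp (p : V) : 2 * sp a F τ c (Sum.inl p) = ((F τ).ce p - (F τ).cs p) * vv a τ c p := by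
  rw [sp_inl ha hF hG hGZ hL hlin, ce_eq (hG _)]
  ring

theorem cs_rho (M : HypMetric P) (p : V) : M.cs (P.rho p) = M.cs p := by
  unfold HypMetric.cs; rw [TT_rho (hG M)]

theorem w_inl (p : V) : (vlin F τ c).2 p =
    (c : V → ℝ) p * (F τ).cs p - 2 * sp a F τ c (Sum.inl p) - 2 * sp a F τ c (Sum.inl (P.rho p))
      + Nn a F τ c p + Nn a F τ c (P.rho p) := by
  rw [w_rel ha hF hG hGZ hL hlin, two_sp ha hF hG hGZ hL hlin, two_sp ha hF hG hGZ hL hlin]
  unfold Nn
  rw [cs_rho ha hF hG hGZ hL hlin]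
  ring

/-- the ladder relation -/
theorem lad_rel (p : V) : lad (vlin F τ c).1 p =
    (Nn a F τ c (P.A p) - 2 * sp a F τ c (Sum.inl (P.A p))) -
      (Nn a F τ c p - 2 * sp a F τ c (Sum.inl p)) + (c : V → ℝ) (P.A p) * (F τ).cs (P.A p) := by
  have h := mu_rel ha hF hG hGZ hL hlin τ c p
  rw [two_sp ha hF hG hGZ hL hlin, two_sp ha hF hG hGZ hL hlin]
  unfold Nn
  unfold dmu at h
  linear_combination h

/-- explicit formula for `N` at corners of hexagons and at corners of octagons which are not ends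
of the diagonal -/
theorem N_explicit (q : V) (hq : ¬ P.Quad q) (hd : ¬ P.Diag q) :
    ((F τ).mu q - 1) * Nn a F τ c q =
      -((F τ).mu q - 1) ^ 2 * sp a F τ c (Sum.inl q)
        - (F τ).Lam q * sN a F τ c (Sum.inl (P.kap q))
        + (F τ).mu q * (F τ).Lam (P.A q) * sp a F τ c (Sum.inl (P.tau q)) := by
  have hU := U_explicit ha hF hG hGZ hL hlin τ c q hq hd
  have hbr := bracket (hG (F τ)) q
  have hThe := (hG (F τ)).The_A q
  have hmu := mu_pos ha hF hG hG (F τ) q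
  have hmui := mu_pos ha hF hG hG (F τ) (P.iota q)
  have d1 := DD_pos (hG (F τ)) q
  have d2 := DD_pos (hG (F τ)) (P.rho q)
  have d3 := DD_pos (hG (F τ)) (P.kap q)
  have d4 := DD_pos (hG (F τ)) (P.A q)
  have d5 := DD_pos (hG (F τ)) (P.iota q)
  have d6 := DD_pos (hG (F τ)) (P.tau q)
  -- elasticity at q and at iota q
  have v1 := vv_rec ha hF τ c q
  have v2 := vv_rec ha hF τ c (P.iota q)
  rw [P.A_iota] at v2
  unfold el at v1 v2
  rw [P.A_iota] at v2
  have s1 : vv a τ c q / (F τ).DD q * (F τ).mu q =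
      ((c : V → ℝ) (P.A q) + vv a τ c (P.A q)) / (F τ).DD (P.A q) := by
    rw [v1]; field_simp
  have s2 : vv a τ c (P.iota q) / (F τ).DD (P.iota q) * (F τ).mu (P.iota q) =
      ((c : V → ℝ) (P.rho q) + vv a τ c (P.rho q)) / (F τ).DD (P.rho q) := by
    rw [v2]; field_simp
  have c1 : (c : V → ℝ) (P.rho q) = (c : V → ℝ) q := c.2.1 q
  have c2 := c_kap ha hF hG hGZ hL hlin c q
  rw [sp_inl ha hF hG hGZ hL hlin, sp_inl ha hF hG hGZ hL hlin]
  unfold Nn
  have hs : sN a F τ c (Sum.inl (P.kap q)) =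
      ((c : V → ℝ) q + vv a τ c (P.kap q)) / (F τ).DD (P.kap q) := by
    rw [← c2]; rfl
  rw [hs]
  rw [c1] at s2
  rw [ce_eq (hG (F τ))]
  unfold dmu dD at hU
  unfold dD
  rw [P.rho_A, P.kap_A] at hU
  set M := F τ
  set v := vv a τ c
  set cq := (c : V → ℝ) q
  set cA := (c : V → ℝ) (P.A q)
  -- divide everything by the D's
  have e1 : (M.The (P.A q)) / M.DD (P.iota q) * v (P.iota q) * M.mu q =
      M.The q * ((cq + v (P.rho q)) / M.DD (P.rho q)) := by
    rw [← s2]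
    linear_combination (v (P.iota q) / M.DD (P.iota q)) * hThe
  linear_combination hU + M.mu q * s1 - e1 - cq * hbr

end line

end Run7.h568.MC.Dv
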