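import Pool.Agent.Run7.h568.MC.Deriv3
set_option linter.unusedSectionVars false

/-! Piece DERIV, conclusion. -/

namespace Run7.h568.MC.Dv

open Real Matrix Pattern

variable {V : Type*} [Fintype V] {P : Pattern V}

section line

variable {m : HypMetric P} {a : (V → ℝ) → V → ℝ} {F : Inv P → HypMetric P}
  (ha : ∀ p, ContDiff ℝ 2 fun τ => a τ p) (hF : ∀ τ : Inv P, LeafRel m τ (a τ) (F τ))
  (hG : ∀ M : HypMetric P, GF M) (hGZ : ∀ M : HypMetric P, GFZ M)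
  (hL : S_LIN1 P)
  (hlin : ContDiff ℝ 2 (fun τ : Inv P => (F τ).lin))
  (τ c : Inv P)

include ha hF hG hGZ hL hlin

theorem sN_inl (p : V) : sN a F τ c (Sum.inl p) =
    (c : V → ℝ) p / (F τ).DD p + sp a F τ c (Sum.inl p) := by
  rw [sp_inl ha hF hG hGZ hL hlin]
  change ((c : V → ℝ) p + vv a τ c p) / (F τ).DD p = _
  ring

theorem c_ce (p : V) : (c : V → ℝ) p * (F τ).ce p = (c : V → ℝ) p * (F τ).cs p +
    2 * (sN a F τ c (Sum.inl p) - sp a F τ c (Sum.inl p)) := by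
  rw [sN_inl ha hF hG hGZ hL hlin, ce_eq (hG _)]
  ring

theorem rel_I (q : V) (hd : P.Diag q) : (vlin F τ c).1 (Sum.inr ⟨q, hd⟩) =
    -(Nn a F τ c q + Nn a F τ c (P.tau q)) - 2 * sN a F τ c (Sum.inl (P.A q)) +
      2 * sp a F τ c (Sum.inl q) := by
  have h1 := lad_rel ha hF hG hGZ hL hlin τ c q
  have h2 := l_inl ha hF hG hGZ hL hlin τ c (P.A q)
  have h3 := c_ce ha hF hG hGZ hL hlin τ c (P.A q)
  have hq : ¬ P.Quad q := hd.oct.2
  rw [P.kap_A, h3] at h2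
  have h4 : lad (vlin F τ c).1 q =
      (vlin F τ c).1 (Sum.inr ⟨q, hd⟩) + (vlin F τ c).1 (Sum.inl (P.A q)) := by
    simp [lad, hq, hd]
  rw [h4, h2] at h1
  linarith

theorem rel_II (q : V) (hq : ¬ P.Quad q) (hd : ¬ P.Diag q) :
    Nn a F τ c q + Nn a F τ c (P.tau q) =
      -2 * (sN a F τ c (Sum.inl (P.A q)) - sp a F τ c (Sum.inl q)) := by
  have h1 := lad_rel ha hF hG hGZ hL hlin τ c q
  have h2 := l_inl ha hF hG hGZ hL hlin τ c (P.A q)
  have h3 := c_ce ha hF hG hGZ hL hlin τ c (P.A q)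
  rw [P.kap_A, h3] at h2
  have h4 : lad (vlin F τ c).1 q = (vlin F τ c).1 (Sum.inl (P.A q)) := by
    simp [lad, hq, hd]
  rw [h4, h2] at h1
  linarith

theorem sN_ZA (z : P.Z) : sN a F τ c (ZA z) = (F τ).muZ z * sp a F τ c z := by
  have h : (F τ).muZ z ≠ 0 := by
    by_cases hz : Zh z
    · have := (hGZ (F τ)).muZ_gt z hz
      linarith
    · rw [(hGZ (F τ)).muZ_quad z hz]; norm_num
  unfold sp
  field_simp

theorem rel_IV (p : V) (hd : P.Diag p) (hd2 : P.Diag (P.tau (P.tau p))) :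
    Nn a F τ c (P.tau (P.tau (P.tau p))) =
      -(sN a F τ c (Sum.inl (P.A (P.tau (P.tau (P.tau p))))) -
          sp a F τ c (Sum.inl (P.tau (P.tau (P.tau p)))))
      - (sN a F τ c (Sum.inl (P.A (P.tau (P.tau p)))) -
          sN a F τ c (Sum.inr ⟨P.tau (P.tau p), hd2⟩))
      + (sN a F τ c (Sum.inr ⟨p, hd⟩) - sp a F τ c (Sum.inl p)) := by
  have ho := hd.oct
  have h4 : P.tau (P.tau (P.tau (P.tau p))) = p := ho.1
  have ho2 : P.Oct (P.tau (P.tau p)) := hd2.oct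
  have ho3 : P.Oct (P.tau (P.tau (P.tau p))) := P.oct_tau.2 ho2
  have hq3 : ¬ P.Quad (P.tau (P.tau (P.tau p))) := ho3.2
  have hd3 : ¬ P.Diag (P.tau (P.tau (P.tau p))) := by
    rw [P.diag_tau ho2]; exact not_not.2 hd2
  have hN := N_explicit ha hF hG hGZ hL hlin τ c _ hq3 hd3
  have hk : P.kap (P.tau (P.tau (P.tau p))) = P.A (P.tau (P.tau p)) := by
    have := P.oct_A ho3
    rw [← this, h4]
  have hZ := hGZ (F τ)
  have t1 := hZ.tri (Sum.inl (P.tau (P.tau (P.tau p)))) (by simpa using hq3)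
  have t2 := hZ.tri (Sum.inr ⟨P.tau (P.tau p), hd2⟩) trivial
  rw [ZA_inl_not hd3, Zt_inl_not hd3, h4] at t1
  rw [ZA_inr, Zt_inr] at t2
  have m3 : (F τ).muZ (Sum.inl (P.tau (P.tau (P.tau p)))) = (F τ).mu (P.tau (P.tau (P.tau p))) := by
    simp [HypMetric.muZ, hd3]
  have l1 : (F τ).LamZ (Sum.inl (P.A (P.tau (P.tau (P.tau p))))) =
    (F τ).Lam (P.A (P.tau (P.tau (P.tau p)))) := rfl
  have l2 : (F τ).LamZ (Sum.inl (P.A (P.tau (P.tau p)))) = (F τ).Lam (P.A (P.tau (P.tau p))) := rfl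
  have l3 : (F τ).Lam (P.tau (P.tau (P.tau p))) = (F τ).Lam (P.A (P.tau (P.tau p))) := by
    have h := hZ.LamZ_kap (Sum.inl (P.tau (P.tau (P.tau p))))
    rw [Zk_inl, hk] at h
    exact h.symm
  have hm3 := (hG (F τ)).mu_gt _ hq3
  rw [m3, l1] at t1
  rw [l2] at t2
  change _ = _ * ((F τ).muZ (Sum.inl (P.tau (P.tau (P.tau p)))) - 1) at t2
  rw [m3] at t2
  rw [hk, l3, t1, t2, h4] at hN
  -- relations between s and s'
  have s1 := sN_ZA ha hF hG hGZ hL hlin τ c (Sum.inl (P.tau (P.tau (P.tau p))))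
  rw [ZA_inl_not hd3, m3] at s1
  have s2 := sN_ZA ha hF hG hGZ hL hlin τ c (Sum.inl p)
  rw [ZA_inl_diag hd] at s2
  have s3 := sN_ZA ha hF hG hGZ hL hlin τ c (Sum.inr ⟨P.tau (P.tau p), hd2⟩)
  rw [ZA_inr, sp_inr ha hF hG hGZ hL hlin] at s3
  have hV := muV_gt ha hF hG hGZ hL hlin (F τ) hd2
  have mV : (F τ).muZ (Sum.inr ⟨P.tau (P.tau p), hd2⟩) = (F τ).muV (P.tau (P.tau p)) := rfl
  rw [mV] at s3 hN
  change sN a F τ c (Sum.inl (P.A (P.tau (P.tau p)))) = _ at s3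
  have hne : (F τ).mu (P.tau (P.tau (P.tau p))) - 1 ≠ 0 := by linarith
  have hne1 : (F τ).mu (P.tau (P.tau (P.tau p))) ≠ 0 := by linarith
  have hneV : (F τ).muV (P.tau (P.tau p)) ≠ 0 := by linarith
  apply mul_left_cancel₀ hne
  rw [hN, s1, s2, s3]
  field_simp

end line

theorem DERIV (hG : S_GA P) (hGB : S_GB P) (hL : S_LIN1 P) : S_DERIV P := by
  intro m a F ha hF hlin τ c
  have hGZ : ∀ M : HypMetric P, GFZ M := fun M => hGB M (hG M)
  refine ⟨{ s := sN a F τ c, N := NN a F τ c, s_eq := ?_, l_eq := ?_, w_eq := ?_, step_eq := ?_ }⟩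
  · rintro (p | p)
    · exact sN_inl ha hF hG hGZ hL hlin τ c p
    · have := sp_inr ha hF hG hGZ hL hlin τ c p
      rw [← this]
      simp [ext0, sp]
  · rintro (p | p)
    · have := l_inl ha hF hG hGZ hL hlin τ c p
      exact this
    · obtain ⟨p, hd⟩ := p
      have hd2 : P.Diag (P.tau (P.tau p)) := (P.diag_tau_tau hd.1).2 hd
      have ho2 : P.Oct (P.tau (P.tau p)) := hd2.oct
      have ho3 : P.Oct (P.tau (P.tau (P.tau p))) := P.oct_tau.2 ho2
      have h4 : P.tau (P.tau (P.tau (P.tau p))) = p := hd.oct.1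
      have hd3 : ¬ P.Diag (P.tau (P.tau (P.tau p))) := by
        rw [P.diag_tau ho2]; exact not_not.2 hd2
      have h1 := rel_I ha hF hG hGZ hL hlin τ c _ hd2
      have h2 := rel_II ha hF hG hGZ hL hlin τ c _ ho3.2 hd3
      have h3 := rel_IV ha hF hG hGZ hL hlin τ c p hd hd2
      rw [h4] at h2
      have s1 := sp_inr ha hF hG hGZ hL hlin τ c ⟨p, hd⟩
      have s2 := sp_inr ha hF hG hGZ hL hlin τ c ⟨P.tau (P.tau p), hd2⟩
      rw [Zk_inr]
      change (vlin F τ c).1 (Sum.inr ⟨p, hd⟩) = 0 +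
        (Nn a F τ c p - 2 * sp a F τ c (Sum.inl p) + 2 * sp a F τ c (Sum.inr ⟨p, hd⟩) +
          (vlin F τ c).1 (Sum.inr ⟨p, hd⟩)) +
        (Nn a F τ c (P.tau (P.tau p)) - 2 * sp a F τ c (Sum.inl (P.tau (P.tau p))) +
          2 * sp a F τ c (Sum.inr ⟨P.tau (P.tau p), hd2⟩) +
          (vlin F τ c).1 (Sum.inr ⟨P.tau (P.tau p), hd2⟩))
      rw [s1, s2, h1]
      linarith
  · intro p
    exact w_inl ha hF hG hGZ hL hlin τ c p
  · rintro (p | p)
    · by_cases hd : P.Diag p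
      · have hq : ¬ P.Quad p := hd.oct.2
        rw [if_pos (by simpa using hq), ZA_inl_diag hd]
        change (Nn a F τ c p - 2 * sp a F τ c (Sum.inl p) + 2 * sp a F τ c (Sum.inr ⟨p, hd⟩) +
          (vlin F τ c).1 (Sum.inr ⟨p, hd⟩)) - 2 * sp a F τ c (Sum.inr ⟨p, hd⟩) -
          (Nn a F τ c p - 2 * (sN a F τ c (Sum.inr ⟨p, hd⟩) / (F τ).muZ (Sum.inl p))) + 0 =
          (vlin F τ c).1 (Sum.inr ⟨p, hd⟩)
        have e : sp a F τ c (Sum.inl p) = sN a F τ c (Sum.inr ⟨p, hd⟩) / (F τ).muZ (Sum.inl p) := by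
          unfold sp; rw [ZA_inl_diag hd]
        rw [e]; ring
      · have h1 := lad_rel ha hF hG hGZ hL hlin τ c p
        have e : sp a F τ c (Sum.inl p) =
            sN a F τ c (Sum.inl (P.A p)) / (F τ).muZ (Sum.inl p) := by
          unfold sp; rw [ZA_inl_not hd]
        rw [ZA_inl_not hd]
        change (Nn a F τ c (P.A p) - 2 * sp a F τ c (Sum.inl (P.A p))) -
          (Nn a F τ c p - 2 * (sN a F τ c (Sum.inl (P.A p)) / (F τ).muZ (Sum.inl p))) +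
          (c : V → ℝ) (P.A p) * (F τ).cs (P.A p) = _
        rw [← e, ← h1]
        by_cases hq : P.Quad p
        · simp [lad, hq]
        · simp only [lad, hq, hd, Zh_inl, if_false, if_true, dif_neg, not_false_iff, zero_add]
          rfl
    · obtain ⟨p, hd⟩ := p
      have hq : ¬ P.Quad p := hd.oct.2
      have h1 := lad_rel ha hF hG hGZ hL hlin τ c p
      have h2 : lad (vlin F τ c).1 p =
          (vlin F τ c).1 (Sum.inr ⟨p, hd⟩) + (vlin F τ c).1 (Sum.inl (P.A p)) := by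
        simp [lad, hq, hd]
      rw [if_pos (Zh_inr _), ZA_inr]
      change (Nn a F τ c (P.A p) - 2 * sp a F τ c (Sum.inl (P.A p))) -
          ((Nn a F τ c p - 2 * sp a F τ c (Sum.inl p) + 2 * sp a F τ c (Sum.inr ⟨p, hd⟩) +
          (vlin F τ c).1 (Sum.inr ⟨p, hd⟩)) - 2 * sp a F τ c (Sum.inr ⟨p, hd⟩)) +
          (c : V → ℝ) (P.A p) * (F τ).cs (P.A p) = (vlin F τ c).1 (Sum.inl (P.A p))
      rw [h2] at h1
      linarith

end Run7.h568.MC.Dv
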