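import Pool.Agent.Run7.h568.MC.Cross
set_option linter.unusedSectionVars false

/-! Algebra for piece DERIV. -/

namespace Run7.h568.MC.Dv

open Real Matrix Pattern

variable {V : Type*} [Fintype V] {P : Pattern V}

/-- elasticity of the elasticity -/
theorem eta_identity {α β γ δ w T T' : ℝ} (hα : 0 < α) (hβ : 0 < β) (hγ : 0 < γ) (hδ : 0 < δ)
    (hw : 0 < w) (hT : 0 < T) (hdet : α * δ - β * γ = 1)
    (hT' : T' * (w * (α * (γ * w + δ) + γ * (α * w + β) * T)) =
      β * (γ * w + δ) + δ * (α * w + β) * T) :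
    1 - α * w / (α * w + β) - γ * w / (γ * w + δ) =
      -((1 - T') / (1 + T')) + w / ((α * w + β) * (γ * w + δ)) * ((1 - T) / (1 + T)) := by
  have hX : 0 < α * w + β := by positivity
  have hY : 0 < γ * w + δ := by positivity
  set X := α * w + β with hXd
  set Y := γ * w + δ with hYd
  have hK : 0 < w * (α * Y + γ * X * T) := by positivity
  have hT'e : T' = (β * Y + δ * X * T) / (w * (α * Y + γ * X * T)) := by
    rw [eq_div_iff hK.ne']; exact hT'
  have e1 : w * (α * Y + γ * X * T) + (β * Y + δ * X * T) = X * Y * (1 + T) := by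
    rw [hXd, hYd]; ring
  have e2 : w * (α * Y + γ * X * T) - (β * Y + δ * X * T) =
      Y * (α * w - β) + X * T * (γ * w - δ) := by ring
  have e3 : (1 - T') / (1 + T') = (Y * (α * w - β) + X * T * (γ * w - δ)) / (X * Y * (1 + T)) := by
    rw [hT'e, ← e1, ← e2]
    have h1 : w * (α * Y + γ * X * T) + (β * Y + δ * X * T) ≠ 0 := by positivity
    rw [div_eq_div_iff (by positivity) h1]
    field_simp
  have l1 : 1 - α * w / X - γ * w / Y = (β * Y - γ * w * X) / (X * Y) := by
    rw [eq_div_iff (by positivity)]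
    have h1 : α * w / X * (X * Y) = α * w * Y := by field_simp
    have h2 : γ * w / Y * (X * Y) = γ * w * X := by field_simp
    rw [sub_mul, sub_mul, h1, h2]
    rw [hXd]; ring
  have l2 : -((Y * (α * w - β) + X * T * (γ * w - δ)) / (X * Y * (1 + T))) +
      w / (X * Y) * ((1 - T) / (1 + T)) =
      (-(Y * (α * w - β) + X * T * (γ * w - δ)) + w * (1 - T)) / (X * Y * (1 + T)) := by
    field_simp
  rw [e3, l1, l2, div_eq_div_iff (by positivity) (by positivity)]
  rw [hXd, hYd]
  linear_combination (X * Y) * (1 - T) * w * hdet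

section real

variable {T E : ℝ}

theorem k1 (hE : 0 < E) (h : E < T) : E / (1 + E) + T / (1 + T) - 1 =
    -((1 - T) / (1 + T) + 1 / ((1 + E) * (1 + T) / (T - E))) := by
  have h1 : T - E ≠ 0 := by linarith
  have h2 : 1 + E ≠ 0 := by linarith
  have h3 : 1 + T ≠ 0 := by linarith
  field_simp
  ring

theorem k2 (hE : 0 < E) (h : E < T) : T / (1 + T) - T / (T - E) =
    -((T * (1 + E) / (T - E)) * ((1 + E) / (T - E)) / ((1 + E) * (1 + T) / (T - E))) := by
  have h1 : T - E ≠ 0 := by linarith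
  have h2 : 1 + E ≠ 0 := by linarith
  have h3 : 1 + T ≠ 0 := by linarith
  field_simp
  ring

theorem k3 (hE : 0 < E) (h : E < T) : E / (1 + E) + E / (T - E) =
    (T * (1 + E) / (T - E) - 1) * ((1 + E) / (T - E) + 1) / ((1 + E) * (1 + T) / (T - E)) := by
  have h1 : T - E ≠ 0 := by linarith
  have h2 : 1 + E ≠ 0 := by linarith
  have h3 : 1 + T ≠ 0 := by linarith
  field_simp
  ring

end real

section metric

variable {M : HypMetric P} (hM : GF M)
include hM

theorem TT_pos (p : V) : 0 < M.TT p := by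
  have := hM.t_pos p
  unfold HypMetric.TT; positivity

theorem TE_pos (p : V) : 0 < M.TT p - M.EE p := by
  have := hM.E_lt p; linarith

theorem SS_pos (p : V) : 0 < M.SS p := by
  have h1 := hM.E_pos p
  have h2 := TE_pos hM p
  unfold HypMetric.SS; positivity

theorem RR_eq (p : V) : M.RR p = M.TT p * M.SS p := by
  unfold HypMetric.RR HypMetric.SS; ring

theorem RR_sub (p : V) : M.RR p - 1 = M.EE p * (M.SS p + 1) := by
  have h2 := (TE_pos hM p).ne'
  unfold HypMetric.RR HypMetric.SS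
  field_simp; ring

theorem DD_eq (p : V) : M.DD p = (1 + M.TT p) * M.SS p := by
  unfold HypMetric.DD; rw [RR_eq hM]; ring

theorem DD_eq' (p : V) : M.DD p = (1 + M.EE p) * (M.SS p + 1) := by
  have := RR_sub hM p
  unfold HypMetric.DD; linarith

theorem DD_eq'' (p : V) : M.DD p = (1 + M.EE p) * (1 + M.TT p) / (M.TT p - M.EE p) := by
  rw [DD_eq hM]; unfold HypMetric.SS; ring

theorem DD_pos (p : V) : 0 < M.DD p := by
  have h1 := SS_pos hM p
  have h2 := TT_pos hM p
  rw [DD_eq hM]; positivity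

theorem RR_gt (p : V) : 1 < M.RR p := by
  have := RR_sub hM p
  have h1 := hM.E_pos p
  have h2 := SS_pos hM p
  have : 0 < M.EE p * (M.SS p + 1) := by positivity
  linarith

theorem TT_rho (p : V) : M.TT (P.rho p) = M.TT p := by
  unfold HypMetric.TT; rw [hM.t_rho]

theorem The_eq (p : V) : M.The p = M.TT p * M.SS p * M.SS (P.rho p) := by
  unfold HypMetric.The; rw [RR_eq hM]

theorem Lam_eq (p : V) : M.Lam p = M.EE p * (M.SS p + 1) * (M.SS (P.kap p) + 1) := by
  unfold HypMetric.Lam; rw [RR_sub hM]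

theorem The_pos (p : V) : 0 < M.The p := by
  have h1 := SS_pos hM p
  have h2 := TT_pos hM p
  have h3 := SS_pos hM (P.rho p)
  rw [The_eq hM]; positivity

theorem Lam_pos (p : V) : 0 < M.Lam p := by
  have h1 := SS_pos hM p
  have h2 := hM.E_pos p
  have h3 := SS_pos hM (P.kap p)
  rw [Lam_eq hM]; positivity

theorem The_D (p : V) : M.The p / M.DD (P.rho p) = M.RR p * M.SS p / M.DD p := by
  have h1 := (DD_pos hM p).ne'
  have h2 := (DD_pos hM (P.rho p)).ne'
  rw [div_eq_div_iff h2 h1, The_eq hM, RR_eq hM, DD_eq hM p, DD_eq hM (P.rho p), TT_rho hM]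
  ring

theorem Lam_D (p : V) : M.Lam p / M.DD (P.kap p) = (M.RR p - 1) * (M.SS p + 1) / M.DD p := by
  have h1 := (DD_pos hM p).ne'
  have h2 := (DD_pos hM (P.kap p)).ne'
  rw [div_eq_div_iff h2 h1, Lam_eq hM, RR_sub hM, DD_eq' hM p, DD_eq' hM (P.kap p), hM.E_kap]
  ring

theorem ce_eq (p : V) : M.ce p = M.cs p + 2 / M.DD p := by
  have h1 := (TE_pos hM p).ne'
  have h2 := hM.E_pos p
  have h3 := TT_pos hM p
  have h4 : 1 + M.EE p ≠ 0 := by positivity
  have h5 : 1 + M.TT p ≠ 0 := by positivity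
  unfold HypMetric.ce HypMetric.cs
  rw [DD_eq'' hM]
  field_simp
  ring

/-- the variation of `log D` -/
theorem dD_identity (p : V) (σ x y : ℝ) :
    M.EE p / (1 + M.EE p) * (σ + y) + M.TT p / (1 + M.TT p) * (σ + x)
      - (M.TT p * (σ + x) - M.EE p * (σ + y)) / (M.TT p - M.EE p) =
    -(M.cs p + 1 / M.DD p) * σ - M.The p / M.DD (P.rho p) * x
      + M.Lam p / M.DD (P.kap p) * y := by
  have a1 := k1 (hM.E_pos p) (hM.E_lt p)
  have a2 := k2 (hM.E_pos p) (hM.E_lt p)
  have a3 := k3 (hM.E_pos p) (hM.E_lt p)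
  rw [The_D hM, Lam_D hM]
  have e1 : (M.TT p * (σ + x) - M.EE p * (σ + y)) / (M.TT p - M.EE p) =
      σ + M.TT p / (M.TT p - M.EE p) * x - M.EE p / (M.TT p - M.EE p) * y := by
    have := (TE_pos hM p).ne'
    field_simp; ring
  rw [e1, ← DD_eq'' hM] at *
  have b2 : M.RR p = M.TT p * (1 + M.EE p) / (M.TT p - M.EE p) := rfl
  have b3 : M.SS p = (1 + M.EE p) / (M.TT p - M.EE p) := rfl
  have b4 : M.cs p = (1 - M.TT p) / (1 + M.TT p) := rfl
  rw [← b2, ← b3] at a2 a3
  rw [← b4] at a1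
  linear_combination σ * a1 + x * a2 + y * a3

/-- the bracket identity -/
theorem bracket (p : V) : -(M.cs p) - 1 / M.DD p + M.The p / M.DD (P.rho p)
    - M.Lam p / M.DD (P.kap p) = 0 := by
  have h1 := (DD_pos hM p).ne'
  rw [The_D hM, Lam_D hM]
  have b4 : M.cs p = (M.SS p - M.RR p) / M.DD p := by
    have h2 := TT_pos hM p
    have h3 : 1 + M.TT p ≠ 0 := by positivity
    have h4 := (SS_pos hM p).ne'
    rw [DD_eq hM, RR_eq hM]
    unfold HypMetric.cs
    field_simp
  rw [b4]
  have : M.DD p = M.RR p + M.SS p := rfl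
  field_simp
  rw [this]; ring

end metric

end Run7.h568.MC.Dv
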