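import Pool.Agent.Run7.h568.MC.Defs

/-!
# Filling pairs
-/

namespace Run7.h568.MC

/-- `α` and the part of `β` of nonzero weight fill the surface.  The element `q` stands here for
the `β`-side behind `q` of the face behind `q` on its left, `kap q` for the other side of the same
edge.  In words: there is no nonempty set of `β`-edges of weight zero such that every face with a
side in the set has a second one (faces are discs, so such a set exists exactly when some
essential curve avoids `α` and the part of `β` of nonzero weight). -/
def Fills {V : Type*} (P : Pattern V) (b : V → ℝ) : Prop :=
  ∀ s : Set V, s.Nonempty → (∀ q ∈ s, b q = 0 ∧ P.kap q ∈ s) →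
    ∃ q ∈ s, ∀ n : ℕ, P.tau^[n] q ∈ s → P.tau^[n] q = q

end Run7.h568.MC
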