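import Pool.Agent.Run7.h568.MC.Iface
import Pool.Agent.Run7.h568.MC.ZLemmas
set_option linter.unusedSectionVars false

/-! Assembly, first part: bilinear form, projection, box. -/

namespace Run7.h568.MC.Asm

open Real Matrix Pattern

universe u

variable {V : Type u} [Fintype V] {P : Pattern V}

theorem wZ_add (u v : P.W) (z : P.Z) : wZ (u + v) z = wZ u z + wZ v z := by
  rcases z with p | p
  · simp [wZ]
  · simp [wZ]; ring

theorem wZ_smul (c : ℝ) (v : P.W) (z : P.Z) : wZ (c • v) z = c * wZ v z := by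
  rcases z with p | p
  · simp [wZ]
  · simp [wZ]; ring

/-- `Om` as a bilinear map -/
noncomputable def OmB : P.W →ₗ[ℝ] P.W →ₗ[ℝ] ℝ :=
  LinearMap.mk₂ ℝ Om
    (by
      intro u u' v
      unfold Om
      rw [← Finset.sum_add_distrib]
      refine Finset.sum_congr rfl fun z _ => ?_
      rw [wZ_add]
      split_ifs
      · simp; ring
      · simp)
    (by
      intro c u v
      unfold Om
      rw [smul_eq_mul, Finset.mul_sum]
      refine Finset.sum_congr rfl fun z _ => ?_
      rw [wZ_smul]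
      split_ifs
      · simp; ring
      · simp)
    (by
      intro u v v'
      unfold Om
      rw [← Finset.sum_add_distrib]
      refine Finset.sum_congr rfl fun z _ => ?_
      rw [wZ_add]
      split_ifs
      · simp; ring
      · simp)
    (by
      intro c u v
      unfold Om
      rw [smul_eq_mul, Finset.mul_sum]
      refine Finset.sum_congr rfl fun z _ => ?_
      rw [wZ_smul]
      split_ifs
      · simp; ring
      · simp)

/-- `Om` as a continuous bilinear map -/
noncomputable def OmC : P.W →L[ℝ] P.W →L[ℝ] ℝ :=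
  LinearMap.toContinuousLinearMap
    ((LinearMap.toContinuousLinearMap (𝕜 := ℝ) (E := P.W) (F' := ℝ)).toLinearMap ∘ₗ OmB)

theorem OmC_apply (u v : P.W) : OmC u v = Om u v := rfl

theorem Om_self (u : P.W) : Om u u = 0 := by
  unfold Om
  apply Finset.sum_eq_zero
  intro z _
  split_ifs <;> ring

/-- `q` paired with a weight -/
noncomputable def qq (v : P.W) (c : V → ℝ) : ℝ := ∑ p, c p * (v.2 p - v.1 (Sum.inl p))

/-- evaluation of a weight -/
noncomputable def ev (p : V) : Inv P →L[ℝ] ℝ :=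
  (ContinuousLinearMap.proj (R := ℝ) (φ := fun _ : V => ℝ) p).comp (Inv P).subtypeL

theorem ev_apply (p : V) (c : Inv P) : ev p c = (c : V → ℝ) p := rfl

/-- `w p - l p` -/
noncomputable def wl (p : V) : P.W →L[ℝ] ℝ :=
  (ContinuousLinearMap.proj (R := ℝ) (φ := fun _ : V => ℝ) p).comp
    (ContinuousLinearMap.snd ℝ (P.Z → ℝ) (V → ℝ)) -
  (ContinuousLinearMap.proj (R := ℝ) (φ := fun _ : P.Z => ℝ) (Sum.inl p)).comp
    (ContinuousLinearMap.fst ℝ (P.Z → ℝ) (V → ℝ))

theorem wl_apply (p : V) (v : P.W) : wl p v = v.2 p - v.1 (Sum.inl p) := rfl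

section gen

variable {E : Type*} [NormedAddCommGroup E] [NormedSpace ℝ E]

/-- `q`, for an abstract space of weights -/
noncomputable def QE (e : V → E →L[ℝ] ℝ) : P.W →L[ℝ] (E →L[ℝ] ℝ) :=
  ∑ p, (wl p).smulRight (e p)

theorem QE_apply (e : V → E →L[ℝ] ℝ) (v : P.W) (c : E) :
    QE e v c = ∑ p, e p c * (v.2 p - v.1 (Sum.inl p)) := by
  unfold QE
  simp only [_root_.sum_apply, ContinuousLinearMap.smulRight_apply,
    _root_.smul_apply, wl_apply, smul_eq_mul]
  exact Finset.sum_congr rfl fun p _ => mul_comm _ _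

/-- the box of possible values of `q` -/
def box {ι : Type*} (e : ι → E) (r : ι → ℝ) : Set (E →L[ℝ] ℝ) := {ξ | ∀ i, |ξ (e i)| < r i}

theorem box_open {ι : Type*} [Finite ι] (e : ι → E) (r : ι → ℝ) : IsOpen (box e r) := by
  have : box e r = ⋂ i : ι, {ξ : E →L[ℝ] ℝ | |ξ (e i)| < r i} := by
    ext ξ; simp [box]
  rw [this]
  refine isOpen_iInter_of_finite fun p0 => ?_
  refine isOpen_lt ?_ continuous_const
  exact continuous_abs.comp (ContinuousLinearMap.apply ℝ ℝ (e p0)).continuous

theorem box_convex {ι : Type*} (e : ι → E) (r : ι → ℝ) : Convex ℝ (box e r) := by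
  intro ξ hξ ζ hζ s t hs ht hst p0
  have h1 := hξ p0
  have h2 := hζ p0
  have : (s • ξ + t • ζ) (e p0) = s * ξ (e p0) + t * ζ (e p0) := by simp
  rw [this]
  rw [abs_lt] at *
  have e : ∀ x y c : ℝ, -c < x → x < c → -c < y → y < c → -c < s * x + t * y ∧ s * x + t * y < c := by
    intro x y c h1 h2 h3 h4
    rcases eq_or_lt_of_le hs with h0 | h0
    · rw [← h0] at hst ⊢
      have : t = 1 := by linarith
      rw [this]
      constructor <;> linarith
    · have hs' : t = 1 - s := by linarith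
      have a1 : 0 < s * (x + c) := mul_pos h0 (by linarith)
      have a2 : 0 < s * (c - x) := mul_pos h0 (by linarith)
      have a3 : 0 ≤ t * (y + c) := mul_nonneg ht (by linarith)
      have a4 : 0 ≤ t * (c - y) := mul_nonneg ht (by linarith)
      have e1 : s * c + t * c = c := by rw [← add_mul, hst, one_mul]
      constructor <;> nlinarith
  exact e _ _ _ h1.1 h1.2 h2.1 h2.2

/-- a path in the box lifts -/
theorem path_lift {E : Type u} [NormedAddCommGroup E] [NormedSpace ℝ E] [FiniteDimensional ℝ E]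
    (hI : S_INV.{u}) {ι : Type*} [Finite ι] (f : E → E →L[ℝ] ℝ) (e : ι → E) (r : ι → ℝ)
    (hf : ContDiff ℝ 2 f) (hneg : ∀ x c, c ≠ 0 → fderiv ℝ f x c c < 0)
    (hU : ∀ x i, |f x (e i)| < r i)
    (hprop : ∀ η : ℝ, 0 < η → ∃ C, ∀ x, (∀ i, |f x (e i)| ≤ r i - η) → ‖x‖ ≤ C)
    (y : ℝ → E →L[ℝ] ℝ) (hy : ∀ t ∈ Set.Icc (0 : ℝ) 1, DifferentiableAt ℝ y t)
    (hyU : ∀ t ∈ Set.Icc (0 : ℝ) 1, ∀ i, |y t (e i)| < r i) (b : E) (h0 : y 0 = f 0)
    (h1 : y 1 = f b) :
    ∃ σ : ℝ → E, (∀ t ∈ Set.Icc (0 : ℝ) 1, DifferentiableAt ℝ σ t) ∧ σ 0 = 0 ∧ σ 1 = b ∧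
      ∀ t ∈ Set.Icc (0 : ℝ) 1, f (σ t) = y t := by
  have hdiff : Differentiable ℝ f := hf.differentiable (by norm_num)
  have hinj : Function.Injective f := by
    intro x x' hxx
    by_contra hne
    have hc : x - x' ≠ 0 := sub_ne_zero.2 hne
    set c := x - x' with hcdef
    have hd : ∀ t : ℝ, HasDerivAt (fun t : ℝ => f (x' + t • c) c) (fderiv ℝ f (x' + t • c) c c) t := by
      intro t
      have a1 : HasDerivAt (fun t : ℝ => x' + t • c) c t := by
        have := ((hasDerivAt_id t).smul_const c).const_add x'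
        simpa using this
      have a2 : HasDerivAt (fun t : ℝ => f (x' + t • c)) (fderiv ℝ f (x' + t • c) c) t :=
        (hdiff (x' + t • c)).hasFDerivAt.comp_hasDerivAt t a1
      have a3 := a2.clm_apply (hasDerivAt_const t c)
      simpa using a3
    have hanti : StrictAnti (fun t : ℝ => f (x' + t • c) c) := by
      apply strictAnti_of_deriv_neg
      intro t
      rw [(hd t).deriv]
      exact hneg _ _ hc
    have := hanti (show (0 : ℝ) < 1 by norm_num)
    simp only [one_smul, zero_smul, add_zero] at this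
    rw [hcdef, add_sub_cancel, hxx] at this
    exact lt_irrefl _ this
  have hfin : Module.finrank ℝ E = Module.finrank ℝ (E →L[ℝ] ℝ) := by
    rw [← (LinearMap.toContinuousLinearMap : (E →ₗ[ℝ] ℝ) ≃ₗ[ℝ] (E →L[ℝ] ℝ)).finrank_eq]
    exact (Subspace.dual_finrank_eq (K := ℝ) (V := E)).symm
  obtain ⟨g, hg⟩ := hI E (E →L[ℝ] ℝ) f (box e r) hfin hf
    (by
      intro x
      rw [injective_iff_map_eq_zero]
      intro c hc
      by_contra hne
      have := hneg x c hne
      rw [hc] at this
      simp at this)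
    hinj (box_open e r) (box_convex e r) (fun x i => hU x i)
    (by
      intro ξ hξ
      have hfin' : ∃ η : ℝ, 0 < η ∧ ∀ i, |ξ (e i)| < r i - η := by
        rcases isEmpty_or_nonempty ι with hemp | hne
        · exact ⟨1, one_pos, fun i => (hemp.false i).elim⟩
        · obtain ⟨i0, hi0⟩ := Finite.exists_min (fun i => r i - |ξ (e i)|)
          have := hξ i0
          refine ⟨(r i0 - |ξ (e i0)|) / 2, by linarith, fun i => ?_⟩
          have := hi0 i
          linarith
      obtain ⟨η, hη, hη'⟩ := hfin'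
      obtain ⟨C, hC⟩ := hprop η hη
      refine ⟨box e (fun i => r i - η), (box_open e _).mem_nhds (fun i => hη' i), C, fun x hx => ?_⟩
      exact hC x (fun i => (hx i).le))
  have hyU' : ∀ t ∈ Set.Icc (0 : ℝ) 1, y t ∈ box e r := fun t ht i => hyU t ht i
  have z0 : (0 : ℝ) ∈ Set.Icc (0 : ℝ) 1 := ⟨le_refl _, zero_le_one⟩
  have z1 : (1 : ℝ) ∈ Set.Icc (0 : ℝ) 1 := ⟨zero_le_one, le_refl _⟩
  refine ⟨fun t => g (y t), fun t ht => ?_, ?_, ?_, fun t ht => (hg _ (hyU' t ht)).1⟩
  · exact (hg _ (hyU' t ht)).2.comp t (hy t ht)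
  · apply hinj
    rw [(hg _ (hyU' 0 z0)).1, h0]
  · apply hinj
    rw [(hg _ (hyU' 1 z1)).1, h1]

end gen

/-! ### indicator functions of the components of `β` -/

/-- adjacency along `β` -/
def adjB (P : Pattern V) (p q : V) : Prop := q = P.B p ∨ q = P.rho p

open Classical in
/-- indicator function of a component of `β` -/
noncomputable def ind (P : Pattern V) (p0 : V) : Inv P :=
  ⟨fun q => if Quot.mk (adjB P) q = Quot.mk (adjB P) p0 then 1 else 0, by
    constructor
    · intro p
      have : Quot.mk (adjB P) (P.rho p) = Quot.mk (adjB P) p :=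
        (Quot.sound (r := adjB P) (show adjB P p (P.rho p) from Or.inr rfl)).symm
      simp only [this]
    · intro p
      have : Quot.mk (adjB P) (P.B p) = Quot.mk (adjB P) p :=
        (Quot.sound (r := adjB P) (show adjB P p (P.B p) from Or.inl rfl)).symm
      simp only [this]⟩

theorem ind_nonneg (p0 p : V) : 0 ≤ (ind P p0 : V → ℝ) p := by
  unfold ind
  simp only
  split_ifs <;> norm_num

theorem ind_le (p0 p : V) : (ind P p0 : V → ℝ) p ≤ 1 := by
  unfold ind
  simp only
  split_ifs <;> norm_num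

theorem ind_self (p0 : V) : (ind P p0 : V → ℝ) p0 = 1 := by
  unfold ind
  simp

theorem inv_of_ind {c : V → ℝ} (hc : c ∈ Inv P) {p0 p : V} (h : (ind P p0 : V → ℝ) p ≠ 0) :
    c p = c p0 := by
  have h1 : Quot.mk (adjB P) p = Quot.mk (adjB P) p0 := by
    by_contra h2
    apply h
    unfold ind
    simp [h2]
  have h2 : ∀ x y, adjB P x y → c x = c y := by
    rintro x y (h | h)
    · rw [h]; exact (hc.2 x).symm
    · rw [h]; exact (hc.1 x).symm
  exact congrArg (Quot.lift c h2) h1

end Run7.h568.MC.Asm
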