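import Pool.Agent.Run7.h568.MC.Final1
import Pool.Agent.Run7.h568.MC.Cross
set_option linter.unusedSectionVars false

/-! Assembly, second part: uniqueness, given the pieces. -/

namespace Run7.h568.MC.Asm

open Real Matrix Pattern

universe u

variable {V : Type u} [Fintype V] {P : Pattern V}

/-- all the pieces -/
structure All (P : Pattern V) : Prop where
  ga : S_GA P
  gb : S_GB P
  lin1 : S_LIN1 P
  lin2 : S_LIN2 P
  lin3 : S_LIN3 P
  grad : S_GRAD P
  kf : S_KF P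
  bx : S_BOX P
  iso : S_ISO P
  mob : S_MOB (V := V)
  leaf : S_LEAF P
  leafu : S_LEAFU P
  smooth : S_SMOOTH P
  deriv : S_DERIV P
  inv : S_INV.{u}
  cal : S_CAL.{u}

/-- the leaf of a metric -/
structure LeafData (m : HypMetric P) where
  a : (V → ℝ) → V → ℝ
  F : Inv P → HypMetric P
  smooth_a : ∀ p, ContDiff ℝ 2 fun τ => a τ p
  rel : ∀ τ : Inv P, LeafRel m τ (a τ) (F τ)
  zero : F 0 = m
  quake : ∀ (m' : HypMetric P) (τ : Inv P), RightQuake P τ m' m → m' = F τ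

theorem exists_leafData (hA : All P) (m : HypMetric P) : Nonempty (LeafData m) := by
  obtain ⟨a, ha1, ha2, ha3, ha4⟩ := hA.mob (Equiv.ofBijective P.A P.A_bij)
    (fun p => (m.G p) 0 0) (fun p => (m.G p) 0 1) (fun p => -(m.G p) 1 0) (fun p => -(m.G p) 1 1)
    (fun p => (G_left m p).1) (fun p => (G_left m p).2.1)
    (fun p => neg_pos.2 (G_left m p).2.2.1) (fun p => neg_pos.2 (G_left m p).2.2.2)
    (fun p => by
      have := G_det m p
      nlinarith)
  have hmob : ∀ (p : V) (w : ℝ), Mob (m.G p) w =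
      ((m.G p) 0 1 * w + (m.G p) 0 0) / (-(m.G p) 1 1 * w + -(m.G p) 1 0) := by
    intro p w
    unfold Mob
    rw [sub_eq_add_neg]
  have hisA : ∀ τ, IsLeafA m τ (a τ) := by
    intro τ
    refine ⟨ha1 τ, fun p => ?_⟩
    rw [hmob]
    exact ha2 τ p
  have huniq : ∀ τ b, IsLeafA m τ b → b = a τ := by
    intro τ b hb
    refine ha4 τ b hb.1 fun p => ?_
    have := hb.2 p
    rw [hmob] at this
    exact this
  choose F hF using fun τ : Inv P => hA.leaf m τ (a τ) τ.2 (hisA τ)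
  refine ⟨⟨a, F, ha3, fun τ => (hF τ).1, ?_, ?_⟩⟩
  · have h1 := hA.leafu.2.2 m
    have h2 := huniq _ _ h1.isA
    rw [h2] at h1
    exact (hA.leafu.2.1 _ _ _ _ _ h1 (hF 0).1).symm
  · intro m' τ h
    obtain ⟨-, a', h1⟩ := hA.leafu.1 _ _ _ h
    have h2 := huniq _ _ h1.isA
    rw [h2] at h1
    exact hA.leafu.2.1 _ _ _ _ _ h1 (hF τ).1

/-- the leaf in linear coordinates -/
noncomputable def LeafData.z {m : HypMetric P} (L : LeafData m) (τ : Inv P) : P.W := (L.F τ).lin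

section leafdata

variable (hA : All P) {m : HypMetric P} (L : LeafData m)

include hA

theorem z_smooth : ContDiff ℝ 2 L.z := (hA.smooth m L.a L.F L.smooth_a L.rel).1

theorem z_W0 (τ : Inv P) : L.z τ ∈ W0 P := (hA.lin1 _ (hA.ga _) (hA.gb _ (hA.ga _))).1

theorem z_twist (τ c : Inv P) : Nonempty (Twist (L.F τ) c (fderiv ℝ L.z τ c)) :=
  hA.deriv m L.a L.F L.smooth_a L.rel (z_smooth hA L) τ c

theorem z_y (τ c : Inv P) : ∑ p, (c : V → ℝ) p * (L.F τ).y p = ∑ p, (c : V → ℝ) p * m.y p :=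
  (hA.smooth m L.a L.F L.smooth_a L.rel).2.2 τ c

theorem z_diff : Differentiable ℝ L.z := (z_smooth hA L).differentiable (by norm_num)

theorem om_le (c : Inv P) (hc : ∀ p, 0 ≤ (c : V → ℝ) p) (τ : Inv P) (m' : HypMetric P) :
    Om (fderiv ℝ L.z τ c) (m'.lin - L.z τ) ≤
      ∑ p, (c : V → ℝ) p * m'.y p - ∑ p, (c : V → ℝ) p * m.y p := by
  obtain ⟨tw⟩ := z_twist hA L τ c
  have h1 := (hA.grad (L.F τ) m' c _ c.2 hc tw).1
  rw [← z_y hA L τ c, ← Finset.sum_sub_distrib]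
  refine h1.trans (le_of_eq (Finset.sum_congr rfl fun p _ => by ring))

theorem om_eq (c : Inv P) (hc : ∀ p, 0 ≤ (c : V → ℝ) p)
    (hfill : ∀ p, ∃ n : ℕ, (c : V → ℝ) (P.A^[n] p) ≠ 0) (τ : Inv P) (m' : HypMetric P)
    (h : Om (fderiv ℝ L.z τ c) (m'.lin - L.z τ) =
      ∑ p, (c : V → ℝ) p * m'.y p - ∑ p, (c : V → ℝ) p * m.y p) : m' = L.F τ := by
  obtain ⟨tw⟩ := z_twist hA L τ c
  refine (hA.grad (L.F τ) m' c _ c.2 hc tw).2 ?_ hfill
  rw [← z_y hA L τ c, ← Finset.sum_sub_distrib] at h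
  refine h.trans (Finset.sum_congr rfl fun p _ => by ring)

theorem lag_pos (τ c d : Inv P) (hc : ∀ p, 0 ≤ (c : V → ℝ) p) :
    OmC (fderiv ℝ L.z τ c) (fderiv ℝ L.z τ d) = 0 := by
  set D := OmC (fderiv ℝ L.z τ c) with hD
  have hd : HasDerivAt (fun t : ℝ => D (L.z (τ + t • d) - L.z τ)) (D (fderiv ℝ L.z τ d)) 0 := by
    have a1 : HasDerivAt (fun t : ℝ => τ + t • d) d 0 := by
      have := ((hasDerivAt_id (0 : ℝ)).smul_const d).const_add τ
      simpa using this
    have a2 : HasDerivAt (fun t : ℝ => L.z (τ + t • d)) (fderiv ℝ L.z τ d) 0 := by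
      have e : τ = τ + (0 : ℝ) • d := by simp
      have h3 := (z_diff hA L (τ + (0 : ℝ) • d)).hasFDerivAt.comp_hasDerivAt (0 : ℝ) a1
      rw [← e] at h3
      exact h3
    exact D.hasFDerivAt.comp_hasDerivAt (0 : ℝ) (a2.sub_const (L.z τ))
  refine IsLocalMax.hasDerivAt_eq_zero ?_ hd
  refine Filter.Eventually.of_forall fun t => ?_
  simp only [zero_smul, add_zero, sub_self, map_zero]
  have := om_le hA L c hc τ (L.F (τ + t • d))
  rw [z_y hA L, sub_self] at this
  exact this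

end leafdata

/-- positive part -/
def posPart (c : Inv P) : Inv P :=
  ⟨fun p => max ((c : V → ℝ) p) 0, fun p => by simp only [c.2.1 p], fun p => by simp only [c.2.2 p]⟩

theorem posPart_nonneg (c : Inv P) (p : V) : 0 ≤ (posPart c : V → ℝ) p := le_max_right _ _

theorem posPart_sub (c : Inv P) : posPart c - posPart (-c) = c := by
  ext p
  have : max ((c : V → ℝ) p) 0 - max (-(c : V → ℝ) p) 0 = (c : V → ℝ) p := by
    rcases le_total 0 ((c : V → ℝ) p) with h | h
    · rw [max_eq_left h, max_eq_right (by linarith), sub_zero]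
    · rw [max_eq_right h, max_eq_left (by linarith)]; ring
  exact this

section leafdata

variable (hA : All P) {m : HypMetric P} (L : LeafData m)

include hA

theorem lag (τ c d : Inv P) : OmC (fderiv ℝ L.z τ c) (fderiv ℝ L.z τ d) = 0 := by
  have h1 := lag_pos hA L τ (posPart c) d (posPart_nonneg c)
  have h2 := lag_pos hA L τ (posPart (-c)) d (posPart_nonneg (-c))
  rw [← posPart_sub c, map_sub, map_sub, _root_.sub_apply, h1, h2, sub_zero]

theorem q_neg (τ c : Inv P) (hc : c ≠ 0) :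
    QE (P := P) (E := Inv P) ev (fderiv ℝ L.z τ c) c < 0 := by
  obtain ⟨tw⟩ := z_twist hA L τ c
  rw [QE_apply]
  refine (hA.kf (L.F τ) c _ c.2 tw).2 fun h => hc (Subtype.ext h)

theorem q_nonpos (τ c c' : Inv P) (hc : ∀ p, 0 ≤ (c : V → ℝ) p)
    (hc' : ∀ p, 0 ≤ (c' : V → ℝ) p) : QE (P := P) (E := Inv P) ev (fderiv ℝ L.z τ c) c' ≤ 0 := by
  obtain ⟨tw⟩ := z_twist hA L τ c
  rw [QE_apply]
  exact (hA.kf (L.F τ) c _ c.2 tw).1 c' c'.2 hc hc'

/-- the bounds of `q` -/
theorem q_box (τ : Inv P) (p0 : V) :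
    |QE (P := P) (E := Inv P) ev (L.z τ) (ind P p0)| < ∑ p, (ind P p0 : V → ℝ) p * m.y p := by
  obtain ⟨h1, h2, h3⟩ := hA.bx (L.F τ) (ind P p0) (ind P p0).2
  rw [← z_y hA L τ (ind P p0), QE_apply]
  have e1 : 0 < ∑ p, (ind P p0 : V → ℝ) p *
      (Real.log ((L.F τ).RR p) - Real.log ((L.F τ).RR p - 1)) := by
    apply Finset.sum_pos'
    · intro p _
      refine mul_nonneg (ind_nonneg _ _) ?_
      have := (h1 p).1
      exact sub_nonneg.2 (Real.log_le_log (by linarith) (by linarith))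
    · refine ⟨p0, Finset.mem_univ _, ?_⟩
      rw [ind_self, one_mul]
      have := (h1 p0).1
      exact sub_pos.2 (Real.log_lt_log (by linarith) (by linarith))
  have e2 : 0 < ∑ p, (ind P p0 : V → ℝ) p *
      (Real.log ((L.F τ).SS p + 1) - Real.log ((L.F τ).SS p)) := by
    apply Finset.sum_pos'
    · intro p _
      refine mul_nonneg (ind_nonneg _ _) ?_
      have := (h1 p).2.1
      exact sub_nonneg.2 (Real.log_le_log (by linarith) (by linarith))
    · refine ⟨p0, Finset.mem_univ _, ?_⟩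
      rw [ind_self, one_mul]
      have := (h1 p0).2.1
      exact sub_pos.2 (Real.log_lt_log (by linarith) (by linarith))
  have h2' : ∑ p, (ind P p0 : V → ℝ) p * (L.F τ).y p +
      ∑ p, (ind P p0 : V → ℝ) p * ((L.z τ).2 p - (L.z τ).1 (Sum.inl p)) =
      2 * ∑ p, (ind P p0 : V → ℝ) p *
        (Real.log ((L.F τ).RR p) - Real.log ((L.F τ).RR p - 1)) := by
    rw [← h2, ← Finset.sum_add_distrib]
    exact Finset.sum_congr rfl fun p _ => (mul_add _ _ _).symm
  have h3' : ∑ p, (ind P p0 : V → ℝ) p * (L.F τ).y p -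
      ∑ p, (ind P p0 : V → ℝ) p * ((L.z τ).2 p - (L.z τ).1 (Sum.inl p)) =
      2 * ∑ p, (ind P p0 : V → ℝ) p *
        (Real.log ((L.F τ).SS p + 1) - Real.log ((L.F τ).SS p)) := by
    rw [← h3, ← Finset.sum_sub_distrib]
    exact Finset.sum_congr rfl fun p _ => (mul_sub _ _ _).symm
  have e3 : ∀ p, ev p (ind P p0) = (ind P p0 : V → ℝ) p := fun p => rfl
  simp only [e3]
  rw [abs_lt]
  constructor <;> linarith

/-- properness of `q` -/
theorem q_proper (η : ℝ) (hη : 0 < η) : ∃ C : ℝ, ∀ τ : Inv P,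
    (∀ p0, |QE (P := P) (E := Inv P) ev (L.z τ) (ind P p0)| ≤
      ∑ p, (ind P p0 : V → ℝ) p * m.y p - η) → ‖τ‖ ≤ C := by
  obtain ⟨K, hK, hKb⟩ := (hA.smooth m L.a L.F L.smooth_a L.rel).2.1
  set N : ℝ := (Fintype.card V : ℝ) with hN
  refine ⟨max (Real.log (2 * N * K / η)) 0, fun τ hτ => ?_⟩
  change ‖(τ : V → ℝ)‖ ≤ _
  rw [pi_norm_le_iff_of_nonneg (le_max_right _ _)]
  intro p0
  refine le_trans ?_ (le_max_left _ _)
  have hNpos : 0 < N := by
    rw [hN]; exact_mod_cast Fintype.card_pos_iff.2 ⟨p0⟩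
  obtain ⟨h1, h2, h3⟩ := hA.bx (L.F τ) (ind P p0) (ind P p0).2
  have h2' : ∑ p, (ind P p0 : V → ℝ) p * (L.F τ).y p +
      ∑ p, (ind P p0 : V → ℝ) p * ((L.z τ).2 p - (L.z τ).1 (Sum.inl p)) =
      2 * ∑ p, (ind P p0 : V → ℝ) p *
        (Real.log ((L.F τ).RR p) - Real.log ((L.F τ).RR p - 1)) := by
    rw [← h2, ← Finset.sum_add_distrib]
    exact Finset.sum_congr rfl fun p _ => (mul_add _ _ _).symm
  have h3' : ∑ p, (ind P p0 : V → ℝ) p * (L.F τ).y p -
      ∑ p, (ind P p0 : V → ℝ) p * ((L.z τ).2 p - (L.z τ).1 (Sum.inl p)) =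
      2 * ∑ p, (ind P p0 : V → ℝ) p *
        (Real.log ((L.F τ).SS p + 1) - Real.log ((L.F τ).SS p)) := by
    rw [← h3, ← Finset.sum_sub_distrib]
    exact Finset.sum_congr rfl fun p _ => (mul_sub _ _ _).symm
  have hq := hτ p0
  rw [QE_apply, ← z_y hA L τ (ind P p0)] at hq
  have e3 : ∀ p, ev p (ind P p0) = (ind P p0 : V → ℝ) p := fun p => rfl
  simp only [e3] at hq
  rw [abs_le] at hq
  have hE : ∀ p, 0 < (L.F τ).EE p := (hA.ga (L.F τ)).E_pos
  have b1 : ∀ p, Real.log ((L.F τ).RR p) - Real.log ((L.F τ).RR p - 1) ≤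
      K * Real.exp (-(τ : V → ℝ) p) := by
    intro p
    obtain ⟨c1, c2, c3, c4⟩ := h1 p
    have hR : 0 < (L.F τ).RR p - 1 := by linarith
    rw [← Real.log_div (by linarith) hR.ne']
    refine (Real.log_le_sub_one_of_pos (div_pos (by linarith) hR)).trans ?_
    have : (L.F τ).RR p / ((L.F τ).RR p - 1) - 1 = 1 / ((L.F τ).RR p - 1) := by
      field_simp
      ring
    rw [this, Real.exp_neg, ← div_eq_mul_inv, div_le_div_iff₀ hR (Real.exp_pos _), one_mul]
    refine (hKb τ p).1.trans (mul_le_mul_of_nonneg_left (by linarith) hK.le)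
  have b2 : ∀ p, Real.log ((L.F τ).SS p + 1) - Real.log ((L.F τ).SS p) ≤
      K * Real.exp ((τ : V → ℝ) p) := by
    intro p
    obtain ⟨c1, c2, c3, c4⟩ := h1 p
    rw [← Real.log_div (by linarith) c2.ne']
    refine (Real.log_le_sub_one_of_pos (div_pos (by linarith) c2)).trans ?_
    have : ((L.F τ).SS p + 1) / (L.F τ).SS p - 1 = 1 / (L.F τ).SS p := by
      field_simp
      ring
    rw [this]
    refine le_trans ?_ (hKb τ p).2
    rw [div_le_iff₀ c2, mul_comm]
    exact c4.le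
  have b3 : ∀ (f : V → ℝ) (g : ℝ → ℝ), (∀ x, 0 ≤ g x) →
      (∀ p, f p ≤ K * g ((τ : V → ℝ) p)) →
      ∑ p, (ind P p0 : V → ℝ) p * f p ≤ N * (K * g ((τ : V → ℝ) p0)) := by
    intro f g hg hf
    have : ∀ p ∈ Finset.univ, (ind P p0 : V → ℝ) p * f p ≤ K * g ((τ : V → ℝ) p0) := by
      intro p _
      by_cases hp : (ind P p0 : V → ℝ) p = 0
      · rw [hp, zero_mul]
        exact mul_nonneg hK.le (hg _)
      · have e := inv_of_ind τ.2 hp
        have e2 := hf p
        rw [e] at e2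
        have e4 : 0 ≤ K * g ((τ : V → ℝ) p0) := mul_nonneg hK.le (hg _)
        calc (ind P p0 : V → ℝ) p * f p
            ≤ (ind P p0 : V → ℝ) p * (K * g ((τ : V → ℝ) p0)) :=
              mul_le_mul_of_nonneg_left e2 (ind_nonneg _ _)
          _ ≤ 1 * (K * g ((τ : V → ℝ) p0)) := mul_le_mul_of_nonneg_right (ind_le _ _) e4
          _ = _ := one_mul _
    refine (Finset.sum_le_sum this).trans (le_of_eq ?_)
    simp [hN]
  have c1 := b3 _ (fun x => Real.exp (-x)) (fun x => (Real.exp_pos _).le) b1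
  have c2 := b3 _ (fun x => Real.exp x) (fun x => (Real.exp_pos _).le) b2
  have d1 : η ≤ 2 * N * K * Real.exp (-(τ : V → ℝ) p0) := by
    have := hq.1
    nlinarith
  have d2 : η ≤ 2 * N * K * Real.exp ((τ : V → ℝ) p0) := by
    have := hq.2
    nlinarith
  have hM : 0 < 2 * N * K := by positivity
  have f1 : ∀ s : ℝ, η ≤ 2 * N * K * Real.exp (-s) → s ≤ Real.log (2 * N * K / η) := by
    intro s hs
    rw [Real.le_log_iff_exp_le (div_pos hM hη), le_div_iff₀ hη]
    calc Real.exp s * η ≤ Real.exp s * (2 * N * K * Real.exp (-s)) :=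
          mul_le_mul_of_nonneg_left hs (Real.exp_pos _).le
      _ = 2 * N * K * (Real.exp s * Real.exp (-s)) := by ring
      _ = 2 * N * K := by rw [← Real.exp_add]; simp
  rw [Real.norm_eq_abs, abs_le]
  constructor
  · have := f1 (-(τ : V → ℝ) p0) (by rw [neg_neg]; exact d2)
    linarith
  · exact f1 _ d1

end leafdata

end Run7.h568.MC.Asm
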