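import Pool.Agent.Run7.h568.MC.Iface
import Pool.Agent.Run7.h568.MC.ZLemmas

/-! Piece GRAD (helper277): convexity of the lengths of `β` in linear coordinates. -/

set_option autoImplicit false

namespace Run7.h568.MC

open Real Matrix Pattern Function

namespace Grad

/-! ### Elementary inequalities -/

theorem gibbs {R R' : ℝ} (h : 1 < R) (h' : 1 < R') :
    0 ≤ R * (log R' - log R) - (R - 1) * (log (R' - 1) - log (R - 1)) ∧
    (R * (log R' - log R) - (R - 1) * (log (R' - 1) - log (R - 1)) = 0 → R' = R) := by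
  have hR : 0 < R := by linarith
  have hR' : 0 < R' := by linarith
  have h1 : 0 < R - 1 := by linarith
  have h1' : 0 < R' - 1 := by linarith
  have hx : 0 < R / R' := div_pos hR hR'
  have hy : 0 < (R' - 1) * R / ((R - 1) * R') := by positivity
  have ex : log (R / R') = log R - log R' := Real.log_div hR.ne' hR'.ne'
  have ey : log ((R' - 1) * R / ((R - 1) * R')) = log (R' - 1) + log R - (log (R - 1) + log R') := by
    rw [Real.log_div (by positivity) (by positivity), Real.log_mul h1'.ne' hR.ne',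
      Real.log_mul h1.ne' hR'.ne']
  have e : R * (log R' - log R) - (R - 1) * (log (R' - 1) - log (R - 1)) =
      -log (R / R') - (R - 1) * log ((R' - 1) * R / ((R - 1) * R')) := by
    rw [ex, ey]; ring
  have e0 : (R / R' - 1) + (R - 1) * ((R' - 1) * R / ((R - 1) * R') - 1) = 0 := by
    field_simp
    ring
  have i1 := Real.log_le_sub_one_of_pos hx
  have i2 := Real.log_le_sub_one_of_pos hy
  have i3 : (R - 1) * log ((R' - 1) * R / ((R - 1) * R')) ≤
      (R - 1) * ((R' - 1) * R / ((R - 1) * R') - 1) := mul_le_mul_of_nonneg_left i2 h1.le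
  rw [e]
  refine ⟨by linarith, fun h0 => ?_⟩
  by_contra hne
  have hx1 : R / R' ≠ 1 := by
    intro h2
    rw [div_eq_one_iff_eq hR'.ne'] at h2
    exact hne h2.symm
  have i4 := Real.log_lt_sub_one_of_pos hx hx1
  linarith

theorem softplus (U U' : ℝ) :
    0 ≤ log (1 + exp U') - log (1 + exp U) - (U' - U) / (1 + exp (-U)) ∧
    (log (1 + exp U') - log (1 + exp U) - (U' - U) / (1 + exp (-U)) = 0 → U' = U) := by
  have hU : 0 < exp U := exp_pos U
  have hU' : 0 < exp U' := exp_pos U'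
  have hp : 0 < 1 + exp U := by linarith
  have hp' : 0 < 1 + exp U' := by linarith
  have hq : (U' - U) / (1 + exp (-U)) = (U' - U) * (exp U / (1 + exp U)) := by
    rw [Real.exp_neg]
    field_simp
    ring
  -- `x = e^{U'} (1 + e^U) / (e^U (1 + e^{U'}))`, `y = (1 + e^U) / (1 + e^{U'})`
  have hx : 0 < exp U' * (1 + exp U) / (exp U * (1 + exp U')) := by positivity
  have hy : 0 < (1 + exp U) / (1 + exp U') := by positivity
  have ex : log (exp U' * (1 + exp U) / (exp U * (1 + exp U'))) =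
      U' + log (1 + exp U) - (U + log (1 + exp U')) := by
    rw [Real.log_div (by positivity) (by positivity), Real.log_mul hU'.ne' hp.ne',
      Real.log_mul hU.ne' hp'.ne', Real.log_exp, Real.log_exp]
  have ey : log ((1 + exp U) / (1 + exp U')) = log (1 + exp U) - log (1 + exp U') :=
    Real.log_div hp.ne' hp'.ne'
  have hq0 : 0 < exp U / (1 + exp U) := by positivity
  have hq1 : 1 - exp U / (1 + exp U) = 1 / (1 + exp U) := by field_simp; ring
  have hq2 : 0 < 1 / (1 + exp U) := by positivity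
  have e : log (1 + exp U') - log (1 + exp U) - (U' - U) / (1 + exp (-U)) =
      -(exp U / (1 + exp U) * log (exp U' * (1 + exp U) / (exp U * (1 + exp U')))) -
        (1 / (1 + exp U)) * log ((1 + exp U) / (1 + exp U')) := by
    rw [hq, ex, ey, ← hq1]
    ring
  have e0 : exp U / (1 + exp U) * (exp U' * (1 + exp U) / (exp U * (1 + exp U')) - 1) +
      (1 / (1 + exp U)) * ((1 + exp U) / (1 + exp U') - 1) = 0 := by
    field_simp
    ring
  have i1 := Real.log_le_sub_one_of_pos hx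
  have i2 := Real.log_le_sub_one_of_pos hy
  have i3 := mul_le_mul_of_nonneg_left i1 hq0.le
  have i4 := mul_le_mul_of_nonneg_left i2 hq2.le
  rw [e]
  refine ⟨by linarith, fun h0 => ?_⟩
  by_contra hne
  have hy1 : (1 + exp U) / (1 + exp U') ≠ 1 := by
    intro h2
    rw [div_eq_one_iff_eq hp'.ne'] at h2
    apply hne
    have h3 : exp U = exp U' := by linarith
    exact (Real.exp_injective h3).symm
  have i5 := Real.log_lt_sub_one_of_pos hy hy1
  have i6 := mul_lt_mul_of_pos_left i5 hq2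
  linarith

/-! ### Identities for a metric -/

section metric

variable {V : Type*} {P : Pattern V} [Fintype V]

theorem facts {m : HypMetric P} (h : GF m) (p : V) :
    0 < m.TT p ∧ 0 < m.EE p ∧ 0 < m.TT p - m.EE p ∧ 1 < m.RR p ∧ 0 < m.SS p ∧ 0 < m.DD p ∧
    m.TT p = m.RR p / m.SS p ∧ m.EE p = (m.RR p - 1) / (m.SS p + 1) ∧
    1 - m.cs p = 2 * m.RR p / m.DD p ∧ 1 + m.cs p = 2 * m.SS p / m.DD p ∧
    1 - m.ce p = 2 * (m.RR p - 1) / m.DD p ∧ 1 + m.ce p = 2 * (m.SS p + 1) / m.DD p := by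
  have ht := h.t_pos p
  have hT : 0 < m.TT p := by unfold HypMetric.TT; positivity
  have hE := h.E_pos p
  have hd : 0 < m.TT p - m.EE p := sub_pos.2 (h.E_lt p)
  have eR : m.RR p = m.TT p * (1 + m.EE p) / (m.TT p - m.EE p) := rfl
  have eS : m.SS p = (1 + m.EE p) / (m.TT p - m.EE p) := rfl
  have eD : m.DD p = m.RR p + m.SS p := rfl
  have ecs : m.cs p = (1 - m.TT p) / (1 + m.TT p) := rfl
  have ece : m.ce p = (1 - m.EE p) / (1 + m.EE p) := rfl
  have hR1 : m.RR p - 1 = m.EE p * (1 + m.TT p) / (m.TT p - m.EE p) := by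
    rw [eR]; field_simp; ring
  have hS1 : m.SS p + 1 = (1 + m.TT p) / (m.TT p - m.EE p) := by
    rw [eS]; field_simp; ring
  have hD : m.DD p = (1 + m.TT p) * (1 + m.EE p) / (m.TT p - m.EE p) := by
    rw [eD, eR, eS]; field_simp; ring
  have hSpos : 0 < m.SS p := by rw [eS]; positivity
  have hRpos : 0 < m.RR p - 1 := by rw [hR1]; positivity
  have hDpos : 0 < m.DD p := by rw [hD]; positivity
  refine ⟨hT, hE, hd, by linarith, hSpos, hDpos, ?_, ?_, ?_, ?_, ?_, ?_⟩
  · rw [eR, eS]; field_simp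
  · rw [hR1, hS1]; field_simp
  · rw [ecs, hD, eR]; field_simp; ring
  · rw [ecs, hD, eS]; field_simp; ring
  · rw [ece, hD, hR1]; field_simp; ring
  · rw [ece, hD, hS1]; field_simp; ring

theorem y_eq {m : HypMetric P} (h : GF m) (p : V) :
    m.y (P.rho p) = log (m.t p) + log (m.t (P.kap p)) - log (m.EE p) := by
  have h1 := h.t_pos p
  have h2 := h.t_pos (P.kap p)
  have e : m.EE p = exp (-(m.y (P.rho p))) * m.t p * m.t (P.kap p) := rfl
  rw [e, Real.log_mul (by positivity) h2.ne', Real.log_mul (exp_pos _).ne' h1.ne', Real.log_exp]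
  ring

/-- the weighted sum of the lengths -/
theorem sum_y {m : HypMetric P} (h : GF m) {b : V → ℝ} (hb1 : ∀ p, b (P.rho p) = b p)
    (hb2 : ∀ p, b (P.kap p) = b p) :
    ∑ p, b p * m.y p = ∑ p, b p * (log (m.RR p) - log (m.SS p) - log (m.RR p - 1) +
      log (m.SS p + 1)) := by
  have e1 : ∑ p, b p * m.y p = ∑ p, b p * m.y (P.rho p) := by
    rw [← sum_rho (P := P) (fun p => b p * m.y p)]
    exact Finset.sum_congr rfl fun p _ => by rw [hb1]
  have e2 : ∑ p, b p * log (m.t (P.kap p)) = ∑ p, b p * log (m.t p) := by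
    rw [← sum_kap (P := P) (fun p => b p * log (m.t p))]
    exact Finset.sum_congr rfl fun p _ => by rw [hb2]
  have e3 : ∀ p, b p * m.y (P.rho p) = b p * log (m.t p) + b p * log (m.t (P.kap p)) -
      b p * log (m.EE p) := fun p => by rw [y_eq h p]; ring
  rw [e1, Finset.sum_congr rfl fun p _ => e3 p, Finset.sum_sub_distrib, Finset.sum_add_distrib, e2,
    ← Finset.sum_add_distrib, ← Finset.sum_sub_distrib]
  refine Finset.sum_congr rfl fun p _ => ?_
  obtain ⟨hT, hE, hd, hR, hS, hD, eT, eE, -⟩ := facts h p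
  have hR0 : 0 < m.RR p := by linarith
  have hR1 : 0 < m.RR p - 1 := by linarith
  have hS1 : 0 < m.SS p + 1 := by linarith
  have l1 : log (m.TT p) = 2 * log (m.t p) := by
    unfold HypMetric.TT
    rw [Real.log_pow]; norm_num
  have l2 : log (m.TT p) = log (m.RR p) - log (m.SS p) := by
    rw [eT, Real.log_div hR0.ne' hS.ne']
  have l3 : log (m.EE p) = log (m.RR p - 1) - log (m.SS p + 1) := by
    rw [eE, Real.log_div hR1.ne' hS1.ne']
  rw [l3]
  linear_combination b p * (l2 - l1)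

theorem TT_rho {m : HypMetric P} (h : GF m) (p : V) : m.TT (P.rho p) = m.TT p := by
  unfold HypMetric.TT; rw [h.t_rho]

theorem cs_rho {m : HypMetric P} (h : GF m) (p : V) : m.cs (P.rho p) = m.cs p := by
  unfold HypMetric.cs; rw [TT_rho h]

theorem ce_kap {m : HypMetric P} (h : GF m) (p : V) : m.ce (P.kap p) = m.ce p := by
  unfold HypMetric.ce; rw [h.E_kap]

theorem w_eq' {m : HypMetric P} (h : GF m) (p : V) : m.w p = log (m.RR p) + log (m.SS (P.rho p)) +
    m.U (Sum.inl p) + m.U (Sum.inl (P.rho p)) := by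
  obtain ⟨-, -, -, hR, -⟩ := facts h p
  obtain ⟨-, -, -, -, hS, -⟩ := facts h (P.rho p)
  unfold HypMetric.w HypMetric.The
  rw [Real.log_mul (by linarith) hS.ne']

theorem l_eq' {m : HypMetric P} (h : GF m) (p : V) : m.lZ (Sum.inl p) = log (m.RR p - 1) +
    log (m.SS (P.kap p) + 1) + m.U (Sum.inl p) + m.U (Sum.inl (P.kap p)) := by
  obtain ⟨-, -, -, hR, -⟩ := facts h p
  obtain ⟨-, -, -, -, hS, -⟩ := facts h (P.kap p)
  have e : m.LamZ (Sum.inl p) = (m.RR p - 1) * (m.SS (P.kap p) + 1) := rfl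
  unfold HypMetric.lZ
  rw [e, Real.log_mul (by linarith) (by linarith), Zk_inl]

end metric

/-! ### The partial sum function is nonnegative -/

section sfun

variable {V : Type*} {P : Pattern V} [Fintype V]

theorem exists_Zh (z : P.Z) : ∃ n : ℕ, Zh (ZA^[n] z) := by
  rcases z with p | p
  · obtain ⟨n, hn⟩ := P.alpha_face' p
    induction n generalizing p with
    | zero => exact ⟨0, hn⟩
    | succ n ih =>
      by_cases hq : P.Quad p
      · rw [Function.iterate_succ_apply] at hn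
        obtain ⟨k, hk⟩ := ih (P.A p) hn
        refine ⟨k + 1, ?_⟩
        rw [Function.iterate_succ_apply, ZA_inl_not (not_diag_of_quad hq)]
        exact hk
      · exact ⟨0, hq⟩
  · exact ⟨0, Zh_inr p⟩

theorem reach (p : V) (n : ℕ) : ∃ k : ℕ, ZA^[k] (Sum.inl p : P.Z) = Sum.inl (P.A^[n] p) := by
  induction n with
  | zero => exact ⟨0, rfl⟩
  | succ n ih =>
    obtain ⟨k, hk⟩ := ih
    rw [Function.iterate_succ_apply']
    by_cases hd : P.Diag (P.A^[n] p)
    · refine ⟨k + 2, ?_⟩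
      rw [Function.iterate_succ_apply', Function.iterate_succ_apply', hk, ZA_inl_diag hd, ZA_inr]
    · refine ⟨k + 1, ?_⟩
      rw [Function.iterate_succ_apply', hk, ZA_inl_not hd]

theorem mu_pos {m : HypMetric P} (hZ : GFZ m) (z : P.Z) : 0 < m.muZ z := by
  by_cases h : Zh z
  · linarith [hZ.muZ_gt z h]
  · rw [hZ.muZ_quad z h]; norm_num

theorem s_nonneg {m : HypMetric P} (hZ : GFZ m) {G s : P.Z → ℝ} (hG : ∀ z, 0 ≤ G z)
    (hs : ∀ z, s z = G z + s (ZA z) / m.muZ z) (z : P.Z) : 0 ≤ s z := by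
  have : Nonempty P.Z := ⟨z⟩
  obtain ⟨z₀, hz₀⟩ := Finite.exists_min s
  refine le_trans ?_ (hz₀ z)
  by_contra hneg
  rw [not_le] at hneg
  have key : ∀ n : ℕ, s (ZA^[n] z₀) = s z₀ ∧ ¬ Zh (ZA^[n] z₀) := by
    have step : ∀ y : P.Z, s y = s z₀ → ¬ Zh y ∧ s (ZA y) = s z₀ := by
      intro y hy
      have h1 := hs y
      have h2 := hG y
      have h3 := hz₀ (ZA y)
      have hmu := mu_pos hZ y
      by_cases hh : Zh y
      · exfalso
        have h4 := hZ.muZ_gt y hh
        have h5 : s z₀ / m.muZ y ≤ s (ZA y) / m.muZ y := div_le_div_of_nonneg_right h3 hmu.le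
        have h6 : s z₀ < s z₀ / m.muZ y := by
          rw [lt_div_iff₀ hmu]
          nlinarith
        linarith
      · refine ⟨hh, ?_⟩
        rw [hZ.muZ_quad y hh, div_one] at h1
        linarith
    intro n
    induction n with
    | zero => exact ⟨rfl, (step z₀ rfl).1⟩
    | succ n ih =>
      rw [Function.iterate_succ_apply']
      have h1 := (step _ ih.1).2
      exact ⟨h1, (step _ h1).1⟩
  obtain ⟨n, hn⟩ := exists_Zh z₀
  exact (key n).2 hn

theorem s_pos {m : HypMetric P} (hZ : GFZ m) {g : V → ℝ} {s : P.Z → ℝ} (hG : ∀ p, 0 ≤ g p)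
    (hs : ∀ z, s z = ext0 g z + s (ZA z) / m.muZ z) (hn : ∀ p, ∃ n : ℕ, g (P.A^[n] p) ≠ 0)
    (z : P.Z) : 0 < s z := by
  have hG' : ∀ z : P.Z, 0 ≤ ext0 g z := by
    rintro (p | p)
    · exact hG p
    · exact le_refl _
  have h0 := s_nonneg hZ hG' hs
  have step : ∀ y : P.Z, s y = 0 → ext0 g y = 0 ∧ s (ZA y) = 0 := by
    intro y hy
    have h1 := hs y
    have hmu := mu_pos hZ y
    have h2 : 0 ≤ s (ZA y) / m.muZ y := div_nonneg (h0 _) hmu.le
    have h3 := hG' y
    refine ⟨by linarith, ?_⟩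
    have h4 : s (ZA y) / m.muZ y = 0 := by linarith
    exact (div_eq_zero_iff.1 h4).resolve_right hmu.ne'
  have iter : ∀ (y : P.Z), s y = 0 → ∀ n : ℕ, s (ZA^[n] y) = 0 := by
    intro y hy n
    induction n with
    | zero => exact hy
    | succ n ih => rw [Function.iterate_succ_apply']; exact (step _ ih).2
  have main : ∀ p : V, s (Sum.inl p) ≠ 0 := by
    intro p hp
    obtain ⟨n, hn⟩ := hn p
    obtain ⟨k, hk⟩ := reach p n
    have h1 := (step _ (iter _ hp k)).1
    rw [hk] at h1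
    exact hn h1
  refine lt_of_le_of_ne (h0 z) fun h => ?_
  rcases z with p | p
  · exact main p h.symm
  · exact main _ (step _ h.symm).2

end sfun

/-! ### The key identity -/

section key

variable {V : Type*} {P : Pattern V} [Fintype V]

theorem key (hW1 : S_W1 P) {m m' : HypMetric P} (h : GF m) (hZ : GFZ m) (h' : GF m')
    (hδ : m'.lin - m.lin ∈ W0 P)
    (hL : (∀ z, Zh z → m.U (ZA z) = m.lZ (ZA z) + Real.log (1 + Real.exp (m.U z))) ∧
      (∀ z, ¬ Zh z → m.U (ZA z) = m.U z) ∧ (∀ z, Zh z → m.muZ z = 1 + Real.exp (-(m.U z))))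
    (hL' : (∀ z, Zh z → m'.U (ZA z) = m'.lZ (ZA z) + Real.log (1 + Real.exp (m'.U z))) ∧
      (∀ z, ¬ Zh z → m'.U (ZA z) = m'.U z) ∧ (∀ z, Zh z → m'.muZ z = 1 + Real.exp (-(m'.U z))))
    {b : V → ℝ} {v : P.W} (hb : b ∈ Inv P) (tw : Twist m b v) :
    ∑ p, b p * (m'.y p - m.y p) - Om v (m'.lin - m.lin) =
    ∑ p, 2 * (b p / m.DD p) * ((m.RR p * (log (m'.RR p) - log (m.RR p)) -
        (m.RR p - 1) * (log (m'.RR p - 1) - log (m.RR p - 1))) +
      ((m.SS p + 1) * (log (m'.SS p + 1) - log (m.SS p + 1)) -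
        m.SS p * (log (m'.SS p) - log (m.SS p)))) +
    4 * ∑ z : P.Z, (if Zh z then tw.s (ZA z) * (log (1 + exp (m'.U z)) - log (1 + exp (m.U z)) -
      (m'.U z - m.U z) / (1 + exp (-(m.U z)))) else 0) := by
  obtain ⟨hb1, hb2⟩ := hb
  have hb3 : ∀ p, b (P.kap p) = b p := fun p => by
    show b (P.B (P.rho p)) = b p
    rw [hb2, hb1]
  obtain ⟨s, N, s_eq, l_eq, w_eq, step_eq⟩ := tw
  simp only
  -- abbreviations
  obtain ⟨δ, hδe⟩ : ∃ δ : P.W, δ = m'.lin - m.lin := ⟨_, rfl⟩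
  obtain ⟨dR, hdR⟩ : ∃ f : V → ℝ, ∀ p, f p = log (m'.RR p) - log (m.RR p) := ⟨_, fun _ => rfl⟩
  obtain ⟨dS, hdS⟩ : ∃ f : V → ℝ, ∀ p, f p = log (m'.SS p) - log (m.SS p) := ⟨_, fun _ => rfl⟩
  obtain ⟨dR1, hdR1⟩ : ∃ f : V → ℝ, ∀ p, f p = log (m'.RR p - 1) - log (m.RR p - 1) :=
    ⟨_, fun _ => rfl⟩
  obtain ⟨dS1, hdS1⟩ : ∃ f : V → ℝ, ∀ p, f p = log (m'.SS p + 1) - log (m.SS p + 1) :=
    ⟨_, fun _ => rfl⟩
  obtain ⟨dU, hdU⟩ : ∃ f : P.Z → ℝ, ∀ z, f z = m'.U z - m.U z := ⟨_, fun _ => rfl⟩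
  rw [← hδe] at hδ ⊢
  have hδ1 : ∀ z, δ.1 z = m'.lZ z - m.lZ z := fun z => by rw [hδe]; rfl
  have hδ2 : ∀ p, δ.2 p = m'.w p - m.w p := fun p => by rw [hδe]; rfl
  have hw : ∀ p, δ.2 p = dR p + dS (P.rho p) + dU (Sum.inl p) + dU (Sum.inl (P.rho p)) := by
    intro p
    rw [hδ2, w_eq' h, w_eq' h', hdR, hdS, hdU, hdU]; ring
  have hl : ∀ p, δ.1 (Sum.inl p) = dR1 p + dS1 (P.kap p) + dU (Sum.inl p) +
      dU (Sum.inl (P.kap p)) := by
    intro p
    rw [hδ1, l_eq' h, l_eq' h', hdR1, hdS1, hdU, hdU]; ring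
  have hcecs : ∀ p, m.ce p = m.cs p + 2 * (1 / m.DD p) := by
    intro p
    obtain ⟨-, -, -, -, -, hD, -, -, e1, e2, e3, e4⟩ := facts h p
    have e5 : m.DD p = m.RR p + m.SS p := rfl
    have e6 : 1 + m.cs p + (1 - m.ce p) = 2 - 2 * (1 / m.DD p) := by
      rw [e2, e3]; rw [e5] at hD ⊢; field_simp; ring
    linarith
  -- the summation identity
  have hOm := hW1 (fun p => b p * m.cs p) (fun p => b p / m.DD p) s
    (fun z => s (ZA z) / m.muZ z) N v δ
    (fun p => by rw [hb1, cs_rho h])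
    (fun p => by
      have e1 := hcecs p
      have e2 := hcecs (P.kap p)
      rw [ce_kap h] at e2
      rw [hb3]
      have e3 : b p * m.cs (P.kap p) + 2 * (b p / m.DD (P.kap p)) = b p * m.ce p := by
        rw [e2]; ring
      have e4 : b p * m.cs p + 2 * (b p / m.DD p) = b p * m.ce p := by
        rw [e1]; ring
      rw [e3, e4])
    s_eq
    (fun z hz => by rw [hZ.muZ_quad z hz, div_one])
    (fun z => by
      rw [l_eq z]
      rcases z with p | p
      · simp only [ext0]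
        rw [hcecs p]; ring
      · simp only [ext0]; ring)
    (fun p => by rw [w_eq p])
    (fun z => by rw [← step_eq z])
    hδ
  -- rewrite the first sum
  have e1 : ∑ p, b p * (m'.y p - m.y p) = ∑ p, b p * (dR p - dS p - dR1 p + dS1 p) := by
    have e : ∀ p, b p * (m'.y p - m.y p) = b p * m'.y p - b p * m.y p := fun p => by ring
    rw [Finset.sum_congr rfl fun p _ => e p, Finset.sum_sub_distrib, sum_y h hb1 hb3,
      sum_y h' hb1 hb3, ← Finset.sum_sub_distrib]
    refine Finset.sum_congr rfl fun p _ => ?_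
    rw [hdR, hdS, hdR1, hdS1]; ring
  have e3 : ∑ p, b p * m.cs p * (dS (P.rho p) + dU (Sum.inl (P.rho p))) =
      ∑ p, b p * m.cs p * (dS p + dU (Sum.inl p)) := by
    rw [← sum_rho (P := P) (fun p => b p * m.cs p * (dS p + dU (Sum.inl p)))]
    exact Finset.sum_congr rfl fun p _ => by rw [hb1, cs_rho h]
  have e4 : ∑ p, b p * m.ce p * (dS1 (P.kap p) + dU (Sum.inl (P.kap p))) =
      ∑ p, b p * m.ce p * (dS1 p + dU (Sum.inl p)) := by
    rw [← sum_kap (P := P) (fun p => b p * m.ce p * (dS1 p + dU (Sum.inl p)))]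
    exact Finset.sum_congr rfl fun p _ => by rw [hb3, ce_kap h]
  have e2 : ∑ p, (b p * m.cs p * δ.2 p - (b p * m.cs p + 2 * (b p / m.DD p)) * δ.1 (Sum.inl p)) =
      ∑ p, (b p * m.cs p * (dR p + dS p + 2 * dU (Sum.inl p)) -
        b p * m.ce p * (dR1 p + dS1 p + 2 * dU (Sum.inl p))) := by
    have e : ∀ p, b p * m.cs p * δ.2 p - (b p * m.cs p + 2 * (b p / m.DD p)) * δ.1 (Sum.inl p) =
        (b p * m.cs p * (dR p + dU (Sum.inl p)) - b p * m.ce p * (dR1 p + dU (Sum.inl p))) +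
        b p * m.cs p * (dS (P.rho p) + dU (Sum.inl (P.rho p))) -
        b p * m.ce p * (dS1 (P.kap p) + dU (Sum.inl (P.kap p))) := by
      intro p
      rw [hw, hl, hcecs p]; ring
    rw [Finset.sum_congr rfl fun p _ => e p, Finset.sum_sub_distrib, Finset.sum_add_distrib, e3, e4,
      ← Finset.sum_add_distrib, ← Finset.sum_sub_distrib]
    exact Finset.sum_congr rfl fun p _ => by ring
  -- the sum with `dU`
  have e5 : ∑ p, b p / m.DD p * dU (Sum.inl p) =
      ∑ z : P.Z, s (ZA z) * (dU (ZA z) - dU z / m.muZ z) := by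
    rw [← sum_ext0 (P := P) (fun p => b p / m.DD p) dU]
    have e : ∀ z : P.Z, ext0 (fun p => b p / m.DD p) z * dU z =
        s z * dU z - s (ZA z) * (dU z / m.muZ z) := by
      intro z
      have := s_eq z
      linear_combination (-(dU z)) * this
    rw [Finset.sum_congr rfl fun z _ => e z, Finset.sum_sub_distrib,
      ← sum_ZA (P := P) (fun z => s z * dU z), ← Finset.sum_sub_distrib]
    exact Finset.sum_congr rfl fun z _ => by ring
  have e6 : ∑ z : P.Z, s (ZA z) * (dU (ZA z) - dU z / m.muZ z) =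
      ∑ z : P.Z, (if Zh z then s (ZA z) * δ.1 (ZA z) else 0) +
      ∑ z : P.Z, (if Zh z then s (ZA z) * (log (1 + exp (m'.U z)) - log (1 + exp (m.U z)) -
        (m'.U z - m.U z) / (1 + exp (-(m.U z)))) else 0) := by
    rw [← Finset.sum_add_distrib]
    refine Finset.sum_congr rfl fun z _ => ?_
    by_cases hz : Zh z
    · rw [if_pos hz, if_pos hz, hdU, hdU, hδ1, hL.1 z hz, hL'.1 z hz, hL.2.2 z hz]
      ring
    · rw [if_neg hz, if_neg hz, hdU, hdU, hL.2.1 z hz, hL'.2.1 z hz, hZ.muZ_quad z hz, div_one]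
      ring
  rw [hOm, e1, e2]
  have e7 : ∑ p, b p * (dR p - dS p - dR1 p + dS1 p) -
      ∑ p, (b p * m.cs p * (dR p + dS p + 2 * dU (Sum.inl p)) -
        b p * m.ce p * (dR1 p + dS1 p + 2 * dU (Sum.inl p))) =
      ∑ p, 2 * (b p / m.DD p) * ((m.RR p * (log (m'.RR p) - log (m.RR p)) -
        (m.RR p - 1) * (log (m'.RR p - 1) - log (m.RR p - 1))) +
      ((m.SS p + 1) * (log (m'.SS p + 1) - log (m.SS p + 1)) -
        m.SS p * (log (m'.SS p) - log (m.SS p)))) +
      4 * ∑ p, b p / m.DD p * dU (Sum.inl p) := by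
    rw [← Finset.sum_sub_distrib, Finset.mul_sum, ← Finset.sum_add_distrib]
    refine Finset.sum_congr rfl fun p _ => ?_
    rw [← hdR, ← hdS, ← hdR1, ← hdS1]
    obtain ⟨-, -, -, -, -, hD, -, -, c1, c2, c3, c4⟩ := facts h p
    have c1' : m.cs p = 1 - 2 * m.RR p / m.DD p := by linarith
    have c5 := hcecs p
    have d1 : 1 - m.cs p = 2 * (1 / m.DD p) * m.RR p := by rw [c1]; ring
    have d2 : 1 + m.cs p = 2 * (1 / m.DD p) * m.SS p := by rw [c2]; ring
    have d3 : 1 - m.ce p = 2 * (1 / m.DD p) * (m.RR p - 1) := by rw [c3]; ring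
    have d4 : 1 + m.ce p = 2 * (1 / m.DD p) * (m.SS p + 1) := by rw [c4]; ring
    have e0 : b p / m.DD p = b p * (1 / m.DD p) := by ring
    rw [e0]
    linear_combination b p * dR p * d1 - b p * dS p * d2 - b p * dR1 p * d3 + b p * dS1 p * d4 +
      2 * b p * dU (Sum.inl p) * c5
  linear_combination e7 + 4 * e5 + 4 * e6

end key

theorem orbit_ind {α : Type*} [Finite α] {f : α → α} (hf : Injective f) {Q e : α → Prop}
    (h1 : ∀ y, Q y → e (f y)) (h2 : ∀ y, e y → e (f y)) (hex : ∀ z, ∃ n : ℕ, Q (f^[n] z))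
    (z : α) : e z := by
  obtain ⟨n, hn⟩ := hex z
  have h3 : ∀ k : ℕ, e (f^[n + 1 + k] z) := by
    intro k
    induction k with
    | zero =>
      rw [add_zero, Function.iterate_succ_apply']
      exact h1 _ hn
    | succ k ih =>
      rw [← add_assoc, Function.iterate_succ_apply']
      exact h2 _ ih
  obtain ⟨N, hN, hp⟩ := Function.Injective.mem_periodicPts hf z
  have h4 : f^[N * (n + 1)] z = z := hp.mul_const (n + 1)
  have h5 : n + 1 ≤ N * (n + 1) := Nat.le_mul_of_pos_left _ hN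
  obtain ⟨k, hk⟩ := Nat.exists_eq_add_of_le h5
  have h6 := h3 k
  rw [← hk, h4] at h6
  exact h6

end Grad

/-- piece GRAD -/
theorem grad {V : Type*} [Fintype V] {P : Pattern V} (hGA : S_GA P) (hGB : S_GB P)
    (hL1 : S_LIN1 P) (hL3 : S_LIN3 P) (hW1 : S_W1 P) : S_GRAD P := by
  intro m m' b v hb hb0 tw
  have h := hGA m
  have h' := hGA m'
  have hZ := hGB m h
  have hZ' := hGB m' h'
  obtain ⟨l0, l1, l2, l3⟩ := hL1 m h hZ
  obtain ⟨l0', l1', l2', l3'⟩ := hL1 m' h' hZ'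
  have hδ : m'.lin - m.lin ∈ W0 P := Submodule.sub_mem _ l0' l0
  have hkey := Grad.key hW1 h hZ h' hδ ⟨l1, l2, l3⟩ ⟨l1', l2', l3'⟩ hb tw
  have hG0 : ∀ p, 0 ≤ b p / m.DD p := fun p =>
    div_nonneg (hb0 p) (Grad.facts h p).2.2.2.2.2.1.le
  have hG0' : ∀ z : P.Z, 0 ≤ ext0 (fun p => b p / m.DD p) z := by
    rintro (p | p)
    · exact hG0 p
    · exact le_refl _
  have hs := Grad.s_nonneg hZ hG0' tw.s_eq
  obtain ⟨f1, hf1⟩ : ∃ f : V → ℝ, ∀ p, f p = m.RR p * (log (m'.RR p) - log (m.RR p)) -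
        (m.RR p - 1) * (log (m'.RR p - 1) - log (m.RR p - 1)) := ⟨_, fun _ => rfl⟩
  obtain ⟨f2, hf2⟩ : ∃ f : V → ℝ, ∀ p, f p = (m.SS p + 1) * (log (m'.SS p + 1) - log (m.SS p + 1)) -
        m.SS p * (log (m'.SS p) - log (m.SS p)) := ⟨_, fun _ => rfl⟩
  obtain ⟨f3, hf3⟩ : ∃ f : P.Z → ℝ, ∀ z, f z = (if Zh z then tw.s (ZA z) *
      (log (1 + exp (m'.U z)) - log (1 + exp (m.U z)) -
      (m'.U z - m.U z) / (1 + exp (-(m.U z)))) else 0) := ⟨_, fun _ => rfl⟩
  have g1 : ∀ p, 0 ≤ f1 p ∧ (f1 p = 0 → m'.RR p = m.RR p) := by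
    intro p
    rw [hf1]
    exact Grad.gibbs (Grad.facts h p).2.2.2.1 (Grad.facts h' p).2.2.2.1
  have g2 : ∀ p, 0 ≤ f2 p ∧ (f2 p = 0 → m'.SS p = m.SS p) := by
    intro p
    have hS := (Grad.facts h p).2.2.2.2.1
    have hS' := (Grad.facts h' p).2.2.2.2.1
    have e := Grad.gibbs (R := m.SS p + 1) (R' := m'.SS p + 1) (by linarith) (by linarith)
    rw [add_sub_cancel_right, add_sub_cancel_right] at e
    rw [hf2]
    exact ⟨e.1, fun e0 => by linarith [e.2 e0]⟩
  have g3 : ∀ z, 0 ≤ f3 z := by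
    intro z
    rw [hf3]
    split_ifs with hz
    · exact mul_nonneg (hs _) (Grad.softplus _ _).1
    · exact le_refl _
  have hA : ∀ p, 0 ≤ 2 * (b p / m.DD p) * (f1 p + f2 p) := fun p =>
    mul_nonneg (by linarith [hG0 p]) (by linarith [(g1 p).1, (g2 p).1])
  have hkey' : ∑ p, b p * (m'.y p - m.y p) - Om v (m'.lin - m.lin) =
      ∑ p, 2 * (b p / m.DD p) * (f1 p + f2 p) + 4 * ∑ z, f3 z := by
    rw [hkey]
    congr 1
    · exact Finset.sum_congr rfl fun p _ => by rw [hf1, hf2]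
    · congr 1
      exact Finset.sum_congr rfl fun z _ => by rw [hf3]
  have s1 : 0 ≤ ∑ p, 2 * (b p / m.DD p) * (f1 p + f2 p) := Finset.sum_nonneg fun p _ => hA p
  have s2 : 0 ≤ ∑ z, f3 z := Finset.sum_nonneg fun z _ => g3 z
  refine ⟨by linarith, fun heq hn => ?_⟩
  have z1 : ∑ p, 2 * (b p / m.DD p) * (f1 p + f2 p) = 0 := by linarith
  have z2 : ∑ z, f3 z = 0 := by linarith
  have t1 := fun p => (Finset.sum_eq_zero_iff_of_nonneg fun p _ => hA p).1 z1 p (Finset.mem_univ p)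
  have t2 := fun z => (Finset.sum_eq_zero_iff_of_nonneg fun z _ => g3 z).1 z2 z (Finset.mem_univ z)
  have hspos := Grad.s_pos hZ hG0 tw.s_eq (fun p => by
    obtain ⟨n, hn⟩ := hn p
    exact ⟨n, div_ne_zero hn (Grad.facts h _).2.2.2.2.2.1.ne'⟩)
  have hU : ∀ z, Zh z → m'.U z = m.U z := by
    intro z hz
    have e := t2 z
    rw [hf3, if_pos hz] at e
    exact (Grad.softplus _ _).2 ((mul_eq_zero.1 e).resolve_left (hspos _).ne')
  have hmu : ∀ z, m.muZ z = m'.muZ z := by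
    intro z
    by_cases hz : Zh z
    · rw [l3 z hz, l3' z hz, hU z hz]
    · rw [hZ.muZ_quad z hz, hZ'.muZ_quad z hz]
  have hLam : ∀ z, m.LamZ z = m'.LamZ z := by
    refine Grad.orbit_ind (f := ZA) ZA_injective (Q := Zh) ?_ ?_ Grad.exists_Zh
    · intro y hy
      rw [hZ.tri y hy, hZ'.tri y hy, hmu, hmu]
    · intro y hy
      by_cases hz : Zh y
      · rw [hZ.tri y hz, hZ'.tri y hz, hmu, hmu]
      · rw [hZ.LamZ_quad y hz, hZ'.LamZ_quad y hz, hy]
  have hmu' : ∀ p, m.mu p = m'.mu p := by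
    intro p
    by_cases hd : P.Diag p
    · rw [← hZ.mu_split p hd, ← hZ'.mu_split p hd, hmu, hmu]
    · have e1 : m.muZ (Sum.inl p) = m.mu p := if_neg hd
      have e2 : m'.muZ (Sum.inl p) = m'.mu p := if_neg hd
      rw [← e1, ← e2, hmu]
  have hThe : ∀ p, m.The p = m'.The p := by
    have hstep : ∀ y, m.The y = m'.The y → m.The (P.A y) = m'.The (P.A y) := by
      intro y hy
      have e1 := h.The_A y
      have e2 := h'.The_A y
      rw [← hmu', ← hmu', ← hy, ← e1] at e2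
      have hpos : m.mu y ≠ 0 := by
        by_cases hq : P.Quad y
        · rw [h.mu_quad y hq]; norm_num
        · have := h.mu_gt y hq
          intro h0
          linarith
      exact (mul_right_cancel₀ hpos e2).symm
    refine Grad.orbit_ind (f := P.A) P.A_bij.1 (Q := fun p => b p ≠ 0) ?_ hstep (fun p => hn p)
    intro y hy
    apply hstep
    have hD := (Grad.facts h y).2.2.2.2.2.1
    have hby' : b (P.rho y) ≠ 0 := by rw [hb.1 y]; exact hy
    have hD' := (Grad.facts h (P.rho y)).2.2.2.2.2.1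
    have k1 : f1 y + f2 y = 0 := by
      refine (mul_eq_zero.1 (t1 y)).resolve_left ?_
      exact mul_ne_zero two_ne_zero (div_ne_zero hy hD.ne')
    have k2 : f1 (P.rho y) + f2 (P.rho y) = 0 := by
      refine (mul_eq_zero.1 (t1 (P.rho y))).resolve_left ?_
      exact mul_ne_zero two_ne_zero (div_ne_zero hby' hD'.ne')
    have k3 : m'.RR y = m.RR y := (g1 y).2 (by linarith [(g1 y).1, (g2 y).1])
    have k4 : m'.SS (P.rho y) = m.SS (P.rho y) :=
      (g2 _).2 (by linarith [(g1 (P.rho y)).1, (g2 (P.rho y)).1])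
    unfold HypMetric.The
    rw [k3, k4]
  exact (hL3 m m' h h' hZ hZ' hmu hLam hThe).symm

end Run7.h568.MC
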