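import Pool.Agent.Run7.h568.MC.Final2
import Pool.Agent.Run7.h568.MC.Grad
set_option linter.unusedSectionVars false

/-! Assembly, third part: the calibration argument. -/

namespace Run7.h568.MC.Asm

open Real Matrix Pattern

universe u

variable {V : Type u} [Fintype V] {P : Pattern V}

/-- a metric is determined by its linear coordinates -/
theorem lin_inj (hA : All P) (m m' : HypMetric P) (h : m.lin = m'.lin) : m = m' := by
  have hG := hA.ga m
  have hG' := hA.ga m'
  have hZ := hA.gb m hG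
  have hZ' := hA.gb m' hG'
  obtain ⟨-, l1, l2, l3⟩ := hA.lin1 m hG hZ
  obtain ⟨-, l1', l2', l3'⟩ := hA.lin1 m' hG' hZ'
  have hl : m.lZ = m'.lZ := congrArg Prod.fst h
  have hw : m.w = m'.w := congrArg Prod.snd h
  -- `U` is the unique solution of the recursion
  have key : ∀ x y l : ℝ, |(l + Real.log (1 + Real.exp x)) - (l + Real.log (1 + Real.exp y))| ≤ |x - y| ∧
      (x ≠ y → |(l + Real.log (1 + Real.exp x)) - (l + Real.log (1 + Real.exp y))| < |x - y|) := by
    have k1 : ∀ x y : ℝ, x < y → 0 < Real.log (1 + Real.exp y) - Real.log (1 + Real.exp x) ∧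
        Real.log (1 + Real.exp y) - Real.log (1 + Real.exp x) < y - x := by
      intro x y hxy
      have e1 := Real.exp_lt_exp.2 hxy
      have px := Real.exp_pos x
      have py := Real.exp_pos y
      refine ⟨sub_pos.2 (Real.log_lt_log (by linarith) (by linarith)), ?_⟩
      have : Real.log (1 + Real.exp y) < Real.log (Real.exp (y - x) * (1 + Real.exp x)) := by
        apply Real.log_lt_log (by linarith)
        have e2 : Real.exp (y - x) * (1 + Real.exp x) = Real.exp (y - x) + Real.exp y := by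
          rw [mul_add, mul_one, ← Real.exp_add, sub_add_cancel]
        rw [e2]
        have : 1 < Real.exp (y - x) := Real.one_lt_exp_iff.2 (by linarith)
        linarith
      rw [Real.log_mul (Real.exp_pos _).ne' (by linarith : (1 + Real.exp x) ≠ 0).symm.symm,
        Real.log_exp] at this
      linarith
    intro x y l
    rw [add_sub_add_left_eq_sub]
    rcases lt_trichotomy x y with hxy | hxy | hxy
    · obtain ⟨a1, a2⟩ := k1 x y hxy
      rw [abs_sub_comm, abs_of_pos a1, abs_sub_comm x y, abs_of_pos (by linarith)]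
      exact ⟨a2.le, fun _ => a2⟩
    · rw [hxy]; simp
    · obtain ⟨a1, a2⟩ := k1 y x hxy
      rw [abs_of_pos a1, abs_of_pos (by linarith)]
      exact ⟨a2.le, fun _ => a2⟩
  have hstep : ∀ z, |m.U (ZA z) - m'.U (ZA z)| ≤ |m.U z - m'.U z| := by
    intro z
    by_cases hz : Zh z
    · rw [l1 z hz, l1' z hz, hl]
      exact (key _ _ _).1
    · rw [l2 z hz, l2' z hz]
  have hsum : ∑ z, |m.U (ZA z) - m'.U (ZA z)| = ∑ z, |m.U z - m'.U z| :=
    sum_ZA fun z => |m.U z - m'.U z|
  have heq : ∀ z, |m.U (ZA z) - m'.U (ZA z)| = |m.U z - m'.U z| := fun z =>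
    (Finset.sum_eq_sum_iff_of_le fun z _ => hstep z).1 hsum z (Finset.mem_univ z)
  have hUh : ∀ z, Zh z → m.U z = m'.U z := by
    intro z hz
    by_contra hne
    have e := heq z
    rw [l1 z hz, l1' z hz, hl] at e
    exact (lt_irrefl _ (e ▸ (key (m.U z) (m'.U z) _).2 hne))
  have hiter : ∀ (n : ℕ) z, |m.U (ZA^[n] z) - m'.U (ZA^[n] z)| = |m.U z - m'.U z| := by
    intro n
    induction n with
    | zero => intro z; rfl
    | succ n ih => intro z; rw [Function.iterate_succ_apply, ih, heq]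
  have hU : ∀ z, m.U z = m'.U z := by
    intro z
    obtain ⟨n, hn⟩ := Grad.exists_Zh z
    have e := hiter n z
    rw [hUh _ hn, sub_self, abs_zero] at e
    exact sub_eq_zero.1 (abs_eq_zero.1 e.symm)
  have hmu : ∀ z, m.muZ z = m'.muZ z := by
    intro z
    by_cases hz : Zh z
    · rw [l3 z hz, l3' z hz, hU z]
    · rw [hZ.muZ_quad z hz, hZ'.muZ_quad z hz]
  have hLam : ∀ z, m.LamZ z = m'.LamZ z := by
    intro z
    have e := congrFun hl z
    unfold HypMetric.lZ at e
    rw [hU, hU] at e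
    exact Real.log_injOn_pos (hZ.LamZ_pos z) (hZ'.LamZ_pos z) (by linarith)
  have hThe : ∀ p, m.The p = m'.The p := by
    intro p
    have e := congrFun hw p
    unfold HypMetric.w at e
    rw [hU, hU] at e
    have q1 : 0 < m.The p := mul_pos (by linarith [(Grad.facts hG p).2.2.2.1])
      (Grad.facts hG (P.rho p)).2.2.2.2.1
    have q2 : 0 < m'.The p := mul_pos (by linarith [(Grad.facts hG' p).2.2.2.1])
      (Grad.facts hG' (P.rho p)).2.2.2.2.1
    exact Real.log_injOn_pos q1 q2 (by linarith)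
  exact hA.lin3 m m' hG hG' hZ hZ' hmu hLam hThe

/-- the path hypothesis of the calibration argument -/
theorem exists_path (hA : All P) {m m' : HypMetric P} (L : LeafData m) (L' : LeafData m')
    (b : Inv P) (hb : ∀ p, 0 ≤ (b : V → ℝ) p) (h : L'.z b - L.z b = L'.z 0 - L.z 0) :
    ∃ σ : ℝ → Inv P, (∀ t ∈ Set.Icc (0 : ℝ) 1, DifferentiableAt ℝ σ t) ∧ σ 0 = 0 ∧ σ 1 = b ∧
      ∀ t ∈ Set.Icc (0 : ℝ) 1, QE (P := P) (E := Inv P) ev (L'.z (σ t)) =
        QE (P := P) (E := Inv P) ev (L.z (t • b)) + QE (P := P) (E := Inv P) ev (L'.z 0 - L.z 0) := by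
  set Q := QE (P := P) (E := Inv P) ev with hQ
  have hz := z_diff hA L
  have hz' := z_diff hA L'
  have hd : ∀ t : ℝ, HasDerivAt (fun t : ℝ => Q (L.z (t • b)) + Q (L'.z 0 - L.z 0))
      (Q (fderiv ℝ L.z (t • b) b)) t := by
    intro t
    have a1 : HasDerivAt (fun t : ℝ => t • b) b t := by
      simpa using (hasDerivAt_id t).smul_const b
    have a2 : HasDerivAt (fun t : ℝ => L.z (t • b)) (fderiv ℝ L.z (t • b) b) t := by
      have h3 := (hz (t • b)).hasFDerivAt.comp_hasDerivAt t a1
      exact h3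
    exact (Q.hasFDerivAt.comp_hasDerivAt t a2).add_const _
  have hy0 : Q (L.z ((0 : ℝ) • b)) + Q (L'.z 0 - L.z 0) = Q (L'.z 0) := by
    rw [zero_smul, map_sub, add_sub_cancel]
  have hy1 : Q (L.z ((1 : ℝ) • b)) + Q (L'.z 0 - L.z 0) = Q (L'.z b) := by
    rw [one_smul, ← h, map_sub, add_sub_cancel]
  have hanti : ∀ p0, Antitone fun t : ℝ =>
      (Q (L.z (t • b)) + Q (L'.z 0 - L.z 0)) (ind P p0) := by
    intro p0
    have hd2 : ∀ t : ℝ, HasDerivAt (fun t : ℝ => (Q (L.z (t • b)) + Q (L'.z 0 - L.z 0)) (ind P p0))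
        (Q (fderiv ℝ L.z (t • b) b) (ind P p0)) t := by
      intro t
      simpa using (hd t).clm_apply (hasDerivAt_const t (ind P p0))
    refine antitone_of_deriv_nonpos (fun t => (hd2 t).differentiableAt) fun t => ?_
    rw [(hd2 t).deriv]
    exact q_nonpos hA L _ b (ind P p0) hb (ind_nonneg p0)
  refine path_lift hA.inv (fun x => Q (L'.z x)) (ind P)
    (fun p0 => ∑ p, (ind P p0 : V → ℝ) p * m'.y p) (Q.contDiff.comp (z_smooth hA L')) ?_
    (fun x i => q_box hA L' x i) (fun η hη => q_proper hA L' η hη)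
    (fun t => Q (L.z (t • b)) + Q (L'.z 0 - L.z 0)) (fun t _ => (hd t).differentiableAt) ?_ b
    hy0 hy1
  · intro x c hc
    have : fderiv ℝ (fun x => Q (L'.z x)) x = Q.comp (fderiv ℝ L'.z x) :=
      (Q.hasFDerivAt.comp x (hz' x).hasFDerivAt).fderiv
    rw [this]
    exact q_neg hA L' x c hc
  · intro t ht p0
    have u1 := hanti p0 ht.1
    have u2 := hanti p0 ht.2
    simp only [hy0, hy1] at u1 u2
    have v1 := q_box hA L' 0 p0
    have v2 := q_box hA L' b p0
    rw [abs_lt] at v1 v2 ⊢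
    constructor
    · linarith
    · linarith

/-- two metrics whose leaves differ by a translation, over a filling weight, are equal -/
theorem calibrated (hA : All P) {m m' : HypMetric P} (L : LeafData m) (L' : LeafData m')
    (b : Inv P) (hb : ∀ p, 0 ≤ (b : V → ℝ) p)
    (hfill : ∀ p, ∃ n : ℕ, (b : V → ℝ) (P.A^[n] p) ≠ 0)
    (h : L'.z b - L.z b = L'.z 0 - L.z 0) : m' = m := by
  have h' : L.z b - L'.z b = L.z 0 - L'.z 0 := by
    rw [← neg_sub, h, neg_sub]
  have main := hA.cal (Inv P) P.W OmC (W0 P) (QE (P := P) (E := Inv P) ev) L.z L'.z b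
    (∑ p, (b : V → ℝ) p * m.y p) (∑ p, (b : V → ℝ) p * m'.y p)
    (fun u => Om_self u)
    (fun u hu v hv h1 h2 => hA.iso u hu v hv
      (fun c hc => by
        have := congrArg (fun ξ => ξ (⟨c, hc⟩ : Inv P)) h1
        simpa [QE_apply, ev_apply] using this)
      (fun c hc => by
        have := congrArg (fun ξ => ξ (⟨c, hc⟩ : Inv P)) h2
        simpa [QE_apply, ev_apply] using this))
    (z_smooth hA L) (z_smooth hA L') (z_W0 hA L) (z_W0 hA L') (lag hA L) (lag hA L')
    (fun τ σ => om_le hA L b hb τ (L'.F σ) |>.trans (le_of_eq (by rw [z_y hA L'])))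
    (fun τ σ he => by
      have := om_eq hA L b hb hfill τ (L'.F σ) (by
        rw [z_y hA L']; exact he)
      unfold LeafData.z
      rw [this])
    (fun τ σ => om_le hA L' b hb τ (L.F σ) |>.trans (le_of_eq (by rw [z_y hA L])))
    (exists_path hA L L' b hb h) (exists_path hA L' L b hb h') h
  unfold LeafData.z at main
  rw [L.zero, L'.zero] at main
  exact lin_inj hA _ _ main

end Run7.h568.MC.Asm
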