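import Pool.Agent.Run7.h568.MC.Iface
import Pool.Agent.Run7.h568.MC.ZLemmas

/-! Piece ISO (helper277): the kernel of `q` is isotropic. -/

set_option autoImplicit false

namespace Run7.h568.MC

open Real Matrix Pattern Function

namespace Iso

open scoped Classical

variable {V : Type*} [Fintype V] {P : Pattern V}

/-! ### The potential -/

omit [Fintype V] in
theorem B_eq (p : V) : P.B p = P.kap (P.rho p) := by unfold kap; rw [P.rho_rho]

theorem exists_psi {w l : V → ℝ} (hw : ∀ p, w (P.rho p) = w p) (hl : ∀ p, l (P.kap p) = l p)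
    (hq : ∀ c ∈ Inv P, ∑ p, c p * (w p - l p) = 0) :
    ∃ ψ : V → ℝ, (∀ p, w p = -(ψ p + ψ (P.rho p))) ∧ ∀ p, l p = -(ψ p + ψ (P.kap p)) := by
  let T : (V → ℝ) →ₗ[ℝ] (V → ℝ) × (V → ℝ) :=
    { toFun := fun ψ => (fun p => -(ψ p + ψ (P.rho p)), fun p => -(ψ p + ψ (P.kap p)))
      map_add' := by
        intro x y
        ext p
        · simp; ring
        · simp; ring
      map_smul' := by
        intro c x
        ext p
        · simp; ring
        · simp; ring }
  by_cases hmem : (w, l) ∈ LinearMap.range T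
  · obtain ⟨ψ, hψ⟩ := hmem
    refine ⟨ψ, fun p => ?_, fun p => ?_⟩
    · exact (congrFun (congrArg Prod.fst hψ) p).symm
    · exact (congrFun (congrArg Prod.snd hψ) p).symm
  exfalso
  obtain ⟨φ, hφ1, hφ2⟩ := Submodule.exists_dual_map_eq_bot_of_notMem hmem inferInstance
  obtain ⟨α, hα⟩ : ∃ α : V → ℝ, ∀ p, α p = φ (Pi.single p 1, 0) := ⟨_, fun _ => rfl⟩
  obtain ⟨β, hβ⟩ : ∃ β : V → ℝ, ∀ p, β p = φ (0, Pi.single p 1) := ⟨_, fun _ => rfl⟩
  have hφ : ∀ f g : V → ℝ, φ (f, g) = ∑ p, α p * f p + ∑ p, β p * g p := by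
    intro f g
    have e : (f, g) = ∑ p, f p • ((Pi.single p 1, 0) : (V → ℝ) × (V → ℝ)) +
        ∑ p, g p • ((0, Pi.single p 1) : (V → ℝ) × (V → ℝ)) := by
      ext q
      · simp [Prod.fst_sum, Pi.single_apply]
      · simp [Prod.snd_sum, Pi.single_apply]
    rw [e, map_add, map_sum, map_sum]
    congr 1
    · exact Finset.sum_congr rfl fun p _ => by rw [map_smul, smul_eq_mul, hα]; ring
    · exact Finset.sum_congr rfl fun p _ => by rw [map_smul, smul_eq_mul, hβ]; ring
  have hzero : ∀ ψ : V → ℝ, φ (T ψ) = 0 := by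
    intro ψ
    have h1 : φ (T ψ) ∈ Submodule.map φ (LinearMap.range T) := ⟨T ψ, ⟨ψ, rfl⟩, rfl⟩
    rw [hφ2] at h1
    exact h1
  have hrel : ∀ p, α p + α (P.rho p) + β p + β (P.kap p) = 0 := by
    have h1 : ∀ ψ : V → ℝ, ∑ p, (α p + α (P.rho p) + β p + β (P.kap p)) * ψ p = 0 := by
      intro ψ
      have h2 := hzero ψ
      have h3 : T ψ = (fun p => -(ψ p + ψ (P.rho p)), fun p => -(ψ p + ψ (P.kap p))) := rfl
      rw [h3, hφ] at h2
      have h4 : ∑ p, α p * ψ (P.rho p) = ∑ p, α (P.rho p) * ψ p := by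
        rw [← sum_rho (P := P) (fun p => α p * ψ (P.rho p))]
        exact Finset.sum_congr rfl fun p _ => by rw [P.rho_rho]
      have h5 : ∑ p, β p * ψ (P.kap p) = ∑ p, β (P.kap p) * ψ p := by
        rw [← sum_kap (P := P) (fun p => β p * ψ (P.kap p))]
        exact Finset.sum_congr rfl fun p _ => by rw [P.kap_kap]
      have h6 : ∑ p, (α p + α (P.rho p) + β p + β (P.kap p)) * ψ p =
          (∑ p, α p * ψ p + ∑ p, α p * ψ (P.rho p)) + (∑ p, β p * ψ p + ∑ p, β p * ψ (P.kap p)) := by
        rw [h4, h5, ← Finset.sum_add_distrib, ← Finset.sum_add_distrib, ← Finset.sum_add_distrib]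
        exact Finset.sum_congr rfl fun p _ => by ring
      rw [h6]
      have h7 : ∑ p, α p * -(ψ p + ψ (P.rho p)) = -(∑ p, α p * ψ p + ∑ p, α p * ψ (P.rho p)) := by
        rw [← Finset.sum_add_distrib, ← Finset.sum_neg_distrib]
        exact Finset.sum_congr rfl fun p _ => by ring
      have h8 : ∑ p, β p * -(ψ p + ψ (P.kap p)) = -(∑ p, β p * ψ p + ∑ p, β p * ψ (P.kap p)) := by
        rw [← Finset.sum_add_distrib, ← Finset.sum_neg_distrib]
        exact Finset.sum_congr rfl fun p _ => by ring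
      rw [h7, h8] at h2
      linarith
    intro p
    have := h1 (Pi.single p 1)
    simpa [Pi.single_apply] using this
  have ha : (fun p => α p + α (P.rho p)) ∈ Inv P := by
    refine ⟨fun p => ?_, fun p => ?_⟩
    · show α (P.rho p) + α (P.rho (P.rho p)) = α p + α (P.rho p)
      rw [P.rho_rho]; ring
    · show α (P.B p) + α (P.rho (P.B p)) = α p + α (P.rho p)
      have h1 := hrel (P.kap (P.rho p))
      rw [P.kap_kap] at h1
      have h2 := hrel (P.rho p)
      rw [P.rho_rho] at h2
      rw [B_eq]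
      linarith
  have h1 := hq _ ha
  have h2 : ∑ p, α (P.rho p) * w p = ∑ p, α p * w p := by
    rw [← sum_rho (P := P) (fun p => α p * w p)]
    exact Finset.sum_congr rfl fun p _ => by rw [hw]
  have h3 : ∑ p, β (P.kap p) * l p = ∑ p, β p * l p := by
    rw [← sum_kap (P := P) (fun p => β p * l p)]
    exact Finset.sum_congr rfl fun p _ => by rw [hl]
  have h4 : ∑ p, (α p + α (P.rho p)) * (w p - l p) =
      (∑ p, α p * w p + ∑ p, α (P.rho p) * w p) + (∑ p, β p * l p + ∑ p, β (P.kap p) * l p) := by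
    rw [← Finset.sum_add_distrib, ← Finset.sum_add_distrib, ← Finset.sum_add_distrib]
    refine Finset.sum_congr rfl fun p _ => ?_
    have := hrel p
    linear_combination (-(l p)) * this
  rw [h4, h2, h3] at h1
  apply hφ1
  rw [hφ]
  linarith

/-! ### Strips -/

/-- neighbours along an edge of `α`, or opposite corners of a quadrilateral -/
def rS (P : Pattern V) (p q : V) : Prop := q = P.iota p ∨ (P.Quad p ∧ q = P.tau p)

omit [Fintype V] in
theorem mk_iota (p : V) : Quot.mk (rS P) (P.iota p) = Quot.mk (rS P) p :=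
  (Quot.sound (r := rS P) (a := p) (b := P.iota p) (Or.inl rfl)).symm

omit [Fintype V] in
theorem mk_tau {p : V} (h : P.Quad p) : Quot.mk (rS P) (P.tau p) = Quot.mk (rS P) p :=
  (Quot.sound (r := rS P) (a := p) (b := P.tau p) (Or.inr ⟨h, rfl⟩)).symm

omit [Fintype V] in
theorem mk_B {p : V} (h : P.Quad (P.B p)) : Quot.mk (rS P) (P.B p) = Quot.mk (rS P) p := by
  rw [← P.tau_iota] at h ⊢
  rw [mk_tau (P.quad_tau.1 h), mk_iota]

omit [Fintype V] in
theorem exists_end (p : V) : ∃ q, ¬ P.Quad q ∧ Quot.mk (rS P) q = Quot.mk (rS P) p := by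
  obtain ⟨n, hn⟩ := P.beta_face' p
  induction n generalizing p with
  | zero => exact ⟨p, hn, rfl⟩
  | succ n ih =>
    by_cases h : P.Quad (P.iota p)
    · rw [Function.iterate_succ_apply] at hn
      obtain ⟨q, hq, e⟩ := ih (P.B p) hn
      refine ⟨q, hq, e.trans (mk_B ?_)⟩
      rw [← P.tau_iota]
      exact P.quad_tau.2 h
    · exact ⟨P.iota p, h, mk_iota p⟩

omit [Fintype V] in
theorem exists_other (p : V) :
    ∃ q, ¬ P.Quad q ∧ q ≠ p ∧ Quot.mk (rS P) q = Quot.mk (rS P) p := by
  have hex : ∃ k : ℕ, ¬ P.Quad (P.B^[k + 1] p) := by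
    obtain ⟨n, hn⟩ := P.beta_face' (P.B p)
    exact ⟨n, by rw [Function.iterate_succ_apply]; exact hn⟩
  obtain ⟨k, hk, hmin⟩ : ∃ k : ℕ, ¬ P.Quad (P.B^[k + 1] p) ∧
      ∀ i < k, P.Quad (P.B^[i + 1] p) :=
    ⟨Nat.find hex, Nat.find_spec hex, fun i hi => not_not.1 (Nat.find_min hex hi)⟩
  refine ⟨P.iota (P.B^[k] p), ?_, ?_, ?_⟩
  · intro h
    apply hk
    rw [Function.iterate_succ_apply', ← P.tau_iota]
    exact P.quad_tau.2 h
  · intro h0
    have key : ∀ i ≤ k, P.iota (P.B^[i] p) = P.B^[k - i] p := by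
      intro i
      induction i with
      | zero =>
        intro _
        have := congrArg P.iota h0
        rw [P.iota_iota] at this
        exact this.symm
      | succ i ih =>
        intro hi
        have h1 := ih (by omega)
        have h2 := hmin i (by omega)
        have h3 : P.B (P.iota (P.B^[i + 1] p)) = P.iota (P.B^[i] p) := by
          rw [Function.iterate_succ_apply', ← P.tau_iota] at h2
          have h4 : P.tau (P.tau (P.iota (P.B^[i] p))) = P.iota (P.B^[i] p) := P.quad_tau.1 h2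
          rw [Function.iterate_succ_apply']
          rw [P.tau_iota] at h4
          exact h4
        rw [h1] at h3
        obtain ⟨j, hj⟩ : ∃ j, k - i = j + 1 := ⟨k - i - 1, by omega⟩
        rw [hj, Function.iterate_succ_apply' P.B j] at h3
        have h5 := P.B_inj h3
        rw [h5]
        congr 1
        omega
    rcases Nat.even_or_odd' k with ⟨j, hj | hj⟩
    · have h1 := key j (by omega)
      have e : k - j = j := by omega
      rw [e] at h1
      exact P.iota_ne _ h1
    · have h1 := key j (by omega)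
      have e : k - j = j + 1 := by omega
      rw [e, Function.iterate_succ_apply', ← P.tau_iota] at h1
      exact P.tau_ne _ h1.symm
  · rw [mk_iota]
    have key : ∀ i ≤ k, Quot.mk (rS P) (P.B^[i] p) = Quot.mk (rS P) p := by
      intro i
      induction i with
      | zero => intro _; rfl
      | succ i ih =>
        intro hi
        have h2 := hmin i (by omega)
        rw [Function.iterate_succ_apply'] at h2 ⊢
        rw [mk_B h2]
        exact ih (by omega)
    exact key k le_rfl

theorem card_strips : 2 * Nat.card (Quot (rS P)) ≤ Nat.card {p : V // ¬ P.Quad p} := by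
  have h1 : ∀ S : Quot (rS P), ∃ f : Bool → {p : V // ¬ P.Quad p},
      Injective f ∧ ∀ i, Quot.mk (rS P) (f i).1 = S := by
    intro S
    obtain ⟨p₀, rfl⟩ := Quot.exists_rep S
    obtain ⟨p, hp, e⟩ := exists_end (P := P) p₀
    obtain ⟨q, hq, hne, e'⟩ := exists_other (P := P) p
    refine ⟨fun b => if b then ⟨p, hp⟩ else ⟨q, hq⟩, ?_, ?_⟩
    · intro i j hij
      cases i <;> cases j
      · rfl
      · exact absurd (congrArg Subtype.val hij) hne
      · exact absurd (congrArg Subtype.val hij).symm hne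
      · rfl
    · intro i
      cases i
      · exact e'.trans e
      · exact e
  choose f hf1 hf2 using h1
  have hinj : Injective (fun x : Bool × Quot (rS P) => f x.2 x.1) := by
    rintro ⟨i, S⟩ ⟨j, S'⟩ h
    have h2 : S = S' := by
      have := congrArg (fun y : {p : V // ¬ P.Quad p} => Quot.mk (rS P) y.1) h
      simp only [hf2] at this
      exact this
    subst h2
    have h3 : i = j := hf1 S h
    rw [h3]
  have := Nat.card_le_card_of_injective _ hinj
  rwa [Nat.card_prod, Nat.card_eq_fintype_card (α := Bool), Fintype.card_bool] at this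

/-! ### Faces -/

/-- neighbouring corners of a face -/
def rT (P : Pattern V) (p q : V) : Prop := P.B (P.iota p) = q

omit [Fintype V] in
theorem mkT_tau (p : V) : Quot.mk (rT P) (P.tau p) = Quot.mk (rT P) p :=
  (Quot.sound (r := rT P) (a := p) (b := P.tau p) rfl).symm

/-- the corners of the face of `q` -/
noncomputable def orb (P : Pattern V) (q : V) : Finset V :=
  {q, P.tau q, P.tau (P.tau q), P.tau (P.tau (P.tau q))}

omit [Fintype V] in
theorem mem_orb_tau (q p : V) : P.tau p ∈ orb P q ↔ p ∈ orb P q := by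
  have h4 : P.tau (P.tau (P.tau (P.tau q))) ∈ orb P q ∧
      (P.tau (P.tau (P.tau (P.tau q))) = q ∨ P.tau (P.tau (P.tau q)) = q ∨ P.tau (P.tau q) = q) := by
    rcases P.faces q with h | h | h
    · have h' : P.tau (P.tau q) = q := h
      rw [h', h']
      exact ⟨by simp [orb], Or.inl rfl⟩
    · have h' : P.tau (P.tau (P.tau q)) = q := h
      rw [h']
      exact ⟨by simp [orb], Or.inr (Or.inl rfl)⟩
    · rw [h.1]
      exact ⟨by simp [orb], Or.inl rfl⟩
  constructor
  · intro h
    simp only [orb, Finset.mem_insert, Finset.mem_singleton] at h ⊢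
    rcases h with h | h | h | h
    · rcases h4.2 with e | e | e
      · right; right; right
        apply P.tau_bij.1
        rw [h, e]
      · right; right; left
        apply P.tau_bij.1
        rw [h, e]
      · right; left
        apply P.tau_bij.1
        rw [h, e]
    · left
      exact P.tau_bij.1 h
    · right; left
      exact P.tau_bij.1 h
    · right; right; left
      exact P.tau_bij.1 h
  · intro h
    have h5 := h4.1
    simp only [orb, Finset.mem_insert, Finset.mem_singleton] at h h5 ⊢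
    rcases h with h | h | h | h
    · rw [h]; simp
    · rw [h]; simp
    · rw [h]; simp
    · rw [h]; exact h5

theorem filter_orb (q : V) :
    Finset.univ.filter (fun p => Quot.mk (rT P) p = Quot.mk (rT P) q) = orb P q := by
  ext p
  simp only [Finset.mem_filter, Finset.mem_univ, true_and]
  constructor
  · intro h
    let f : Quot (rT P) → Prop := Quot.lift (fun p => p ∈ orb P q) (by
      intro a b hab
      have hab' : P.tau a = b := hab
      rw [← hab']
      exact propext (mem_orb_tau q a).symm)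
    have h1 : f (Quot.mk _ p) = f (Quot.mk _ q) := by rw [h]
    have h2 : (p ∈ orb P q) = (q ∈ orb P q) := h1
    rw [h2]
    simp [orb]
  · intro h
    simp only [orb, Finset.mem_insert, Finset.mem_singleton] at h
    rcases h with rfl | rfl | rfl | rfl
    · rfl
    · rw [mkT_tau]
    · rw [mkT_tau, mkT_tau]
    · rw [mkT_tau, mkT_tau, mkT_tau]

omit [Fintype V] in
theorem card_orb (q : V) : (orb P q).card = if P.Quad q then 2 else if P.Hex q then 3 else 4 := by
  have h1 : P.tau q ≠ q := P.tau_ne q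
  have h2 : P.tau (P.tau q) ≠ P.tau q := P.tau_ne _
  have h3 : P.tau (P.tau (P.tau q)) ≠ P.tau (P.tau q) := P.tau_ne _
  by_cases hQ : P.Quad q
  · rw [if_pos hQ]
    have h' : P.tau (P.tau q) = q := hQ
    have : orb P q = {q, P.tau q} := by
      ext x
      simp only [orb, Finset.mem_insert, Finset.mem_singleton, h']
      tauto
    rw [this, Finset.card_pair h1.symm]
  · rw [if_neg hQ]
    have h5 : P.tau (P.tau q) ≠ q := hQ
    by_cases hH : P.Hex q
    · rw [if_pos hH]
      have h' : P.tau (P.tau (P.tau q)) = q := hH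
      have : orb P q = {q, P.tau q, P.tau (P.tau q)} := by
        ext x
        simp only [orb, Finset.mem_insert, Finset.mem_singleton, h']
        tauto
      rw [this, Finset.card_insert_of_notMem (by simp [h1.symm, h5.symm]),
        Finset.card_pair h2.symm]
    · rw [if_neg hH]
      have h6 : P.tau (P.tau (P.tau q)) ≠ q := hH
      have h7 : P.tau (P.tau (P.tau q)) ≠ P.tau q := fun e => h5 (P.tau_bij.1 e)
      unfold orb
      rw [Finset.card_insert_of_notMem (by simp [h1.symm, h5.symm, h6.symm]),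
        Finset.card_insert_of_notMem (by simp [h2.symm, h7.symm]), Finset.card_pair h3.symm]

/-- sums over corners and over faces -/
theorem sum_faces [Fintype (Quot (rT P))] (g : V → ℕ) (hg : ∀ p, g (P.tau p) = g p) :
    ∑ p, g p = ∑ F : Quot (rT P),
      (if P.Quad F.out then 2 else if P.Hex F.out then 3 else 4) * g F.out := by
  rw [← Finset.sum_fiberwise (s := Finset.univ) (g := fun p => Quot.mk (rT P) p)]
  refine Finset.sum_congr rfl fun F _ => ?_
  have hF : Quot.mk (rT P) F.out = F := Quot.out_eq F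
  have h1 : Finset.univ.filter (fun p => Quot.mk (rT P) p = F) = orb P F.out := by
    conv_lhs => rw [← hF]
    exact filter_orb F.out
  have h2 : ∀ p ∈ Finset.univ.filter (fun p => Quot.mk (rT P) p = F), g p = g F.out := by
    intro p hp
    rw [h1] at hp
    simp only [orb, Finset.mem_insert, Finset.mem_singleton] at hp
    rcases hp with rfl | rfl | rfl | rfl
    · rfl
    · rw [hg]
    · rw [hg, hg]
    · rw [hg, hg, hg]
  rw [Finset.sum_congr rfl h2, Finset.sum_const, h1, card_orb, smul_eq_mul]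

theorem count : 2 * Nat.card (Quot (rS P)) +
    2 * Nat.card {F : Quot (rT P) // P.Oct F.out} ≤
    2 * Nat.card (Quot fun p q : V => P.B p = q) := by
  have : Fintype (Quot (rT P)) := Fintype.ofFinite _
  have h1 := card_strips (P := P)
  have h2 := P.pants
  have hV : Nat.card V = ∑ F : Quot (rT P),
      (if P.Quad F.out then 2 else if P.Hex F.out then 3 else 4) := by
    have := sum_faces (P := P) (fun _ => 1) (fun _ => rfl)
    simp only [mul_one, Finset.sum_const, Finset.card_univ, smul_eq_mul] at this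
    rw [Nat.card_eq_fintype_card, this]
  have hN : Nat.card {p : V // ¬ P.Quad p} = ∑ F : Quot (rT P),
      (if P.Quad F.out then 2 else if P.Hex F.out then 3 else 4) * (if P.Quad F.out then 0 else 1) := by
    have := sum_faces (P := P) (fun p => if P.Quad p then 0 else 1)
      (fun p => by simp only [P.quad_tau])
    rw [← this, Nat.card_eq_fintype_card, Fintype.card_subtype, Finset.card_filter]
    refine Finset.sum_congr rfl fun p _ => ?_
    by_cases h : P.Quad p <;> simp [h]
  have hO : Nat.card {F : Quot (rT P) // P.Oct F.out} = ∑ F : Quot (rT P),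
      (if P.Oct F.out then 1 else 0) := by
    rw [Nat.card_eq_fintype_card, Fintype.card_subtype, Finset.card_filter]
  have hF : Nat.card (Quot fun p q : V => P.B (P.iota p) = q) = ∑ F : Quot (rT P), 1 := by
    rw [Finset.sum_const, Finset.card_univ, smul_eq_mul, mul_one, ← Nat.card_eq_fintype_card]
    rfl
  have key : 3 * Nat.card V = Nat.card {p : V // ¬ P.Quad p} +
      2 * Nat.card {F : Quot (rT P) // P.Oct F.out} +
      6 * Nat.card (Quot fun p q : V => P.B (P.iota p) = q) := by
    rw [hV, hN, hO, hF, Finset.mul_sum, Finset.mul_sum, Finset.mul_sum, ← Finset.sum_add_distrib,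
      ← Finset.sum_add_distrib]
    refine Finset.sum_congr rfl fun F _ => ?_
    by_cases hQ : P.Quad F.out
    · have hO : ¬ P.Oct F.out := fun h => h.2 hQ
      simp [hQ, hO]
    · by_cases hH : P.Hex F.out
      · have hO : ¬ P.Oct F.out := fun h => P.not_hex_of_oct h hH
        simp [hQ, hH, hO]
      · have hO : P.Oct F.out := (P.hex_or_oct hQ).resolve_left hH
        simp [hQ, hH, hO]
  omega

/-! ### The solution space -/

/-- `B`-invariant functions -/
def XB (P : Pattern V) : Submodule ℝ (V → ℝ) where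
  carrier := {C | ∀ p, C (P.B p) = C p}
  add_mem' := by
    intro u v h k p
    show u (P.B p) + v (P.B p) = u p + v p
    rw [h p, k p]
  zero_mem' := fun p => rfl
  smul_mem' := by
    intro c u h p
    show c * u (P.B p) = c * u p
    rw [h p]

/-- the linear conditions on `χ`, `ψ` (on the corners which are not in quadrilaterals) and `D` -/
def Sol (P : Pattern V) : Submodule ℝ ((V → ℝ) × (V → ℝ) × (V → ℝ)) where
  carrier := {x | (∀ p, x.1 (P.iota p) = x.1 p) ∧ (∀ p, P.Quad p → x.1 (P.tau p) = x.1 p) ∧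
    (∀ p, P.Quad p → x.2.1 p = 0) ∧
    (∀ p, ¬ P.Quad p → x.1 p = -(x.2.1 p + x.2.1 (P.tau p)) + x.2.2 p) ∧
    (∀ p, ¬ P.Diag p → x.2.2 p = 0) ∧ (∀ p, P.Diag p → x.2.2 (P.tau (P.tau p)) = x.2.2 p)}
  add_mem' := by
    rintro u v ⟨h1, h2, h3, h4, h5, h6⟩ ⟨k1, k2, k3, k4, k5, k6⟩
    refine ⟨fun p => ?_, fun p hp => ?_, fun p hp => ?_, fun p hp => ?_, fun p hp => ?_,
      fun p hp => ?_⟩
    · show u.1 _ + v.1 _ = u.1 _ + v.1 _
      rw [h1, k1]
    · show u.1 _ + v.1 _ = u.1 _ + v.1 _
      rw [h2 p hp, k2 p hp]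
    · show u.2.1 _ + v.2.1 _ = 0
      rw [h3 p hp, k3 p hp, add_zero]
    · show u.1 _ + v.1 _ = -((u.2.1 _ + v.2.1 _) + (u.2.1 _ + v.2.1 _)) + (u.2.2 _ + v.2.2 _)
      rw [h4 p hp, k4 p hp]; ring
    · show u.2.2 _ + v.2.2 _ = 0
      rw [h5 p hp, k5 p hp, add_zero]
    · show u.2.2 _ + v.2.2 _ = u.2.2 _ + v.2.2 _
      rw [h6 p hp, k6 p hp]
  zero_mem' := by
    refine ⟨fun p => rfl, fun p _ => rfl, fun p _ => rfl, fun p _ => ?_, fun p _ => rfl,
      fun p _ => rfl⟩
    show (0 : ℝ) = -((0 : ℝ) + 0) + 0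
    ring
  smul_mem' := by
    rintro c u ⟨h1, h2, h3, h4, h5, h6⟩
    refine ⟨fun p => ?_, fun p hp => ?_, fun p hp => ?_, fun p hp => ?_, fun p hp => ?_,
      fun p hp => ?_⟩
    · show c * u.1 _ = c * u.1 _
      rw [h1]
    · show c * u.1 _ = c * u.1 _
      rw [h2 p hp]
    · show c * u.2.1 _ = 0
      rw [h3 p hp, mul_zero]
    · show c * u.1 _ = -(c * u.2.1 _ + c * u.2.1 _) + c * u.2.2 _
      rw [h4 p hp]; ring
    · show c * u.2.2 _ = 0
      rw [h5 p hp, mul_zero]
    · show c * u.2.2 _ = c * u.2.2 _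
      rw [h6 p hp]

omit [Fintype V] in
theorem C_tau {C : V → ℝ} (hC : C ∈ XB P) (p : V) : C (P.tau p) = C (P.iota p) := hC (P.iota p)

theorem phi_mem {C : V → ℝ} (hC : C ∈ XB P) :
    ((fun p => -(C p + C (P.iota p)) / 2, fun p => if P.Quad p then 0 else C p / 2,
      fun _ => 0) : (V → ℝ) × (V → ℝ) × (V → ℝ)) ∈ Sol P := by
  refine ⟨fun p => ?_, fun p hp => ?_, fun p hp => ?_, fun p hp => ?_, fun p _ => rfl,
      fun p _ => rfl⟩
  · show -(C (P.iota p) + C (P.iota (P.iota p))) / 2 = -(C p + C (P.iota p)) / 2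
    rw [P.iota_iota]; ring
  · show -(C (P.tau p) + C (P.iota (P.tau p))) / 2 = -(C p + C (P.iota p)) / 2
    have h1 := C_tau hC p
    have h2 := C_tau hC (P.tau p)
    have h3 : P.tau (P.tau p) = p := hp
    rw [h3] at h2
    rw [h1, ← h2]; ring
  · show (if P.Quad p then (0 : ℝ) else C p / 2) = 0
    rw [if_pos hp]
  · show -(C p + C (P.iota p)) / 2 = -((if P.Quad p then (0 : ℝ) else C p / 2) +
      (if P.Quad (P.tau p) then (0 : ℝ) else C (P.tau p) / 2)) + 0
    rw [if_neg hp, if_neg (fun h => hp (P.quad_tau.1 h)), C_tau hC]; ring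

/-- the map to the solution space -/
noncomputable def Phi (P : Pattern V) : XB P →ₗ[ℝ] Sol P where
  toFun C := ⟨_, phi_mem C.2⟩
  map_add' := by
    intro x y
    apply Subtype.ext
    refine Prod.ext ?_ (Prod.ext ?_ ?_)
    · funext p
      show -((x.1 p + y.1 p) + (x.1 (P.iota p) + y.1 (P.iota p))) / 2 =
        -(x.1 p + x.1 (P.iota p)) / 2 + -(y.1 p + y.1 (P.iota p)) / 2
      ring
    · funext p
      show (if P.Quad p then (0 : ℝ) else (x.1 p + y.1 p) / 2) =
        (if P.Quad p then (0 : ℝ) else x.1 p / 2) + (if P.Quad p then (0 : ℝ) else y.1 p / 2)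
      split_ifs <;> ring
    · funext p
      show (0 : ℝ) = 0 + 0
      ring
  map_smul' := by
    intro c x
    apply Subtype.ext
    refine Prod.ext ?_ (Prod.ext ?_ ?_)
    · funext p
      show -((c * x.1 p) + (c * x.1 (P.iota p))) / 2 = c * (-(x.1 p + x.1 (P.iota p)) / 2)
      ring
    · funext p
      show (if P.Quad p then (0 : ℝ) else (c * x.1 p) / 2) =
        c * (if P.Quad p then (0 : ℝ) else x.1 p / 2)
      split_ifs <;> ring
    · funext p
      show (0 : ℝ) = c * 0
      ring

omit [Fintype V] in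
theorem XB_iter {C : V → ℝ} (hC : C ∈ XB P) (p : V) (n : ℕ) : C (P.B^[n] p) = C p := by
  induction n with
  | zero => rfl
  | succ n ih => rw [Function.iterate_succ_apply', hC, ih]

theorem Phi_inj : Injective (Phi P) := by
  rw [injective_iff_map_eq_zero]
  intro C hC
  apply Subtype.ext
  funext p
  obtain ⟨n, hn⟩ := P.beta_face' p
  have h1 : (Phi P C).1.2.1 (P.B^[n] p) = 0 := by rw [hC]; rfl
  have h2 : (if P.Quad (P.B^[n] p) then (0 : ℝ) else C.1 (P.B^[n] p) / 2) = 0 := h1
  rw [if_neg hn, XB_iter C.2] at h2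
  show C.1 p = 0
  linarith

theorem card_B_le : Nat.card (Quot fun p q : V => P.B p = q) ≤ Module.finrank ℝ (XB P) := by
  haveI : Fintype (Quot fun p q : V => P.B p = q) := Fintype.ofFinite _
  let f : ((Quot fun p q : V => P.B p = q) → ℝ) →ₗ[ℝ] XB P :=
    { toFun := fun g => ⟨fun p => g (Quot.mk _ p), fun p => by
        show g (Quot.mk _ (P.B p)) = g (Quot.mk _ p)
        congr 1
        exact (Quot.sound (r := fun p q : V => P.B p = q) rfl).symm⟩
      map_add' := fun x y => rfl
      map_smul' := fun c x => rfl }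
  have hf : Injective f := by
    intro g g' h
    funext F
    obtain ⟨p, rfl⟩ := Quot.exists_rep F
    exact congrFun (congrArg Subtype.val h) p
  have h1 := LinearMap.finrank_le_finrank_of_injective hf
  rwa [Module.finrank_fintype_fun_eq_card, ← Nat.card_eq_fintype_card] at h1

theorem finrank_Sol_le : Module.finrank ℝ (Sol P) ≤
    Nat.card (Quot (rS P)) + Nat.card {F : Quot (rT P) // P.Oct F.out} := by
  haveI : Fintype (Quot (rS P)) := Fintype.ofFinite _
  haveI : Fintype {F : Quot (rT P) // P.Oct F.out} := Fintype.ofFinite _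
  let f : Sol P →ₗ[ℝ] (Quot (rS P) → ℝ) × ({F : Quot (rT P) // P.Oct F.out} → ℝ) :=
    { toFun := fun x => (fun S => x.1.1 S.out, fun F => x.1.2.1 F.1.out)
      map_add' := fun x y => rfl
      map_smul' := fun c x => rfl }
  have hf : Injective f := by
    rw [injective_iff_map_eq_zero]
    rintro ⟨⟨χ, ψ, D⟩, h1, h2, h3, h4, h5, h6⟩ hx
    simp only at h1 h2 h3 h4 h5 h6
    have hχ0 : ∀ S : Quot (rS P), χ S.out = 0 := fun S => congrFun (congrArg Prod.fst hx) S
    have hψ0 : ∀ F : {F : Quot (rT P) // P.Oct F.out}, ψ F.1.out = 0 := fun F =>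
      congrFun (congrArg Prod.snd hx) F
    -- `χ = 0`
    have hχ : ∀ p, χ p = 0 := by
      intro p
      let g : Quot (rS P) → ℝ := Quot.lift χ (by
        rintro a b (rfl | ⟨hq, rfl⟩)
        · exact (h1 a).symm
        · exact (h2 a hq).symm)
      have e1 : g (Quot.mk _ p) = χ p := rfl
      have e2 : g (Quot.mk _ (Quot.mk (rS P) p).out) = χ (Quot.mk (rS P) p).out := rfl
      rw [Quot.out_eq, e1, hχ0] at e2
      exact e2
    have h4' : ∀ p, ¬ P.Quad p → ψ p + ψ (P.tau p) = D p := by
      intro p hp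
      have := h4 p hp
      rw [hχ] at this
      linarith
    -- octagons
    have hoct : ∀ q, P.Oct q → D q = 0 ∧ D (P.tau q) = 0 := by
      intro q hq
      have n0 := hq.2
      have q1 := P.oct_tau.2 hq
      have q2 := P.oct_tau.2 q1
      have q3 := P.oct_tau.2 q2
      have a0 := h4' q hq.2
      have a1 := h4' _ q1.2
      have a2 := h4' _ q2.2
      have a3 := h4' _ q3.2
      rw [hq.1] at a3
      have b0 : D (P.tau (P.tau q)) = D q := by
        by_cases hd : P.Diag q
        · exact h6 q hd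
        · rw [h5 q hd, h5 _ (fun h => hd ((P.diag_tau_tau hq).1 h))]
      have b1 : D (P.tau (P.tau (P.tau q))) = D (P.tau q) := by
        by_cases hd : P.Diag (P.tau q)
        · exact h6 _ hd
        · rw [h5 _ hd, h5 _ (fun h => hd ((P.diag_tau_tau q1).1 h))]
      have c : D q = D (P.tau q) := by linarith
      by_cases hd : P.Diag q
      · have e := h5 (P.tau q) (fun h => (P.diag_tau hq).1 h hd)
        exact ⟨by rw [c, e], e⟩
      · have e := h5 q hd
        exact ⟨e, by rw [← c, e]⟩
    have hD : ∀ p, D p = 0 := by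
      intro p
      by_cases hd : P.Diag p
      · exact (hoct p hd.oct).1
      · exact h5 p hd
    have h4'' : ∀ p, ¬ P.Quad p → ψ (P.tau p) = -ψ p := by
      intro p hp
      have := h4' p hp
      rw [hD] at this
      linarith
    have hψ : ∀ p, ψ p = 0 := by
      intro p
      by_cases hq : P.Quad p
      · exact h3 p hq
      rcases P.hex_or_oct hq with hh | ho
      · have i1 := h4'' p hq
        have n1 : ¬ P.Quad (P.tau p) := fun h => hq (P.quad_tau.1 h)
        have i2 := h4'' _ n1
        have n2 : ¬ P.Quad (P.tau (P.tau p)) := fun h => n1 (P.quad_tau.1 h)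
        have i3 := h4'' _ n2
        have hh' : P.tau (P.tau (P.tau p)) = p := hh
        rw [hh'] at i3
        linarith
      · -- the face
        have hF : Quot.mk (rT P) (Quot.mk (rT P) p).out = Quot.mk (rT P) p := Quot.out_eq _
        have hmem : p ∈ orb P (Quot.mk (rT P) p).out := by
          rw [← filter_orb, Finset.mem_filter]
          exact ⟨Finset.mem_univ _, hF.symm⟩
        obtain ⟨q, hqdef⟩ : ∃ q, q = (Quot.mk (rT P) p).out := ⟨_, rfl⟩
        rw [← hqdef] at hmem
        have hqo : P.Oct q := by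
          simp only [orb, Finset.mem_insert, Finset.mem_singleton] at hmem
          rcases hmem with h | h | h | h
          · rwa [← h]
          · rw [h] at ho; exact P.oct_tau.1 ho
          · rw [h] at ho; exact P.oct_tau.1 (P.oct_tau.1 ho)
          · rw [h] at ho; exact P.oct_tau.1 (P.oct_tau.1 (P.oct_tau.1 ho))
        have hq0 : ψ q = 0 := by
          rw [hqdef]
          exact hψ0 ⟨Quot.mk (rT P) p, by rw [← hqdef]; exact hqo⟩
        have n0 : ¬ P.Quad q := hqo.2
        have n1 : ¬ P.Quad (P.tau q) := fun h => n0 (P.quad_tau.1 h)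
        have n2 : ¬ P.Quad (P.tau (P.tau q)) := fun h => n1 (P.quad_tau.1 h)
        simp only [orb, Finset.mem_insert, Finset.mem_singleton] at hmem
        rcases hmem with h | h | h | h
        · rw [h, hq0]
        · rw [h, h4'' q n0, hq0, neg_zero]
        · rw [h, h4'' _ n1, h4'' q n0, hq0, neg_zero, neg_zero]
        · rw [h, h4'' _ n2, h4'' _ n1, h4'' q n0, hq0, neg_zero, neg_zero, neg_zero]
    apply Subtype.ext
    exact Prod.ext (funext hχ) (Prod.ext (funext hψ) (funext hD))
  have h1 := LinearMap.finrank_le_finrank_of_injective hf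
  rwa [Module.finrank_prod, Module.finrank_fintype_fun_eq_card, Module.finrank_fintype_fun_eq_card,
    ← Nat.card_eq_fintype_card, ← Nat.card_eq_fintype_card] at h1

theorem Phi_surj : Surjective (Phi P) := by
  have h1 := LinearMap.finrank_le_finrank_of_injective (Phi_inj (P := P))
  have h2 := finrank_Sol_le (P := P)
  have h3 := card_B_le (P := P)
  have h4 := count (P := P)
  have h5 : Module.finrank ℝ (XB P) = Module.finrank ℝ (Sol P) := by omega
  exact (LinearMap.injective_iff_surjective_of_finrank_eq_finrank h5).1 Phi_inj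

end Iso

/-- piece ISO -/
theorem iso {V : Type*} [Fintype V] {P : Pattern V} (hW1 : S_W1 P) : S_ISO P := by
  intro u hu v hv hqu hqv
  obtain ⟨a1, a2, a3, a4⟩ := hu
  have hl : ∀ p, u.1 (Sum.inl (P.kap p)) = u.1 (Sum.inl p) := fun p => a1 (Sum.inl p)
  obtain ⟨ψ, hψ1, hψ2⟩ := Iso.exists_psi (P := P) (w := u.2) (l := fun p => u.1 (Sum.inl p)) a3 hl hqu
  -- the data
  obtain ⟨χ, hχ⟩ : ∃ χ : V → ℝ, ∀ p, χ p = ψ (P.A p) - ψ p + lad u.1 p := ⟨_, fun _ => rfl⟩
  obtain ⟨D, hDdef⟩ : ∃ D : V → ℝ, ∀ p, D p = if h : P.Diag p then u.1 (Sum.inr ⟨p, h⟩) else 0 :=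
    ⟨_, fun _ => rfl⟩
  have hlad : ∀ p, ¬ P.Quad p → lad u.1 p = D p + u.1 (Sum.inl (P.A p)) := by
    intro p hp
    unfold lad
    rw [if_neg hp, hDdef]
  have hladQ : ∀ p, P.Quad p → lad u.1 p = 0 := by
    intro p hp
    unfold lad
    rw [if_pos hp]
  have hlA : ∀ p, u.1 (Sum.inl (P.A p)) = -(ψ (P.A p) + ψ (P.tau p)) := by
    intro p
    have := hψ2 (P.A p)
    rwa [P.kap_A] at this
  have hmem : ((χ, fun p => if P.Quad p then 0 else ψ p, D) : (V → ℝ) × (V → ℝ) × (V → ℝ)) ∈
      Iso.Sol P := by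
    refine ⟨fun p => ?_, fun p hp => ?_, fun p hp => ?_, fun p hp => ?_, fun p hp => ?_,
      fun p hp => ?_⟩
    · show χ (P.iota p) = χ p
      rw [hχ, hχ, P.A_iota]
      have e := a4 p
      have e1 := hψ1 (P.A p)
      rw [P.rho_A] at e1
      have e2 := hψ1 p
      linarith
    · show χ (P.tau p) = χ p
      rw [hχ, hχ, hladQ p hp, hladQ _ (P.quad_tau.2 hp), P.quad_A_kap hp]
      have e1 := a2 (Sum.inl p) (fun h => h hp)
      rw [ZA_inl_not (not_diag_of_quad hp), hlA] at e1
      have e2 := hψ2 p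
      linarith
    · show (if P.Quad p then (0 : ℝ) else ψ p) = 0
      rw [if_pos hp]
    · show χ p = -((if P.Quad p then (0 : ℝ) else ψ p) +
        (if P.Quad (P.tau p) then (0 : ℝ) else ψ (P.tau p))) + D p
      rw [if_neg hp, if_neg (fun h => hp (P.quad_tau.1 h)), hχ, hlad p hp, hlA]
      ring
    · show D p = 0
      rw [hDdef, dif_neg hp]
    · show D (P.tau (P.tau p)) = D p
      rw [hDdef, hDdef, dif_pos hp, dif_pos ((P.diag_tau_tau hp.oct).2 hp)]
      exact a1 (Sum.inr ⟨p, hp⟩)
  obtain ⟨⟨C, hC⟩, hCe⟩ := Iso.Phi_surj (P := P) ⟨_, hmem⟩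
  have c1 : ∀ p, χ p = -(C p + C (P.iota p)) / 2 := fun p =>
    (congrFun (congrArg (fun x : Iso.Sol P => x.1.1) hCe) p).symm
  have c2 : ∀ p, ¬ P.Quad p → ψ p = C p / 2 := by
    intro p hp
    have := congrFun (congrArg (fun x : Iso.Sol P => x.1.2.1) hCe) p
    have h' : (if P.Quad p then (0 : ℝ) else C p / 2) = (if P.Quad p then (0 : ℝ) else ψ p) := this
    rw [if_neg hp, if_neg hp] at h'
    exact h'.symm
  have c3 : ∀ p, D p = 0 := fun p =>
    (congrFun (congrArg (fun x : Iso.Sol P => x.1.2.2) hCe) p).symm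
  have hCB : ∀ p, C (P.B p) = C p := hC
  have hCkap : ∀ p, C (P.kap p) = C (P.rho p) := fun p => hCB (P.rho p)
  have hCrB : ∀ p, C (P.rho (P.B p)) = C (P.rho p) := by
    intro p
    have h1 := hCB (P.rho (P.B p))
    rw [P.B_rho_B] at h1
    exact h1.symm
  -- the weight
  obtain ⟨c, hc⟩ : ∃ c : V → ℝ, ∀ p, c p = (C p + C (P.rho p)) / 2 := ⟨_, fun _ => rfl⟩
  have hcr : ∀ p, c (P.rho p) = c p := fun p => by rw [hc, hc, P.rho_rho]; ring
  have hcB : ∀ p, c (P.B p) = c p := fun p => by rw [hc, hc, hCB, hCrB]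
  have hck : ∀ p, c (P.kap p) = c p := fun p => by
    show c (P.B (P.rho p)) = c p
    rw [hcB, hcr]
  have hcInv : c ∈ Inv P := ⟨hcr, hcB⟩
  obtain ⟨Γ, hΓ⟩ : ∃ Γ : V → ℝ, ∀ p, Γ p = ψ p - C p / 2 := ⟨_, fun _ => rfl⟩
  have hΓ0 : ∀ p, ¬ P.Quad p → Γ p = 0 := fun p hp => by rw [hΓ, c2 p hp]; ring
  have hΓA : ∀ p, P.Quad p → Γ p = c (P.A p) + Γ (P.A p) := by
    intro p hp
    have e1 := hχ p
    rw [hladQ p hp, c1 p] at e1
    have e2 : c (P.A p) = (C (P.iota p) + C (P.A p)) / 2 := by
      have : c (P.A p) = c (P.iota p) := hcr (P.iota p)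
      rw [this, hc]; rfl
    rw [hΓ, hΓ, e2]
    linarith
  have lin : ∀ p, u.1 (Sum.inl p) = -c p - Γ p - Γ (P.kap p) := by
    intro p
    have e := hψ2 p
    rw [hΓ, hΓ, hCkap, hc]
    linarith
  have win : ∀ p, u.2 p = -c p - Γ p - Γ (P.rho p) := by
    intro p
    have e := hψ1 p
    rw [hΓ, hΓ, hc]
    linarith
  have lir : ∀ p : {p : V // P.Diag p}, u.1 (Sum.inr p) = 0 := by
    intro p
    have e := c3 p.1
    rw [hDdef, dif_pos p.2] at e
    exact e
  have h0ext : ∀ z : P.Z, ext0 (fun _ : V => (0 : ℝ)) z = 0 := by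
    rintro (p | p) <;> rfl
  have hW := hW1 (fun p => -c p) (fun _ => 0) (fun _ => 0) (fun _ => 0) (ext0 (fun p => -Γ p)) u v
    (fun p => by rw [hcr])
    (fun p => by rw [hck])
    (fun z => by rw [h0ext, add_zero])
    (fun z _ => rfl)
    (fun z => by
      rw [h0ext]
      rcases z with p | p
      · rw [lin p, Zk_inl]
        simp only [ext0]
        ring
      · rw [lir p, Zk_inr]
        simp only [ext0]
        ring)
    (fun p => by
      rw [win p]
      simp only [ext0]
      ring)
    (fun z => by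
      rcases z with p | p
      · by_cases hq : P.Quad p
        · rw [if_neg (fun h => h hq), ZA_inl_not (not_diag_of_quad hq)]
          simp only [ext0]
          have := hΓA p hq
          linarith
        · rw [if_pos (show Zh (Sum.inl p : P.Z) from hq)]
          by_cases hd : P.Diag p
          · rw [ZA_inl_diag hd, lir]
            simp only [ext0]
            rw [hΓ0 p hq]; ring
          · rw [ZA_inl_not hd, lin, P.kap_A]
            simp only [ext0]
            rw [hΓ0 p hq, hΓ0 (P.tau p) (fun h => hq (P.quad_tau.1 h))]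
            ring
      · rw [if_pos (Zh_inr p), ZA_inr, lin, P.kap_A]
        simp only [ext0]
        rw [hΓ0 (P.tau p) (fun h => p.2.oct.2 (P.quad_tau.1 h))]
        ring)
    hv
  rw [hW]
  have e1 : ∑ z : P.Z, (if Zh z then (0 : ℝ) * v.1 (ZA z) else 0) = 0 := by
    refine Finset.sum_eq_zero fun z _ => ?_
    split_ifs <;> simp
  have e2 := hqv c hcInv
  have e3 : ∑ p, (-c p * v.2 p - (-c p + 2 * 0) * v.1 (Sum.inl p)) =
      -∑ p, c p * (v.2 p - v.1 (Sum.inl p)) := by
    rw [← Finset.sum_neg_distrib]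
    exact Finset.sum_congr rfl fun p _ => by ring
  rw [e1, e3, e2]
  ring

end Run7.h568.MC
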