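import Pool.Agent.Run7.h568.MC.Iface
import Pool.Agent.Run7.h568.MC.ZLemmas

/-! Pieces BOX and KF (helper437). -/

set_option linter.unusedSectionVars false

namespace Run7.h568.MC

open Real Matrix Pattern Function

variable {V : Type*} [Fintype V] {P : Pattern V}

section basic

variable {m : HypMetric P} (h : GF m)

include h

theorem GF.TT_pos (p : V) : 0 < m.TT p := pow_pos (h.t_pos p) 2

theorem GF.sub_pos (p : V) : 0 < m.TT p - m.EE p := by linarith [h.E_lt p]

theorem GF.SS_pos (p : V) : 0 < m.SS p := by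
  have h1 := h.E_pos p
  have h2 := h.sub_pos p
  unfold HypMetric.SS
  positivity

theorem GF.RR_eq (p : V) : m.RR p = m.SS p * m.TT p := by
  unfold HypMetric.RR HypMetric.SS
  have h2 := (h.sub_pos p).ne'
  field_simp

theorem GF.RR_pos (p : V) : 0 < m.RR p := by
  rw [h.RR_eq]
  exact mul_pos (h.SS_pos p) (h.TT_pos p)

theorem GF.RR_sub (p : V) : m.RR p - 1 = m.EE p * (m.SS p + 1) := by
  unfold HypMetric.RR HypMetric.SS
  have h2 := (h.sub_pos p).ne'
  field_simp
  ring

theorem GF.SS_add (p : V) : m.SS p + 1 = (1 + m.TT p) / (m.TT p - m.EE p) := by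
  unfold HypMetric.SS
  have h2 := (h.sub_pos p).ne'
  field_simp
  ring

theorem GF.RR_gt (p : V) : 1 < m.RR p := by
  have h1 := h.RR_sub p
  have h2 : 0 < m.EE p * (m.SS p + 1) := mul_pos (h.E_pos p) (by linarith [h.SS_pos p])
  linarith

theorem GF.RR_gt' (p : V) : 1 + m.EE p < m.RR p := by
  have h1 := h.RR_sub p
  have h2 : 0 < m.EE p * m.SS p := mul_pos (h.E_pos p) (h.SS_pos p)
  nlinarith

theorem GF.DD_pos (p : V) : 0 < m.DD p := by
  unfold HypMetric.DD
  linarith [h.RR_pos p, h.SS_pos p]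

theorem GF.DD_eq (p : V) : m.DD p = (1 + m.EE p) * (1 + m.TT p) / (m.TT p - m.EE p) := by
  unfold HypMetric.DD HypMetric.RR HypMetric.SS
  have h2 := (h.sub_pos p).ne'
  field_simp
  ring

theorem GF.ce_eq (p : V) : m.ce p = m.cs p + 2 / m.DD p := by
  rw [h.DD_eq]
  unfold HypMetric.ce HypMetric.cs
  have h2 := (h.sub_pos p).ne'
  have h3 : 1 + m.TT p ≠ 0 := by linarith [h.TT_pos p]
  have h4 : 1 + m.EE p ≠ 0 := by linarith [h.E_pos p]
  field_simp
  ring

theorem GF.mu_ge (p : V) : 1 ≤ m.mu p := by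
  by_cases hq : P.Quad p
  · rw [h.mu_quad p hq]
  · exact (h.mu_gt p hq).le

theorem GF.log_EE (p : V) :
    Real.log (m.EE p) = -(m.y (P.rho p)) + Real.log (m.t p) + Real.log (m.t (P.kap p)) := by
  unfold HypMetric.EE
  rw [Real.log_mul (mul_pos (Real.exp_pos _) (h.t_pos p)).ne' (h.t_pos _).ne',
    Real.log_mul (Real.exp_pos _).ne' (h.t_pos _).ne', Real.log_exp]

end basic

theorem inv_kap {e : V → ℝ} (he : e ∈ Inv P) (p : V) : e (P.kap p) = e p := by
  unfold Pattern.kap
  rw [he.2, he.1]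

theorem sum_inv_rho {e : V → ℝ} (he : e ∈ Inv P) (f : V → ℝ) :
    ∑ p, e p * f (P.rho p) = ∑ p, e p * f p := by
  rw [← sum_rho (P := P) fun p => e p * f p]
  refine Finset.sum_congr rfl fun p _ => ?_
  rw [he.1]

theorem sum_inv_kap {e : V → ℝ} (he : e ∈ Inv P) (f : V → ℝ) :
    ∑ p, e p * f (P.kap p) = ∑ p, e p * f p := by
  rw [← sum_kap (P := P) fun p => e p * f p]
  refine Finset.sum_congr rfl fun p _ => ?_
  rw [inv_kap he]

theorem sum_y {m : HypMetric P} (h : GF m) {e : V → ℝ} (he : e ∈ Inv P) :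
    ∑ p, e p * m.y p = ∑ p, e p * (Real.log (m.RR p) - Real.log (m.SS p) -
      Real.log (m.RR p - 1) + Real.log (m.SS p + 1)) := by
  rw [← sum_inv_rho he]
  have h1 : ∀ p, e p * m.y (P.rho p) = e p * Real.log (m.t p) +
      e p * Real.log (m.t (P.kap p)) - e p * Real.log (m.EE p) := by
    intro p
    rw [h.log_EE]
    ring
  rw [Finset.sum_congr rfl fun p _ => h1 p, Finset.sum_sub_distrib, Finset.sum_add_distrib,
    sum_inv_kap he fun p => Real.log (m.t p), ← Finset.sum_add_distrib, ← Finset.sum_sub_distrib]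
  refine Finset.sum_congr rfl fun p _ => ?_
  have h2 : Real.log (m.RR p) = Real.log (m.SS p) + 2 * Real.log (m.t p) := by
    rw [h.RR_eq, Real.log_mul (h.SS_pos p).ne' (h.TT_pos p).ne']
    unfold HypMetric.TT
    rw [Real.log_pow]
    push_cast
    ring
  have h3 : Real.log (m.RR p - 1) = Real.log (m.EE p) + Real.log (m.SS p + 1) := by
    rw [h.RR_sub, Real.log_mul (h.E_pos p).ne' (by linarith [h.SS_pos p])]
  rw [h2, h3]
  ring

theorem sum_wl {m : HypMetric P} (h : GF m) {e : V → ℝ} (he : e ∈ Inv P) :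
    ∑ p, e p * (m.w p - m.lZ (Sum.inl p)) = ∑ p, e p * (Real.log (m.RR p) + Real.log (m.SS p) -
      Real.log (m.RR p - 1) - Real.log (m.SS p + 1)) := by
  have h1 : ∀ p, e p * (m.w p - m.lZ (Sum.inl p)) =
      e p * Real.log (m.RR p) + e p * Real.log (m.SS (P.rho p)) - e p * Real.log (m.RR p - 1) -
      e p * Real.log (m.SS (P.kap p) + 1) + e p * m.U (Sum.inl (P.rho p)) -
      e p * m.U (Sum.inl (P.kap p)) := by
    intro p
    have e1 : Real.log (m.The p) = Real.log (m.RR p) + Real.log (m.SS (P.rho p)) := by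
      unfold HypMetric.The
      rw [Real.log_mul (h.RR_pos p).ne' (h.SS_pos _).ne']
    have e2 : Real.log (m.Lam p) = Real.log (m.RR p - 1) + Real.log (m.SS (P.kap p) + 1) := by
      unfold HypMetric.Lam
      rw [Real.log_mul (by linarith [h.RR_gt p]) (by linarith [h.SS_pos (P.kap p)])]
    have e3 : m.w p - m.lZ (Sum.inl p) = Real.log (m.The p) - Real.log (m.Lam p) +
        m.U (Sum.inl (P.rho p)) - m.U (Sum.inl (P.kap p)) := by
      unfold HypMetric.w HypMetric.lZ
      rw [Zk_inl]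
      have : m.LamZ (Sum.inl p) = m.Lam p := rfl
      rw [this]
      ring
    rw [e3, e1, e2]
    ring
  rw [Finset.sum_congr rfl fun p _ => h1 p]
  simp only [Finset.sum_add_distrib, Finset.sum_sub_distrib]
  rw [sum_inv_rho he fun p => Real.log (m.SS p), sum_inv_kap he fun p => Real.log (m.SS p + 1),
    sum_inv_rho he fun p => m.U (Sum.inl p), sum_inv_kap he fun p => m.U (Sum.inl p)]
  simp only [← Finset.sum_add_distrib, ← Finset.sum_sub_distrib]
  refine Finset.sum_congr rfl fun p _ => ?_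
  ring

theorem box (ga : S_GA P) : S_BOX P := by
  intro m e he
  have h := ga m
  refine ⟨fun p => ⟨h.RR_gt p, h.SS_pos p, h.RR_gt' p, by rw [← h.RR_eq]; exact h.RR_gt p⟩, ?_, ?_⟩
  · simp only [mul_add, Finset.sum_add_distrib]
    rw [sum_y h he, sum_wl h he, ← Finset.sum_add_distrib, Finset.mul_sum]
    refine Finset.sum_congr rfl fun p _ => ?_
    ring
  · simp only [mul_sub, Finset.sum_sub_distrib]
    have h1 := sum_y h he
    have h2 := sum_wl h he
    simp only [mul_sub, Finset.sum_sub_distrib] at h1 h2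
    rw [h2, h1]
    simp only [mul_sub, mul_add, Finset.sum_sub_distrib, Finset.sum_add_distrib]
    ring

/-! ### The form -/

theorem muZ_ge {m : HypMetric P} (h : GFZ m) (z : P.Z) : 1 ≤ m.muZ z := by
  by_cases hz : Zh z
  · exact (h.muZ_gt z hz).le
  · rw [h.muZ_quad z hz]

theorem exists_Zh (z : P.Z) : ∃ n : ℕ, Zh (ZA^[n] z) := by
  rcases z with p | p
  · obtain ⟨n, hn⟩ := P.alpha_face' p
    induction n generalizing p with
    | zero => exact ⟨0, hn⟩
    | succ n ih =>
      by_cases hq : P.Quad p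
      · rw [Function.iterate_succ_apply] at hn
        obtain ⟨k, hk⟩ := ih (P.A p) hn
        refine ⟨k + 1, ?_⟩
        rw [Function.iterate_succ_apply, ZA_inl_not (not_diag_of_quad hq)]
        exact hk
      · exact ⟨0, hq⟩
  · exact ⟨0, trivial⟩

/-- minimum principle -/
theorem s_nonneg {m : HypMetric P} (h : GFZ m) (g : P.Z → ℝ) (hg : ∀ z, 0 ≤ g z) (s : P.Z → ℝ)
    (hs : ∀ z, s z = g z + s (ZA z) / m.muZ z) (z : P.Z) : 0 ≤ s z := by
  by_contra hneg
  push Not at hneg
  obtain ⟨z₀, -, hz₀⟩ := Finset.exists_min_image Finset.univ s ⟨z, Finset.mem_univ z⟩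
  have h0 : s z₀ < 0 := lt_of_le_of_lt (hz₀ z (Finset.mem_univ z)) hneg
  have step : ∀ w, s w = s z₀ → s (ZA w) = s z₀ ∧ m.muZ w = 1 := by
    intro w hw
    have hmu := muZ_ge h w
    have hmu0 : 0 < m.muZ w := by linarith
    have h1 := hs w
    have h2 := hz₀ (ZA w) (Finset.mem_univ _)
    have h3 := hg w
    have h4 : s (ZA w) ≤ s w * m.muZ w := by
      rw [← div_le_iff₀ hmu0]
      linarith
    rw [hw] at h4
    have h5 : s z₀ * m.muZ w ≤ s z₀ := by nlinarith
    have h6 : s (ZA w) = s z₀ := le_antisymm (h4.trans h5) h2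
    refine ⟨h6, ?_⟩
    rw [h6] at h4
    by_contra hne
    have h7 : 1 < m.muZ w := lt_of_le_of_ne hmu (Ne.symm hne)
    nlinarith
  have hall : ∀ n : ℕ, s (ZA^[n] z₀) = s z₀ := by
    intro n
    induction n with
    | zero => rfl
    | succ n ih =>
      rw [Function.iterate_succ_apply']
      exact (step _ ih).1
  obtain ⟨n, hn⟩ := exists_Zh z₀
  have h1 := (step _ (hall n)).2
  have h2 := h.muZ_gt _ hn
  linarith

theorem sp_eq {m : HypMetric P} (hZ : GFZ m) {c : V → ℝ} {v : P.W}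
    (tw : Twist m c v) (p : V) :
    tw.s (ZA (Sum.inl p)) / m.muZ (Sum.inl p) = tw.s (Sum.inl (P.A p)) / m.mu p := by
  by_cases hd : P.Diag p
  · have h1 := hZ.mu_split p hd
    have h2 := tw.s_eq (Sum.inr ⟨p, hd⟩)
    rw [ZA_inr] at h2
    simp only [ext0, zero_add] at h2
    rw [ZA_inl_diag hd, h2, div_div, ← h1, mul_comm]
  · rw [ZA_inl_not hd]
    have h1 : m.muZ (Sum.inl p) = m.mu p := by
      unfold HypMetric.muZ
      simp [hd]
    rw [h1]

theorem sum_form {m : HypMetric P} (h : GF m) {c : V → ℝ} {v : P.W}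
    (tw : Twist m c v) {c' : V → ℝ} (hc' : c' ∈ Inv P) :
    ∑ p, c' p * (v.2 p - v.1 (Sum.inl p)) =
      -2 * ∑ p, c' p * (tw.s (Sum.inl p) + tw.s (ZA (Sum.inl p)) / m.muZ (Sum.inl p)) := by
  have h1 : ∀ p, c' p * (v.2 p - v.1 (Sum.inl p)) =
      -2 * (c' p * (c p / m.DD p)) - 2 * (c' p * (tw.s (ZA (Sum.inl p)) / m.muZ (Sum.inl p)))
      - 2 * (c' p * (tw.s (ZA (Sum.inl (P.rho p))) / m.muZ (Sum.inl (P.rho p))))
      + c' p * tw.N (Sum.inl (P.rho p)) - c' p * tw.N (Sum.inl (P.kap p)) := by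
    intro p
    rw [tw.w_eq, tw.l_eq, Zk_inl]
    simp only [ext0]
    rw [h.ce_eq]
    ring
  rw [Finset.sum_congr rfl fun p _ => h1 p]
  simp only [Finset.sum_add_distrib, Finset.sum_sub_distrib, ← Finset.mul_sum]
  rw [sum_inv_rho hc' fun p => tw.N (Sum.inl p), sum_inv_kap hc' fun p => tw.N (Sum.inl p),
    sum_inv_rho hc' fun p => tw.s (ZA (Sum.inl p)) / m.muZ (Sum.inl p)]
  have h2 : ∀ p, c' p * (tw.s (Sum.inl p) + tw.s (ZA (Sum.inl p)) / m.muZ (Sum.inl p)) =
      c' p * (c p / m.DD p) + 2 * (c' p * (tw.s (ZA (Sum.inl p)) / m.muZ (Sum.inl p))) := by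
    intro p
    have := tw.s_eq (Sum.inl p)
    simp only [ext0] at this
    rw [this]
    ring
  rw [Finset.sum_congr rfl fun p _ => h2 p, Finset.sum_add_distrib, ← Finset.mul_sum]
  ring

theorem kf (ga : S_GA P) (gb : S_GB P) : S_KF P := by
  intro m c v hc tw
  have h := ga m
  have hZ := gb m h
  refine ⟨fun c' hc' hc0 hc'0 => ?_, fun hne => ?_⟩
  · rw [sum_form h tw hc']
    have hs : ∀ z, 0 ≤ tw.s z := s_nonneg hZ _ (fun z => by
      rcases z with p | p
      · exact div_nonneg (hc0 p) (h.DD_pos p).le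
      · exact le_rfl) _ tw.s_eq
    have h1 : 0 ≤ ∑ p, c' p * (tw.s (Sum.inl p) +
        tw.s (ZA (Sum.inl p)) / m.muZ (Sum.inl p)) := by
      refine Finset.sum_nonneg fun p _ => mul_nonneg (hc'0 p) (add_nonneg (hs _) ?_)
      exact div_nonneg (hs _) (by linarith [muZ_ge hZ (Sum.inl p)])
    linarith
  · rw [sum_form h tw hc]
    have h1 : ∀ p, c p * (tw.s (Sum.inl p) + tw.s (ZA (Sum.inl p)) / m.muZ (Sum.inl p)) =
        m.DD p * tw.s (Sum.inl p) ^ 2 - m.DD p / m.mu p ^ 2 * tw.s (Sum.inl (P.A p)) ^ 2 := by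
      intro p
      have h2 := tw.s_eq (Sum.inl p)
      have h3 := sp_eq hZ tw p
      have hD := (h.DD_pos p).ne'
      have hmu : m.mu p ≠ 0 := by linarith [h.mu_ge p]
      rw [h3] at h2
      simp only [ext0] at h2
      rw [h3]
      have h4 : c p = m.DD p * (tw.s (Sum.inl p) - tw.s (Sum.inl (P.A p)) / m.mu p) := by
        rw [h2]
        field_simp
        ring
      rw [h4]
      field_simp
      ring
    rw [Finset.sum_congr rfl fun p _ => h1 p, Finset.sum_sub_distrib,
      ← sum_A (P := P) fun p => m.DD p * tw.s (Sum.inl p) ^ 2, ← Finset.sum_sub_distrib]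
    have hco : ∀ p, 0 < m.DD (P.A p) - m.DD p / m.mu p ^ 2 := by
      intro p
      have hmu := h.mu_ge p
      have hmu0 : 0 < m.mu p := by linarith
      have h2 : m.DD p < m.mu p * m.DD (P.A p) := by
        unfold HypMetric.DD
        have := h.nest_R p
        have := h.nest_S p
        nlinarith
      have h3 : m.mu p * m.DD (P.A p) ≤ m.mu p ^ 2 * m.DD (P.A p) := by
        have := h.DD_pos (P.A p)
        nlinarith [mul_nonneg (mul_nonneg hmu0.le (sub_nonneg.2 hmu)) this.le]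
      rw [sub_pos, div_lt_iff₀ (by positivity)]
      linarith
    have hterm : ∀ p, 0 ≤ m.DD (P.A p) * tw.s (Sum.inl (P.A p)) ^ 2 -
        m.DD p / m.mu p ^ 2 * tw.s (Sum.inl (P.A p)) ^ 2 := by
      intro p
      rw [← sub_mul]
      exact mul_nonneg (hco p).le (sq_nonneg _)
    have hnn := Finset.sum_nonneg fun p (_ : p ∈ Finset.univ) => hterm p
    rcases hnn.lt_or_eq with hlt | heq
    · linarith
    · exfalso
      apply hne
      have h2 := (Finset.sum_eq_zero_iff_of_nonneg fun p _ => hterm p).1 heq.symm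
      have hs0 : ∀ p, tw.s (Sum.inl p) = 0 := by
        intro p
        obtain ⟨q, rfl⟩ := P.A_bij.2 p
        have h3 := h2 q (Finset.mem_univ q)
        rw [← sub_mul] at h3
        rcases mul_eq_zero.1 h3 with h4 | h4
        · exact absurd h4 (hco q).ne'
        · exact pow_eq_zero_iff (two_ne_zero) |>.1 h4
      funext p
      have h3 := tw.s_eq (Sum.inl p)
      rw [sp_eq hZ tw p, hs0, hs0, zero_div, add_zero] at h3
      simp only [ext0] at h3
      have hD := (h.DD_pos p).ne'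
      rcases div_eq_zero_iff.1 h3.symm with h4 | h4
      · exact h4
      · exact absurd h4 hD

end Run7.h568.MC
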