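import Pool.Agent.Run7.h568.MC.LIN2

/-! Piece LIN3: a metric is determined by its linear coordinates. -/

namespace Run7.h568.MC

open Real Matrix Pattern

variable {V : Type*} [Fintype V] {P : Pattern V}

/-- `RR` along `B` -/
theorem RR_B {m : HypMetric P} (hg : GF m) (p : V) :
    m.RR (P.B p) = 1 + m.Lam (P.B p) * m.RR p / (m.The p + m.RR p) := by
  have h1 : m.Lam (P.B p) = (m.RR (P.B p) - 1) * (m.SS (P.rho p) + 1) := by
    unfold HypMetric.Lam
    rw [kap_B]
  have h2 : m.The p = m.RR p * m.SS (P.rho p) := rfl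
  have h3 := RR_pos hg p
  have h4 := SS_pos hg (P.rho p)
  rw [h1, h2]
  have h5 : m.RR p * m.SS (P.rho p) + m.RR p ≠ 0 := by positivity
  field_simp
  ring

/-- comparison of two positive solutions -/
theorem ratio_le {R R' L Θ : V → ℝ} (hR : ∀ p, 0 < R p) (hR' : ∀ p, 0 < R' p) (hL : ∀ p, 0 < L p)
    (hΘ : ∀ p, 0 < Θ p) (h : ∀ p, R (P.B p) = 1 + L (P.B p) * R p / (Θ p + R p))
    (h' : ∀ p, R' (P.B p) = 1 + L (P.B p) * R' p / (Θ p + R' p)) (q : V) : R' q ≤ R q := by
  obtain ⟨p0, -, hp0⟩ := Finset.exists_max_image Finset.univ (fun p => R' p / R p) ⟨q, Finset.mem_univ q⟩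
  obtain ⟨p, rfl⟩ := P.B_bij.2 p0
  obtain ⟨c, hc⟩ : ∃ c, c = R' (P.B p) / R (P.B p) := ⟨_, rfl⟩
  have hle : ∀ r, R' r ≤ c * R r := by
    intro r
    have := hp0 r (Finset.mem_univ r)
    rw [← hc, div_le_iff₀ (hR r)] at this
    exact this
  have heq : R' (P.B p) = c * R (P.B p) := by
    rw [hc, div_mul_cancel₀ _ (hR _).ne']
  rcases le_or_gt c 1 with h1 | h1
  · exact (hle q).trans (by nlinarith [hR q])
  · exfalso
    have e1 := h p
    have e2 := h' p
    have hRp := hR p
    have hRp' := hR' p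
    have hΘp := hΘ p
    have hLp := hL (P.B p)
    have hlep := hle p
    have k1 : R' p / (Θ p + R' p) ≤ c * (R p / (Θ p + R p)) := by
      rw [← mul_div_assoc, div_le_div_iff₀ (by positivity) (by positivity)]
      nlinarith [mul_pos hRp hRp', mul_nonneg hRp.le (by linarith : (0 : ℝ) ≤ c - 1),
        mul_nonneg (mul_pos hRp hRp').le (by linarith : (0 : ℝ) ≤ c - 1)]
    have k2 : L (P.B p) * R' p / (Θ p + R' p) ≤ c * (L (P.B p) * R p / (Θ p + R p)) := by
      calc L (P.B p) * R' p / (Θ p + R' p) = L (P.B p) * (R' p / (Θ p + R' p)) := by rw [mul_div_assoc]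
        _ ≤ L (P.B p) * (c * (R p / (Θ p + R p))) := mul_le_mul_of_nonneg_left k1 hLp.le
        _ = _ := by ring
    rw [heq, e1] at e2
    nlinarith

theorem LIN3 : S_LIN3 P := by
  intro m m' hg hg' hz hz' hmuZ hLamZ hThe
  have hLam : ∀ p, m.Lam p = m'.Lam p := fun p => hLamZ (Sum.inl p)
  have hLp : ∀ p, 0 < m.Lam p := fun p => hz.LamZ_pos (Sum.inl p)
  have hR : ∀ p, m.RR p = m'.RR p := by
    intro p
    have e1 : ∀ p, m.RR (P.B p) = 1 + m.Lam (P.B p) * m.RR p / (m.The p + m.RR p) := RR_B hg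
    have e2 : ∀ p, m'.RR (P.B p) = 1 + m.Lam (P.B p) * m'.RR p / (m.The p + m'.RR p) := by
      intro p
      rw [hLam, hThe]
      exact RR_B hg' p
    apply le_antisymm
    · exact ratio_le (RR_pos hg') (RR_pos hg) hLp (The_pos hg) e2 e1 p
    · exact ratio_le (RR_pos hg) (RR_pos hg') hLp (The_pos hg) e1 e2 p
  have hS : ∀ p, m.SS p = m'.SS p := by
    intro p
    have h1 := hThe (P.rho p)
    unfold HypMetric.The at h1
    rw [P.rho_rho, hR] at h1
    exact mul_left_cancel₀ (RR_pos hg' _).ne' h1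
  have hT : ∀ p, m.TT p = m'.TT p := by
    intro p
    have h1 := RR_eq m p
    have h2 := RR_eq m' p
    rw [hR, hS, h2] at h1
    exact (mul_right_cancel₀ (SS_pos hg' _).ne' h1).symm
  have ht : ∀ p, m.t p = m'.t p := by
    intro p
    have h1 : m.t p ^ 2 = m'.t p ^ 2 := hT p
    exact (sq_eq_sq₀ (hg.t_pos p).le (hg'.t_pos p).le).1 h1
  have hEE : ∀ p, m.EE p = m'.EE p := by
    have e : ∀ (m : HypMetric P) (hg : GF m) (p : V), m.EE p * (m.SS p + 1) = m.RR p - 1 := by
      intro m hg p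
      have h2 := hg.E_lt p
      unfold HypMetric.RR HypMetric.SS
      have h4 : m.TT p - m.EE p ≠ 0 := by linarith
      field_simp
      ring
    intro p
    have h1 := e m hg p
    have h2 := e m' hg' p
    rw [hR, hS, ← h2] at h1
    have h3 := SS_pos hg' p
    exact mul_right_cancel₀ (by linarith) h1
  have hθ : ∀ p, m.θ p = m'.θ p := by
    have e : ∀ (m : HypMetric P) (p : V), m.θ p = 2 * Real.arctan (m.t p) := by
      intro m p
      have h1 := m.θ_pos p
      have h2 := m.θ_lt p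
      unfold HypMetric.t
      rw [Real.arctan_tan (by linarith) (by linarith)]
      ring
    intro p
    rw [e m, e m', ht]
  have hy : ∀ p, m.y p = m'.y p := by
    intro p
    have h1 := hEE (P.rho p)
    unfold HypMetric.EE at h1
    rw [P.rho_rho, ht, ht] at h1
    have h2 := hg'.t_pos (P.rho p)
    have h3 := hg'.t_pos (P.kap (P.rho p))
    have h4 := mul_right_cancel₀ h3.ne' h1
    have h5 := mul_right_cancel₀ h2.ne' h4
    have h6 := Real.exp_injective h5
    linarith
  have hmu : ∀ p, m.mu p = m'.mu p := by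
    intro p
    by_cases hd : P.Diag p
    · rw [← hz.mu_split p hd, ← hz'.mu_split p hd, hmuZ, hmuZ]
    · have h1 : m.muZ (Sum.inl p) = m.mu p := if_neg hd
      have h2 : m'.muZ (Sum.inl p) = m'.mu p := if_neg hd
      rw [← h1, ← h2, hmuZ]
  have hx : ∀ p, m.x p = m'.x p := by
    intro p
    have h1 := hmu p
    have h2 : ∀ q, hh m q = hh m' q := by
      intro q
      unfold hh
      rw [ht, hS]
    rw [mu_eq_hh, mu_eq_hh, h2, h2] at h1
    have h3 := hh_pos hg' p
    have h4 := hh_pos hg' (P.A p)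
    rw [div_left_inj' h4.ne'] at h1
    exact Real.exp_injective (mul_right_cancel₀ h3.ne' h1)
  cases m
  cases m'
  obtain rfl : _ = _ := funext hx
  obtain rfl : _ = _ := funext hy
  obtain rfl : _ = _ := funext hθ
  rfl

end Run7.h568.MC
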