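import Pool.Agent.Run7.h568.MC.GA

/-!
# Piece LEAFU: uniqueness of twisted metrics
-/

namespace Run7.h568.MC

open Real Matrix Pattern

namespace HypMetric

variable {V : Type*} {P : Pattern V} (m : HypMetric P)

theorem sin_half_eq (p : V) : sin (m.θ p / 2) = m.t p * cos (m.θ p / 2) := by
  unfold t
  rw [Real.tan_eq_sin_div_cos, div_mul_cancel₀ _ (m.cos_half_pos p).ne']

/-- the two factors of `Mob (G p)` at `1 / t (A p)` -/
theorem G_vec (p : V) :
    (m.G p) 0 1 * (1 / m.t (P.A p)) + (m.G p) 0 0 =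
      exp (m.x p / 2) * cos (m.θ p / 2) / (m.t (P.A p) * cos (m.θ (P.iota p) / 2)) ∧
    -((m.G p) 1 1) * (1 / m.t (P.A p)) - (m.G p) 1 0 =
      exp (m.x p / 2) * (m.t p * cos (m.θ p / 2)) /
        (m.t (P.A p) * cos (m.θ (P.iota p) / 2)) := by
  obtain ⟨h1, h2⟩ := m.cross_vec p
  have c0 := (m.cos_half_pos (P.iota p)).ne'
  have t0 := (m.t_pos' (P.A p)).ne'
  rw [m.sin_half_eq (P.iota p), m.t_iota'] at h1 h2
  simp only [R, Matrix.of_apply, Matrix.cons_val', Matrix.cons_val_zero, Matrix.cons_val_one,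
    Matrix.cons_val_fin_one] at h1 h2
  rw [m.sin_half_eq p] at h2
  unfold G
  constructor
  · field_simp
    linear_combination h1
  · field_simp
    linear_combination -h2

theorem DD_eq' (p : V) : m.DD p = (1 + m.TT p) * m.SS p := by
  unfold DD
  rw [m.RR_eq]
  unfold TT
  ring

theorem one_add_TT (p : V) : (1 + m.TT p) * cos (m.θ p / 2) ^ 2 = 1 := by
  have h := Real.sin_sq_add_cos_sq (m.θ p / 2)
  rw [m.sin_half_eq p] at h
  unfold TT
  linear_combination h

/-- the metric itself -/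
theorem leafRel_self : LeafRel m 0 (fun p => 1 / m.t p) m := by
  have hd : ∀ p, disp (P := P) (0 : V → ℝ) (fun p => 1 / m.t p) p = 0 := by
    intro p
    unfold disp
    simp only [m.t_rho', sub_self, Pi.zero_apply, add_zero, zero_div]
  refine
    { isA := ⟨fun p => one_div_pos.2 (m.t_pos' p), fun p => ?_⟩
      T_eq := fun p => ?_
      E_eq := fun p => ?_
      y_eq := fun p => ?_
      el_eq := fun p => ?_ }
  · obtain ⟨h1, h2⟩ := m.G_vec p
    unfold Mob
    simp only [Pi.zero_apply, neg_zero, Real.exp_zero, one_mul]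
    rw [h1, h2]
    have c0 := (m.cos_half_pos (P.iota p)).ne'
    have c1 := (m.cos_half_pos p).ne'
    have t0 := (m.t_pos' (P.A p)).ne'
    have t1 := (m.t_pos' p).ne'
    have e := (Real.exp_pos (m.x p / 2)).ne'
    field_simp
  · have t1 := (m.t_pos' p).ne'
    simp only [Pi.zero_apply, Real.exp_zero, m.t_rho']
    unfold TT
    field_simp
  · have t1 := (m.t_pos' p).ne'
    have t2 := (m.t_pos' (P.kap p)).ne'
    simp only [Pi.zero_apply, zero_sub]
    unfold EE
    field_simp
  · rw [hd, hd]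
    ring
  · obtain ⟨h1, h2⟩ := m.G_vec p
    simp only [Pi.zero_apply, neg_zero, Real.exp_zero, one_mul]
    rw [h1, h2, m.DD_eq', m.DD_eq']
    have c0 := (m.cos_half_pos (P.iota p)).ne'
    have c1 := (m.cos_half_pos p).ne'
    have t0 := (m.t_pos' (P.A p)).ne'
    have t1 := (m.t_pos' p).ne'
    have s0 := (m.SS_pos' (P.A p)).ne'
    have s1 := (m.SS_pos' p).ne'
    have e := (Real.exp_pos (m.x p / 2)).ne'
    have f0 := m.one_add_TT (P.iota p)
    have f1 := m.one_add_TT p
    have f2 : m.TT (P.iota p) = m.TT (P.A p) := by unfold TT; rw [m.t_iota']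
    rw [f2] at f0
    have g0 : 1 + m.TT (P.A p) ≠ 0 := fun h => by rw [h] at f0; simp at f0
    have hx2 : exp (m.x p) = exp (m.x p / 2) ^ 2 := by
      rw [← Real.exp_nat_mul]; congr 1; push_cast; ring
    unfold mu
    rw [hx2]
    field_simp
    linear_combination f1 - f0

theorem ext' {m m' : HypMetric P} (h1 : m.x = m'.x) (h2 : m.y = m'.y) (h3 : m.θ = m'.θ) :
    m = m' := by
  cases m; cases m'
  simp only at h1 h2 h3
  subst h1 h2 h3
  rfl

theorem t_inj {m m' : HypMetric P} (h : ∀ p, m.TT p = m'.TT p) : m.t = m'.t ∧ m.θ = m'.θ := by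
  have h1 : ∀ p, m.t p = m'.t p := by
    intro p
    have := h p
    unfold TT at this
    exact (pow_left_inj₀ (m.t_pos' p).le (m'.t_pos' p).le two_ne_zero).1 this
  refine ⟨funext h1, funext fun p => ?_⟩
  have h2 : Real.tan (m.θ p / 2) = Real.tan (m'.θ p / 2) := h1 p
  have h3 := Real.injOn_tan (by constructor <;> linarith [m.θ_pos p, m.θ_lt p, Real.pi_pos])
    (by constructor <;> linarith [m'.θ_pos p, m'.θ_lt p, Real.pi_pos]) h2
  linarith

/-- a metric is determined by `LeafRel` -/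
theorem leafRel_unique {m m' m'' : HypMetric P} {τ a : V → ℝ} (h' : LeafRel m τ a m')
    (h'' : LeafRel m τ a m'') : m' = m'' := by
  obtain ⟨ht, hθ⟩ := t_inj (m := m') (m' := m'') fun p => by rw [h'.T_eq, h''.T_eq]
  have hy : m'.y = m''.y := funext fun p => by rw [h'.y_eq, h''.y_eq]
  have hE : m'.EE = m''.EE := funext fun p => by rw [h'.E_eq, h''.E_eq]
  have hT : m'.TT = m''.TT := funext fun p => by rw [h'.T_eq, h''.T_eq]
  have hS : m'.SS = m''.SS := funext fun p => by unfold SS; rw [hE, hT]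
  have hD : m'.DD = m''.DD := funext fun p => by rw [m'.DD_eq', m''.DD_eq', hT, hS]
  have hx : m'.x = m''.x := by
    funext p
    have h1 := h'.el_eq p
    rw [← h''.el_eq p, hD] at h1
    have hp : ∀ p, 0 < m''.DD p := fun p => by
      rw [m''.DD_eq']
      exact mul_pos (by unfold TT; positivity) (m''.SS_pos' p)
    have d1 := (hp p).ne'
    have d2 := (hp (P.A p)).ne'
    have u1 := (m'.mu_pos' p).ne'
    have u2 := (m''.mu_pos' p).ne'
    have h2 : m'.mu p = m''.mu p := by
      rw [div_eq_div_iff (mul_ne_zero u1 d2) (mul_ne_zero u2 d2)] at h1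
      have := mul_left_cancel₀ d1 h1
      exact (mul_right_cancel₀ d2 this).symm
    unfold mu at h2
    rw [ht, hS] at h2
    have a1 := (m''.t_pos' p).ne'
    have a2 := (m''.t_pos' (P.A p)).ne'
    have a3 := (m''.SS_pos' p).ne'
    have a4 := (m''.SS_pos' (P.A p)).ne'
    rw [div_left_inj' (mul_ne_zero a2 a4), mul_left_inj' (mul_ne_zero a1 a3)] at h2
    exact Real.exp_injective h2
  exact ext' hx hy hθ

/-- weights of a right earthquake -/
theorem quake_inv {m m' : HypMetric P} {τ μ : V → ℝ}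
    (h2 : ∀ p, μ p - μ (P.B p) = m'.y p - m.y p) (h3 : ∀ p, μ p + μ (P.rho p) = τ p) :
    τ ∈ Inv P := by
  refine ⟨fun p => ?_, fun p => ?_⟩
  · rw [← h3, ← h3, P.rho_rho]
    ring
  · rw [← h3, ← h3]
    have e1 := h2 p
    have e2 := h2 (P.rho (P.B p))
    rw [P.B_rho_B, m.y_rho, m'.y_rho] at e2
    linarith

/-- `LeafRel` from a right earthquake -/
theorem leafRel_of_quake {m m' : HypMetric P} {τ μ : V → ℝ}
    (h1 : ∀ p, T (μ p) * m'.G p = m.G p * T (μ (P.iota p)))
    (h2 : ∀ p, μ p - μ (P.B p) = m.y p - m'.y p) (h3 : ∀ p, μ p + μ (P.rho p) = τ p) :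
    LeafRel m τ (fun p => exp (μ p) / m'.t p) m' := by
  have hs := leafRel_self m'
  have hG : ∀ p, m'.G p 0 0 = exp ((μ (P.iota p) - μ p) / 2) * m.G p 0 0 ∧
      m'.G p 0 1 = exp (-(μ (P.iota p) + μ p) / 2) * m.G p 0 1 ∧
      m'.G p 1 0 = exp ((μ (P.iota p) + μ p) / 2) * m.G p 1 0 ∧
      m'.G p 1 1 = exp ((μ p - μ (P.iota p)) / 2) * m.G p 1 1 := by
    intro p
    have h := h1 p
    have a00 := congrFun (congrFun h 0) 0
    have a01 := congrFun (congrFun h 0) 1
    have a10 := congrFun (congrFun h 1) 0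
    have a11 := congrFun (congrFun h 1) 1
    simp only [T, Matrix.mul_apply, Fin.sum_univ_two, Matrix.of_apply, Matrix.cons_val',
      Matrix.cons_val_zero, Matrix.cons_val_one, Matrix.cons_val_fin_one, zero_mul, mul_zero,
      add_zero, zero_add] at a00 a01 a10 a11
    have e1 := (Real.exp_pos (μ p / 2)).ne'
    have e2 := (Real.exp_pos (-(μ p / 2))).ne'
    refine ⟨?_, ?_, ?_, ?_⟩
    · apply mul_left_cancel₀ e1
      rw [a00, ← mul_assoc, ← Real.exp_add, mul_comm]
      congr 2; ring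
    · apply mul_left_cancel₀ e1
      rw [a01, ← mul_assoc, ← Real.exp_add, mul_comm]
      congr 2; ring
    · apply mul_left_cancel₀ e2
      rw [a10, ← mul_assoc, ← Real.exp_add, mul_comm]
      congr 2; ring
    · apply mul_left_cancel₀ e2
      rw [a11, ← mul_assoc, ← Real.exp_add, mul_comm]
      congr 2; ring
  have hw : ∀ p, exp (-(τ (P.A p))) * (exp (μ (P.A p)) / m'.t (P.A p)) =
      exp (-(μ (P.iota p))) * (1 / m'.t (P.A p)) := by
    intro p
    have := h3 (P.A p)
    rw [P.rho_A] at this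
    rw [← this, ← mul_div_assoc, ← Real.exp_add, mul_one_div]
    congr 2; ring
  have hv : ∀ p, m'.G p 0 1 * (1 / m'.t (P.A p)) + m'.G p 0 0 =
        exp ((μ (P.iota p) - μ p) / 2) *
          (m.G p 0 1 * (exp (-(μ (P.iota p))) * (1 / m'.t (P.A p))) + m.G p 0 0) ∧
      -(m'.G p 1 1) * (1 / m'.t (P.A p)) - m'.G p 1 0 =
        exp ((μ (P.iota p) + μ p) / 2) *
          (-(m.G p 1 1) * (exp (-(μ (P.iota p))) * (1 / m'.t (P.A p))) - m.G p 1 0) := by
    intro p
    obtain ⟨g1, g2, g3, g4⟩ := hG p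
    have e1 : exp (-(μ (P.iota p) + μ p) / 2) =
        exp ((μ (P.iota p) - μ p) / 2) * exp (-(μ (P.iota p))) := by
      rw [← Real.exp_add]; congr 1; ring
    have e2 : exp ((μ p - μ (P.iota p)) / 2) =
        exp ((μ (P.iota p) + μ p) / 2) * exp (-(μ (P.iota p))) := by
      rw [← Real.exp_add]; congr 1; ring
    rw [g1, g2, g3, g4, e1, e2]
    constructor <;> ring
  have hdisp : ∀ p, disp (P := P) τ (fun p => exp (μ p) / m'.t p) p = μ p := by
    intro p
    unfold disp
    simp only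
    rw [Real.log_div (Real.exp_pos _).ne' (m'.t_pos' p).ne',
      Real.log_div (Real.exp_pos _).ne' (m'.t_pos' _).ne', m'.t_rho', Real.log_exp, Real.log_exp,
      ← h3]
    ring
  refine
    { isA := ⟨fun p => div_pos (Real.exp_pos _) (m'.t_pos' p), fun p => ?_⟩
      T_eq := fun p => ?_
      E_eq := fun p => ?_
      y_eq := fun p => ?_
      el_eq := fun p => ?_ }
  · have h := hs.isA.2 p
    simp only [Pi.zero_apply, neg_zero, Real.exp_zero, one_mul] at h
    unfold Mob at h ⊢
    simp only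
    rw [hw p]
    rw [(hv p).1, (hv p).2] at h
    have e1 : exp ((μ (P.iota p) - μ p) / 2) = exp ((μ (P.iota p) + μ p) / 2) * exp (-(μ p)) := by
      rw [← Real.exp_add]; congr 1; ring
    rw [e1, mul_assoc, mul_div_mul_left _ _ (Real.exp_pos _).ne', mul_div_assoc] at h
    rw [div_eq_mul_one_div, h, ← mul_assoc, ← Real.exp_add, add_neg_cancel, Real.exp_zero,
      one_mul]
  · have t1 := (m'.t_pos' p).ne'
    simp only [m'.t_rho']
    rw [← h3, Real.exp_add]
    have e1 := (Real.exp_pos (μ p)).ne'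
    have e2 := (Real.exp_pos (μ (P.rho p))).ne'
    unfold TT
    field_simp
  · have t1 := (m'.t_pos' p).ne'
    have t2 := (m'.t_pos' (P.kap p)).ne'
    have h := h2 (P.rho p)
    change μ (P.rho p) - μ (P.kap p) = _ at h
    have e : τ p - m.y (P.rho p) = -(m'.y (P.rho p)) + μ p + μ (P.kap p) := by
      rw [← h3]; linarith
    rw [e, Real.exp_add, Real.exp_add]
    have e1 := (Real.exp_pos (μ p)).ne'
    have e2 := (Real.exp_pos (μ (P.kap p))).ne'
    unfold EE
    field_simp
  · rw [hdisp, hdisp]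
    linarith [h2 p]
  · have h := hs.el_eq p
    simp only [Pi.zero_apply, neg_zero, Real.exp_zero, one_mul] at h
    rw [h, hw p, (hv p).1, (hv p).2]
    have e1 : exp (-(μ (P.iota p))) = (exp ((μ (P.iota p) - μ p) / 2))⁻¹ *
        (exp ((μ (P.iota p) + μ p) / 2))⁻¹ := by
      rw [← Real.exp_neg, ← Real.exp_neg, ← Real.exp_add]; congr 1; ring
    have p1 := (Real.exp_pos ((μ (P.iota p) - μ p) / 2)).ne'
    have p2 := (Real.exp_pos ((μ (P.iota p) + μ p) / 2)).ne'
    generalize hA : m.G p 0 1 * (exp (-(μ (P.iota p))) * (1 / m'.t (P.A p))) + m.G p 0 0 = X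
    generalize hB : -(m.G p 1 1) * (exp (-(μ (P.iota p))) * (1 / m'.t (P.A p))) - m.G p 1 0 = Y
    rw [e1]
    rw [mul_mul_mul_comm, ← mul_inv, inv_mul_eq_div, div_div, div_div, div_div]

end HypMetric

/-- piece LEAFU -/
theorem LEAFU {V : Type*} [Fintype V] (P : Pattern V) : S_LEAFU P := by
  refine ⟨?_, ?_, ?_⟩
  · rintro m m' τ ⟨μ, h1, h2, h3⟩
    exact ⟨HypMetric.quake_inv h2 h3, _, HypMetric.leafRel_of_quake h1 h2 h3⟩
  · intro m m' m'' τ a h' h''
    exact HypMetric.leafRel_unique h' h''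
  · intro m
    exact m.leafRel_self

end Run7.h568.MC
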