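import Pool.Agent.Run7.h568.MC.Iface
import Pool.Agent.Run7.h568.MC.ZLemmas

/-! Piece W1: the summation identity. -/

namespace Run7.h568.MC

open Pattern Function

variable {V : Type*} [Fintype V] {P : Pattern V}

/-- indicator of non-quadrilateral corners -/
noncomputable def hI (z : P.Z) : ℝ := if Zh z then 1 else 0

theorem hI_sq (z : P.Z) : hI z * hI z = hI z := by unfold hI; split_ifs <;> simp

theorem hI_Zt (z : P.Z) : hI (Zt z) = hI z := by
  unfold hI; simp only [Zh_Zt]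

/-- the correction at crossings -/
noncomputable def rr (l : P.Z → ℝ) (z : P.Z) : ℝ :=
  (if P.Diag (Zb z) then (match z with | Sum.inl _ => 0 | Sum.inr _ => 1) else 1) *
    lad l (P.iota (Zb z))

theorem rr_inl_diag (l : P.Z → ℝ) {p : V} (h : P.Diag p) : rr l (Sum.inl p) = 0 := by
  simp [rr, Zb, h]

theorem rr_inl_not (l : P.Z → ℝ) {p : V} (h : ¬ P.Diag p) :
    rr l (Sum.inl p) = lad l (P.iota p) := by
  simp [rr, Zb, h]

theorem rr_inr (l : P.Z → ℝ) (p : {p : V // P.Diag p}) :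
    rr l (Sum.inr p) = lad l (P.iota p) := by
  simp [rr, Zb]

theorem lad_diag (l : P.Z → ℝ) {p : V} (h : P.Diag p) :
    lad l p = l (Sum.inr ⟨p, h⟩) + l (Sum.inl (P.A p)) := by
  have hq : ¬ P.Quad p := h.oct.2
  simp [lad, h, hq]

theorem lad_not_diag (l : P.Z → ℝ) {p : V} (h : ¬ P.Diag p) :
    lad l p = hI (Sum.inl p : P.Z) * l (Sum.inl (P.A p)) := by
  by_cases hq : P.Quad p
  · simp [lad, hq, hI]
  · simp [lad, hq, hI, h]

theorem wZ_step (d : P.W) (hd : d ∈ W0 P) (z : P.Z) :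
    wZ d (ZA z) = wZ d z + hI z * d.1 (ZA z) - rr d.1 z := by
  obtain ⟨h1, h2, h3, h4⟩ := hd
  rcases z with p | p
  · by_cases h : P.Diag p
    · rw [ZA_inl_diag h, rr_inl_diag _ h]
      have hq : ¬ P.Quad p := h.oct.2
      simp [wZ, hI, hq]
    · rw [ZA_inl_not h, rr_inl_not _ h]
      have := h4 p
      rw [lad_not_diag _ h] at this
      simp only [wZ]
      linarith
  · rw [ZA_inr, rr_inr]
    have := h4 p
    rw [lad_diag _ p.2] at this
    simp only [wZ, hI, Zh_inr, if_true]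
    linarith

theorem adj (f : P.Z → ℝ) (l : P.Z → ℝ) :
    ∑ z, f (ZA z) * rr l z =
      ∑ z : P.Z, f (Sum.inl (P.rho (Zb z))) * (hI z * l (ZA z)) := by
  rw [sum_Z, sum_Z]
  have e1 : ∀ p : V, (f (ZA (Sum.inl p)) * rr l (Sum.inl p) +
      if h : P.Diag p then f (ZA (Sum.inr ⟨p, h⟩)) * rr l (Sum.inr ⟨p, h⟩) else 0) =
      f (Sum.inl (P.A p)) * lad l (P.iota p) := by
    intro p
    by_cases h : P.Diag p
    · simp [h, rr_inl_diag l h, rr_inr]
    · simp [h, rr_inl_not l h, ZA_inl_not h]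
  have e2 : ∀ p : V, (f (Sum.inl (P.rho (Zb (Sum.inl p : P.Z)))) *
      (hI (Sum.inl p : P.Z) * l (ZA (Sum.inl p))) +
      if h : P.Diag p then f (Sum.inl (P.rho (Zb (Sum.inr ⟨p, h⟩ : P.Z)))) *
        (hI (Sum.inr ⟨p, h⟩ : P.Z) * l (ZA (Sum.inr ⟨p, h⟩))) else 0) =
      f (Sum.inl (P.rho p)) * lad l p := by
    intro p
    by_cases h : P.Diag p
    · have hq : ¬ P.Quad p := h.oct.2
      rw [lad_diag _ h]
      simp [h, hI, hq, Zb, ZA_inl_diag h]
      ring
    · rw [lad_not_diag _ h]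
      simp [h, Zb, ZA_inl_not h]
  rw [Finset.sum_congr rfl fun p _ => e1 p, Finset.sum_congr rfl fun p _ => e2 p]
  rw [← sum_iota (P := P) (fun p => f (Sum.inl (P.A p)) * lad l (P.iota p))]
  refine Finset.sum_congr rfl fun p _ => ?_
  rw [P.A_iota, P.iota_iota]

theorem Om_eq (u v : P.W) : Om u v =
    ∑ z : P.Z, (hI z * u.1 (ZA z) * wZ v z - hI z * v.1 (ZA z) * wZ u z) := by
  unfold Om
  refine Finset.sum_congr rfl fun z _ => ?_
  unfold hI
  split_ifs <;> ring

theorem W1 : S_W1 P := by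
  intro E G s s' N v d hE hEG hs hq hl hw hstep hd
  have hd' := hd
  obtain ⟨hd1, hd2, hd3, hd4⟩ := hd'
  set F : P.Z → ℝ := fun z => N z - 2 * s' z with hF
  set E' : P.Z → ℝ := ext0 E with hE'
  set G' : P.Z → ℝ := ext0 G with hG'
  have hst : ∀ z, hI z * v.1 (ZA z) = F (ZA z) - F z + E' (ZA z) := by
    intro z
    rw [← hstep z]
    unfold hI
    split_ifs <;> simp
  -- (i)
  have hwv : ∀ z : P.Z, wZ v z = E (Zb z) + F (Sum.inl (P.rho (Zb z))) + F z := by
    rintro (p | p)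
    · simp only [wZ, Zb, hF, hw]; ring
    · have h1 := hst (Sum.inl (p : V))
      have hq' : ¬ P.Quad (p : V) := p.2.oct.2
      rw [ZA_inl_diag p.2] at h1
      have h2 : hI (Sum.inl (p : V) : P.Z) = 1 := by simp [hI, hq']
      have h3 : E' (Sum.inr ⟨(p : V), p.2⟩) = 0 := rfl
      rw [h2, h3] at h1
      simp only [wZ, Zb, hw]
      have h4 : v.1 (Sum.inr p) = F (Sum.inr p) - F (Sum.inl (p : V)) := by linarith
      rw [h4]
      simp only [hF]; ring
  have hEb : ∀ z : P.Z, E' (Sum.inl (P.rho (Zb z))) = E (Zb z) := fun z => hE _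
  -- (*)
  have hstar : Om v d = ∑ p, E p * d.2 p -
      ∑ z : P.Z, (hI z * d.1 (ZA z)) * (F (ZA z) + E' (ZA z) + F z) := by
    rw [Om_eq]
    have e1 : ∀ z : P.Z, hI z * v.1 (ZA z) * wZ d z - hI z * d.1 (ZA z) * wZ v z =
        ((F (ZA z) + E' (ZA z)) * wZ d (ZA z) - F z * wZ d z)
        + (F (ZA z) + E' (ZA z)) * rr d.1 z
        - (F (Sum.inl (P.rho (Zb z))) + E' (Sum.inl (P.rho (Zb z)))) * (hI z * d.1 (ZA z))
        - (hI z * d.1 (ZA z)) * (F (ZA z) + E' (ZA z) + F z) := by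
      intro z
      rw [hst z, hwv z, wZ_step d hd z, hEb z]
      ring
    rw [Finset.sum_congr rfl fun z _ => e1 z]
    simp only [Finset.sum_sub_distrib, Finset.sum_add_distrib]
    have a1 := adj (fun z => F z + E' z) d.1
    rw [a1]
    have a2 := sum_ZA (P := P) (fun z => (F z + E' z) * wZ d z)
    rw [a2]
    have a3 : ∑ z : P.Z, (F z + E' z) * wZ d z = ∑ z : P.Z, F z * wZ d z + ∑ p, E p * d.2 p := by
      have := sum_ext0 (P := P) E (wZ d)
      rw [show ∑ p, E p * d.2 p = ∑ p, E p * wZ d (Sum.inl p) from rfl, ← this,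
        ← Finset.sum_add_distrib]
      exact Finset.sum_congr rfl fun z _ => by ring
    rw [a3]
    ring
  rw [hstar]
  have hl' : ∀ z, E' z + 2 * G' z = v.1 z - N z - N (Zk z) := by
    intro z; rw [hl z]; ring
  have hNN : ∀ z, hI z * (N z + N (Zt z)) = hI z * (-2 * (s (ZA z) - s' z)) := by
    intro z
    have a := hst z
    have b := hl (ZA z)
    have c := hs (ZA z)
    simp only [hF] at a
    by_cases h : Zh z
    · have : hI z = 1 := by simp [hI, h]
      rw [this] at a ⊢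
      have e : N (Zk (ZA z)) = N (Zt z) := rfl
      rw [e] at b
      linarith
    · have : hI z = 0 := by simp [hI, h]
      rw [this]; ring
  have hNQ : ∀ z, (1 - hI z) * (N z + N (Zt z)) = (1 - hI z) * v.1 (ZA z) := by
    intro z
    have a := hst z
    have b := hl (ZA z)
    have c := hs (ZA z)
    simp only [hF] at a
    by_cases h : Zh z
    · have : hI z = 1 := by simp [hI, h]
      rw [this]; ring
    · have h0 : hI z = 0 := by simp [hI, h]
      have q := hq z h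
      rw [h0] at a ⊢
      have e : N (Zk (ZA z)) = N (Zt z) := rfl
      rw [e] at b
      linarith
  have hdt : ∀ z, d.1 (Zt z) = d.1 (ZA z) := fun z => hd1 (ZA z)
  have hdq : ∀ z, (1 - hI z) * d.1 (ZA z) = (1 - hI z) * d.1 z := by
    intro z
    by_cases h : Zh z
    · have : hI z = 1 := by simp [hI, h]
      rw [this]; ring
    · rw [hd2 z h]
  -- the remaining identity
  have key : ∑ z : P.Z, (1 - hI z) * (v.1 (ZA z) * d.1 (ZA z)) =
      ∑ z : P.Z, (1 - hI z) * (2 * N z * d.1 z) := by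
    have e1 : ∑ z : P.Z, (1 - hI z) * (2 * N z * d.1 z) =
        ∑ z : P.Z, (1 - hI z) * (N z * d.1 z) +
          ∑ z : P.Z, (1 - hI (Zt z)) * (N (Zt z) * d.1 (Zt z)) := by
      rw [sum_Zt (P := P) (fun z => (1 - hI z) * (N z * d.1 z)), ← Finset.sum_add_distrib]
      exact Finset.sum_congr rfl fun z _ => by ring
    rw [e1, ← Finset.sum_add_distrib]
    refine Finset.sum_congr rfl fun z _ => ?_
    rw [hI_Zt, hdt]
    have a := hNQ z
    have b := hdq z
    linear_combination (-d.1 (ZA z)) * a + N z * b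
  have key2 : ∑ z : P.Z, hI z * (N z * d.1 z) = ∑ z : P.Z, hI z * (N (Zt z) * d.1 (ZA z)) := by
    rw [← sum_Zt (P := P) (fun z => hI z * (N z * d.1 z))]
    refine Finset.sum_congr rfl fun z _ => ?_
    rw [hI_Zt, hdt]
  have f1 : ∑ z : P.Z, (hI z * d.1 (ZA z)) * (F (ZA z) + E' (ZA z) + F z) =
      ∑ z : P.Z, hI z * d.1 (ZA z) * (v.1 (ZA z) + 2 * F z) := by
    refine Finset.sum_congr rfl fun z _ => ?_
    have a := hst z
    have b := hI_sq z
    linear_combination (-(d.1 (ZA z)) * hI z) * a + (d.1 (ZA z)) * v.1 (ZA z) * b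
  have f2 : ∑ p, (E p * d.2 p - (E p + 2 * G p) * d.1 (Sum.inl p)) =
      ∑ p, E p * d.2 p - ∑ z : P.Z, (v.1 z - N z - N (Zk z)) * d.1 z := by
    rw [Finset.sum_sub_distrib]
    congr 1
    have := sum_ext0 (P := P) (fun p => E p + 2 * G p) d.1
    rw [← this]
    refine Finset.sum_congr rfl fun z _ => ?_
    rw [← hl' z]
    rcases z with p | p <;> simp [ext0, hE', hG']
  have f3 : ∑ z : P.Z, (v.1 z - N z - N (Zk z)) * d.1 z =
      ∑ z : P.Z, v.1 (ZA z) * d.1 (ZA z) - 2 * ∑ z : P.Z, N z * d.1 z := by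
    have a := sum_Zk (P := P) (fun z => N z * d.1 z)
    have b := sum_ZA (P := P) (fun z => v.1 z * d.1 z)
    rw [b]
    have c : ∑ z : P.Z, N (Zk z) * d.1 z = ∑ z : P.Z, N z * d.1 z := by
      rw [← a]
      refine Finset.sum_congr rfl fun z _ => ?_
      rw [hd1 z]
    have : ∑ z : P.Z, (v.1 z - N z - N (Zk z)) * d.1 z = ∑ z : P.Z, v.1 z * d.1 z -
        ∑ z : P.Z, N z * d.1 z - ∑ z : P.Z, N (Zk z) * d.1 z := by
      rw [← Finset.sum_sub_distrib, ← Finset.sum_sub_distrib]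
      exact Finset.sum_congr rfl fun z _ => by ring
    rw [this, c]; ring
  have f4 : ∑ z : P.Z, (if Zh z then s (ZA z) * d.1 (ZA z) else 0) =
      ∑ z : P.Z, hI z * (s (ZA z) * d.1 (ZA z)) := by
    refine Finset.sum_congr rfl fun z _ => ?_
    unfold hI; split_ifs <;> ring
  rw [f1, f2, f3, f4]
  -- expand everything
  have g1 : ∑ z : P.Z, hI z * d.1 (ZA z) * (v.1 (ZA z) + 2 * F z) =
      ∑ z : P.Z, hI z * (v.1 (ZA z) * d.1 (ZA z)) +
        2 * ∑ z : P.Z, hI z * (F z * d.1 (ZA z)) := by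
    rw [Finset.mul_sum, ← Finset.sum_add_distrib]
    exact Finset.sum_congr rfl fun z _ => by ring
  have g2 : ∑ z : P.Z, v.1 (ZA z) * d.1 (ZA z) =
      ∑ z : P.Z, hI z * (v.1 (ZA z) * d.1 (ZA z)) +
        ∑ z : P.Z, (1 - hI z) * (v.1 (ZA z) * d.1 (ZA z)) := by
    rw [← Finset.sum_add_distrib]
    exact Finset.sum_congr rfl fun z _ => by ring
  have g3 : 2 * ∑ z : P.Z, N z * d.1 z =
      2 * ∑ z : P.Z, hI z * (N z * d.1 z) + ∑ z : P.Z, (1 - hI z) * (2 * N z * d.1 z) := by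
    rw [Finset.mul_sum, Finset.mul_sum, ← Finset.sum_add_distrib]
    exact Finset.sum_congr rfl fun z _ => by ring
  have g4 : ∑ z : P.Z, hI z * (F z * d.1 (ZA z)) + 2 * ∑ z : P.Z, hI z * (s (ZA z) * d.1 (ZA z))
      + ∑ z : P.Z, hI z * (N (Zt z) * d.1 (ZA z)) = 0 := by
    rw [Finset.mul_sum, ← Finset.sum_add_distrib, ← Finset.sum_add_distrib]
    apply Finset.sum_eq_zero
    intro z _
    have a := hNN z
    simp only [hF]
    linear_combination (d.1 (ZA z)) * a
  rw [g1, g2, g3, key2, key]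
  linear_combination (-2) * g4

end Run7.h568.MC
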