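import Pool.Agent.Run7.h568.MC.Final3
import Pool.Agent.Run7.h568.MC.GA
import Pool.Agent.Run7.h568.MC.Gb
import Pool.Agent.Run7.h568.MC.LIN3
import Pool.Agent.Run7.h568.MC.W1
import Pool.Agent.Run7.h568.MC.KfBox
import Pool.Agent.Run7.h568.MC.Iso
import Pool.Agent.Run7.h568.MC.Leafu
import Pool.Agent.Run7.h568.MC.Deriv4
import Pool.Agent.Run7.h713.MC.CAL
import Pool.Agent.Run7.h713.MC.INV
import Pool.Agent.Run7.h713.MC.SMOOTH
import Pool.Agent.Run7.h778.MC.MOB
import Pool.Agent.Run7.h778.MC.LEAF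

set_option linter.unusedSectionVars false

/-! Assembly, last part: the uniqueness theorem. -/

namespace Run7.h568.MC.Asm

open Real Matrix Pattern

universe u

variable {V : Type u} [Fintype V] {P : Pattern V}

theorem all (P : Pattern V) : All P where
  ga := GA P
  gb := gb P
  lin1 := LIN1
  lin2 := LIN2
  lin3 := LIN3
  grad := grad (GA P) (gb P) LIN1 LIN3 W1
  kf := kf (GA P) (gb P)
  bx := Run7.h568.MC.box (GA P)
  iso := iso W1
  mob := Run7.h778.MC.mob
  leaf := Run7.h778.MC.leaf P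
  leafu := LEAFU P
  smooth := Run7.h713.MC.SMOOTH.smooth (GA P) (gb P)
  deriv := Dv.DERIV (GA P) (gb P) LIN1
  inv := Run7.h713.MC.INV.inv
  cal := Run7.h713.MC.CAL.cal

theorem LeftQuake.swap {a : V → ℝ} {m m' : HypMetric P} (h : LeftQuake P a m m') :
    LeftQuake P (fun p => -a p) m' m := by
  obtain ⟨κ, h1, h2, h3⟩ := h
  refine ⟨fun p => -κ p, fun p => ?_, fun p => ?_, fun p => ?_⟩
  · have e := h1 p
    have e2 : T (-κ p) * (T (κ p) * m.g p) * T (κ (P.rho (P.B p))) =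
        T (-κ p) * (m'.g p * T (-κ (P.rho (P.B p)))) * T (κ (P.rho (P.B p))) := by rw [e]
    have e3 : T (-κ p) * T (κ p) = 1 := by rw [T_mul]; simp [T_zero]
    have e4 : T (-κ (P.rho (P.B p))) * T (κ (P.rho (P.B p))) = 1 := by
      rw [T_mul]; simp [T_zero]
    rw [← mul_assoc, e3, one_mul, mul_assoc, mul_assoc, e4, mul_one] at e2
    rw [neg_neg]
    exact e2.symm
  · have := h2 p
    simp only
    linarith
  · have := h3 p
    simp only
    linarith

theorem RightQuake.swap {b : V → ℝ} {m m' : HypMetric P} (h : RightQuake P b m m') :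
    RightQuake P (fun p => -b p) m' m := by
  obtain ⟨μ, h1, h2, h3⟩ := h
  refine ⟨fun p => -μ p, fun p => ?_, fun p => ?_, fun p => ?_⟩
  · have e := h1 p
    have e2 : T (-μ p) * (T (μ p) * m.G p) * T (-μ (P.iota p)) =
        T (-μ p) * (m'.G p * T (μ (P.iota p))) * T (-μ (P.iota p)) := by rw [e]
    have e3 : T (-μ p) * T (μ p) = 1 := by rw [T_mul]; simp [T_zero]
    have e4 : T (μ (P.iota p)) * T (-μ (P.iota p)) = 1 := by
      rw [T_mul]; simp [T_zero]
    rw [← mul_assoc, e3, one_mul, mul_assoc, mul_assoc, e4, mul_one] at e2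
    exact e2.symm
  · have := h2 p
    simp only
    linarith
  · have := h3 p
    simp only
    linarith

/-- uniqueness for nonnegative weights -/
theorem unique_nonneg (a b : V → ℝ) (hb : ∀ p, 0 ≤ b p)
    (hfill : ∀ p, ∃ n : ℕ, b (P.A^[n] p) ≠ 0) {l r l' r' : HypMetric P}
    (h1 : LeftQuake P a r l) (h2 : RightQuake P b r l) (h1' : LeftQuake P a r' l')
    (h2' : RightQuake P b r' l') : l = l' ∧ r = r' := by
  have hA := all P
  obtain ⟨L⟩ := exists_leafData hA l
  obtain ⟨L'⟩ := exists_leafData hA l'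
  obtain ⟨hbI, -⟩ := hA.leafu.1 _ _ _ h2
  have e1 := L.quake r ⟨b, hbI⟩ h2
  have e2 := L'.quake r' ⟨b, hbI⟩ h2'
  have k1 := hA.lin2 r l a (hA.ga _) (hA.ga _) h1
  have k2 := hA.lin2 r' l' a (hA.ga _) (hA.ga _) h1'
  have hz : L'.z ⟨b, hbI⟩ - L.z ⟨b, hbI⟩ = L'.z 0 - L.z 0 := by
    unfold LeafData.z
    rw [L.zero, L'.zero, ← e1, ← e2, k1, k2]
    refine Prod.ext rfl ?_
    funext p
    have e3 : (r'.lin - r.lin).2 p = r'.w p - r.w p := rfl
    rw [e3]
    simp
  have e := calibrated hA L L' ⟨b, hbI⟩ hb hfill hz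
  subst e
  refine ⟨rfl, ?_⟩
  rw [e1, L.quake r' ⟨b, hbI⟩ h2']

/-- **Uniqueness.** -/
theorem core_unique (a b : V → ℝ) (hb : (∀ p, 0 ≤ b p) ∨ (∀ p, b p ≤ 0))
    (hfill : ∀ p, ∃ n : ℕ, b (P.A^[n] p) ≠ 0) (C C' : Core P a b) :
    C.left = C'.left ∧ C.right = C'.right := by
  rcases hb with hb | hb
  · exact unique_nonneg a b hb hfill C.leftQuake C.rightQuake C'.leftQuake C'.rightQuake
  · exact (unique_nonneg (fun p => -a p) (fun p => -b p) (fun p => neg_nonneg.2 (hb p))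
      (fun p => (hfill p).imp fun n hn => neg_ne_zero.2 hn) (LeftQuake.swap C.leftQuake)
      (RightQuake.swap C.rightQuake) (LeftQuake.swap C'.leftQuake)
      (RightQuake.swap C'.rightQuake)).symm

end Run7.h568.MC.Asm
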