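import Pool.Agent.Run7.h568.MC.Comb

/-!
# Gauge quantities of a metric

At each directed crossing `p` let `α̃` be the lift of `α` through `p`, normalised as `(0, ∞)` with
`∞` the end on the left of `p`, such that the left end of the previous lift of `α` along `β` (seen
from `p` backwards: `L (kap p)`) is `-1`.  Then the lift of `β` through `p` goes from `-R` to `S`,
the left end of the next lift of `α` along `β` is at `Θ`, the right end (seen backwards) of the
previous one is `-1 - Λ`, and passing from `p` to `A p` divides coordinates by `μ`.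
-/

namespace Run7.h568.MC

open Real Matrix

namespace HypMetric

variable {V : Type*} {P : Pattern V} (m : HypMetric P)

noncomputable def t (p : V) : ℝ := Real.tan (m.θ p / 2)

/-- `tan² (θ/2) = R / S` -/
noncomputable def TT (p : V) : ℝ := m.t p ^ 2

/-- `(R - 1) / (S + 1)`; it depends only on the `β`-edge behind `p` -/
noncomputable def EE (p : V) : ℝ := Real.exp (-(m.y (P.rho p))) * m.t p * m.t (P.kap p)

noncomputable def RR (p : V) : ℝ := m.TT p * (1 + m.EE p) / (m.TT p - m.EE p)

noncomputable def SS (p : V) : ℝ := (1 + m.EE p) / (m.TT p - m.EE p)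

noncomputable def DD (p : V) : ℝ := m.RR p + m.SS p

noncomputable def Lam (p : V) : ℝ := (m.RR p - 1) * (m.SS (P.kap p) + 1)

noncomputable def The (p : V) : ℝ := m.RR p * m.SS (P.rho p)

noncomputable def mu (p : V) : ℝ :=
  Real.exp (m.x p) * (m.t p * m.SS p) / (m.t (P.A p) * m.SS (P.A p))

/-- `cos θ` -/
noncomputable def cs (p : V) : ℝ := (1 - m.TT p) / (1 + m.TT p)

/-- the cosine of the angle of the `β`-edge behind `p` with the leaf along it -/
noncomputable def ce (p : V) : ℝ := (1 - m.EE p) / (1 + m.EE p)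

variable [Fintype V]

/-- `μ` from the end of the diagonal after `p` to `A p` -/
noncomputable def muV (p : V) : ℝ :=
  (m.mu (P.tau p) - 1) / (m.mu (P.tau p) - 1 - m.Lam (P.A p))

noncomputable def muZ : P.Z → ℝ
  | Sum.inl p => if P.Diag p then m.mu p / m.muV p else m.mu p
  | Sum.inr p => m.muV p

noncomputable def LamZ : P.Z → ℝ
  | Sum.inl p => m.Lam p
  | Sum.inr p => (1 - 1 / m.muZ (Sum.inl (p : V))) * (m.muZ (Pattern.Zk (Sum.inr p)) - 1)

noncomputable def U : P.Z → ℝ
  | Sum.inl p => -Real.log (m.muZ (Sum.inl (P.top p)) - 1)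
  | Sum.inr p => -Real.log (m.muZ (Sum.inr p) - 1)

/-- linear coordinate of a leaf -/
noncomputable def lZ (z : P.Z) : ℝ := Real.log (m.LamZ z) + m.U z + m.U (Pattern.Zk z)

/-- linear coordinate of a crossing -/
noncomputable def w (p : V) : ℝ :=
  Real.log (m.The p) + m.U (Sum.inl p) + m.U (Sum.inl (P.rho p))

end HypMetric

section linear

variable {V : Type*} [Fintype V] (P : Pattern V)

/-- the space of linear coordinates -/
abbrev Pattern.W : Type _ := (P.Z → ℝ) × (V → ℝ)

variable {P}

noncomputable def HypMetric.lin (m : HypMetric P) : P.W := (m.lZ, m.w)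

/-- total weight of the leaves which end between `p` and `A p` on the left of `α` -/
noncomputable def lad (l : P.Z → ℝ) (p : V) : ℝ :=
  if P.Quad p then 0
  else (if h : P.Diag p then l (Sum.inr ⟨p, h⟩) else 0) + l (Sum.inl (P.A p))

variable (P) in
/-- the linear relations satisfied by the linear coordinates -/
def W0 : Submodule ℝ P.W where
  carrier := {v | (∀ z, v.1 (Pattern.Zk z) = v.1 z) ∧ (∀ z, ¬ Pattern.Zh z →
    v.1 (Pattern.ZA z) = v.1 z) ∧ (∀ p, v.2 (P.rho p) = v.2 p) ∧
    (∀ p, v.2 (P.A p) - v.2 p = lad v.1 p - lad v.1 (P.iota p))}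
  add_mem' := by
    rintro u v ⟨h1, h2, h3, h4⟩ ⟨k1, k2, k3, k4⟩
    refine ⟨fun z => ?_, fun z hz => ?_, fun p => ?_, fun p => ?_⟩
    · simp [h1 z, k1 z]
    · simp [h2 z hz, k2 z hz]
    · simp [h3 p, k3 p]
    · have e : ∀ q, lad (u + v).1 q = lad u.1 q + lad v.1 q := by
        intro q
        unfold lad
        split_ifs
        · simp
        · simp; ring
        · simp
      have a := h4 p
      have b := k4 p
      rw [e, e]
      simp only [Prod.snd_add, Pi.add_apply]
      linarith
  zero_mem' := by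
    refine ⟨fun z => by simp, fun z _ => by simp, fun p => by simp, fun p => ?_⟩
    unfold lad
    split_ifs <;> simp
  smul_mem' := by
    rintro c v ⟨k1, k2, k3, k4⟩
    refine ⟨fun z => ?_, fun z hz => ?_, fun p => ?_, fun p => ?_⟩
    · simp [k1 z]
    · simp [k2 z hz]
    · simp [k3 p]
    · have e : ∀ q, lad (c • v).1 q = c * lad v.1 q := by
        intro q
        unfold lad
        split_ifs
        · simp
        · simp; ring
        · simp
      have b := k4 p
      rw [e, e]
      simp only [Prod.smul_snd, Pi.smul_apply, smul_eq_mul]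
      linear_combination c * b

/-- `w` extended to the ends of diagonals -/
noncomputable def wZ (v : P.W) : P.Z → ℝ
  | Sum.inl p => v.2 p
  | Sum.inr p => v.2 p + v.1 (Sum.inr p)

/-- twice the Thurston symplectic form -/
noncomputable def Om (u v : P.W) : ℝ :=
  ∑ z : P.Z, if Pattern.Zh z then
    u.1 (Pattern.ZA z) * wZ v z - v.1 (Pattern.ZA z) * wZ u z else 0

variable (P) in
/-- weights on `β` -/
def Inv : Submodule ℝ (V → ℝ) where
  carrier := {c | (∀ p, c (P.rho p) = c p) ∧ ∀ p, c (P.B p) = c p}
  add_mem' := by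
    rintro u v ⟨h1, h2⟩ ⟨k1, k2⟩
    exact ⟨fun p => by simp [h1, k1], fun p => by simp [h2, k2]⟩
  zero_mem' := ⟨fun p => rfl, fun p => rfl⟩
  smul_mem' := by
    rintro c v ⟨k1, k2⟩
    exact ⟨fun p => by simp [k1], fun p => by simp [k2]⟩

/-- extension by zero to the ends of diagonals -/
def ext0 (f : V → ℝ) : P.Z → ℝ
  | Sum.inl p => f p
  | Sum.inr _ => 0

/-- The first variation under the left twist along `β` with weights `c`. `s` is the partial sum
function and `N` an auxiliary function. -/
structure Twist (m : HypMetric P) (c : V → ℝ) (v : P.W) where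
  s : P.Z → ℝ
  N : P.Z → ℝ
  s_eq : ∀ z, s z = ext0 (fun p => c p / m.DD p) z + s (Pattern.ZA z) / m.muZ z
  l_eq : ∀ z, v.1 z = ext0 (fun p => c p * m.ce p) z + N z + N (Pattern.Zk z)
  w_eq : ∀ p, v.2 p = c p * m.cs p
    - 2 * (s (Pattern.ZA (Sum.inl p)) / m.muZ (Sum.inl p))
    - 2 * (s (Pattern.ZA (Sum.inl (P.rho p))) / m.muZ (Sum.inl (P.rho p)))
    + N (Sum.inl p) + N (Sum.inl (P.rho p))
  step_eq : ∀ z, N (Pattern.ZA z) - 2 * (s (Pattern.ZA (Pattern.ZA z)) / m.muZ (Pattern.ZA z))
    - (N z - 2 * (s (Pattern.ZA z) / m.muZ z)) + ext0 (fun p => c p * m.cs p) (Pattern.ZA z) =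
      if Pattern.Zh z then v.1 (Pattern.ZA z) else 0

end linear

end Run7.h568.MC
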