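import Pool.Agent.Run7.h568.MC.Final2
import Pool.Agent.Run7.h568.MC.FillsDef
set_option linter.unusedSectionVars false

/-!
# Interface of the existence half

Every piece is a `Prop`; prove it as `theorem <piece> ... : S_<PIECE> ...` in your own file
`Pool/Agent/Run7/h568/MC/<Piece>.lean` (or your own folder), importing this file and finished
pieces.
-/

namespace Run7.h568.MC

open Real Matrix Pattern

universe u

variable {V : Type u} [Fintype V] (P : Pattern V)

/-- a common period of `ZA` -/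
noncomputable def per : ℕ := (Fintype.card P.Z).factorial

/-- minus the length of the component of `α` through `z`, times its multiplicity in `per` steps -/
noncomputable def cyc (v : P.W) (z : P.Z) : ℝ :=
  ∑ i ∈ Finset.range (per P), if Zh (ZA^[i] z) then v.1 (ZA^[i + 1] z) else 0

/-- the open set of linear coordinates for which all components of `α` have positive length -/
def Dom : Set P.W := {v | ∀ z, cyc P v z < 0}

/-- piece SURJ: every element of `W0 ∩ Dom` is the linear coordinate of a metric -/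
def S_SURJ : Prop := ∀ v ∈ W0 P, v ∈ Dom P → ∃ m : HypMetric P, m.lin = v

/-- piece DOM (with NE): linear coordinates of metrics are in `Dom`, which meets `W0` -/
def S_DOM : Prop := IsOpen (Dom P) ∧ (∀ m : HypMetric P, m.lin ∈ Dom P) ∧
  (∃ v ∈ W0 P, v ∈ Dom P)

/-- piece REF: metrics for which all `β`-edges are long -/
def S_REF : Prop := ∀ B : ℝ, ∃ m : HypMetric P, ∀ p, B < m.y p

/-- piece LQ: a translation in the direction of `w` is a left earthquake along `α` -/
def S_LQ : Prop := ∀ (m m' : HypMetric P) (a : V → ℝ), (∀ p, a (P.rho p) = a p) →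
  m'.lin = (m.lZ, fun p => m.w p + a p) → LeftQuake P a m m'

/-- piece JS1: lengths and angles are smooth functions of the linear coordinates -/
def S_JS1 : Prop := ∃ X Y Θ : P.W → V → ℝ, (∀ p, ContDiffOn ℝ 2 (fun v => X v p) (Dom P)) ∧
  (∀ p, ContDiffOn ℝ 2 (fun v => Y v p) (Dom P)) ∧
  (∀ p, ContDiffOn ℝ 2 (fun v => Θ v p) (Dom P)) ∧
  ∀ m : HypMetric P, X m.lin = m.x ∧ Y m.lin = m.y ∧ Θ m.lin = m.θ

/-- the set of linear coordinates of metrics -/
def LinSet : Set P.W := {v | ∃ m : HypMetric P, m.lin = v}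

/-- piece JS2: the leaf of a metric depends smoothly on the metric, with uniform bounds -/
def S_JS2 : Prop := ∃ (O : Set (P.W × Inv P)) (F : P.W × Inv P → P.W) (K : P.W → ℝ), IsOpen O ∧
  (∀ (m : HypMetric P) (τ : Inv P), (m.lin, τ) ∈ O) ∧ ContDiffOn ℝ 1 F O ∧
  ContinuousOn K (LinSet P) ∧
  ∀ (m m' : HypMetric P) (τ : Inv P) (a : V → ℝ), LeafRel m τ a m' →
    F (m.lin, τ) = m'.lin ∧ 0 < K m.lin ∧
    ∀ p, Real.exp ((τ : V → ℝ) p) ≤ K m.lin * m'.EE p ∧
      m'.TT p ≤ K m.lin * Real.exp ((τ : V → ℝ) p)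

/-- piece PROP: properness of the length of `Σ a α + Σ b β` -/
def S_PROP : Prop := ∀ (a b : V → ℝ), (∀ p, 0 < a p) → (∀ p, a (P.rho p) = a p) →
  (∀ p, a (P.A p) = a p) → b ∈ Inv P → (∀ p, 0 ≤ b p) → Fills P b → ∀ K : ℝ,
  ∃ C : Set P.W, IsCompact C ∧ C ⊆ Dom P ∧
    ∀ m : HypMetric P, Om (0, a) m.lin + ∑ p, b p * m.y p ≤ K → m.lin ∈ C

/-- piece APR: a solution for the weights `s a`, `s b` has on its leaf a metric for which the
length of `Σ a α + Σ b β` is bounded -/
def S_APR : Prop := ∀ (a b : V → ℝ), (∀ p, 0 < a p) → (∀ p, a (P.rho p) = a p) →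
  (∀ p, a (P.A p) = a p) → b ∈ Inv P → (∀ p, 0 ≤ b p) →
  ∃ K : ℝ, ∀ (l r : HypMetric P) (s : ℝ), 0 < s → s ≤ 1 →
    RightQuake P (fun p => s * b p) r l → l.lin = (r.lZ, fun p => r.w p + s * a p) →
    ∃ (m : HypMetric P) (τ : V → ℝ), RightQuake P τ l m ∧
      Om (0, a) m.lin + ∑ p, b p * m.y p ≤ K

/-- piece IOD: invariance of domain -/
def S_IOD.{v} : Prop := ∀ (E : Type v) [NormedAddCommGroup E] [NormedSpace ℝ E]
  [FiniteDimensional ℝ E] (U : Set E) (f : E → E), IsOpen U → ContinuousOn f U → Set.InjOn f U →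
  ∀ x ∈ U, f '' U ∈ nhds (f x)

end Run7.h568.MC
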