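import Pool.Agent.Run7.h568.MC.LIN1

/-! Piece LIN2: a left earthquake along `α` is a translation in linear coordinates. -/

namespace Run7.h568.MC

open Real Matrix Pattern

section
variable {V : Type*} {P : Pattern V}

/-- `t * SS` -/
noncomputable def hh (m : HypMetric P) (p : V) : ℝ := m.t p * m.SS p

theorem mu_eq_hh (m : HypMetric P) (p : V) :
    m.mu p = Real.exp (m.x p) * hh m p / hh m (P.A p) := rfl

/-- entries of `R (-θ) * T y * R θ'` -/
theorem RTR_g (a b y : ℝ) :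
    R (-a) * T y * R b =
      !![cos (a / 2) * cos (b / 2) * exp (y / 2) + sin (a / 2) * sin (b / 2) * exp (-(y / 2)),
         cos (a / 2) * sin (b / 2) * exp (y / 2) - sin (a / 2) * cos (b / 2) * exp (-(y / 2));
         sin (a / 2) * cos (b / 2) * exp (y / 2) - cos (a / 2) * sin (b / 2) * exp (-(y / 2)),
         sin (a / 2) * sin (b / 2) * exp (y / 2) + cos (a / 2) * cos (b / 2) * exp (-(y / 2))] := by
  have h1 : Real.cos (-a / 2) = Real.cos (a / 2) := by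
    rw [show -a / 2 = -(a / 2) by ring, Real.cos_neg]
  have h2 : Real.sin (-a / 2) = -Real.sin (a / 2) := by
    rw [show -a / 2 = -(a / 2) by ring, Real.sin_neg]
  unfold R T
  rw [h1, h2]
  ext i j
  fin_cases i <;> fin_cases j <;> simp [Matrix.mul_apply, Fin.sum_univ_two] <;> ring

theorem cos_pos' (m : HypMetric P) (p : V) : 0 < Real.cos (m.θ p / 2) := by
  apply Real.cos_pos_of_mem_Ioo
  have h1 := m.θ_pos p
  have h2 := m.θ_lt p
  constructor <;> linarith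

theorem sin_eq (m : HypMetric P) (p : V) :
    Real.sin (m.θ p / 2) = m.t p * Real.cos (m.θ p / 2) := by
  unfold HypMetric.t
  rw [Real.tan_eq_sin_div_cos]
  field_simp [(cos_pos' m p).ne']

end

section
variable {V : Type*} [Fintype V] {P : Pattern V}

theorem hh_pos {m : HypMetric P} (hg : GF m) (p : V) : 0 < hh m p :=
  mul_pos (hg.t_pos p) (SS_pos hg p)

theorem kap_B (p : V) : P.kap (P.B p) = P.rho p := by
  unfold Pattern.kap
  rw [P.B_rho_B]

theorem EE_B {m : HypMetric P} (hg : GF m) (p : V) : m.EE (P.B p) = m.EE (P.rho p) := by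
  have := hg.E_kap (P.B p)
  rw [kap_B] at this
  exact this.symm

theorem Lam_B {m : HypMetric P} (hg : GF m) (p : V) : m.Lam (P.B p) = m.Lam (P.rho p) := by
  have hk : P.kap (P.rho p) = P.B p := P.kap_rho p
  unfold HypMetric.Lam
  rw [kap_B, hk]
  have h1 := hg.E_pos (P.rho p)
  have h2 := hg.E_lt (P.rho p)
  have h3 := hg.E_lt (P.B p)
  have hE := EE_B hg p
  unfold HypMetric.RR HypMetric.SS
  rw [hE] at h3 ⊢
  have h4 : m.TT (P.B p) - m.EE (P.rho p) ≠ 0 := by linarith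
  have h5 : m.TT (P.rho p) - m.EE (P.rho p) ≠ 0 := by linarith
  field_simp
  ring

/-- the matrix `g` -/
theorem g_entries {m : HypMetric P} (hg : GF m) (p : V) : ∃ k : ℝ, 0 < k ∧
    m.g p 0 0 = k ∧ m.g p 0 1 = k / hh m (P.B p) ∧ m.g p 1 0 = k / hh m (P.rho p) ∧
    m.g p 1 1 = k * (1 + m.Lam (P.rho p)) / (hh m (P.rho p) * hh m (P.B p)) := by
  have hE : m.EE (P.B p) = Real.exp (-(m.y p)) * (m.t (P.B p) * m.t p) := by
    unfold HypMetric.EE
    rw [m.y_rho, kap_B, hg.t_rho]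
    ring
  obtain ⟨E, hEd⟩ : ∃ E, E = m.EE (P.B p) := ⟨_, rfl⟩
  have hE2 : m.EE (P.rho p) = E := by rw [hEd, EE_B hg]
  have ht0 := hg.t_pos p
  have ht1 := hg.t_pos (P.B p)
  have hE0 := hg.E_pos (P.B p)
  have hE1 := hg.E_lt (P.B p)
  have hE3 := hg.E_lt (P.rho p)
  rw [hE2] at hE3
  rw [← hEd] at hE hE0 hE1
  have hc0 := cos_pos' m p
  have hc1 := cos_pos' m (P.B p)
  have hs0 := sin_eq m p
  have hs1 := sin_eq m (P.B p)
  obtain ⟨t, htd⟩ : ∃ t, t = m.t p := ⟨_, rfl⟩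
  obtain ⟨t', htd'⟩ : ∃ t', t' = m.t (P.B p) := ⟨_, rfl⟩
  obtain ⟨c, hcd⟩ : ∃ c, c = Real.cos (m.θ p / 2) := ⟨_, rfl⟩
  obtain ⟨c', hcd'⟩ : ∃ c', c' = Real.cos (m.θ (P.B p) / 2) := ⟨_, rfl⟩
  obtain ⟨Y, hYd⟩ : ∃ Y, Y = Real.exp (m.y p / 2) := ⟨_, rfl⟩
  have hY0 : 0 < Y := by rw [hYd]; exact Real.exp_pos _
  have hYi : Real.exp (-(m.y p / 2)) = Y⁻¹ := by rw [Real.exp_neg, hYd]
  have hYY : Real.exp (-(m.y p)) = Y⁻¹ * Y⁻¹ := by
    rw [← hYi, ← Real.exp_add]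
    congr 1
    ring
  have hT : m.TT (P.rho p) = t ^ 2 := by rw [TT_rho hg, htd]; rfl
  have hT' : m.TT (P.B p) = t' ^ 2 := by rw [htd']; rfl
  rw [hT] at hE3
  rw [hT'] at hE1
  rw [hYY, ← htd, ← htd'] at hE
  rw [← htd, ← hcd] at hs0
  rw [← htd', ← hcd'] at hs1
  rw [← htd] at ht0
  rw [← htd'] at ht1
  rw [← hcd] at hc0
  rw [← hcd'] at hc1
  have hd1 : t ^ 2 - E ≠ 0 := by linarith
  have hd2 : t' ^ 2 - E ≠ 0 := by linarith
  have hd3 : 1 + E ≠ 0 := by linarith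
  have hh1 : hh m (P.rho p) = t * (1 + E) / (t ^ 2 - E) := by
    unfold hh HypMetric.SS
    rw [hg.t_rho, hT, hE2, ← htd]
    ring
  have hh2 : hh m (P.B p) = t' * (1 + E) / (t' ^ 2 - E) := by
    unfold hh HypMetric.SS
    rw [hT', ← hEd, ← htd']
    ring
  have hL : 1 + m.Lam (P.rho p) = (1 + E) * (t ^ 2 * t' ^ 2 + E) / ((t ^ 2 - E) * (t' ^ 2 - E)) := by
    unfold HypMetric.Lam HypMetric.RR HypMetric.SS
    rw [P.kap_rho, hT, hT', hE2, ← hEd]
    field_simp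
    ring
  have hEY : E * (Y * Y) = t' * t := by
    rw [hE]
    field_simp
  refine ⟨c * c' * Y * (1 + E), by positivity, ?_⟩
  unfold HypMetric.g
  rw [RTR_g, hs0, hs1, ← hcd, ← hcd', ← hYd, hYi, hh1, hh2, hL]
  refine ⟨?_, ?_, ?_, ?_⟩
  · change c * c' * Y + t * c * (t' * c') * Y⁻¹ = _
    field_simp
    linear_combination (-1) * hEY
  · change c * (t' * c') * Y - t * c * c' * Y⁻¹ = _
    field_simp
    linear_combination hEY
  · change t * c * c' * Y - c * (t' * c') * Y⁻¹ = _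
    field_simp
    linear_combination hEY
  · change t * c * (t' * c') * Y + c * c' * Y⁻¹ = _
    field_simp
    linear_combination (-1) * hEY

theorem T_mul_entries (x : ℝ) (M : Matrix (Fin 2) (Fin 2) ℝ) :
    (T x * M) 0 0 = Real.exp (x / 2) * M 0 0 ∧ (T x * M) 0 1 = Real.exp (x / 2) * M 0 1 ∧
    (T x * M) 1 0 = Real.exp (-(x / 2)) * M 1 0 ∧ (T x * M) 1 1 = Real.exp (-(x / 2)) * M 1 1 := by
  unfold T
  refine ⟨?_, ?_, ?_, ?_⟩ <;> simp [Matrix.mul_apply, Fin.sum_univ_two]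

theorem mul_T_entries (x : ℝ) (M : Matrix (Fin 2) (Fin 2) ℝ) :
    (M * T (-x)) 0 0 = M 0 0 * Real.exp (-(x / 2)) ∧ (M * T (-x)) 0 1 = M 0 1 * Real.exp (x / 2) ∧
    (M * T (-x)) 1 0 = M 1 0 * Real.exp (-(x / 2)) ∧ (M * T (-x)) 1 1 = M 1 1 * Real.exp (x / 2) := by
  have e : -x / 2 = -(x / 2) := by ring
  unfold T
  rw [e, neg_neg]
  refine ⟨?_, ?_, ?_, ?_⟩ <;> simp [Matrix.mul_apply, Fin.sum_univ_two]

/-- the effect of an earthquake on the gauge quantities -/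
theorem quake_step {m m' : HypMetric P} (hg : GF m) (hg' : GF m') {κ : V → ℝ} {p : V}
    (h : T (κ p) * m.g p = m'.g p * T (-κ (P.rho (P.B p)))) :
    hh m' (P.B p) = Real.exp (κ (P.rho (P.B p))) * hh m (P.B p) ∧
      m'.Lam (P.rho p) = m.Lam (P.rho p) := by
  obtain ⟨k, hk, e1, e2, e3, e4⟩ := g_entries hg p
  obtain ⟨k', hk', f1, f2, f3, f4⟩ := g_entries hg' p
  obtain ⟨a1, a2, a3, a4⟩ := T_mul_entries (κ p) (m.g p)
  obtain ⟨b1, b2, b3, b4⟩ := mul_T_entries (κ (P.rho (P.B p))) (m'.g p)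
  rw [h, b1, f1, e1] at a1
  rw [h, b2, f2, e2] at a2
  rw [h, b3, f3, e3] at a3
  rw [h, b4, f4, e4] at a4
  have p1 := hh_pos hg (P.B p)
  have p2 := hh_pos hg (P.rho p)
  have p3 := hh_pos hg' (P.B p)
  have p4 := hh_pos hg' (P.rho p)
  obtain ⟨x, hx⟩ : ∃ x, x = hh m (P.B p) := ⟨_, rfl⟩
  obtain ⟨y, hy⟩ : ∃ y, y = hh m (P.rho p) := ⟨_, rfl⟩
  obtain ⟨x', hx'⟩ : ∃ x', x' = hh m' (P.B p) := ⟨_, rfl⟩
  obtain ⟨y', hy'⟩ : ∃ y', y' = hh m' (P.rho p) := ⟨_, rfl⟩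
  obtain ⟨u, hu⟩ : ∃ u, u = Real.exp (κ p / 2) := ⟨_, rfl⟩
  obtain ⟨v, hv⟩ : ∃ v, v = Real.exp (κ (P.rho (P.B p)) / 2) := ⟨_, rfl⟩
  have hu0 : 0 < u := by rw [hu]; exact Real.exp_pos _
  have hv0 : 0 < v := by rw [hv]; exact Real.exp_pos _
  have hui : Real.exp (-(κ p / 2)) = u⁻¹ := by rw [Real.exp_neg, hu]
  have hvi : Real.exp (-(κ (P.rho (P.B p)) / 2)) = v⁻¹ := by rw [Real.exp_neg, hv]
  have hvv : Real.exp (κ (P.rho (P.B p))) = v * v := by
    rw [hv, ← Real.exp_add]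
    congr 1
    ring
  rw [hvi, ← hu] at a1
  rw [← hv, ← hu, ← hx, ← hx'] at a2
  rw [hvi, hui, ← hy, ← hy'] at a3
  rw [← hv, hui, ← hx, ← hx', ← hy, ← hy'] at a4
  rw [← hx] at p1
  rw [← hy] at p2
  rw [← hx'] at p3
  rw [← hy'] at p4
  rw [hvv, ← hx, ← hx']
  obtain ⟨L, hL⟩ : ∃ L, L = m.Lam (P.rho p) := ⟨_, rfl⟩
  obtain ⟨L', hL'⟩ : ∃ L', L' = m'.Lam (P.rho p) := ⟨_, rfl⟩
  rw [← hL, ← hL'] at a4
  rw [← hL, ← hL']
  have q1 : k' = u * v * k := by
    field_simp at a1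
    linarith
  have q2 : x' = v * v * x := by
    rw [q1] at a2
    field_simp at a2
    have : x' = v ^ 2 * x := by linarith
    rw [this]; ring
  have q3 : y' = u * u * y := by
    rw [q1] at a3
    field_simp at a3
    have : y' = u ^ 2 * y := by linarith
    rw [this]; ring
  refine ⟨q2, ?_⟩
  rw [q1, q2, q3] at a4
  field_simp at a4
  linarith

theorem LIN2 : S_LIN2 P := by
  intro m m' a hg hg' hq
  obtain ⟨κ, h1, h2, h3⟩ := hq
  have hh_eq : ∀ q, hh m' q = Real.exp (κ (P.rho q)) * hh m q := by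
    intro q
    obtain ⟨p, rfl⟩ := P.B_bij.2 q
    exact (quake_step hg hg' (h1 p)).1
  have hLam : ∀ q, m'.Lam q = m.Lam q := by
    intro q
    have := (quake_step hg hg' (h1 (P.rho q))).2
    rwa [P.rho_rho] at this
  have hmu : ∀ q, m'.mu q = m.mu q := by
    intro q
    rw [mu_eq_hh, mu_eq_hh, hh_eq, hh_eq, P.rho_A]
    have h4 := h2 q
    have h5 : m'.x q = m.x q + (κ (P.iota q) - κ (P.rho q)) := by linarith
    rw [h5, Real.exp_add, Real.exp_sub]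
    have p1 := hh_pos hg (P.A q)
    field_simp
  have hmuV : ∀ q, m'.muV q = m.muV q := by
    intro q
    unfold HypMetric.muV
    rw [hmu, hLam]
  have hmuZ : ∀ z, m'.muZ z = m.muZ z := by
    rintro (q | q)
    · change (if P.Diag q then m'.mu q / m'.muV q else m'.mu q) =
        (if P.Diag q then m.mu q / m.muV q else m.mu q)
      rw [hmu, hmuV]
    · exact hmuV q
  have hLamZ : ∀ z, m'.LamZ z = m.LamZ z := by
    rintro (q | q)
    · exact hLam q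
    · change (1 - 1 / m'.muZ (Sum.inl (q : V))) * (m'.muZ (Pattern.Zk (Sum.inr q)) - 1) =
        (1 - 1 / m.muZ (Sum.inl (q : V))) * (m.muZ (Pattern.Zk (Sum.inr q)) - 1)
      rw [hmuZ, hmuZ]
  have hU : ∀ z, m'.U z = m.U z := by
    rintro (q | q)
    · change -Real.log (m'.muZ (Sum.inl (P.top q)) - 1) = -Real.log (m.muZ (Sum.inl (P.top q)) - 1)
      rw [hmuZ]
    · change -Real.log (m'.muZ (Sum.inr q) - 1) = -Real.log (m.muZ (Sum.inr q) - 1)
      rw [hmuZ]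
  have hlZ : m'.lZ = m.lZ := by
    funext z
    unfold HypMetric.lZ
    rw [hLamZ, hU, hU]
  have hThe : ∀ q, m'.The q = Real.exp (a q) * m.The q := by
    intro q
    have e : ∀ (m : HypMetric P) (hg : GF m), m.The q = hh m q * hh m (P.rho q) := by
      intro m hg
      unfold HypMetric.The hh
      rw [RR_eq, hg.t_rho]
      unfold HypMetric.TT
      ring
    rw [e m hg, e m' hg', hh_eq, hh_eq, P.rho_rho, ← h3 q, Real.exp_add]
    ring
  have hw : m'.w = fun p => m.w p + a p := by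
    funext q
    unfold HypMetric.w
    rw [hThe, hU, hU, Real.log_mul (Real.exp_pos _).ne' (The_pos hg q).ne', Real.log_exp]
    ring
  unfold HypMetric.lin
  rw [hlZ, hw]

end

end Run7.h568.MC
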