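import Pool.Agent.Run7.h568.MC.Final3
import Pool.Agent.Run7.h568.MC.Iface2
import Pool.Agent.Run7.h713.MC.CAL
set_option linter.unusedSectionVars false

/-! Existence, main argument, first part: facts about the leaf map and nondegeneracy. -/

namespace Run7.h568.MC.Ex

open Real Matrix Pattern Run7.h568.MC.Asm Topology

universe u

variable {V : Type u} [Fintype V] {P : Pattern V}

/-- composition of right earthquakes -/
theorem rq_trans {b c : V → ℝ} {m0 m1 m2 : HypMetric P} (h : RightQuake P b m1 m0)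
    (h' : RightQuake P c m2 m1) : RightQuake P (fun p => b p + c p) m2 m0 := by
  obtain ⟨μ, h1, h2, h3⟩ := h
  obtain ⟨μ', h1', h2', h3'⟩ := h'
  refine ⟨fun p => μ p + μ' p, fun p => ?_, fun p => ?_, fun p => ?_⟩
  · have e1 : T (μ p + μ' p) = T (μ p) * T (μ' p) := (T_mul _ _).symm
    have e2 : T (μ (P.iota p) + μ' (P.iota p)) = T (μ (P.iota p)) * T (μ' (P.iota p)) :=
      (T_mul _ _).symm
    rw [e1, e2, mul_assoc, h1' p, ← mul_assoc, h1 p, mul_assoc]
  · have := h2 p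
    have := h2' p
    simp only
    linarith
  · have := h3 p
    have := h3' p
    simp only
    linarith

/-- inverse of a right earthquake -/
theorem rq_symm {b : V → ℝ} {m m' : HypMetric P} (h : RightQuake P b m m') :
    RightQuake P (fun p => -b p) m' m := by
  obtain ⟨μ, h1, h2, h3⟩ := h
  refine ⟨fun p => -μ p, fun p => ?_, fun p => ?_, fun p => ?_⟩
  · have e := h1 p
    have e2 : T (-μ p) * (T (μ p) * m.G p) * T (-μ (P.iota p)) =
        T (-μ p) * (m'.G p * T (μ (P.iota p))) * T (-μ (P.iota p)) := by rw [e]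
    have e3 : T (-μ p) * T (μ p) = 1 := by rw [T_mul]; simp [T_zero]
    have e4 : T (μ (P.iota p)) * T (-μ (P.iota p)) = 1 := by
      rw [T_mul]; simp [T_zero]
    rw [← mul_assoc, e3, one_mul, mul_assoc, mul_assoc, e4, mul_one] at e2
    exact e2.symm
  · have := h2 p
    simp only
    linarith
  · have := h3 p
    simp only
    linarith

theorem rq_refl (m : HypMetric P) : RightQuake P (fun _ => 0) m m :=
  ⟨fun _ => 0, fun p => by simp [T_zero], fun p => by simp, fun p => by simp⟩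

/-- the data of `S_JS2` -/
structure JS (P : Pattern V) where
  O : Set (P.W × Inv P)
  F : P.W × Inv P → P.W
  K : P.W → ℝ
  open_O : IsOpen O
  mem : ∀ (m : HypMetric P) (τ : Inv P), (m.lin, τ) ∈ O
  smooth : ContDiffOn ℝ 1 F O
  contK : ContinuousOn K (LinSet P)
  leaf : ∀ (m m' : HypMetric P) (τ : Inv P) (a : V → ℝ), LeafRel m τ a m' →
    F (m.lin, τ) = m'.lin ∧ 0 < K m.lin ∧
    ∀ p, Real.exp ((τ : V → ℝ) p) ≤ K m.lin * m'.EE p ∧
      m'.TT p ≤ K m.lin * Real.exp ((τ : V → ℝ) p)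

theorem exists_JS (h : S_JS2 P) : Nonempty (JS P) := by
  obtain ⟨O, F, K, h1, h2, h3, h4, h5⟩ := h
  exact ⟨⟨O, F, K, h1, h2, h3, h4, h5⟩⟩

section

variable (hA : All P) (J : JS P)

include hA

theorem leaf_of_rq {m m' : HypMetric P} {τ : Inv P} (h : RightQuake P τ m' m) :
    ∃ a, LeafRel m τ a m' := (hA.leafu.1 _ _ _ h).2

theorem F_of_rq {m m' : HypMetric P} {τ : Inv P} (h : RightQuake P τ m' m) :
    J.F (m.lin, τ) = m'.lin := by
  obtain ⟨a, ha⟩ := leaf_of_rq hA h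
  exact (J.leaf m m' τ a ha).1

theorem z_eq_F {m : HypMetric P} (L : LeafData m) (τ : Inv P) : L.z τ = J.F (m.lin, τ) :=
  ((J.leaf m _ τ _ (L.rel τ)).1).symm

theorem exists_rq (m : HypMetric P) (τ : Inv P) : ∃ m' : HypMetric P, RightQuake P τ m' m := by
  have hm : ∃ a, IsLeafA m τ a := by
    obtain ⟨L⟩ := exists_leafData hA m
    exact ⟨L.a τ, (L.rel τ).isA⟩
  obtain ⟨a, ha⟩ := hm
  obtain ⟨m', -, h⟩ := hA.leaf m τ a τ.2 ha
  exact ⟨m', h⟩

theorem rq_unique {m m' m'' : HypMetric P} {τ : Inv P} (h : RightQuake P τ m' m)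
    (h' : RightQuake P τ m'' m) : m' = m'' := by
  obtain ⟨L⟩ := exists_leafData hA m
  rw [L.quake m' τ h, L.quake m'' τ h']

theorem F_zero (m : HypMetric P) : J.F (m.lin, 0) = m.lin :=
  F_of_rq hA J (τ := 0) (rq_refl m)

omit hA in
theorem F_diff {x : P.W × Inv P} (hx : x ∈ J.O) : HasFDerivAt J.F (fderiv ℝ J.F x) x :=
  ((J.smooth.differentiableOn (by norm_num)).differentiableAt (J.open_O.mem_nhds hx)).hasFDerivAt

omit hA in
theorem DF_cont : ContinuousOn (fderiv ℝ J.F) J.O :=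
  J.smooth.continuousOn_fderiv_of_isOpen J.open_O (by norm_num)

/-- the derivative of the leaf -/
theorem fderiv_z {m : HypMetric P} (L : LeafData m) (τ c : Inv P) :
    fderiv ℝ L.z τ c = fderiv ℝ J.F (m.lin, τ) (0, c) := by
  have h1 : L.z = fun τ => J.F (m.lin, τ) := funext fun τ => z_eq_F hA J L τ
  have h2 : HasFDerivAt (fun τ : Inv P => (m.lin, τ))
      (ContinuousLinearMap.inr ℝ P.W (Inv P)) τ := hasFDerivAt_prodMk_right _ _
  have h3 : HasFDerivAt (fun τ : Inv P => J.F (m.lin, τ))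
      ((fderiv ℝ J.F (m.lin, τ)).comp (ContinuousLinearMap.inr ℝ P.W (Inv P))) τ :=
    (F_diff J (J.mem m τ)).comp τ h2
  rw [h1, h3.fderiv]
  simp

/-- derivatives along a leaf are in `W0` -/
theorem X_mem (m : HypMetric P) (c : Inv P) : fderiv ℝ J.F (m.lin, 0) (0, c) ∈ W0 P := by
  obtain ⟨L⟩ := exists_leafData hA m
  rw [← fderiv_z hA J L]
  have h1 : HasDerivAt (fun t : ℝ => L.z (t • c)) (fderiv ℝ L.z 0 c) 0 := by
    have a1 : HasDerivAt (fun t : ℝ => t • c) c 0 := by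
      simpa using (hasDerivAt_id (0 : ℝ)).smul_const c
    have a2 := (z_diff hA L ((0 : ℝ) • c)).hasFDerivAt.comp_hasDerivAt (0 : ℝ) a1
    rw [zero_smul] at a2
    exact a2
  exact Run7.h713.MC.CAL.deriv_mem (W0 P) h1 fun s => z_W0 hA L _

/-- the convexity inequality -/
theorem conv (c : Inv P) (hc : ∀ p, 0 ≤ (c : V → ℝ) p) (m m' : HypMetric P) :
    Om (fderiv ℝ J.F (m.lin, 0) (0, c)) (m'.lin - m.lin) ≤
      ∑ p, (c : V → ℝ) p * m'.y p - ∑ p, (c : V → ℝ) p * m.y p := by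
  obtain ⟨L⟩ := exists_leafData hA m
  have h := om_le hA L c hc 0 m'
  rw [fderiv_z hA J L] at h
  have e : L.z 0 = m.lin := by
    unfold LeafData.z
    rw [L.zero]
  rw [e] at h
  exact h

theorem conv_eq (c : Inv P) (hc : ∀ p, 0 ≤ (c : V → ℝ) p)
    (hfill : ∀ p, ∃ n : ℕ, (c : V → ℝ) (P.A^[n] p) ≠ 0) (m m' : HypMetric P)
    (h : Om (fderiv ℝ J.F (m.lin, 0) (0, c)) (m'.lin - m.lin) =
      ∑ p, (c : V → ℝ) p * m'.y p - ∑ p, (c : V → ℝ) p * m.y p) : m' = m := by
  obtain ⟨L⟩ := exists_leafData hA m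
  have e : L.z 0 = m.lin := by
    unfold LeafData.z
    rw [L.zero]
  have h2 := om_eq hA L c hc hfill 0 m' (by rw [fderiv_z hA J L, e]; exact h)
  rw [h2, L.zero]

/-- uniqueness of the vanishing gradient -/
theorem X_inj (c : Inv P) (hc : ∀ p, 0 ≤ (c : V → ℝ) p)
    (hfill : ∀ p, ∃ n : ℕ, (c : V → ℝ) (P.A^[n] p) ≠ 0) (m m' : HypMetric P)
    (h : fderiv ℝ J.F (m.lin, 0) (0, c) = fderiv ℝ J.F (m'.lin, 0) (0, c)) : m' = m := by
  have h1 := conv hA J c hc m m'
  have h2 := conv hA J c hc m' m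
  rw [← h] at h2
  have h3 : Om (fderiv ℝ J.F (m.lin, 0) (0, c)) (m.lin - m'.lin) =
      -Om (fderiv ℝ J.F (m.lin, 0) (0, c)) (m'.lin - m.lin) := by
    rw [← OmC_apply, ← OmC_apply, ← map_neg, neg_sub]
  apply conv_eq hA J c hc hfill m m'
  linarith

end

theorem Om_anti (u v : P.W) : Om u v = -Om v u := by
  have h1 := Om_self (u + v)
  rw [← OmC_apply] at h1
  simp only [map_add, _root_.add_apply, OmC_apply, Om_self] at h1
  linarith

/-- the constant weight -/
def one : Inv P := ⟨fun _ => 1, fun _ => rfl, fun _ => rfl⟩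

/-- points of `W0` near a metric are metrics -/
theorem near (hsurj : S_SURJ P) (hdom : S_DOM P) (m : HypMetric P) (hm : m.lin ∈ W0 P)
    (u : P.W) (hu : u ∈ W0 P) : ∀ᶠ t in 𝓝 (0 : ℝ), ∃ m' : HypMetric P, m'.lin = m.lin + t • u := by
  have h1 : Filter.Tendsto (fun t : ℝ => m.lin + t • u) (𝓝 0) (𝓝 (m.lin + (0 : ℝ) • u)) :=
    (continuous_const.add (continuous_id.smul continuous_const)).tendsto _
  rw [zero_smul, add_zero] at h1
  have h2 := h1.eventually (hdom.1.mem_nhds (hdom.2.1 m))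
  filter_upwards [h2] with t ht
  exact hsurj _ ((W0 P).add_mem hm ((W0 P).smul_mem _ hu)) ht

/-- `Om` is nondegenerate on `W0` -/
theorem nondeg (hA : All P) (J : JS P) (hsurj : S_SURJ P) (hdom : S_DOM P) (m : HypMetric P)
    (u : P.W) (hu : u ∈ W0 P) (h : ∀ v ∈ W0 P, Om u v = 0) : u = 0 := by
  have hm : m.lin ∈ W0 P := (hA.lin1 _ (hA.ga _) (hA.gb _ (hA.ga _))).1
  have h1 := near hsurj hdom m hm u hu
  rw [Metric.eventually_nhds_iff] at h1
  obtain ⟨ε, hε, h2⟩ := h1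
  obtain ⟨m', hm'⟩ := h2 (y := ε / 2) (by
    rw [Real.dist_eq, sub_zero, abs_of_pos (by linarith)]; linarith)
  have hone : ∀ p, 0 ≤ ((one : Inv P) : V → ℝ) p := fun p => zero_le_one
  have e1 : m'.lin - m.lin = (ε / 2) • u := by rw [hm', add_sub_cancel_left]
  have e2 : m.lin - m'.lin = (-(ε / 2)) • u := by rw [hm', neg_smul]; abel
  have z : ∀ n : HypMetric P, ∀ t : ℝ, Om (fderiv ℝ J.F (n.lin, 0) (0, one)) (t • u) = 0 := by
    intro n t
    rw [← OmC_apply, map_smul, OmC_apply, Om_anti, h _ (X_mem hA J n one)]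
    simp
  have c1 := conv hA J one hone m m'
  have c2 := conv hA J one hone m' m
  rw [e1, z] at c1
  rw [e2, z] at c2
  have hmm : m' = m := by
    apply conv_eq hA J one hone (fun p => ⟨0, one_ne_zero⟩) m m'
    rw [e1, z]
    linarith
  rw [hmm, sub_self] at e1
  exact ((smul_eq_zero.1 e1.symm).resolve_left (by linarith))

end Run7.h568.MC.Ex
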