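import Pool.Agent.Run7.h568.MC.Main2a
set_option linter.unusedSectionVars false

/-! Existence, main argument, second part: the base point and the continuation map. -/

namespace Run7.h568.MC.Ex

open Real Matrix Pattern Run7.h568.MC.Asm Topology

universe u

variable {V : Type u} [Fintype V] {P : Pattern V}

/-- the hypotheses on the weights -/
structure Wt (P : Pattern V) where
  a : V → ℝ
  b : Inv P
  a_pos : ∀ p, 0 < a p
  a_rho : ∀ p, a (P.rho p) = a p
  a_A : ∀ p, a (P.A p) = a p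
  b_nonneg : ∀ p, 0 ≤ (b : V → ℝ) p
  fills : Fills P b

/-- in a filling pair every component of `α` crosses the support of `b` -/
theorem fills_alpha {b : V → ℝ} (hb : b ∈ Inv P) (h : Fills P b) (p : V) :
    ∃ n : ℕ, b (P.A^[n] p) ≠ 0 := by
  by_contra hne
  push Not at hne
  let s : Set V := {q | (∃ n : ℕ, q = P.A^[n] p) ∨ ∃ n : ℕ, q = P.kap (P.A^[n] p)}
  have hbk : ∀ q, b (P.kap q) = b q := fun q => by
    unfold Pattern.kap
    rw [hb.2, hb.1]
  obtain ⟨q, hq, hq2⟩ := h s ⟨p, Or.inl ⟨0, rfl⟩⟩ (by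
    rintro q (⟨n, rfl⟩ | ⟨n, rfl⟩)
    · exact ⟨hne n, Or.inr ⟨n, rfl⟩⟩
    · exact ⟨by rw [hbk]; exact hne n, Or.inl ⟨n, P.kap_kap _⟩⟩)
  rcases hq with ⟨n, rfl⟩ | ⟨n, rfl⟩
  · have h1 := hq2 1 (Or.inr ⟨n + 1, by
      rw [Function.iterate_one, Function.iterate_succ_apply', P.kap_A]⟩)
    exact P.tau_ne _ h1
  · obtain ⟨N, hN, hp⟩ := P.A_bij.1.mem_periodicPts p
    have e1 : P.A^[n] p = P.A (P.A^[n + (N - 1)] p) := by
      rw [← Function.iterate_succ_apply' P.A, Nat.succ_eq_add_one, add_assoc,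
        Nat.sub_add_cancel hN, Function.iterate_add_apply, hp]
    have e2 : P.kap (P.A^[n] p) = P.tau (P.A^[n + (N - 1)] p) := by rw [e1, P.kap_A]
    obtain ⟨M, hM, hr⟩ := P.tau_bij.1.mem_periodicPts (P.A^[n + (N - 1)] p)
    have e3 : P.tau^[M - 1] (P.kap (P.A^[n] p)) = P.A^[n + (N - 1)] p := by
      rw [e2, ← Function.iterate_succ_apply P.tau, Nat.succ_eq_add_one, Nat.sub_add_cancel hM]
      exact hr
    have h1 := hq2 (M - 1) (Or.inl ⟨n + (N - 1), e3⟩)
    rw [e3, e2] at h1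
    exact P.tau_ne _ h1.symm

theorem a_mem (a : V → ℝ) (h1 : ∀ p, a (P.rho p) = a p) (h2 : ∀ p, a (P.A p) = a p) :
    ((0, a) : P.W) ∈ W0 P := by
  have e : ∀ q, lad (0 : P.Z → ℝ) q = 0 := by
    intro q
    unfold lad
    split_ifs <;> simp
  refine ⟨fun z => rfl, fun z _ => rfl, h1, fun p => ?_⟩
  change a (P.A p) - a p = lad (0 : P.Z → ℝ) p - lad (0 : P.Z → ℝ) (P.iota p)
  rw [e, e, h2]
  ring

theorem exists_metric (hsurj : S_SURJ P) (hdom : S_DOM P) : Nonempty (HypMetric P) := by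
  obtain ⟨v, h1, h2⟩ := hdom.2.2
  obtain ⟨m, -⟩ := hsurj v h1 h2
  exact ⟨m⟩

/-- the base point of the continuation: the minimum of the length of `Σ a α + Σ b β` -/
theorem exists_base (hA : All P) (J : JS P) (hsurj : S_SURJ P) (hdom : S_DOM P)
    (hjs : S_JS1 P) (hprop : S_PROP P) (W : Wt P) :
    ∃ m0 : HypMetric P, fderiv ℝ J.F (m0.lin, 0) (0, W.b) = -((0, W.a) : P.W) := by
  obtain ⟨X, Y, Θ, -, hY, -, hXY⟩ := hjs
  obtain ⟨m1⟩ := exists_metric hsurj hdom
  have hlinW : ∀ m : HypMetric P, m.lin ∈ W0 P := fun m =>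
    (hA.lin1 _ (hA.ga _) (hA.gb _ (hA.ga _))).1
  let Jf : P.W → ℝ := fun v => OmC (0, W.a) v + ∑ p, (W.b : V → ℝ) p * Y v p
  have hJc : ContinuousOn Jf (Dom P) := by
    refine ContinuousOn.add (OmC (0, W.a)).continuous.continuousOn ?_
    exact continuousOn_finsetSum _ fun p _ => continuousOn_const.mul (hY p).continuousOn
  have hJm : ∀ m : HypMetric P, Jf m.lin = Om (0, W.a) m.lin + ∑ p, (W.b : V → ℝ) p * m.y p := by
    intro m
    change OmC (0, W.a) m.lin + ∑ p, (W.b : V → ℝ) p * Y m.lin p = _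
    rw [(hXY m).2.1, OmC_apply]
  obtain ⟨C, hC, hCD, hCm⟩ := hprop W.a W.b W.a_pos W.a_rho W.a_A W.b.2 W.b_nonneg W.fills
    (Jf m1.lin)
  have hcl : IsClosed ((W0 P : Submodule ℝ P.W) : Set P.W) :=
    (W0 P).closed_of_finiteDimensional
  have hS : IsCompact (C ∩ (W0 P : Set P.W)) := hC.inter_right hcl
  have hm1 : m1.lin ∈ C ∩ (W0 P : Set P.W) := ⟨hCm m1 (by rw [← hJm]), hlinW m1⟩
  obtain ⟨v0, hv0, hmin⟩ := hS.exists_isMinOn ⟨_, hm1⟩ (hJc.mono fun v hv => hCD hv.1)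
  obtain ⟨m0, rfl⟩ := hsurj v0 hv0.2 (hCD hv0.1)
  have hmin' : ∀ m : HypMetric P, Jf m0.lin ≤ Jf m.lin := by
    intro m
    by_cases h : Jf m.lin ≤ Jf m1.lin
    · exact hmin ⟨hCm m (by rw [← hJm]; exact h), hlinW m⟩
    · exact (hmin hm1).trans (not_le.1 h).le
  refine ⟨m0, ?_⟩
  set X0 := fderiv ℝ J.F (m0.lin, 0) (0, W.b) with hX0
  have haW : ((0, W.a) : P.W) ∈ W0 P := a_mem W.a W.a_rho W.a_A
  have key : ∀ u ∈ W0 P, 0 ≤ OmC (0, W.a) u + OmC X0 u := by
    intro u hu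
    have h1 := near hsurj hdom m0 (hlinW m0) u hu
    have h2 : Filter.Tendsto (fun t : ℝ => OmC (0, W.a) u +
        OmC (fderiv ℝ J.F (m0.lin + t • u, 0) (0, W.b)) u) (𝓝[>] 0)
        (𝓝 (OmC (0, W.a) u + OmC X0 u)) := by
      have h3 : ContinuousAt (fderiv ℝ J.F) (m0.lin + (0 : ℝ) • u, 0) := by
        rw [zero_smul, add_zero]
        exact (DF_cont J).continuousAt (J.open_O.mem_nhds (J.mem m0 0))
      have h4 : ContinuousAt (fun t : ℝ => ((m0.lin + t • u, 0) : P.W × Inv P)) 0 := by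
        fun_prop
      have h5 : ContinuousAt (fun t : ℝ => fderiv ℝ J.F (m0.lin + t • u, 0)) 0 :=
        ContinuousAt.comp (g := fderiv ℝ J.F) h3 h4
      have h6 : ContinuousAt (fun t : ℝ => OmC (0, W.a) u +
          OmC (fderiv ℝ J.F (m0.lin + t • u, 0) (0, W.b)) u) 0 := by
        have h7 : ContinuousAt (fun t : ℝ => fderiv ℝ J.F (m0.lin + t • u, 0) (0, W.b)) 0 :=
          h5.clm_apply continuousAt_const
        have h8 : ContinuousAt (fun t : ℝ => OmC (fderiv ℝ J.F (m0.lin + t • u, 0) (0, W.b))) 0 :=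
          ContinuousAt.comp (g := OmC) (OmC (P := P)).continuous.continuousAt h7
        exact continuousAt_const.add (h8.clm_apply continuousAt_const)
      have h9 := h6.tendsto
      rw [zero_smul, add_zero] at h9
      exact h9.mono_left nhdsWithin_le_nhds
    refine ge_of_tendsto h2 ?_
    have h3 : ∀ᶠ t in 𝓝[>] (0 : ℝ), ∃ m' : HypMetric P, m'.lin = m0.lin + t • u :=
      h1.filter_mono nhdsWithin_le_nhds
    filter_upwards [h3, self_mem_nhdsWithin] with t ht htpos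
    obtain ⟨m', hm'⟩ := ht
    have htp : 0 < t := htpos
    rw [← hm']
    have c1 := conv hA J W.b W.b_nonneg m' m0
    have c2 := hmin' m'
    rw [hJm, hJm, hm'] at c2
    have e1 : m0.lin - m'.lin = (-t) • u := by rw [hm', neg_smul]; abel
    rw [e1, ← OmC_apply, map_smul, smul_eq_mul] at c1
    rw [← OmC_apply, ← OmC_apply, map_add, map_smul, smul_eq_mul] at c2
    have c3 : 0 ≤ t * (OmC (0, W.a) u + OmC (fderiv ℝ J.F (m'.lin, 0) (0, W.b)) u) := by
      linarith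
    exact nonneg_of_mul_nonneg_right c3 htp
  have hz : ∀ u ∈ W0 P, Om (X0 + (0, W.a)) u = 0 := by
    intro u hu
    have k1 := key u hu
    have k2 := key (-u) ((W0 P).neg_mem hu)
    rw [map_neg, map_neg] at k2
    rw [← OmC_apply, map_add, _root_.add_apply]
    linarith
  have := nondeg hA J hsurj hdom m0 (X0 + (0, W.a))
    ((W0 P).add_mem (X_mem hA J m0 W.b) haW) hz
  exact eq_neg_of_add_eq_zero_left this

/-- continuity of difference quotients -/
theorem dq_cont {W E : Type*} [NormedAddCommGroup W] [NormedSpace ℝ W] [NormedAddCommGroup E]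
    [NormedSpace ℝ E] (F : W × E → W) (O : Set (W × E)) (hO : IsOpen O) (hF : ContDiffOn ℝ 1 F O)
    (b : E) (v0 : W) (hx0 : (v0, (0 : E)) ∈ O) (ε : ℝ) (hε : 0 < ε) :
    ∃ ρ : ℝ, 0 < ρ ∧ ∀ (v : W) (s : ℝ), dist v v0 < ρ → |s| < ρ → F (v, 0) = v →
      ‖(if |s| = 0 then -(fderiv ℝ F (v, 0) (0, b)) else |s|⁻¹ • (v - F (v, |s| • b))) -
        -(fderiv ℝ F (v0, 0) (0, b))‖ < ε := by
  have hDc : ContinuousOn (fderiv ℝ F) O := hF.continuousOn_fderiv_of_isOpen hO (by norm_num)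
  have hFd : ∀ x ∈ O, HasFDerivAt F (fderiv ℝ F x) x := fun x hx =>
    ((hF.differentiableOn (by norm_num)).differentiableAt (hO.mem_nhds hx)).hasFDerivAt
  set D0 := fderiv ℝ F (v0, 0) with hD0
  have h1 := hDc.continuousAt (hO.mem_nhds hx0)
  set η := ε / (2 * (‖b‖ + 1)) with hη
  have hηpos : 0 < η := by positivity
  have h2 : ∀ᶠ x in 𝓝 ((v0, (0 : E)) : W × E), ‖fderiv ℝ F x - D0‖ < η := by
    have h3 : ContinuousAt (fun x => ‖fderiv ℝ F x - D0‖) (v0, (0 : E)) :=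
      (h1.sub continuousAt_const).norm
    have h4 := h3.tendsto
    rw [← hD0, sub_self, norm_zero] at h4
    exact h4.eventually_lt_const hηpos
  have h3 := h2.and (hO.mem_nhds hx0)
  rw [Metric.eventually_nhds_iff_ball] at h3
  obtain ⟨ρ, hρ, hball⟩ := h3
  refine ⟨ρ / (‖b‖ + 1), by positivity, ?_⟩
  intro v s hd1 hd2 hF0
  have hbn : 0 ≤ ‖b‖ := norm_nonneg b
  have hρ1 : ρ / (‖b‖ + 1) ≤ ρ := div_le_self hρ.le (by linarith)
  have hd2' : |s| * ‖b‖ < ρ := by
    calc |s| * ‖b‖ ≤ |s| * (‖b‖ + 1) := by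
          apply mul_le_mul_of_nonneg_left (by linarith) (abs_nonneg s)
      _ < ρ / (‖b‖ + 1) * (‖b‖ + 1) := by
          apply mul_lt_mul_of_pos_right hd2 (by linarith)
      _ = ρ := by field_simp
  have hin : ∀ t : ℝ, |t| ≤ |s| → ((v, t • b) : W × E) ∈
      Metric.ball ((v0, (0 : E)) : W × E) ρ := by
    intro t ht
    rw [Metric.mem_ball, Prod.dist_eq, max_lt_iff]
    refine ⟨lt_of_lt_of_le hd1 hρ1, ?_⟩
    simp only
    rw [dist_zero_right, norm_smul, Real.norm_eq_abs]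
    exact lt_of_le_of_lt (mul_le_mul_of_nonneg_right ht hbn) hd2'
  have hb2 : η * ‖b‖ < ε := by
    rw [hη, div_mul_eq_mul_div, div_lt_iff₀ (by positivity)]
    nlinarith
  have hin0 : ((v, (0 : E)) : W × E) ∈ Metric.ball ((v0, (0 : E)) : W × E) ρ := by
    have := hin 0 (by rw [abs_zero]; exact abs_nonneg s)
    rwa [zero_smul] at this
  have h9 : ‖((0, b) : W × E)‖ = ‖b‖ := by
    rw [Prod.norm_def]; simp
  split_ifs with hs
  · have h4 : -(fderiv ℝ F (v, 0) (0, b)) - -(D0 (0, b)) =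
        -((fderiv ℝ F (v, 0) - D0) (0, b)) := by
      rw [_root_.sub_apply]; abel
    rw [h4, norm_neg]
    have h5 := (hball _ hin0).1
    calc ‖(fderiv ℝ F (v, 0) - D0) (0, b)‖
        ≤ ‖fderiv ℝ F (v, 0) - D0‖ * ‖((0, b) : W × E)‖ :=
          ContinuousLinearMap.le_opNorm _ _
      _ ≤ η * ‖b‖ := by
          rw [h9]
          exact mul_le_mul_of_nonneg_right h5.le hbn
      _ < ε := hb2
  · have hconv : Convex ℝ (Metric.ball ((v0, (0 : E)) : W × E) ρ) := convex_ball _ _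
    have h6 := hconv.norm_image_sub_le_of_norm_hasFDerivWithin_le' (f := F)
      (f' := fderiv ℝ F) (φ := D0) (C := η) (x := (v, 0)) (y := (v, |s| • b))
      (fun x hx => (hFd x (hball x hx).2).hasFDerivWithinAt)
      (fun x hx => (hball x hx).1.le) hin0 (hin |s| (by rw [abs_abs]))
    rw [hF0] at h6
    have h7 : ((v, |s| • b) : W × E) - (v, 0) = |s| • ((0, b) : W × E) := by
      ext <;> simp
    rw [h7, map_smul, norm_smul, Real.norm_eq_abs, abs_abs, h9] at h6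
    have hsp : 0 < |s| := lt_of_le_of_ne (abs_nonneg s) (Ne.symm hs)
    have h8 : |s|⁻¹ • (v - F (v, |s| • b)) - -(D0 (0, b)) =
        -(|s|⁻¹ • (F (v, |s| • b) - v - |s| • D0 (0, b))) := by
      rw [smul_sub |s|⁻¹ (F (v, |s| • b) - v) (|s| • D0 (0, b)),
        smul_smul, inv_mul_cancel₀ hs, one_smul, ← neg_sub (F (v, |s| • b)) v,
        smul_neg]
      abel
    rw [h8, norm_neg, norm_smul, norm_inv, Real.norm_eq_abs, abs_abs]
    calc |s|⁻¹ * ‖F (v, |s| • b) - v - |s| • D0 (0, b)‖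
        ≤ |s|⁻¹ * (η * (|s| * ‖b‖)) :=
          mul_le_mul_of_nonneg_left h6 (inv_nonneg.2 (abs_nonneg s))
      _ = η * ‖b‖ := by field_simp
      _ < ε := hb2

/-! ### the continuation map -/

/-- difference quotient of the leaf map -/
noncomputable def Th (J : JS P) (b : Inv P) (v : P.W) (s : ℝ) : P.W :=
  if s = 0 then -(fderiv ℝ J.F (v, 0) (0, b)) else s⁻¹ • (v - J.F (v, s • b))

theorem Th_mem (hA : All P) (J : JS P) (b : Inv P) (m : HypMetric P) (s : ℝ) :
    Th J b m.lin s ∈ W0 P := by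
  have hlinW : ∀ m : HypMetric P, m.lin ∈ W0 P := fun m =>
    (hA.lin1 _ (hA.ga _) (hA.gb _ (hA.ga _))).1
  unfold Th
  split_ifs with h
  · exact (W0 P).neg_mem (X_mem hA J m b)
  · obtain ⟨m', hm'⟩ := exists_rq hA m (s • b)
    rw [F_of_rq hA J hm']
    exact (W0 P).smul_mem _ ((W0 P).sub_mem (hlinW m) (hlinW m'))

theorem Th_inj (hA : All P) (J : JS P) (b : Inv P) (hb : ∀ p, 0 ≤ (b : V → ℝ) p)
    (hfill : ∀ p, ∃ n : ℕ, (b : V → ℝ) (P.A^[n] p) ≠ 0) (m m' : HypMetric P) (s : ℝ)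
    (hs : 0 ≤ s) (h : Th J b m.lin s = Th J b m'.lin s) : m = m' := by
  unfold Th at h
  split_ifs at h with h0
  · exact (X_inj hA J b hb hfill m m' (neg_injective h)).symm
  · have hs' : 0 < s := lt_of_le_of_ne hs (Ne.symm h0)
    have h1 := smul_right_injective _ (inv_ne_zero h0) h
    obtain ⟨L⟩ := exists_leafData hA m
    obtain ⟨L'⟩ := exists_leafData hA m'
    have e : ∀ {n : HypMetric P} (L : LeafData n), L.z 0 = n.lin := by
      intro n L
      unfold LeafData.z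
      rw [L.zero]
    refine (calibrated hA L L' (s • b) (fun p => mul_nonneg hs (hb p)) (fun p => ?_) ?_).symm
    · obtain ⟨n, hn⟩ := hfill p
      exact ⟨n, mul_ne_zero h0 hn⟩
    · rw [z_eq_F hA J L, z_eq_F hA J L', e, e]
      have h2 : m.lin - J.F (m.lin, s • b) = m'.lin - J.F (m'.lin, s • b) := h1
      have h3 : J.F (m'.lin, s • b) - J.F (m.lin, s • b) = m'.lin - m.lin := by
        rw [sub_eq_sub_iff_add_eq_add] at h2 ⊢
        rw [add_comm, ← h2, add_comm]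
      exact h3

theorem Th_cont (hA : All P) (J : JS P) (b : Inv P) :
    ContinuousOn (fun x : P.W × ℝ => Th J b x.1 |x.2|) (LinSet P ×ˢ Set.univ) := by
  rintro ⟨v, s⟩ ⟨⟨m, hm⟩, -⟩
  have hm : m.lin = v := hm
  subst hm
  by_cases hs : s = 0
  · subst hs
    -- continuity at `s = 0`
    rw [ContinuousWithinAt, Metric.tendsto_nhdsWithin_nhds]
    intro ε hε
    obtain ⟨ρ, hρ, h⟩ := dq_cont J.F J.O J.open_O J.smooth b m.lin (J.mem m 0) ε hε
    refine ⟨ρ, hρ, ?_⟩
    rintro ⟨w, s⟩ ⟨⟨m', hm'⟩, -⟩ hdist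
    have hm' : m'.lin = w := hm'
    subst hm'
    rw [Prod.dist_eq, max_lt_iff] at hdist
    obtain ⟨hd1, hd2⟩ := hdist
    have hd2' : |s| < ρ := by simpa [Real.dist_eq] using hd2
    have h1 := h m'.lin s hd1 hd2' (F_zero hA J m')
    rw [dist_eq_norm]
    unfold Th
    rw [abs_zero, if_pos rfl]
    exact h1
  · -- continuity elsewhere
    have hs' : |s| ≠ 0 := abs_ne_zero.2 hs
    have hne : ∀ᶠ x in 𝓝[LinSet P ×ˢ Set.univ] ((m.lin, s) : P.W × ℝ), |x.2| ≠ 0 := by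
      have : ContinuousAt (fun x : P.W × ℝ => |x.2|) (m.lin, s) := by fun_prop
      exact (this.eventually_ne hs').filter_mono nhdsWithin_le_nhds
    have hF : ContinuousAt J.F (m.lin, |s| • b) :=
      (J.smooth.continuousOn).continuousAt (J.open_O.mem_nhds (J.mem m _))
    have hc : ContinuousAt (fun x : P.W × ℝ => ((x.1, |x.2| • b) : P.W × Inv P)) (m.lin, s) := by
      fun_prop
    have h1 : ContinuousAt (fun x : P.W × ℝ => J.F (x.1, |x.2| • b)) (m.lin, s) :=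
      ContinuousAt.comp (g := J.F) hF hc
    have h2 : ContinuousAt (fun x : P.W × ℝ => |x.2|⁻¹ • (x.1 - J.F (x.1, |x.2| • b)))
        (m.lin, s) := by
      have h3 : ContinuousAt (fun x : P.W × ℝ => |x.2|⁻¹) (m.lin, s) :=
        ContinuousAt.inv₀ (by fun_prop) hs'
      have h4 : ContinuousAt (fun x : P.W × ℝ => x.1 - J.F (x.1, |x.2| • b)) (m.lin, s) :=
        continuousAt_fst.sub h1
      exact h3.smul h4
    refine (h2.continuousWithinAt (s := LinSet P ×ˢ Set.univ)).congr_of_eventuallyEq ?_ ?_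
    · filter_upwards [hne] with x hx
      simp only [Th, if_neg hx]
    · simp only [Th, if_neg hs']

end Run7.h568.MC.Ex
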