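import Pool.Agent.Run7.h568.MC.Main2b
set_option linter.unusedSectionVars false

/-! Existence, main argument, third part: openness, closedness, conclusion. -/

namespace Run7.h568.MC.Ex

open Real Matrix Pattern Run7.h568.MC.Asm Topology

universe u

variable {V : Type u} [Fintype V] {P : Pattern V}

/-! ### estimates -/

theorem sum_ind_le (τ : Inv P) (p0 : V) (f : V → ℝ) (g : ℝ → ℝ) (hg : ∀ x, 0 ≤ g x)
    (hf : ∀ p, f p ≤ g ((τ : V → ℝ) p)) :
    ∑ p, (ind P p0 : V → ℝ) p * f p ≤ (Fintype.card V : ℝ) * g ((τ : V → ℝ) p0) := by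
  have : ∀ p ∈ Finset.univ, (ind P p0 : V → ℝ) p * f p ≤ g ((τ : V → ℝ) p0) := by
    intro p _
    by_cases hp : (ind P p0 : V → ℝ) p = 0
    · rw [hp, zero_mul]
      exact hg _
    · have e := inv_of_ind τ.2 hp
      have e2 := hf p
      rw [e] at e2
      calc (ind P p0 : V → ℝ) p * f p
          ≤ (ind P p0 : V → ℝ) p * (g ((τ : V → ℝ) p0)) :=
            mul_le_mul_of_nonneg_left e2 (ind_nonneg _ _)
        _ ≤ 1 * (g ((τ : V → ℝ) p0)) := mul_le_mul_of_nonneg_right (ind_le _ _) (hg _)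
        _ = _ := one_mul _
  refine (Finset.sum_le_sum this).trans (le_of_eq ?_)
  simp

theorem box' (hA : All P) (n : HypMetric P) (p0 : V) :
    ∑ p, (ind P p0 : V → ℝ) p * n.y p +
      ∑ p, (ind P p0 : V → ℝ) p * (n.w p - n.lZ (Sum.inl p)) =
      2 * ∑ p, (ind P p0 : V → ℝ) p * (Real.log (n.RR p) - Real.log (n.RR p - 1)) ∧
    ∑ p, (ind P p0 : V → ℝ) p * n.y p -
      ∑ p, (ind P p0 : V → ℝ) p * (n.w p - n.lZ (Sum.inl p)) =
      2 * ∑ p, (ind P p0 : V → ℝ) p * (Real.log (n.SS p + 1) - Real.log (n.SS p)) := by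
  obtain ⟨h1, h2, h3⟩ := hA.bx n (ind P p0) (ind P p0).2
  constructor
  · rw [← h2, ← Finset.sum_add_distrib]
    exact Finset.sum_congr rfl fun p _ => (mul_add _ _ _).symm
  · rw [← h3, ← Finset.sum_sub_distrib]
    exact Finset.sum_congr rfl fun p _ => (mul_sub _ _ _).symm

theorem est_pos (hA : All P) (n : HypMetric P) (p0 : V) :
    0 < ∑ p, (ind P p0 : V → ℝ) p * n.y p +
      ∑ p, (ind P p0 : V → ℝ) p * (n.w p - n.lZ (Sum.inl p)) ∧
    0 < ∑ p, (ind P p0 : V → ℝ) p * n.y p -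
      ∑ p, (ind P p0 : V → ℝ) p * (n.w p - n.lZ (Sum.inl p)) := by
  obtain ⟨h1, -, -⟩ := hA.bx n (ind P p0) (ind P p0).2
  rw [(box' hA n p0).1, (box' hA n p0).2]
  constructor
  · refine mul_pos two_pos (Finset.sum_pos' (fun p _ => ?_) ⟨p0, Finset.mem_univ _, ?_⟩)
    · refine mul_nonneg (ind_nonneg _ _) ?_
      have := (h1 p).1
      exact sub_nonneg.2 (Real.log_le_log (by linarith) (by linarith))
    · rw [ind_self, one_mul]
      have := (h1 p0).1
      exact sub_pos.2 (Real.log_lt_log (by linarith) (by linarith))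
  · refine mul_pos two_pos (Finset.sum_pos' (fun p _ => ?_) ⟨p0, Finset.mem_univ _, ?_⟩)
    · refine mul_nonneg (ind_nonneg _ _) ?_
      have := (h1 p).2.1
      exact sub_nonneg.2 (Real.log_le_log (by linarith) (by linarith))
    · rw [ind_self, one_mul]
      have := (h1 p0).2.1
      exact sub_pos.2 (Real.log_lt_log (by linarith) (by linarith))

theorem est_R (hA : All P) (n : HypMetric P) (K : ℝ) (hK : 0 < K) (τ : Inv P)
    (h : ∀ p, Real.exp ((τ : V → ℝ) p) ≤ K * n.EE p) (p0 : V) :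
    ∑ p, (ind P p0 : V → ℝ) p * n.y p +
      ∑ p, (ind P p0 : V → ℝ) p * (n.w p - n.lZ (Sum.inl p)) ≤
      2 * ((Fintype.card V : ℝ) * (K * Real.exp (-(τ : V → ℝ) p0))) := by
  obtain ⟨h1, -, -⟩ := hA.bx n (ind P p0) (ind P p0).2
  rw [(box' hA n p0).1]
  have hE : ∀ p, 0 < n.EE p := (hA.ga n).E_pos
  refine mul_le_mul_of_nonneg_left ?_ two_pos.le
  refine sum_ind_le τ p0 _ (fun x => K * Real.exp (-x))
    (fun x => mul_nonneg hK.le (Real.exp_pos _).le) fun p => ?_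
  obtain ⟨c1, c2, c3, c4⟩ := h1 p
  have hR : 0 < n.RR p - 1 := by linarith
  rw [← Real.log_div (by linarith) hR.ne']
  refine (Real.log_le_sub_one_of_pos (div_pos (by linarith) hR)).trans ?_
  have : n.RR p / (n.RR p - 1) - 1 = 1 / (n.RR p - 1) := by
    field_simp
    ring
  rw [this, Real.exp_neg, ← div_eq_mul_inv, div_le_div_iff₀ hR (Real.exp_pos _), one_mul]
  have := hE p
  refine (h p).trans (mul_le_mul_of_nonneg_left (by linarith) hK.le)

theorem est_S (hA : All P) (n : HypMetric P) (K : ℝ) (hK : 0 < K) (τ : Inv P)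
    (h : ∀ p, n.TT p ≤ K * Real.exp ((τ : V → ℝ) p)) (p0 : V) :
    ∑ p, (ind P p0 : V → ℝ) p * n.y p -
      ∑ p, (ind P p0 : V → ℝ) p * (n.w p - n.lZ (Sum.inl p)) ≤
      2 * ((Fintype.card V : ℝ) * (K * Real.exp ((τ : V → ℝ) p0))) := by
  obtain ⟨h1, -, -⟩ := hA.bx n (ind P p0) (ind P p0).2
  rw [(box' hA n p0).2]
  refine mul_le_mul_of_nonneg_left ?_ two_pos.le
  refine sum_ind_le τ p0 _ (fun x => K * Real.exp x)
    (fun x => mul_nonneg hK.le (Real.exp_pos _).le) fun p => ?_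
  obtain ⟨c1, c2, c3, c4⟩ := h1 p
  rw [← Real.log_div (by linarith) c2.ne']
  refine (Real.log_le_sub_one_of_pos (div_pos (by linarith) c2)).trans ?_
  have : (n.SS p + 1) / n.SS p - 1 = 1 / n.SS p := by
    field_simp
    ring
  rw [this]
  refine le_trans ?_ (h p)
  rw [div_le_iff₀ c2, mul_comm]
  exact c4.le

/-- the bound of the twist -/
theorem tau_bound (hA : All P) (J : JS P) (a : V → ℝ) (ha : ∀ p, 0 < a p) (b : Inv P)
    {m l r : HypMetric P} {τ : Inv P} {s : ℝ} (hs : 0 < s)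
    (h1 : RightQuake P τ l m) (h2 : RightQuake P (fun p => s * (b : V → ℝ) p) r l)
    (h3 : l.lin = (r.lZ, fun p => r.w p + s * a p)) (p0 : V) :
    s * a p0 ≤ 2 * ((Fintype.card V : ℝ) * (J.K m.lin * Real.exp (-(τ : V → ℝ) p0))) ∧
    s * a p0 ≤ 2 * ((Fintype.card V : ℝ) *
      (J.K m.lin * Real.exp ((τ : V → ℝ) p0 + s * (b : V → ℝ) p0))) := by
  obtain ⟨a1, ha1⟩ := leaf_of_rq hA h1
  have h4 : RightQuake P ((τ + s • b : Inv P) : V → ℝ) r m := rq_trans h1 h2
  obtain ⟨a2, ha2⟩ := leaf_of_rq hA h4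
  obtain ⟨-, hK, k1⟩ := J.leaf m l τ a1 ha1
  obtain ⟨-, -, k2⟩ := J.leaf m r (τ + s • b) a2 ha2
  have e1 := est_R hA l (J.K m.lin) hK τ (fun p => (k1 p).1) p0
  have e2 := est_S hA r (J.K m.lin) hK (τ + s • b) (fun p => (k2 p).2) p0
  -- lengths of `β` agree
  have hy : ∑ p, (ind P p0 : V → ℝ) p * r.y p = ∑ p, (ind P p0 : V → ℝ) p * l.y p := by
    obtain ⟨L⟩ := exists_leafData hA l
    have h2' : RightQuake P ((s • b : Inv P) : V → ℝ) r l := h2
    rw [L.quake r (s • b) h2']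
    exact z_y hA L (s • b) (ind P p0)
  have hl : l.lZ = r.lZ := congrArg Prod.fst h3
  have hw : l.w = fun p => r.w p + s * a p := congrArg Prod.snd h3
  have hq : ∑ p, (ind P p0 : V → ℝ) p * (l.w p - l.lZ (Sum.inl p)) =
      ∑ p, (ind P p0 : V → ℝ) p * (r.w p - r.lZ (Sum.inl p)) +
        s * ∑ p, (ind P p0 : V → ℝ) p * a p := by
    rw [Finset.mul_sum, ← Finset.sum_add_distrib]
    refine Finset.sum_congr rfl fun p _ => ?_
    rw [hl, hw]
    ring
  have hA0 : a p0 ≤ ∑ p, (ind P p0 : V → ℝ) p * a p := by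
    have := Finset.single_le_sum (f := fun p => (ind P p0 : V → ℝ) p * a p)
      (fun p _ => mul_nonneg (ind_nonneg p0 p) (ha p).le) (Finset.mem_univ p0)
    simpa [ind_self] using this
  have hA1 : s * a p0 ≤ s * ∑ p, (ind P p0 : V → ℝ) p * a p :=
    mul_le_mul_of_nonneg_left hA0 hs.le
  have p1 := (est_pos hA r p0).1
  have p2 := (est_pos hA l p0).2
  rw [hy] at p1 e2
  constructor
  · linarith
  · have e3 : ((τ + s • b : Inv P) : V → ℝ) p0 = (τ : V → ℝ) p0 + s * (b : V → ℝ) p0 := rfl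
    rw [e3] at e2
    linarith

/-- the set of solved times -/
def Sol (J : JS P) (W : Wt P) (s : ℝ) : Prop :=
  ∃ m : HypMetric P, Th J W.b m.lin |s| = ((0, W.a) : P.W)

theorem lin_mem (hA : All P) (m : HypMetric P) : m.lin ∈ W0 P :=
  (hA.lin1 _ (hA.ga _) (hA.gb _ (hA.ga _))).1

/-- openness -/
theorem open_part (hA : All P) (J : JS P) (hsurj : S_SURJ P) (hdom : S_DOM P)
    (hiod : S_IOD.{u}) (W : Wt P) : IsOpen {s : ℝ | Sol J W s} := by
  rw [isOpen_iff_mem_nhds]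
  rintro s0 ⟨m0, hm0⟩
  -- a projection onto `W0`
  obtain ⟨prj0, hprj0⟩ := LinearMap.exists_leftInverse_of_injective (W0 P).subtype
    (LinearMap.ker_eq_bot.2 (Submodule.subtype_injective _))
  let prj : P.W →L[ℝ] W0 P := LinearMap.toContinuousLinearMap prj0
  have hprj : ∀ v : W0 P, prj (v : P.W) = v := fun v => LinearMap.congr_fun hprj0 v
  let U : Set (W0 P × ℝ) := {x | (x.1 : P.W) ∈ Dom P}
  let f : W0 P × ℝ → W0 P × ℝ := fun x => (prj (Th J W.b (x.1 : P.W) |x.2|), x.2)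
  have hU : IsOpen U := hdom.1.preimage ((continuous_subtype_val).comp continuous_fst)
  have hlin : ∀ x ∈ U, ∃ m : HypMetric P, m.lin = (x.1 : P.W) := fun x hx =>
    hsurj _ x.1.2 hx
  have hc : ContinuousOn f U := by
    have h1 : ContinuousOn (fun x : W0 P × ℝ => (((x.1 : P.W), x.2) : P.W × ℝ)) U := by
      fun_prop
    have h2 : ContinuousOn (fun x : W0 P × ℝ => Th J W.b (x.1 : P.W) |x.2|) U :=
      (Th_cont hA J W.b).comp h1 fun x hx => ⟨hlin x hx, Set.mem_univ _⟩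
    exact (prj.continuous.comp_continuousOn h2).prodMk continuous_snd.continuousOn
  have hfill := fun p => fills_alpha W.b.2 W.fills p
  have hi : Set.InjOn f U := by
    rintro ⟨v, s⟩ hv ⟨v', s'⟩ hv' h
    obtain ⟨m, hm⟩ := hlin _ hv
    obtain ⟨m', hm'⟩ := hlin _ hv'
    have hm : m.lin = (v : P.W) := hm
    have hm' : m'.lin = (v' : P.W) := hm'
    have h1 : prj (Th J W.b (v : P.W) |s|) = prj (Th J W.b (v' : P.W) |s'|) := congrArg Prod.fst h
    have h2 : s = s' := congrArg Prod.snd h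
    subst h2
    rw [← hm, ← hm'] at h1
    have e1 := hprj ⟨_, Th_mem hA J W.b m |s|⟩
    have e2 := hprj ⟨_, Th_mem hA J W.b m' |s|⟩
    simp only at e1 e2
    rw [e1, e2] at h1
    have h3 : Th J W.b m.lin |s| = Th J W.b m'.lin |s| := congrArg Subtype.val h1
    have h4 := Th_inj hA J W.b W.b_nonneg hfill m m' |s| (abs_nonneg s) h3
    have h5 : v = v' := Subtype.ext (by rw [← hm, ← hm', h4])
    rw [h5]
  have hx0 : ((⟨m0.lin, lin_mem hA m0⟩, s0) : W0 P × ℝ) ∈ U := hdom.2.1 m0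
  have hmem := hiod (W0 P × ℝ) U f hU hc hi _ hx0
  have haW : ((0, W.a) : P.W) ∈ W0 P := a_mem W.a W.a_rho W.a_A
  have hf0 : f (⟨m0.lin, lin_mem hA m0⟩, s0) = (⟨((0, W.a) : P.W), haW⟩, s0) := by
    change (prj (Th J W.b m0.lin |s0|), s0) = _
    rw [hm0]
    exact Prod.ext (hprj ⟨_, haW⟩) rfl
  rw [hf0] at hmem
  have hg : Filter.Tendsto (fun s : ℝ => (((⟨((0, W.a) : P.W), haW⟩ : W0 P), s) : W0 P × ℝ))
      (𝓝 s0) (𝓝 (⟨((0, W.a) : P.W), haW⟩, s0)) :=
    (continuous_const.prodMk continuous_id).tendsto s0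
  filter_upwards [hg hmem] with s hs
  obtain ⟨⟨v, s'⟩, hv, hvs⟩ := hs
  obtain ⟨m, hm⟩ := hlin _ hv
  have hm : m.lin = (v : P.W) := hm
  have h1 : prj (Th J W.b (v : P.W) |s'|) = ⟨((0, W.a) : P.W), haW⟩ := congrArg Prod.fst hvs
  have h2 : s' = s := congrArg Prod.snd hvs
  subst h2
  refine ⟨m, ?_⟩
  rw [← hm] at h1
  have e1 := hprj ⟨_, Th_mem hA J W.b m |s'|⟩
  simp only at e1
  rw [e1] at h1
  exact congrArg Subtype.val h1

/-- closedness -/
theorem closed_part (hA : All P) (J : JS P) (hsurj : S_SURJ P) (hprop : S_PROP P)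
    (hapr : S_APR P) (W : Wt P) (δ : ℝ) (hδ : 0 < δ) :
    IsCompact {s : ℝ | s ∈ Set.Icc δ 1 ∧ Sol J W s} := by
  obtain ⟨K1, hK1⟩ := hapr W.a W.b W.a_pos W.a_rho W.a_A W.b.2 W.b_nonneg
  obtain ⟨C, hC, hCD, hCm⟩ := hprop W.a W.b W.a_pos W.a_rho W.a_A W.b.2 W.b_nonneg W.fills K1
  have hcl : IsClosed ((W0 P : Submodule ℝ P.W) : Set P.W) :=
    (W0 P).closed_of_finiteDimensional
  set C' : Set P.W := C ∩ (W0 P : Set P.W) with hC'
  have hCc : IsCompact C' := hC.inter_right hcl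
  have hCl : C' ⊆ LinSet P := fun v hv => hsurj v hv.2 (hCD hv.1)
  -- bound of `K`
  obtain ⟨M, hM⟩ := (hCc.image_of_continuousOn (J.contK.mono hCl)).bddAbove
  have hM' : ∀ v ∈ C', J.K v ≤ max M 1 := fun v hv => (hM ⟨v, hv, rfl⟩).trans (le_max_left _ _)
  set M' := max M 1 with hM'def
  have hM1 : 1 ≤ M' := le_max_right _ _
  -- lower bound of `a`
  obtain ⟨c, hc, hca⟩ : ∃ c : ℝ, 0 < c ∧ ∀ p, c ≤ W.a p := by
    have h0 : ∀ p, 0 < (W.a p)⁻¹ := fun p => inv_pos.2 (W.a_pos p)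
    have hs : 0 < ∑ p, (W.a p)⁻¹ + 1 := by
      have : 0 ≤ ∑ p, (W.a p)⁻¹ := Finset.sum_nonneg fun p _ => (h0 p).le
      linarith
    refine ⟨(∑ p, (W.a p)⁻¹ + 1)⁻¹, inv_pos.2 hs, fun p => ?_⟩
    rw [inv_le_comm₀ hs (W.a_pos p)]
    have := Finset.single_le_sum (f := fun p => (W.a p)⁻¹) (fun p _ => (h0 p).le)
      (Finset.mem_univ p)
    linarith
  set N : ℝ := 2 * ((Fintype.card V : ℝ) * M') with hN
  set B : ℝ := max (Real.log (N / (δ * c)) + ‖W.b‖) 0 with hB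
  have hδc : 0 < δ * c := mul_pos hδ hc
  -- the compact set
  set K3 : Set P.W := J.F '' (C' ×ˢ Metric.closedBall (0 : Inv P) B) with hK3
  have hsub : C' ×ˢ Metric.closedBall (0 : Inv P) B ⊆ J.O := by
    rintro ⟨v, τ⟩ ⟨hv, -⟩
    obtain ⟨m, hm⟩ := hCl hv
    have hm : m.lin = v := hm
    rw [← hm]
    exact J.mem m τ
  have : ProperSpace (Inv P) := FiniteDimensional.proper ℝ _
  have hK3c : IsCompact K3 :=
    (hCc.prod (isCompact_closedBall _ _)).image_of_continuousOn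
      (J.smooth.continuousOn.mono hsub)
  have hK3l : K3 ⊆ LinSet P := by
    rintro _ ⟨⟨v, τ⟩, ⟨hv, -⟩, rfl⟩
    obtain ⟨m, hm⟩ := hCl hv
    have hm : m.lin = v := hm
    obtain ⟨m', hm'⟩ := exists_rq hA m τ
    refine ⟨m', ?_⟩
    rw [← F_of_rq hA J hm', hm]
  -- the solutions
  let g : P.W × ℝ → P.W := fun x => x.1 - J.F (x.1, x.2 • W.b) - x.2 • ((0, W.a) : P.W)
  have hgc : ContinuousOn g (K3 ×ˢ Set.Icc δ 1) := by
    have h1 : ContinuousOn (fun x : P.W × ℝ => ((x.1, x.2 • W.b) : P.W × Inv P))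
        (K3 ×ˢ Set.Icc δ 1) := by fun_prop
    have h2 : ContinuousOn (fun x : P.W × ℝ => J.F (x.1, x.2 • W.b)) (K3 ×ˢ Set.Icc δ 1) := by
      refine J.smooth.continuousOn.comp h1 ?_
      rintro ⟨v, s⟩ ⟨hv, -⟩
      obtain ⟨m, hm⟩ := hK3l hv
      have hm : m.lin = v := hm
      simp only
      rw [← hm]
      exact J.mem m _
    exact (continuousOn_fst.sub h2).sub (continuousOn_snd.smul continuousOn_const)
  set Z : Set (P.W × ℝ) := (K3 ×ˢ Set.Icc δ 1) ∩ g ⁻¹' {0} with hZ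
  have hKI : IsCompact (K3 ×ˢ Set.Icc δ 1) := hK3c.prod isCompact_Icc
  have hZc : IsCompact Z :=
    hKI.of_isClosed_subset (hgc.preimage_isClosed_of_isClosed hKI.isClosed isClosed_singleton)
      Set.inter_subset_left
  have heq : {s : ℝ | s ∈ Set.Icc δ 1 ∧ Sol J W s} = Prod.snd '' Z := by
    ext s
    constructor
    · rintro ⟨hs, m, hm⟩
      have hspos : 0 < s := lt_of_lt_of_le hδ hs.1
      have habs : |s| = s := abs_of_pos hspos
      rw [habs] at hm
      unfold Th at hm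
      rw [if_neg hspos.ne'] at hm
      have hm2 : m.lin - J.F (m.lin, s • W.b) = s • ((0, W.a) : P.W) := by
        rw [← hm, smul_smul, mul_inv_cancel₀ hspos.ne', one_smul]
      obtain ⟨r, hr⟩ := exists_rq hA m (s • W.b)
      have hFr := F_of_rq hA J hr
      rw [hFr] at hm2
      have hlin : m.lin = (r.lZ, fun p => r.w p + s * W.a p) := by
        have h1 : m.lin = r.lin + s • ((0, W.a) : P.W) := by rw [← hm2]; abel
        rw [h1]
        refine Prod.ext ?_ ?_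
        · change r.lZ + s • (0 : P.Z → ℝ) = r.lZ
          simp
        · funext p
          rfl
      obtain ⟨m', τ, h1, h2⟩ := hK1 m r s hspos hs.2 hr hlin
      have hτ : τ ∈ Inv P := (hA.leafu.1 _ _ _ h1).1
      have hm'C : m'.lin ∈ C' := ⟨hCm m' h2, lin_mem hA m'⟩
      have hb := fun p0 => tau_bound hA J W.a W.a_pos W.b (τ := ⟨τ, hτ⟩) hspos h1 hr hlin p0
      have hKpos : 0 < J.K m'.lin := by
        obtain ⟨a1, ha1⟩ := leaf_of_rq hA (τ := ⟨τ, hτ⟩) h1
        exact (J.leaf m' m ⟨τ, hτ⟩ a1 ha1).2.1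
      have hKM := hM' _ hm'C
      have hτB : ‖(⟨τ, hτ⟩ : Inv P)‖ ≤ B := by
        change ‖τ‖ ≤ B
        rw [pi_norm_le_iff_of_nonneg (le_max_right _ _)]
        intro p0
        obtain ⟨b1, b2⟩ := hb p0
        change s * W.a p0 ≤ 2 * ((Fintype.card V : ℝ) * (J.K m'.lin * Real.exp (-τ p0))) at b1
        change s * W.a p0 ≤ 2 * ((Fintype.card V : ℝ) *
          (J.K m'.lin * Real.exp (τ p0 + s * (W.b : V → ℝ) p0))) at b2
        have hcard : (0 : ℝ) ≤ Fintype.card V := Nat.cast_nonneg _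
        have hcard1 : (0 : ℝ) < Fintype.card V := by
          exact_mod_cast Fintype.card_pos_iff.2 ⟨p0⟩
        have hsa : δ * c ≤ s * W.a p0 :=
          mul_le_mul hs.1 (hca p0) hc.le hspos.le
        have hgen : ∀ x : ℝ, s * W.a p0 ≤ 2 * ((Fintype.card V : ℝ) *
            (J.K m'.lin * Real.exp x)) → -Real.log (N / (δ * c)) ≤ x := by
          intro x hx
          have h3 : δ * c ≤ N * Real.exp x := by
            have h4 : 2 * ((Fintype.card V : ℝ) * (J.K m'.lin * Real.exp x)) ≤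
                2 * ((Fintype.card V : ℝ) * (M' * Real.exp x)) := by
              have := mul_le_mul_of_nonneg_right hKM (Real.exp_pos x).le
              have := mul_le_mul_of_nonneg_left this hcard
              linarith
            rw [hN]
            linarith
          have hNpos : 0 < N := by rw [hN]; positivity
          rw [← Real.log_inv, inv_div, Real.log_le_iff_le_exp (div_pos hδc hNpos),
            div_le_iff₀ hNpos]
          linarith
        have g1 := hgen _ b1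
        have g2 := hgen _ b2
        have hbb : s * (W.b : V → ℝ) p0 ≤ ‖W.b‖ := by
          have h5 : |(W.b : V → ℝ) p0| ≤ ‖W.b‖ := norm_le_pi_norm (W.b : V → ℝ) p0
          have h6 := le_abs_self ((W.b : V → ℝ) p0)
          have h7 := W.b_nonneg p0
          calc s * (W.b : V → ℝ) p0 ≤ 1 * (W.b : V → ℝ) p0 :=
                mul_le_mul_of_nonneg_right hs.2 h7
            _ ≤ ‖W.b‖ := by linarith
        have hn : 0 ≤ ‖W.b‖ := norm_nonneg _
        rw [Real.norm_eq_abs, abs_le]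
        constructor
        · refine le_trans (neg_le_neg (le_max_left _ _)) ?_
          linarith
        · refine le_trans ?_ (le_max_left _ _)
          linarith
      refine ⟨(m.lin, s), ⟨⟨?_, hs⟩, ?_⟩, rfl⟩
      · refine ⟨(m'.lin, ⟨τ, hτ⟩), ⟨hm'C, ?_⟩, F_of_rq hA J (τ := ⟨τ, hτ⟩) h1⟩
        rw [mem_closedBall_zero_iff]
        exact hτB
      · change m.lin - J.F (m.lin, s • W.b) - s • ((0, W.a) : P.W) = 0
        rw [hFr, hm2, sub_self]
    · rintro ⟨⟨v, s'⟩, ⟨⟨hv, hs⟩, hg⟩, rfl⟩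
      have hs' : s' ∈ Set.Icc δ 1 := hs
      refine ⟨hs', ?_⟩
      obtain ⟨m, hm⟩ := hK3l hv
      have hm : m.lin = v := hm
      refine ⟨m, ?_⟩
      have hspos : 0 < s' := lt_of_lt_of_le hδ hs'.1
      simp only
      rw [abs_of_pos hspos]
      unfold Th
      rw [if_neg hspos.ne', hm]
      have hg' : v - J.F (v, s' • W.b) - s' • ((0, W.a) : P.W) = 0 := hg
      rw [sub_eq_zero.1 hg', smul_smul, inv_mul_cancel₀ hspos.ne', one_smul]
  rw [heq]
  exact hZc.image continuous_snd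

/-- everything for the existence half -/
structure All2 (P : Pattern V) : Prop where
  base : All P
  surj : S_SURJ P
  dom : S_DOM P
  lq : S_LQ P
  js1 : S_JS1 P
  js2 : S_JS2 P
  prop : S_PROP P
  apr : S_APR P
  iod : S_IOD.{u}

theorem exists_core (h : All2 P) (W : Wt P) : Nonempty (Core P W.a W.b) := by
  have hA := h.base
  obtain ⟨J⟩ := exists_JS h.js2
  obtain ⟨m0, hm0⟩ := exists_base hA J h.surj h.dom h.js1 h.prop W
  have h0 : Sol J W 0 := by
    refine ⟨m0, ?_⟩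
    unfold Th
    rw [abs_zero, if_pos rfl, hm0, neg_neg]
  have hopen := open_part hA J h.surj h.dom h.iod W
  have hclosed : IsClosed ({s : ℝ | Sol J W s} ∩ Set.Icc 0 1) := by
    rw [← isSeqClosed_iff_isClosed]
    intro x s hx hs
    have hsI : s ∈ Set.Icc (0 : ℝ) 1 := isClosed_Icc.mem_of_tendsto hs
      (Filter.Eventually.of_forall fun n => (hx n).2)
    rcases eq_or_lt_of_le hsI.1 with h1 | h1
    · rw [← h1]
      exact ⟨h0, by simp⟩
    · refine ⟨?_, hsI⟩
      have hc := closed_part hA J h.surj h.prop h.apr W (s / 2) (by linarith)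
      have hev : ∀ᶠ n in Filter.atTop, x n ∈ {t : ℝ | t ∈ Set.Icc (s / 2) 1 ∧ Sol J W t} := by
        have h2 : ∀ᶠ n in Filter.atTop, s / 2 < x n := hs.eventually_const_lt (by linarith)
        filter_upwards [h2] with n hn
        exact ⟨⟨hn.le, (hx n).2.2⟩, (hx n).1⟩
      exact (hc.isClosed.mem_of_tendsto hs hev).2
  have hall := hclosed.Icc_subset_of_forall_mem_nhdsWithin h0 (fun x hx =>
    mem_nhdsWithin_of_mem_nhds (hopen.mem_nhds hx.1))
  obtain ⟨m, hm⟩ := hall (show (1 : ℝ) ∈ Set.Icc (0 : ℝ) 1 by simp)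
  rw [abs_one] at hm
  unfold Th at hm
  rw [if_neg one_ne_zero, inv_one, one_smul, one_smul] at hm
  obtain ⟨r, hr⟩ := exists_rq hA m W.b
  rw [F_of_rq hA J hr] at hm
  have hlin : m.lin = (r.lZ, fun p => r.w p + W.a p) := by
    have h1 : m.lin = r.lin + ((0, W.a) : P.W) := by rw [← hm]; abel
    rw [h1]
    refine Prod.ext ?_ rfl
    change r.lZ + (0 : P.Z → ℝ) = r.lZ
    simp
  exact ⟨⟨m, r, h.lq r m W.a W.a_rho hlin, hr⟩⟩

end Run7.h568.MC.Ex
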