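import Pool.Agent.Run7.h568.MC.Main2c
import Pool.Agent.Run7.h568.MC.Final4
import Pool.Agent.Run7.h350.MC.JS2
import Pool.Agent.Run7.h467.MC.DOM
import Pool.Agent.Run7.h590.MC.JS1
import Pool.Agent.Run7.h590.MC.REF
import Pool.Agent.Run7.h688.MC.IOD
import Pool.Agent.Run7.h688.MC.PROP
import Pool.Agent.Run7.h705.MC.SURJ3

set_option linter.unusedSectionVars false

/-! Existence: assembly. -/

namespace Run7.h568.MC.Ex

open Real Matrix Pattern

universe u

variable {V : Type u} [Fintype V] {P : Pattern V}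

theorem js1 (P : Pattern V) : S_JS1 P := Run7.h590.MC.js1 (GA P) (gb P) LIN1

theorem dom (P : Pattern V) : S_DOM P := Run7.h568.MC.dom P

theorem surj (P : Pattern V) : S_SURJ P := Run7.h705.MC.surj

theorem js2 (P : Pattern V) : S_JS2 P := Run7.h350.MC.js2 (Asm.all P) (dom P) (js1 P)

theorem ref (P : Pattern V) : S_REF P := Run7.h590.MC.ref (GA P) (gb P) LIN1 (surj P) (dom P)

theorem prop (P : Pattern V) : S_PROP P := Run7.h688.MC.prop P

theorem iod : S_IOD.{u} := Run7.h688.MC.iod

theorem all2 (P : Pattern V) (hlq : S_LQ P) (hapr : S_APR P) : All2 P where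
  base := Asm.all P
  surj := surj P
  dom := dom P
  lq := hlq
  js1 := js1 P
  js2 := js2 P
  prop := prop P
  apr := hapr
  iod := iod

end Run7.h568.MC.Ex
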