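import Pool.Agent.Run7.h568.MC.Main2d
import Pool.Agent.Run7.h705.MC.LQ
import Pool.Agent.Run7.h590.MC.APR

set_option linter.unusedSectionVars false

/-! Existence and uniqueness. -/

namespace Run7.h568.MC.Ex

open Real Matrix Pattern

universe u

variable {V : Type u} [Fintype V] {P : Pattern V}

theorem lq (P : Pattern V) : S_LQ P := Run7.h705.MC.lq

theorem apr (P : Pattern V) : S_APR P := Run7.h590.MC.apr (Asm.all P) (ref P)

/-- **Existence and uniqueness.** -/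
theorem exactly_one (a b : V → ℝ) (ha : ∀ p, 0 < a p)
    (ha1 : ∀ p, a (P.rho p) = a p) (ha2 : ∀ p, a (P.A p) = a p) (hb : ∀ p, 0 ≤ b p)
    (hb1 : ∀ p, b (P.rho p) = b p) (hb2 : ∀ p, b (P.B p) = b p) (hfill : Fills P b) :
    ∃! m : HypMetric P × HypMetric P, LeftQuake P a m.2 m.1 ∧ RightQuake P b m.2 m.1 := by
  have hbI : b ∈ Inv P := ⟨hb1, hb2⟩
  have hall : All2 P := all2 P (lq P) (apr P)
  obtain ⟨C⟩ := exists_core hall ⟨a, ⟨b, hbI⟩, ha, ha1, ha2, hb, hfill⟩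
  refine ⟨(C.left, C.right), ⟨C.leftQuake, C.rightQuake⟩, ?_⟩
  rintro ⟨l, r⟩ ⟨h1, h2⟩
  obtain ⟨e1, e2⟩ := Asm.core_unique a b (Or.inl hb) (fills_alpha hbI hfill) ⟨l, r, h1, h2⟩ C
  exact Prod.ext e1 e2

end Run7.h568.MC.Ex
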