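import Pool.Agent.Run7.h568.MC.Iface
import Pool.Agent.Run7.h568.Basic

/-!
# Piece OCTL: the lines through opposite `α`-sides of an octagon
-/

namespace Run7.h568.MC

open Real Matrix Pattern

theorem det_T (x : ℝ) : (T x).det = 1 := by
  unfold T
  rw [Matrix.det_fin_two]
  simp [← Real.exp_add]

theorem det_R (x : ℝ) : (R x).det = 1 := by
  unfold R
  rw [Matrix.det_fin_two]
  simp only [Matrix.of_apply, Matrix.cons_val', Matrix.cons_val_zero, Matrix.cons_val_one,
    Matrix.cons_val_fin_one]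
  have := Real.sin_sq_add_cos_sq (x / 2)
  linarith

theorem IsLeft.T_mul {M : Matrix (Fin 2) (Fin 2) ℝ} (h : IsLeft M) (x : ℝ) : IsLeft (T x * M) := by
  obtain ⟨h1, h2, h3, h4⟩ := h
  have e1 := Real.exp_pos (x / 2)
  have e2 := Real.exp_pos (-(x / 2))
  refine ⟨?_, ?_, ?_, ?_⟩ <;>
    simp only [T, Matrix.mul_apply, Fin.sum_univ_two, Matrix.of_apply, Matrix.cons_val',
      Matrix.cons_val_zero, Matrix.cons_val_one, Matrix.cons_val_fin_one, zero_mul, add_zero,
      zero_add]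
  · exact mul_pos e1 h1
  · exact mul_pos e1 h2
  · exact mul_neg_of_pos_of_neg e2 h3
  · exact mul_neg_of_pos_of_neg e2 h4

theorem IsLeft.mul_T {M : Matrix (Fin 2) (Fin 2) ℝ} (h : IsLeft M) (x : ℝ) : IsLeft (M * T x) := by
  obtain ⟨h1, h2, h3, h4⟩ := h
  have e1 := Real.exp_pos (x / 2)
  have e2 := Real.exp_pos (-(x / 2))
  refine ⟨?_, ?_, ?_, ?_⟩ <;>
    simp only [T, Matrix.mul_apply, Fin.sum_univ_two, Matrix.of_apply, Matrix.cons_val',
      Matrix.cons_val_zero, Matrix.cons_val_one, Matrix.cons_val_fin_one, mul_zero, add_zero,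
      zero_add]
  · exact mul_pos h1 e1
  · exact mul_pos h2 e2
  · exact mul_neg_of_neg_of_pos h3 e1
  · exact mul_neg_of_neg_of_pos h4 e2

theorem IsLeft.vec0 {M : Matrix (Fin 2) (Fin 2) ℝ} (h : IsLeft M) {u v : ℝ} (hu : 0 < u)
    (hv : 0 < v) : 0 < M 0 0 * u + M 0 1 * v :=
  add_pos (mul_pos h.1 hu) (mul_pos h.2.1 hv)

theorem IsLeft.vec1 {M : Matrix (Fin 2) (Fin 2) ℝ} (h : IsLeft M) {u v : ℝ} (hu : 0 < u)
    (hv : 0 < v) : M 1 0 * u + M 1 1 * v < 0 :=
  add_neg (mul_neg_of_neg_of_pos h.2.2.1 hu) (mul_neg_of_neg_of_pos h.2.2.2 hv)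

/-- if `K * H = -1` with `H` left of determinant one, then `K` is left -/
theorem IsLeft.of_mul_eq_neg_one {K H : Matrix (Fin 2) (Fin 2) ℝ} (hH : IsLeft H)
    (hd : H.det = 1) (h : K * H = -1) : IsLeft K := by
  have e : K = -H.adjugate := by
    have h1 : K * H * H.adjugate = K := by
      rw [Matrix.mul_assoc, Matrix.mul_adjugate, hd, one_smul, Matrix.mul_one]
    rw [← h1, h, neg_one_mul]
  obtain ⟨h1, h2, h3, h4⟩ := hH
  rw [e, Matrix.adjugate_fin_two]
  refine ⟨?_, ?_, ?_, ?_⟩ <;> simp <;> assumption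

namespace HypMetric

variable {V : Type*} {P : Pattern V} (m : HypMetric P)

theorem cos_half_pos (p : V) : 0 < Real.cos (m.θ p / 2) :=
  Real.cos_pos_of_mem_Ioo ⟨by linarith [m.θ_pos p, Real.pi_pos], by linarith [m.θ_lt p]⟩

theorem sin_half_pos (p : V) : 0 < Real.sin (m.θ p / 2) :=
  Real.sin_pos_of_pos_of_lt_pi (by linarith [m.θ_pos p]) (by linarith [m.θ_lt p, Real.pi_pos])

/-- the first column of `R θ` through `cross` -/
theorem cross_vec (q : V) :
    cross P m.x m.θ q 0 0 * sin (m.θ (P.iota q) / 2) + cross P m.x m.θ q 0 1 * cos (m.θ (P.iota q) / 2)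
      = exp (m.x q / 2) * R (m.θ q) 0 0 ∧
    cross P m.x m.θ q 1 0 * sin (m.θ (P.iota q) / 2) + cross P m.x m.θ q 1 1 * cos (m.θ (P.iota q) / 2)
      = exp (m.x q / 2) * R (m.θ q) 1 0 := by
  unfold cross
  rw [RTR_G]
  have h := Real.sin_sq_add_cos_sq (m.θ (P.iota q) / 2)
  simp only [R, Matrix.of_apply, Matrix.cons_val', Matrix.cons_val_zero, Matrix.cons_val_one,
    Matrix.cons_val_fin_one]
  constructor
  · linear_combination (cos (m.θ q / 2) * exp (m.x q / 2)) * h
  · linear_combination (-(sin (m.θ q / 2) * exp (m.x q / 2))) * h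

end HypMetric

theorem side_mul_side {V : Type*} (P : Pattern V) (m : HypMetric P) (p : V) :
    side P m.x m.y m.θ p * side P m.x m.y m.θ (P.tau p) =
      R (-m.θ p) * (cross P m.x m.θ p * T (m.y (P.iota p)) * cross P m.x m.θ (P.tau p) *
        T (m.y (P.iota (P.tau p)))) * R (m.θ (P.tau (P.tau p))) := by
  have e : R (-m.θ p) * R (m.θ p) = 1 := by rw [R_mul, neg_add_cancel, R_zero]
  unfold side cross
  calc _ = (1 : Matrix (Fin 2) (Fin 2) ℝ) * (T (m.x p) * (R (π - m.θ (P.iota p)) *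
        T (m.y (P.iota p)) * R (m.θ (P.tau p)))) *
        (T (m.x (P.tau p)) * (R (π - m.θ (P.iota (P.tau p))) * T (m.y (P.iota (P.tau p))) *
          R (m.θ (P.tau (P.tau p))))) := by rw [Matrix.one_mul]
    _ = _ := by rw [← e]; simp only [Matrix.mul_assoc]

theorem OCTL {V : Type*} [Fintype V] (P : Pattern V) : S_OCTL P := by
  intro m p hp
  set S := side P m.x m.y m.θ p * side P m.x m.y m.θ (P.tau p) with hS
  set q := P.tau (P.tau p) with hq
  -- the three left matrices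
  have L1 : IsLeft (T (m.y (P.iota p)) * cross P m.x m.θ (P.tau p) *
      T (m.y (P.iota (P.tau p)))) := ((m.beta_left (P.tau p)).T_mul _).mul_T _
  have L2 : IsLeft (T (m.y (P.iota p)) * (cross P m.x m.θ (P.tau p) *
      T (m.y (P.iota (P.tau p))) * cross P m.x m.θ q)) :=
    (m.beta_left_oct (P.tau p) (P.oct_tau.2 hp)).T_mul _
  have L3 : IsLeft (cross P m.x m.θ p * T (m.y (P.iota p)) * cross P m.x m.θ (P.tau p) *
      T (m.y (P.iota (P.tau p)))) := (m.beta_left_oct p hp).mul_T _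
  have L4 : IsLeft (cross P m.x m.θ p * T (m.y (P.iota p)) * cross P m.x m.θ (P.tau p) *
      T (m.y (P.iota (P.tau p))) * cross P m.x m.θ q) := by
    refine IsLeft.of_mul_eq_neg_one (H := T (m.y (P.iota q)) * cross P m.x m.θ (P.tau q) *
      T (m.y (P.iota (P.tau q)))) (((m.beta_left (P.tau q)).T_mul _).mul_T _) ?_ ?_
    · unfold cross
      simp only [Matrix.det_mul, det_T, det_R, mul_one]
    · have h := m.closes_oct p hp
      rw [Matrix.mul_assoc, side_mul_side, side_mul_side] at h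
      have e4 : P.tau (P.tau (P.tau (P.tau p))) = p := hp.1
      rw [e4] at h
      have e1 : R (m.θ p) * R (-m.θ p) = 1 := by rw [R_mul, add_neg_cancel, R_zero]
      have e2 : R (m.θ q) * R (-m.θ q) = 1 := by rw [R_mul, add_neg_cancel, R_zero]
      have h2 := congrArg (fun M : Matrix (Fin 2) (Fin 2) ℝ => R (m.θ p) * M * R (-m.θ p)) h
      beta_reduce at h2
      have h3 : R (m.θ p) * (-1 : Matrix (Fin 2) (Fin 2) ℝ) * R (-m.θ p) = -1 := by
        rw [mul_neg, mul_one, neg_mul, e1]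
      rw [h3] at h2
      rw [← h2, ← hq]
      calc _ = (R (m.θ p) * R (-m.θ p)) * (cross P m.x m.θ p * T (m.y (P.iota p)) *
              cross P m.x m.θ (P.tau p) * T (m.y (P.iota (P.tau p)))) *
              (R (m.θ q) * R (-m.θ q)) *
              (cross P m.x m.θ q * T (m.y (P.iota q)) * cross P m.x m.θ (P.tau q) *
              T (m.y (P.iota (P.tau q)))) * (R (m.θ p) * R (-m.θ p)) := by
              rw [e1, e2]
              simp only [Matrix.mul_one, Matrix.one_mul, Matrix.mul_assoc]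
        _ = _ := by simp only [Matrix.mul_assoc]
  have c0 := m.cos_half_pos p
  have s0 := m.sin_half_pos p
  have ci := m.cos_half_pos (P.iota p)
  have si := m.sin_half_pos (P.iota p)
  have cq := m.cos_half_pos q
  have sq := m.sin_half_pos q
  have cqi := m.cos_half_pos (P.iota q)
  have sqi := m.sin_half_pos (P.iota q)
  have hx := Real.exp_pos (m.x p / 2)
  have hx' := Real.exp_pos (-(m.x p / 2))
  have hxq := Real.exp_pos (m.x q / 2)
  obtain ⟨v0, v1⟩ := m.cross_vec q
  -- the action of a left matrix on the columns of `R (θ q)`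
  have col1 : ∀ M : Matrix (Fin 2) (Fin 2) ℝ, IsLeft M →
      0 < (M * R (m.θ q)) 0 1 ∧ (M * R (m.θ q)) 1 1 < 0 := by
    intro M hM
    have a := hM.vec0 sq cq
    have b := hM.vec1 sq cq
    simp only [Matrix.mul_apply, Fin.sum_univ_two, R, Matrix.of_apply, Matrix.cons_val',
      Matrix.cons_val_zero, Matrix.cons_val_one, Matrix.cons_val_fin_one]
    exact ⟨a, b⟩
  have col0 : ∀ M : Matrix (Fin 2) (Fin 2) ℝ, IsLeft (M * cross P m.x m.θ q) →
      0 < (M * R (m.θ q)) 0 0 ∧ (M * R (m.θ q)) 1 0 < 0 := by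
    intro M hM
    have a := hM.vec0 sqi cqi
    have b := hM.vec1 sqi cqi
    simp only [Matrix.mul_apply, Fin.sum_univ_two] at a b ⊢
    constructor
    · refine pos_of_mul_pos_right (a := exp (m.x q / 2)) ?_ hxq.le
      have e : exp (m.x q / 2) * (M 0 0 * R (m.θ q) 0 0 + M 0 1 * R (m.θ q) 1 0) =
          M 0 0 * (exp (m.x q / 2) * R (m.θ q) 0 0) + M 0 1 * (exp (m.x q / 2) * R (m.θ q) 1 0) := by
        ring
      rw [e, ← v0, ← v1]
      linarith
    · refine neg_of_mul_neg_right (a := exp (m.x q / 2)) ?_ hxq.le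
      have e : exp (m.x q / 2) * (M 1 0 * R (m.θ q) 0 0 + M 1 1 * R (m.θ q) 1 0) =
          M 1 0 * (exp (m.x q / 2) * R (m.θ q) 0 0) + M 1 1 * (exp (m.x q / 2) * R (m.θ q) 1 0) := by
        ring
      rw [e, ← v0, ← v1]
      linarith
  -- second form of `S`
  have S2 : S = (T (m.x p) * R (π - m.θ (P.iota p))) * ((T (m.y (P.iota p)) *
      cross P m.x m.θ (P.tau p) * T (m.y (P.iota (P.tau p)))) * R (m.θ q)) := by
    rw [hS]
    unfold side cross
    simp only [Matrix.mul_assoc]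
    rfl
  have S1 : S = R (-m.θ p) * ((cross P m.x m.θ p * T (m.y (P.iota p)) *
      cross P m.x m.θ (P.tau p) * T (m.y (P.iota (P.tau p)))) * R (m.θ q)) := by
    rw [hS, side_mul_side, Matrix.mul_assoc]
  have D10 : (T (m.x p) * R (π - m.θ (P.iota p))) 1 0 < 0 := by
    have h : (π - m.θ (P.iota p)) / 2 = π / 2 - m.θ (P.iota p) / 2 := by ring
    simp only [Matrix.mul_apply, Fin.sum_univ_two, R, T, h, Real.sin_pi_div_two_sub,
      Real.cos_pi_div_two_sub, Matrix.of_apply, Matrix.cons_val',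
      Matrix.cons_val_zero, Matrix.cons_val_one, Matrix.cons_val_fin_one]
    have := mul_pos hx' ci
    linarith
  have D11 : 0 < (T (m.x p) * R (π - m.θ (P.iota p))) 1 1 := by
    have h : (π - m.θ (P.iota p)) / 2 = π / 2 - m.θ (P.iota p) / 2 := by ring
    simp only [Matrix.mul_apply, Fin.sum_univ_two, R, T, h, Real.sin_pi_div_two_sub,
      Real.cos_pi_div_two_sub, Matrix.of_apply, Matrix.cons_val',
      Matrix.cons_val_zero, Matrix.cons_val_one, Matrix.cons_val_fin_one]
    have := mul_pos hx' si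
    linarith
  have R00 : R (-m.θ p) 0 0 = cos (m.θ p / 2) := by
    simp [R, neg_div]
  have R01 : R (-m.θ p) 0 1 = -sin (m.θ p / 2) := by
    simp [R, neg_div]
  have L2' : IsLeft (T (m.y (P.iota p)) * cross P m.x m.θ (P.tau p) *
      T (m.y (P.iota (P.tau p))) * cross P m.x m.θ q) := by
    have := L2
    simp only [← Matrix.mul_assoc] at this
    exact this
  obtain ⟨a0, a1⟩ := col0 _ L2'
  obtain ⟨b0, b1⟩ := col1 _ L1
  obtain ⟨d0, d1⟩ := col0 _ L4
  obtain ⟨f0, f1⟩ := col1 _ L3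
  refine ⟨?_, ?_, ?_, ?_⟩
  · rw [S1, Matrix.mul_apply, Fin.sum_univ_two, R00, R01]
    have := mul_pos c0 d0
    have := mul_neg_of_pos_of_neg s0 d1
    linarith
  · rw [S1, Matrix.mul_apply, Fin.sum_univ_two, R00, R01]
    have := mul_pos c0 f0
    have := mul_neg_of_pos_of_neg s0 f1
    linarith
  · rw [S2, Matrix.mul_apply, Fin.sum_univ_two]
    exact add_neg (mul_neg_of_neg_of_pos D10 a0) (mul_neg_of_pos_of_neg D11 a1)
  · rw [S2, Matrix.mul_apply, Fin.sum_univ_two]
    exact add_neg (mul_neg_of_neg_of_pos D10 b0) (mul_neg_of_pos_of_neg D11 b1)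

end Run7.h568.MC
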